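import Mathlib

/-! Singular cohomology with coefficients in a commutative ring, and the Borel construction of the
stack `X_n` of torsion sheaves of length `n` on the projective line over `ℂ`.

A torsion sheaf `F` of length `n` has the resolution
`0 → O(-1) ⊗ H⁰(F(-1)) → O ⊗ H⁰(F) → F → 0`; after a choice of bases of the two spaces of dimension
`n` the first map is `x A + y B` for two matrices `A`, `B` with `det (x A + y B)` not identically
zero, and every such pair gives a torsion sheaf of length `n`.  So `X_n` is the quotient stack
`[Y / GL_n × GL_n]`, with `Y` the space `Pencil (Fin n)` of regular pencils and `(g, h)` acting by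
`(A, B) ↦ (g A h⁻¹, g B h⁻¹)`. -/

namespace Pool.Agent.Helper438.Sc

universe u v w

section Singular

/-- Singular `n`-simplices of a space `X`: continuous maps from the standard `n`-simplex. -/
abbrev Sing (X : Type u) [TopologicalSpace X] (n : ℕ) : Type u :=
  C(stdSimplex ℝ (Fin (n + 1)), X)

/-- The `i`-th face of a singular `(n+1)`-simplex: precomposition with the affine inclusion of the
standard `n`-simplex as the face opposite to the `i`-th vertex. -/
noncomputable def sface {X : Type u} [TopologicalSpace X] (n : ℕ) (i : Fin (n + 2))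
    (σ : Sing X (n + 1)) : Sing X n :=
  σ.comp ⟨stdSimplex.map i.succAbove, stdSimplex.continuous_map _⟩

/-- The alternating coboundary: for a family `S n` of sets of simplices with face maps
`face n i : S (n+1) → S n` (`i = 0, …, n+1`), the map sending `f : S n → k` to
`σ ↦ ∑ i, (-1)^i * f (face n i σ)`. -/
def altd (k : Type u) [CommRing k] {S : ℕ → Type v} (face : ∀ n, Fin (n + 2) → S (n + 1) → S n)
    (n : ℕ) : (S n → k) →ₗ[k] (S (n + 1) → k) where
  toFun f σ := ∑ i : Fin (n + 2), (-1 : k) ^ (i : ℕ) * f (face n i σ)
  map_add' f g := by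
    funext σ
    simp only [Pi.add_apply, mul_add, Finset.sum_add_distrib]
  map_smul' c f := by
    funext σ
    simp only [Pi.smul_apply, smul_eq_mul, RingHom.id_apply, Finset.mul_sum]
    refine Finset.sum_congr rfl fun i _ => ?_
    ring

/-- Singular `n`-cocycles of `X` with coefficients in `k`: functions on the singular simplices
killed by the alternating coboundary. -/
noncomputable def cocycles (k : Type v) [CommRing k] (X : Type u) [TopologicalSpace X] (n : ℕ) :
    Submodule k (Sing X n → k) :=
  LinearMap.ker (altd k (sface (X := X)) n)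

/-- Singular `n`-coboundaries: zero in degree `0`, the range of the coboundary in degree `n+1`. -/
noncomputable def coboundaries (k : Type v) [CommRing k] (X : Type u) [TopologicalSpace X] :
    ∀ n : ℕ, Submodule k (Sing X n → k)
  | 0 => ⊥
  | (n + 1) => LinearMap.range (altd k (sface (X := X)) n)

/-- Singular cohomology `H^n(X; k)`: cocycles modulo coboundaries. -/
def SingularCohomology (k : Type v) [CommRing k] (X : Type u) [TopologicalSpace X] (n : ℕ) :
    Type (max u v) :=
  cocycles k X n ⧸ (coboundaries k X n).submoduleOf (cocycles k X n)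

noncomputable instance (k : Type v) [CommRing k] (X : Type u) [TopologicalSpace X] (n : ℕ) :
    AddCommGroup (SingularCohomology k X n) :=
  Submodule.Quotient.addCommGroup ((coboundaries k X n).submoduleOf (cocycles k X n))

noncomputable instance (k : Type v) [CommRing k] (X : Type u) [TopologicalSpace X] (n : ℕ) :
    Module k (SingularCohomology k X n) :=
  Submodule.Quotient.module ((coboundaries k X n).submoduleOf (cocycles k X n))

end Singular

section Pencils

variable {ι : Type} [Fintype ι] [DecidableEq ι]

/-- the matrix pencil `x A + y B` is regular: its determinant is not identically zero -/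
def Regular (A B : Matrix ι ι ℂ) : Prop := ∃ x y : ℂ, (x • A + y • B).det ≠ 0

variable (ι)

/-- the space `Y` of regular pencils -/
def Pencil : Type := {p : Matrix ι ι ℂ × Matrix ι ι ℂ // Regular p.1 p.2}

instance : TopologicalSpace (Pencil ι) := inferInstanceAs (TopologicalSpace (Subtype _))

/-- spanning sequences of vectors of `ℂ^ι` (equivalently: linear maps of the direct sum of
countably many copies of `ℂ` onto `ℂ^ι`) -/
def Frame : Type := {s : ℕ → ι → ℂ // Submodule.span ℂ (Set.range s) = ⊤}

instance : TopologicalSpace (Frame ι) := inferInstanceAs (TopologicalSpace (Subtype _))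

/-- the general linear group -/
abbrev GLi : Type := (Matrix ι ι ℂ)ˣ

/-- the total space `Y × (E × E)` -/
abbrev Tot : Type := Pencil ι × (Frame ι × Frame ι)

variable {ι}

/-- `q` is the image of `p` under `(g, h)`: the pencil `(A, B)` goes to `(g A h⁻¹, g B h⁻¹)`, the
first sequence `s` to `h s` and the second sequence `s'` to `g s'` -/
def ActRel (g h : GLi ι) (p q : Tot ι) : Prop :=
  q.1.1.1 = (g : Matrix ι ι ℂ) * p.1.1.1 * (h⁻¹ : GLi ι) ∧
  q.1.1.2 = (g : Matrix ι ι ℂ) * p.1.1.2 * (h⁻¹ : GLi ι) ∧
  (∀ i, q.2.1.1 i = (h : Matrix ι ι ℂ).mulVec (p.2.1.1 i)) ∧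
  (∀ i, q.2.2.1 i = (g : Matrix ι ι ℂ).mulVec (p.2.2.1 i))

variable (ι)

/-- the orbit equivalence relation of `GL × GL` on `Y × (E × E)` -/
def orbitSetoid : Setoid (Tot ι) where
  r p q := ∃ g h : GLi ι, ActRel g h p q
  iseqv := by
    refine ⟨fun p => ⟨1, 1, ?_⟩, ?_, ?_⟩
    · simp [ActRel]
    · rintro p q ⟨g, h, h1, h2, h3, h4⟩
      refine ⟨g⁻¹, h⁻¹, ?_, ?_, ?_, ?_⟩
      · rw [h1]
        simp [mul_assoc]
      · rw [h2]
        simp [mul_assoc]
      · intro i
        rw [h3 i, Matrix.mulVec_mulVec]
        simp
      · intro i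
        rw [h4 i, Matrix.mulVec_mulVec]
        simp
    · rintro p q r ⟨g, h, h1, h2, h3, h4⟩ ⟨g', h', k1, k2, k3, k4⟩
      refine ⟨g' * g, h' * h, ?_, ?_, ?_, ?_⟩
      · rw [k1, h1]
        simp [mul_assoc]
      · rw [k2, h2]
        simp [mul_assoc]
      · intro i
        rw [k3 i, h3 i, Matrix.mulVec_mulVec]
        simp
      · intro i
        rw [k4 i, h4 i, Matrix.mulVec_mulVec]
        simp

/-- the Borel construction `(E × E) ×_{GL × GL} Y` -/
def Borel : Type := Quotient (orbitSetoid ι)

instance : TopologicalSpace (Borel ι) := inferInstanceAs (TopologicalSpace (Quotient _))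

end Pencils

end Pool.Agent.Helper438.Sc
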