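import Pool.Agent.Helper438.Sc.Defs

/-! Cohomology of a sequence of linear maps, and comparison lemmas. -/

namespace Pool.Agent.Helper438.Sc

universe u v w

section Coh

variable (k : Type u) [CommRing k]

/-- The submodule of coboundaries of a sequence of linear maps `d n : C n → C (n+1)`:
zero in degree `0`, and the range of `d n` in degree `n + 1`. -/
def cobound (C : ℕ → Type v) [∀ n, AddCommGroup (C n)] [∀ n, Module k (C n)]
    (d : ∀ n, C n →ₗ[k] C (n + 1)) : ∀ n, Submodule k (C n)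
  | 0 => ⊥
  | (n + 1) => LinearMap.range (d n)

/-- The `n`-th cohomology module `ker (d n) / im (d (n-1))` of a sequence of linear maps. -/
abbrev Coh (C : ℕ → Type v) [∀ n, AddCommGroup (C n)] [∀ n, Module k (C n)]
    (d : ∀ n, C n →ₗ[k] C (n + 1)) (n : ℕ) : Type v :=
  (LinearMap.ker (d n)) ⧸ (cobound k C d n).comap (LinearMap.ker (d n)).subtype

end Coh

section Corr

variable {k : Type u} [CommRing k]

/-- A linear relation inducing a bijection between subquotients. -/
theorem corr {X : Type v} {Y : Type w} [AddCommGroup X] [Module k X] [AddCommGroup Y] [Module k Y]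
    (ZX BX : Submodule k X) (ZY BY : Submodule k Y) (P : Submodule k (X × Y))
    (h1 : ∀ x ∈ ZX, ∃ y ∈ ZY, (x, y) ∈ P)
    (h2 : ∀ y ∈ ZY, ∃ x ∈ ZX, (x, y) ∈ P)
    (h3 : ∀ x ∈ ZX, ∀ y ∈ ZY, (x, y) ∈ P → (x ∈ BX ↔ y ∈ BY)) :
    Nonempty ((ZX ⧸ BX.comap ZX.subtype) ≃ₗ[k] (ZY ⧸ BY.comap ZY.subtype)) := by
  classical
  let P' : Submodule k (X × Y) := P ⊓ (ZX.prod ZY)
  have hx : ∀ p : P', p.1.1 ∈ ZX := fun p => p.2.2.1
  have hy : ∀ p : P', p.1.2 ∈ ZY := fun p => p.2.2.2
  let fX0 : P' →ₗ[k] ZX :=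
    ((LinearMap.fst k X Y).comp P'.subtype).codRestrict ZX hx
  let fY0 : P' →ₗ[k] ZY :=
    ((LinearMap.snd k X Y).comp P'.subtype).codRestrict ZY hy
  let fX := (BX.comap ZX.subtype).mkQ.comp fX0
  let fY := (BY.comap ZY.subtype).mkQ.comp fY0
  have sX : Function.Surjective fX := by
    intro q
    obtain ⟨⟨x, hx⟩, rfl⟩ := Submodule.mkQ_surjective _ q
    obtain ⟨y, hy, hp⟩ := h1 x hx
    exact ⟨⟨(x, y), hp, hx, hy⟩, rfl⟩
  have sY : Function.Surjective fY := by
    intro q
    obtain ⟨⟨y, hy⟩, rfl⟩ := Submodule.mkQ_surjective _ q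
    obtain ⟨x, hx, hp⟩ := h2 y hy
    exact ⟨⟨(x, y), hp, hx, hy⟩, rfl⟩
  have hk : LinearMap.ker fX = LinearMap.ker fY := by
    ext p
    obtain ⟨⟨x, y⟩, hp, hx, hy⟩ := p
    have := h3 x hx y hy hp
    simp only [LinearMap.mem_ker, fX, fY, LinearMap.comp_apply, Submodule.mkQ_apply,
      Submodule.Quotient.mk_eq_zero, Submodule.mem_comap]
    exact this
  exact ⟨(fX.quotKerEquivOfSurjective sX).symm.trans
    ((Submodule.quotEquivOfEq _ _ hk).trans (fY.quotKerEquivOfSurjective sY))⟩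

end Corr

section Double

variable {k : Type u} [CommRing k]

/-- The double complex comparison: if all rows and columns of an augmented (commuting)
double complex are exact then the two edge complexes have isomorphic cohomology. -/
theorem double_complex
    (A : ℕ → Type v) [∀ n, AddCommGroup (A n)] [∀ n, Module k (A n)]
    (dA : ∀ n, A n →ₗ[k] A (n + 1))
    (B : ℕ → Type v) [∀ n, AddCommGroup (B n)] [∀ n, Module k (B n)]
    (dB : ∀ n, B n →ₗ[k] B (n + 1))
    (D : ℕ → ℕ → Type v) [∀ p q, AddCommGroup (D p q)] [∀ p q, Module k (D p q)]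
    (d1 : ∀ p q, D p q →ₗ[k] D (p + 1) q)
    (d2 : ∀ p q, D p q →ₗ[k] D p (q + 1))
    (ε : ∀ q, A q →ₗ[k] D 0 q) (η : ∀ p, B p →ₗ[k] D p 0)
    (d11 : ∀ p q x, d1 (p + 1) q (d1 p q x) = 0)
    (d22 : ∀ p q x, d2 p (q + 1) (d2 p q x) = 0)
    (d12 : ∀ p q x, d1 p (q + 1) (d2 p q x) = d2 (p + 1) q (d1 p q x))
    (εd : ∀ q x, d2 0 q (ε q x) = ε (q + 1) (dA q x))
    (ηd : ∀ p x, d1 p 0 (η p x) = η (p + 1) (dB p x))
    (εinj : ∀ q, Function.Injective (ε q)) (ηinj : ∀ p, Function.Injective (η p))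
    (ε0 : ∀ q x, d1 0 q (ε q x) = 0) (η0 : ∀ p x, d2 p 0 (η p x) = 0)
    (εex : ∀ q x, d1 0 q x = 0 → ∃ a, ε q a = x)
    (ηex : ∀ p x, d2 p 0 x = 0 → ∃ b, η p b = x)
    (ex1 : ∀ p q x, d1 (p + 1) q x = 0 → ∃ y, d1 p q y = x)
    (ex2 : ∀ p q x, d2 p (q + 1) x = 0 → ∃ y, d2 p q y = x) (n : ℕ) :
    Nonempty (Coh k A dA n ≃ₗ[k] Coh k B dB n) := by
  classical
  -- the box groups
  let Z : ∀ p q, Submodule k (D p q) := fun p q => LinearMap.ker ((d1 p (q + 1)).comp (d2 p q))
  let N : ∀ p q, Submodule k (D p q) := fun p q => LinearMap.ker (d1 p q) ⊔ LinearMap.ker (d2 p q)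
  have memZ : ∀ p q y, y ∈ Z p q ↔ d1 p (q + 1) (d2 p q y) = 0 := fun p q y => Iff.rfl
  have memN : ∀ p q y, y ∈ N p q ↔ ∃ u, d1 p q u = 0 ∧ ∃ v, d2 p q v = 0 ∧ u + v = y := by
    intro p q y
    simp only [N, Submodule.mem_sup, LinearMap.mem_ker]
  -- step
  have step : ∀ p q, Nonempty ((Z (p + 1) q ⧸ (N (p + 1) q).comap (Z (p + 1) q).subtype) ≃ₗ[k]
      (Z p (q + 1) ⧸ (N p (q + 1)).comap (Z p (q + 1)).subtype)) := by
    intro p q
    let P : Submodule k (D (p + 1) q × D p (q + 1)) :=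
      LinearMap.ker (((d2 (p + 1) q).comp (LinearMap.fst k _ _)) -
        ((d1 p (q + 1)).comp (LinearMap.snd k _ _)))
    have memP : ∀ x y, (x, y) ∈ P ↔ d2 (p + 1) q x = d1 p (q + 1) y := by
      intro x y
      simp [P, sub_eq_zero]
    apply corr _ _ _ _ P
    · intro x hx
      rw [memZ] at hx
      obtain ⟨y, hy⟩ := ex1 _ _ _ hx
      refine ⟨y, ?_, (memP _ _).2 hy.symm⟩
      rw [memZ, d12, hy, d22]
    · intro y hy
      rw [memZ, d12] at hy
      obtain ⟨x, hx⟩ := ex2 _ _ _ hy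
      refine ⟨x, ?_, (memP _ _).2 hx⟩
      rw [memZ, hx, d11]
    · intro x hx y hy hxy
      rw [memP] at hxy
      rw [memN, memN]
      constructor
      · rintro ⟨u, hu, v, hv, rfl⟩
        obtain ⟨m, hm⟩ := ex1 _ _ _ hu
        rw [map_add, hv, add_zero, ← hm, ← d12] at hxy
        refine ⟨y - d2 p q m, ?_, d2 p q m, d22 _ _ _, by abel⟩
        rw [map_sub, ← hxy, sub_self]
      · rintro ⟨u, hu, v, hv, rfl⟩
        obtain ⟨m, hm⟩ := ex2 _ _ _ hv
        rw [map_add, hu, zero_add, ← hm, d12] at hxy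
        refine ⟨d1 p q m, d11 _ _ _, x - d1 p q m, ?_, by abel⟩
        rw [map_sub, hxy, sub_self]
  have steps : ∀ p q, Nonempty ((Z p q ⧸ (N p q).comap (Z p q).subtype) ≃ₗ[k]
      (Z 0 (q + p) ⧸ (N 0 (q + p)).comap (Z 0 (q + p)).subtype)) := by
    intro p
    induction p with
    | zero => intro q; exact ⟨LinearEquiv.refl _ _⟩
    | succ p ih =>
      intro q
      obtain ⟨e1⟩ := step p q
      obtain ⟨e2⟩ := ih (q + 1)
      have h : q + 1 + p = q + (p + 1) := by omega
      rw [h] at e2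
      exact ⟨e1.trans e2⟩
  cases n with
  | zero =>
    let P : Submodule k (A 0 × B 0) :=
      LinearMap.ker (((ε 0).comp (LinearMap.fst k _ _)) - ((η 0).comp (LinearMap.snd k _ _)))
    have memP : ∀ x y, (x, y) ∈ P ↔ ε 0 x = η 0 y := by
      intro x y
      simp [P, sub_eq_zero]
    apply corr _ _ _ _ P
    · intro x hx
      rw [LinearMap.mem_ker] at hx
      have h1 : d2 0 0 (ε 0 x) = 0 := by rw [εd, hx, map_zero]
      obtain ⟨y, hy⟩ := ηex _ _ h1
      refine ⟨y, ?_, (memP _ _).2 hy.symm⟩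
      rw [LinearMap.mem_ker]
      apply ηinj
      rw [← ηd, hy, ε0, map_zero]
    · intro y hy
      rw [LinearMap.mem_ker] at hy
      have h1 : d1 0 0 (η 0 y) = 0 := by rw [ηd, hy, map_zero]
      obtain ⟨x, hx⟩ := εex _ _ h1
      refine ⟨x, ?_, (memP _ _).2 hx⟩
      rw [LinearMap.mem_ker]
      apply εinj
      rw [← εd, hx, η0, map_zero]
    · intro x _ y _ hxy
      rw [memP] at hxy
      simp only [cobound, Submodule.mem_bot]
      constructor
      · rintro rfl
        apply ηinj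
        rw [← hxy, map_zero, map_zero]
      · rintro rfl
        apply εinj
        rw [hxy, map_zero, map_zero]
  | succ n =>
    -- A side
    have eA : Nonempty (Coh k A dA (n + 1) ≃ₗ[k] (Z 0 n ⧸ (N 0 n).comap (Z 0 n).subtype)) := by
      let P : Submodule k (A (n + 1) × D 0 n) :=
        LinearMap.ker (((ε (n + 1)).comp (LinearMap.fst k _ _)) -
          ((d2 0 n).comp (LinearMap.snd k _ _)))
      have memP : ∀ x y, (x, y) ∈ P ↔ ε (n + 1) x = d2 0 n y := by
        intro x y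
        simp [P, sub_eq_zero]
      apply corr _ _ _ _ P
      · intro x hx
        rw [LinearMap.mem_ker] at hx
        have h1 : d2 0 (n + 1) (ε (n + 1) x) = 0 := by rw [εd, hx, map_zero]
        obtain ⟨y, hy⟩ := ex2 _ _ _ h1
        refine ⟨y, ?_, (memP _ _).2 hy.symm⟩
        rw [memZ, hy, ε0]
      · intro y hy
        rw [memZ] at hy
        obtain ⟨x, hx⟩ := εex _ _ hy
        refine ⟨x, ?_, (memP _ _).2 hx⟩
        rw [LinearMap.mem_ker]
        apply εinj
        rw [← εd, hx, d22, map_zero]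
      · intro x hx y hy hxy
        rw [memP] at hxy
        rw [memN]
        simp only [cobound, LinearMap.mem_range]
        constructor
        · rintro ⟨a, rfl⟩
          rw [← εd] at hxy
          refine ⟨ε n a, ε0 _ _, y - ε n a, ?_, by abel⟩
          rw [map_sub, hxy, sub_self]
        · rintro ⟨u, hu, v, hv, rfl⟩
          obtain ⟨a, ha⟩ := εex _ _ hu
          refine ⟨a, ?_⟩
          apply εinj
          rw [← εd, ha, hxy, map_add, hv, add_zero]
    have eB : Nonempty (Coh k B dB (n + 1) ≃ₗ[k] (Z n 0 ⧸ (N n 0).comap (Z n 0).subtype)) := by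
      let P : Submodule k (B (n + 1) × D n 0) :=
        LinearMap.ker (((η (n + 1)).comp (LinearMap.fst k _ _)) -
          ((d1 n 0).comp (LinearMap.snd k _ _)))
      have memP : ∀ x y, (x, y) ∈ P ↔ η (n + 1) x = d1 n 0 y := by
        intro x y
        simp [P, sub_eq_zero]
      apply corr _ _ _ _ P
      · intro x hx
        rw [LinearMap.mem_ker] at hx
        have h1 : d1 (n + 1) 0 (η (n + 1) x) = 0 := by rw [ηd, hx, map_zero]
        obtain ⟨y, hy⟩ := ex1 _ _ _ h1
        refine ⟨y, ?_, (memP _ _).2 hy.symm⟩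
        rw [memZ, d12, hy, η0]
      · intro y hy
        rw [memZ, d12] at hy
        obtain ⟨x, hx⟩ := ηex _ _ hy
        refine ⟨x, ?_, (memP _ _).2 hx⟩
        rw [LinearMap.mem_ker]
        apply ηinj
        rw [← ηd, hx, d11, map_zero]
      · intro x hx y hy hxy
        rw [memP] at hxy
        rw [memN]
        simp only [cobound, LinearMap.mem_range]
        constructor
        · rintro ⟨b, rfl⟩
          rw [← ηd] at hxy
          refine ⟨y - η n b, ?_, η n b, η0 _ _, by abel⟩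
          rw [map_sub, hxy, sub_self]
        · rintro ⟨u, hu, v, hv, rfl⟩
          obtain ⟨b, hb⟩ := ηex _ _ hv
          refine ⟨b, ?_⟩
          apply ηinj
          rw [← ηd, hb, hxy, map_add, hu, zero_add]
    obtain ⟨eA⟩ := eA
    obtain ⟨eB⟩ := eB
    obtain ⟨eS⟩ := steps n 0
    have h : 0 + n = n := by omega
    rw [h] at eS
    exact ⟨eA.trans (eS.symm.trans eB.symm)⟩

end Double

end Pool.Agent.Helper438.Sc
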