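import Pool.Agent.Helper438.Sc.Base

/-! All the auxiliary spaces used in the computation. -/

namespace Pool.Agent.Helper438.Sc

universe u v w

section SingularRV

/-- vanishing of the reduced singular cohomology in degree `q` -/
def RV (k : Type v) [CommRing k] (X : Type u) [TopologicalSpace X] : ℕ → Prop
  | 0 => ∀ c : Sing X 0 → k, altd k (sface (X := X)) 0 c = 0 → ∃ a : k, ∀ σ, c σ = a
  | (n + 1) => ∀ c : Sing X (n + 1) → k, altd k (sface (X := X)) (n + 1) c = 0 →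
      ∃ b : Sing X n → k, c = altd k (sface (X := X)) n b

end SingularRV


section Quot

variable {ι : Type} [Fintype ι] [DecidableEq ι] {κ : Type} [Fintype κ] [DecidableEq κ]

/-- the operator `(A + t B)⁻¹ B` -/
noncomputable def Ut (A B : Matrix ι ι ℂ) (t : ℂ) : Matrix ι ι ℂ := (A + t • B)⁻¹ * B

/-- the sequence `s` generates the torsion sheaf with pencil `(A, B)` -/
def Gen (A B : Matrix ι ι ℂ) (s : ℕ → ι → ℂ) : Prop :=
  ∃ t : ℂ, (A + t • B).det ≠ 0 ∧ ∀ L : Submodule ℂ (ι → ℂ), (∀ j, s j ∈ L) →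
    (∀ v ∈ L, (Ut A B t).mulVec v ∈ L) → L = ⊤

variable (ι)

/-- pencils with a generating sequence -/
def Pg : Type := {p : (Matrix ι ι ℂ × Matrix ι ι ℂ) × (ℕ → ι → ℂ) // Gen p.1.1 p.1.2 p.2}

instance : TopologicalSpace (Pg ι) := inferInstanceAs (TopologicalSpace (Subtype _))

variable {ι}

/-- equivalence of pencils with sequences, index sets may be different -/
def REq (A B : Matrix ι ι ℂ) (s : ℕ → ι → ℂ) (A' B' : Matrix κ κ ℂ) (s' : ℕ → κ → ℂ) : Prop :=
  ∃ (g h : Matrix κ ι ℂ) (g' h' : Matrix ι κ ℂ), g * g' = 1 ∧ g' * g = 1 ∧ h * h' = 1 ∧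
    h' * h = 1 ∧ A' * h = g * A ∧ B' * h = g * B ∧ ∀ j, s' j = h.mulVec (s j)

theorem REq.refl (A B : Matrix ι ι ℂ) (s : ℕ → ι → ℂ) : REq A B s A B s :=
  ⟨1, 1, 1, 1, by simp⟩

theorem REq.symm {A B : Matrix ι ι ℂ} {s : ℕ → ι → ℂ} {A' B' : Matrix κ κ ℂ} {s' : ℕ → κ → ℂ}
    (H : REq A B s A' B' s') : REq A' B' s' A B s := by
  obtain ⟨g, h, g', h', h1, h2, h3, h4, h5, h6, h7⟩ := H
  refine ⟨g', h', g, h, h2, h1, h4, h3, ?_, ?_, ?_⟩
  · calc A * h' = (g' * g) * A * h' := by rw [h2, Matrix.one_mul]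
      _ = g' * (g * A) * h' := by simp only [Matrix.mul_assoc]
      _ = g' * A' * (h * h') := by rw [← h5]; simp only [Matrix.mul_assoc]
      _ = g' * A' := by rw [h3, Matrix.mul_one]
  · calc B * h' = (g' * g) * B * h' := by rw [h2, Matrix.one_mul]
      _ = g' * (g * B) * h' := by simp only [Matrix.mul_assoc]
      _ = g' * B' * (h * h') := by rw [← h6]; simp only [Matrix.mul_assoc]
      _ = g' * B' := by rw [h3, Matrix.mul_one]
  · intro j
    rw [h7, Matrix.mulVec_mulVec, h4, Matrix.one_mulVec]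

theorem REq.trans {μ : Type} [Fintype μ] [DecidableEq μ]
    {A B : Matrix ι ι ℂ} {s : ℕ → ι → ℂ} {A' B' : Matrix κ κ ℂ} {s' : ℕ → κ → ℂ}
    {A'' B'' : Matrix μ μ ℂ} {s'' : ℕ → μ → ℂ}
    (H : REq A B s A' B' s') (K : REq A' B' s' A'' B'' s'') : REq A B s A'' B'' s'' := by
  obtain ⟨g, h, g', h', h1, h2, h3, h4, h5, h6, h7⟩ := H
  obtain ⟨k, l, k', l', k1, k2, k3, k4, k5, k6, k7⟩ := K
  refine ⟨k * g, l * h, g' * k', h' * l', ?_, ?_, ?_, ?_, ?_, ?_, ?_⟩
  · calc k * g * (g' * k') = k * (g * g') * k' := by simp only [Matrix.mul_assoc]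
      _ = 1 := by rw [h1, Matrix.mul_one, k1]
  · calc g' * k' * (k * g) = g' * (k' * k) * g := by simp only [Matrix.mul_assoc]
      _ = 1 := by rw [k2, Matrix.mul_one, h2]
  · calc l * h * (h' * l') = l * (h * h') * l' := by simp only [Matrix.mul_assoc]
      _ = 1 := by rw [h3, Matrix.mul_one, k3]
  · calc h' * l' * (l * h) = h' * (l' * l) * h := by simp only [Matrix.mul_assoc]
      _ = 1 := by rw [k4, Matrix.mul_one, h4]
  · rw [← Matrix.mul_assoc, k5, Matrix.mul_assoc, h5, Matrix.mul_assoc]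
  · rw [← Matrix.mul_assoc, k6, Matrix.mul_assoc, h6, Matrix.mul_assoc]
  · intro j
    rw [k7, h7, Matrix.mulVec_mulVec]

variable (ι)

/-- the equivalence relation on `Pg ι` -/
def pgSetoid : Setoid (Pg ι) where
  r p q := REq p.1.1.1 p.1.1.2 p.1.2 q.1.1.1 q.1.1.2 q.1.2
  iseqv := ⟨fun _ => REq.refl _ _ _, fun h => h.symm, fun h k => h.trans k⟩

/-- the moduli space of torsion sheaves with a generating sequence of sections -/
def Qs : Type := Quotient (pgSetoid ι)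

instance : TopologicalSpace (Qs ι) := inferInstanceAs (TopologicalSpace (Quotient _))

end Quot

section Chart

/-- index set of the basis of type `a` -/
def Ix (a : ℕ →₀ ℕ) : Type := {p : ℕ × ℕ // p.2 < a p.1}

instance (a : ℕ →₀ ℕ) : DecidableEq (Ix a) := inferInstanceAs (DecidableEq (Subtype _))

instance (a : ℕ →₀ ℕ) : Finite (Ix a) := by
  apply Set.Finite.to_subtype
  apply Set.Finite.subset
    ((a.support ×ˢ Finset.range (a.support.sup a + 1) : Finset (ℕ × ℕ)).finite_toSet)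
  rintro ⟨i, k⟩ h
  have h' : k < a i := h
  have hi : i ∈ a.support := by
    rw [Finsupp.mem_support_iff]
    omega
  have := Finset.le_sup (f := a) hi
  simp only [Finset.coe_product, Set.mem_prod, Finset.mem_coe, Finset.mem_range]
  exact ⟨hi, by omega⟩

noncomputable instance (a : ℕ →₀ ℕ) : Fintype (Ix a) := Fintype.ofFinite _

/-- the coordinate space of type `a`: for every `j : ℕ` a vector `c j` of `ℂ^(Ix a)` -/
abbrev Cd (a : ℕ →₀ ℕ) : Type := ℕ → Ix a → ℂ

/-- normal form matrix: the basis vector `(j, k)` goes to `(j, k+1)` if `k + 1 < a j`, and to `c j`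
if `k + 1 = a j` -/
noncomputable def NA (a : ℕ →₀ ℕ) (c : Cd a) : Matrix (Ix a) (Ix a) ℂ := fun p q =>
  if q.1.2 + 1 < a q.1.1 then (if p.1 = (q.1.1, q.1.2 + 1) then 1 else 0) else c q.1.1 p

/-- normal form sequence: the `j`-th vector is the basis vector `(j, 0)` if `0 < a j`, else `c j` -/
noncomputable def NS (a : ℕ →₀ ℕ) (c : Cd a) : ℕ → Ix a → ℂ := fun j p =>
  if 0 < a j then (if p.1 = (j, 0) then 1 else 0) else c j p

/-- products of eigenvalues of `A` and `B` lie in the open unit disc -/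
def good {α β : Type} [Fintype α] [DecidableEq α] [Fintype β] [DecidableEq β]
    (A : Matrix α α ℂ) (B : Matrix β β ℂ) : Prop :=
  ∀ x ∈ spectrum ℂ A, ∀ y ∈ spectrum ℂ B, ‖x * y‖ < 1

/-- the chart domain -/
def Wc (a b : ℕ →₀ ℕ) : Set (Cd a × Cd b) := {c | good (NA a c.1) (NA b c.2)}

/-- the cell inside the chart domain -/
def Scell (a b : ℕ →₀ ℕ) : Set (Cd a × Cd b) :=
  {c | (∀ j (p : Ix a), j < p.1.1 → c.1 j p = 0) ∧ (∀ j (p : Ix b), j ≤ p.1.1 → c.2 j p = 0)}

/-- first matrix of the pencil with coordinates `c` -/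
noncomputable def chA {a b : ℕ →₀ ℕ} (c : Cd a × Cd b) : Matrix (Ix a ⊕ Ix b) (Ix a ⊕ Ix b) ℂ :=
  Matrix.fromBlocks (NA a c.1) 0 0 1

/-- second matrix of the pencil with coordinates `c` -/
noncomputable def chB {a b : ℕ →₀ ℕ} (c : Cd a × Cd b) : Matrix (Ix a ⊕ Ix b) (Ix a ⊕ Ix b) ℂ :=
  Matrix.fromBlocks 1 0 0 (NA b c.2)

/-- the sequence with coordinates `c` -/
noncomputable def chS {a b : ℕ →₀ ℕ} (c : Cd a × Cd b) : ℕ → Ix a ⊕ Ix b → ℂ := fun j =>
  Sum.elim (NS a c.1 j) (NS b c.2 j)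

/-- the codimension of the cell -/
noncomputable def cdim (a b : ℕ →₀ ℕ) : ℕ :=
  (a.sum fun i x => i * x) + (b.sum fun i x => (i + 1) * x)

/-- submodule generated by the vectors `s 0, …, s i` under `u` -/
def Cyc {ι : Type} [Fintype ι] [DecidableEq ι] (u : Matrix ι ι ℂ) (s : ℕ → ι → ℂ) (i : ℕ) :
    Submodule ℂ (ι → ℂ) :=
  Submodule.span ℂ {v | ∃ j ≤ i, ∃ k : ℕ, v = (u ^ k).mulVec (s j)}

/-- a submultiplicative norm on (rectangular) matrices -/
noncomputable def nrm {α β : Type} [Fintype α] [Fintype β] (A : Matrix α β ℂ) : ℝ :=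
  ∑ i, ∑ j, ‖A i j‖

/-- scaling of the coordinates -/
noncomputable def scal (a : ℕ →₀ ℕ) (r : ℝ) (c : Cd a) : Cd a := fun j p =>
  (r : ℂ) ^ (a p.1.1 - p.1.2) * c j p

end Chart

end Pool.Agent.Helper438.Sc
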