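import Pool.Agent.Helper438.Sc.Topk

namespace Pool.Agent.Helper438.Sc

universe u v w

open Finsupp

theorem RV_iUnion {X : Type u} [TopologicalSpace X] (k : Type v) [Field k] (U : ℕ → Set X)
    (hU : ∀ m, IsOpen (U m)) (hmono : Monotone U) (hcov : ∀ x, ∃ m, x ∈ U m) (q : ℕ)
    (h : ∀ m, RV k (U m) (q + 1)) : RV k X (q + 1) := by
  classical
  intro c hc
  -- the boundary map with coefficients in `k`
  let D : (Sing X (q + 1) →₀ k) →ₗ[k] (Sing X q →₀ k) :=
    Finsupp.linearCombination k (fun σ => ∑ i : Fin (q + 2), ((-1 : k) ^ (i : ℕ)) •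
      (single (sface q i σ) (1 : k)))
  let L : (Sing X (q + 1) →₀ k) →ₗ[k] k := Finsupp.linearCombination k c
  have hD : ∀ (b : Sing X q → k) (z : Sing X (q + 1) →₀ k),
      Finsupp.linearCombination k b (D z) =
        Finsupp.linearCombination k (altd k (sface (X := X)) q b) z := by
    intro b z
    have : (Finsupp.linearCombination k b).comp D =
        Finsupp.linearCombination k (altd k (sface (X := X)) q b) := by
      apply Finsupp.lhom_ext'
      intro σ
      apply LinearMap.ext_ring
      simp only [LinearMap.comp_apply, lsingle_apply, linearCombination_single, one_smul, D,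
        map_sum, map_smul]
      rw [altd_apply]
      refine Finset.sum_congr rfl fun i _ => ?_
      simp
    exact LinearMap.congr_fun this z
  have hin : ∀ σ : Sing X (q + 1), ∃ m, Set.range σ ⊆ U m := by
    intro σ
    have hcomp : IsCompact (Set.range σ) := isCompact_range σ.continuous
    obtain ⟨m, hm⟩ := hcomp.elim_directed_cover U hU (fun x _ => by
      obtain ⟨m, hm⟩ := hcov x
      exact Set.mem_iUnion.mpr ⟨m, hm⟩) (hmono.directed_le)
    exact ⟨m, hm⟩
  choose m hm using hin
  have key : L ∈ (LinearMap.ker D).dualAnnihilator := by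
    rw [Submodule.mem_dualAnnihilator]
    intro z hz
    rw [LinearMap.mem_ker] at hz
    let M := z.support.sup m
    obtain ⟨b, hb⟩ := RV_rel (U M) q (h M) c (fun σ _ => congrFun hc σ)
    have h1 : L z = Finsupp.linearCombination k (altd k (sface (X := X)) q b) z := by
      simp only [L, Finsupp.linearCombination_apply, Finsupp.sum]
      refine Finset.sum_congr rfl fun σ hσ => ?_
      rw [hb σ]
      exact (hm σ).trans (hmono (Finset.le_sup (f := m) hσ))
    rw [h1, ← hD, hz, map_zero]
  rw [← LinearMap.range_dualMap_eq_dualAnnihilator_ker] at key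
  obtain ⟨φ, hφ⟩ := key
  refine ⟨fun σ => φ (single σ 1), ?_⟩
  funext σ
  rw [altd_apply]
  have h2 : φ (D (single σ 1)) = L (single σ 1) := by
    rw [← hφ]
    rfl
  simp only [L, D, linearCombination_single, one_smul, map_sum, map_smul, smul_eq_mul, one_mul] at h2
  exact h2.symm

end Pool.Agent.Helper438.Sc
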