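import Pool.Agent.Helper438.Sc.Defs

namespace Pool.Agent.Helper438.Sc

theorem pi_single_Ix (a : ℕ →₀ ℕ) (q p : Ix a) :
    (Pi.single q (1 : ℂ) : Ix a → ℂ) p = if p.1 = q.1 then 1 else 0 := by
  rw [Pi.single_apply]
  congr 1
  exact propext Subtype.ext_iff

theorem NA_pow_lt' (a : ℕ →₀ ℕ) (c : Cd a) (j k : ℕ) (h : k < a j) (q : Ix a) (hq : q.1 = (j, k)) :
    ((NA a c) ^ k).mulVec (NS a c j) = Pi.single q 1 := by
  induction k generalizing q with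
  | zero =>
    funext p
    rw [pow_zero, Matrix.one_mulVec, NS, if_pos h, pi_single_Ix, hq]
  | succ k ih =>
    rw [pow_succ', ← Matrix.mulVec_mulVec, ih (by omega) ⟨(j, k), Nat.lt_of_succ_lt h⟩ rfl,
      Matrix.mulVec_single_one]
    funext p
    rw [Matrix.col_apply, NA, if_pos h, pi_single_Ix, hq]

theorem NA_pow_lt (a : ℕ →₀ ℕ) (c : Cd a) (j k : ℕ) (h : k < a j) :
    ((NA a c) ^ k).mulVec (NS a c j) = Pi.single (⟨(j, k), h⟩ : Ix a) 1 :=
  NA_pow_lt' a c j k h ⟨(j, k), h⟩ rfl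

end Pool.Agent.Helper438.Sc
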