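import Pool.Agent.Helper438.Sc.Defs
import Pool.Agent.Helper438.Sc.P_NA_pow_lt

/-! Singular cohomology, the Borel construction of the stack of torsion sheaves on the projective
line, and all the auxiliary spaces used in the computation. -/

namespace Pool.Agent.Helper438.Sc

universe u v w



theorem NA_pow_top (a : ℕ →₀ ℕ) (c : Cd a) (j : ℕ) :
    ((NA a c) ^ (a j)).mulVec (NS a c j) = c j := by
  rcases Nat.eq_zero_or_pos (a j) with h | h
  · rw [h, pow_zero, Matrix.one_mulVec]
    funext p
    unfold NS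
    rw [if_neg (by omega)]
  · obtain ⟨k, hk⟩ : ∃ k, a j = k + 1 := ⟨a j - 1, by omega⟩
    have hlt : k < a j := by omega
    let q : Ix a := ⟨(j, k), hlt⟩
    have h1 : ((NA a c) ^ k).mulVec (NS a c j) = (Pi.single q (1 : ℂ) : Ix a → ℂ) :=
      NA_pow_lt a c j k hlt
    have h2 : (NA a c).mulVec (Pi.single q (1 : ℂ) : Ix a → ℂ) = fun p => NA a c p q := by
      rw [Matrix.mulVec_single_one]
      rfl
    rw [hk, pow_succ', ← Matrix.mulVec_mulVec, h1, h2]
    funext p
    unfold NA
    rw [if_neg]
    show ¬ (k + 1 < a j)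
    omega

end Pool.Agent.Helper438.Sc
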