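import Pool.Agent.Helper438.Sc.Defs
import Pool.Agent.Helper438.Sc.P_NA_pow_lt

/-! Singular cohomology, the Borel construction of the stack of torsion sheaves on the projective
line, and all the auxiliary spaces used in the computation. -/

namespace Pool.Agent.Helper438.Sc

universe u v w



theorem diag_nilp (a : ℕ →₀ ℕ) (c : Cd a) (h : ∀ j (p : Ix a), j ≤ p.1.1 → c j p = 0) :
    IsNilpotent (NA a c) := by
  classical
  obtain ⟨M, hM⟩ : ∃ M : ℕ, ∀ p : Ix a, p.1.2 < M :=
    ⟨(Finset.univ.sup fun p : Ix a => p.1.2) + 1, fun p =>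
      Nat.lt_succ_of_le (Finset.le_sup (f := fun p : Ix a => p.1.2) (Finset.mem_univ p))⟩
  let ρ : Ix a → ℕ := fun p => p.1.1 * M + (M - 1 - p.1.2)
  have hstep : ∀ p q : Ix a, NA a c p q ≠ 0 → ρ p + 1 ≤ ρ q := by
    intro p q hpq
    have hp := hM p
    have hq := hM q
    simp only [NA] at hpq
    by_cases h1 : q.1.2 + 1 < a q.1.1
    · rw [if_pos h1] at hpq
      by_cases h2 : p.1 = (q.1.1, q.1.2 + 1)
      · have h3 : p.1.1 = q.1.1 := by rw [h2]
        have h4 : p.1.2 = q.1.2 + 1 := by rw [h2]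
        simp only [ρ]
        rw [h3, h4]
        omega
      · rw [if_neg h2] at hpq
        exact absurd rfl hpq
    · rw [if_neg h1] at hpq
      have h3 : p.1.1 < q.1.1 := by
        by_contra h4
        exact hpq (h q.1.1 p (not_lt.1 h4))
      have h5 : (p.1.1 + 1) * M ≤ q.1.1 * M := Nat.mul_le_mul_right M h3
      simp only [ρ]
      rw [Nat.add_mul, one_mul] at h5
      omega
  have hpow : ∀ (m : ℕ) (p q : Ix a), ((NA a c) ^ m) p q ≠ 0 → ρ p + m ≤ ρ q := by
    intro m
    induction m with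
    | zero =>
      intro p q hpq
      rw [pow_zero, Matrix.one_apply] at hpq
      by_cases h1 : p = q
      · rw [h1]; omega
      · rw [if_neg h1] at hpq; exact absurd rfl hpq
    | succ m ih =>
      intro p q hpq
      rw [pow_succ, Matrix.mul_apply] at hpq
      obtain ⟨r, -, hr⟩ := Finset.exists_ne_zero_of_sum_ne_zero hpq
      have h1 := ih p r (left_ne_zero_of_mul hr)
      have h2 := hstep r q (right_ne_zero_of_mul hr)
      omega
  refine ⟨(Finset.univ.sup ρ) + 1, ?_⟩
  ext p q
  by_contra hne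
  have h1 := hpow _ p q hne
  have h2 : ρ q ≤ Finset.univ.sup ρ := Finset.le_sup (f := ρ) (Finset.mem_univ q)
  omega

end Pool.Agent.Helper438.Sc
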