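import Pool.Agent.Helper438.Sc.Defs

/-! Singular cohomology, the Borel construction of the stack of torsion sheaves on the projective
line, and all the auxiliary spaces used in the computation. -/

namespace Pool.Agent.Helper438.Sc

universe u v w



theorem good_conj_left {α β : Type} [Fintype α] [DecidableEq α] [Fintype β] [DecidableEq β]
    (A A' P Q : Matrix α α ℂ) (B : Matrix β β ℂ) (hPQ : P * Q = 1) (h : A' * P = P * A)
    (hg : good A B) : good A' B := by
  have hQP : Q * P = 1 := mul_eq_one_comm.1 hPQ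
  intro x hx y hy
  refine hg x ?_ y hy
  rw [spectrum.mem_iff] at hx ⊢
  intro hu
  apply hx
  have e : algebraMap ℂ (Matrix α α ℂ) x - A' = P * (algebraMap ℂ (Matrix α α ℂ) x - A) * Q := by
    rw [mul_sub, sub_mul, ← h, mul_assoc A', hPQ, mul_one, ← Algebra.commutes, mul_assoc, hPQ,
      mul_one]
  have uP : IsUnit P := ⟨⟨P, Q, hPQ, hQP⟩, rfl⟩
  have uQ : IsUnit Q := ⟨⟨Q, P, hQP, hPQ⟩, rfl⟩
  rw [e]
  exact (uP.mul hu).mul uQ
end Pool.Agent.Helper438.Sc
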