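import Pool.Agent.Helper438.Sc.Defs

/-! Singular cohomology, the Borel construction of the stack of torsion sheaves on the projective
line, and all the auxiliary spaces used in the computation. -/

namespace Pool.Agent.Helper438.Sc

universe u v w



theorem good_conj_right {α β : Type} [Fintype α] [DecidableEq α] [Fintype β] [DecidableEq β]
    (A : Matrix α α ℂ) (B B' P Q : Matrix β β ℂ) (hPQ : P * Q = 1) (h : B' * P = P * B)
    (hg : good A B) : good A B' := by
  have hQP : Q * P = 1 := mul_eq_one_comm.1 hPQ
  let u : (Matrix β β ℂ)ˣ := ⟨P, Q, hPQ, hQP⟩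
  have hB : B' = (u : Matrix β β ℂ) * B * (↑u⁻¹ : Matrix β β ℂ) := by
    show B' = P * B * Q
    rw [← h, Matrix.mul_assoc, hPQ, Matrix.mul_one]
  intro x hx y hy
  rw [hB, spectrum.units_conjugate] at hy
  exact hg x hx y hy

end Pool.Agent.Helper438.Sc
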