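import Pool.Agent.Helper438.Sc.Defs

/-! Singular cohomology, the Borel construction of the stack of torsion sheaves on the projective
line, and all the auxiliary spaces used in the computation. -/

namespace Pool.Agent.Helper438.Sc

universe u v w



theorem good_of_nilpotent {α β : Type} [Fintype α] [DecidableEq α] [Fintype β] [DecidableEq β]
    (A : Matrix α α ℂ) (B : Matrix β β ℂ) (h : IsNilpotent B) : good A B := by
  intro x _ y hy
  have hy0 : y = 0 := by
    by_contra hne
    obtain ⟨n, hn⟩ := h
    have h1 := spectrum.pow_mem_pow B n hy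
    rw [hn, spectrum.mem_iff, sub_zero] at h1
    exact h1 ((IsUnit.mk0 _ (pow_ne_zero n hne)).map (algebraMap ℂ (Matrix β β ℂ)))
  rw [hy0, mul_zero, norm_zero]
  exact one_pos

end Pool.Agent.Helper438.Sc
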