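import Pool.Agent.Helper438.Sc.Defs

/-! Singular cohomology, the Borel construction of the stack of torsion sheaves on the projective
line, and all the auxiliary spaces used in the computation. -/

namespace Pool.Agent.Helper438.Sc

universe u v w



theorem good_smul_aux {α : Type} [Fintype α] [DecidableEq α] (A : Matrix α α ℂ) (r : ℂ) (x : ℂ)
    (hx : x ∈ spectrum ℂ (r • A)) : x = 0 ∨ ∃ x' ∈ spectrum ℂ A, x = r * x' := by
  by_cases hr : r = 0
  · left
    by_contra hx0
    apply hx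
    rw [hr, zero_smul]
    change IsUnit (algebraMap ℂ (Matrix α α ℂ) x - 0)
    rw [sub_zero]
    exact (IsUnit.mk0 x hx0).map (algebraMap ℂ (Matrix α α ℂ))
  · right
    have h1 := spectrum.unit_smul_eq_smul A (Units.mk0 r hr)
    have h2 : x ∈ spectrum ℂ ((Units.mk0 r hr) • A) := hx
    rw [h1] at h2
    obtain ⟨x', hx', he⟩ := h2
    exact ⟨x', hx', he.symm⟩

theorem good_smul {α β : Type} [Fintype α] [DecidableEq α] [Fintype β] [DecidableEq β]
    (A : Matrix α α ℂ) (B : Matrix β β ℂ) (h : good A B) (r s : ℝ) (hr : 0 ≤ r) (hr1 : r ≤ 1)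
    (hs : 0 ≤ s) (hs1 : s ≤ 1) : good ((r : ℂ) • A) ((s : ℂ) • B) := by
  intro x hx y hy
  rcases good_smul_aux A _ x hx with h1 | ⟨x', hx', h1⟩
  · rw [h1, zero_mul, norm_zero]
    exact one_pos
  rcases good_smul_aux B _ y hy with h2 | ⟨y', hy', h2⟩
  · rw [h2, mul_zero, norm_zero]
    exact one_pos
  have h3 := h x' hx' y' hy'
  have h4 : ‖x * y‖ = r * s * ‖x' * y'‖ := by
    rw [h1, h2]
    simp only [norm_mul, Complex.norm_real, Real.norm_eq_abs, abs_of_nonneg hr, abs_of_nonneg hs]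
    ring
  rw [h4]
  have h5 : r * s ≤ 1 := mul_le_one₀ hr1 hs hs1
  have h6 := norm_nonneg (x' * y')
  nlinarith [mul_nonneg hr hs]

end Pool.Agent.Helper438.Sc
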