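import Pool.Agent.Helper438.Sc.Defs

/-! Singular cohomology, the Borel construction of the stack of torsion sheaves on the projective
line, and all the auxiliary spaces used in the computation. -/

namespace Pool.Agent.Helper438.Sc

universe u v w



theorem scal_conj (a : ℕ →₀ ℕ) (r : ℝ) (hr : 0 < r) (c : Cd a) :
    ∃ P Q : Matrix (Ix a) (Ix a) ℂ, P * Q = 1 ∧ Q * P = 1 ∧
      NA a (scal a r c) * P = P * ((r : ℂ) • NA a c) := by
  have hr0 : (r : ℂ) ≠ 0 := by exact_mod_cast hr.ne'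
  obtain ⟨d, hd⟩ : ∃ d : Ix a → ℂ, ∀ p, d p = (r : ℂ) ^ (a p.1.1 - p.1.2) := ⟨_, fun p => rfl⟩
  have hd0 : ∀ p, d p ≠ 0 := fun p => by rw [hd]; exact pow_ne_zero _ hr0
  refine ⟨Matrix.diagonal d, Matrix.diagonal (fun p => (d p)⁻¹), ?_, ?_, ?_⟩
  · rw [Matrix.diagonal_mul_diagonal, ← Matrix.diagonal_one]
    congr 1
    funext p
    exact mul_inv_cancel₀ (hd0 p)
  · rw [Matrix.diagonal_mul_diagonal, ← Matrix.diagonal_one]
    congr 1
    funext p
    exact inv_mul_cancel₀ (hd0 p)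
  · ext p q
    rw [Matrix.mul_diagonal, Matrix.diagonal_mul, Matrix.smul_apply, smul_eq_mul]
    have hq : q.1.2 < a q.1.1 := q.2
    unfold NA
    by_cases h1 : q.1.2 + 1 < a q.1.1
    · rw [if_pos h1, if_pos h1]
      by_cases h2 : p.1 = (q.1.1, q.1.2 + 1)
      · rw [if_pos h2, hd, hd, h2]
        have e : a q.1.1 - q.1.2 = (a q.1.1 - (q.1.2 + 1)) + 1 := by omega
        simp only
        rw [e, pow_succ]; ring
      · rw [if_neg h2]; ring
    · rw [if_neg h1, if_neg h1, hd q]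
      have e : a q.1.1 - q.1.2 = 1 := by omega
      rw [e, pow_one]
      unfold scal
      rw [← hd p]; ring

end Pool.Agent.Helper438.Sc
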