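import Pool.Agent.Helper438.Sc.Defs
import Pool.Agent.Helper438.Sc.P_diag_nilp
import Pool.Agent.Helper438.Sc.P_good_conj_left
import Pool.Agent.Helper438.Sc.P_good_conj_right
import Pool.Agent.Helper438.Sc.P_good_smul
import Pool.Agent.Helper438.Sc.P_good_of_nilpotent
import Pool.Agent.Helper438.Sc.P_scal_conj

/-! Singular cohomology, the Borel construction of the stack of torsion sheaves on the projective
line, and all the auxiliary spaces used in the computation. -/

namespace Pool.Agent.Helper438.Sc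

universe u v w



theorem scal_Wc (a b : ℕ →₀ ℕ) (c : Cd a × Cd b) (hc : c ∈ Wc a b) (r : ℝ) (hr : 0 ≤ r)
    (hr1 : r ≤ 1) : (scal a r c.1, scal b r c.2) ∈ Wc a b := by
  show good (NA a (scal a r c.1)) (NA b (scal b r c.2))
  rcases hr.eq_or_lt with h0 | hpos
  · apply good_of_nilpotent
    apply diag_nilp
    intro j p _
    have hp : p.1.2 < b p.1.1 := p.2
    show (r : ℂ) ^ (b p.1.1 - p.1.2) * c.2 j p = 0
    rw [← h0, Complex.ofReal_zero, zero_pow (by omega), zero_mul]
  · obtain ⟨P, Q, h1, -, h2⟩ := scal_conj a r hpos c.1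
    obtain ⟨P', Q', h1', -, h2'⟩ := scal_conj b r hpos c.2
    have hg : good ((r : ℂ) • NA a c.1) ((r : ℂ) • NA b c.2) :=
      good_smul _ _ hc r r hr hr1 hr hr1
    exact good_conj_right _ _ _ P' Q' h1' h2' (good_conj_left _ _ P Q _ h1 h2 hg)

end Pool.Agent.Helper438.Sc
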