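import Pool.Agent.Helper438.Sc.Defs
import Pool.Agent.Helper438.Sc.P_scal_Wc
import Pool.Agent.Helper438.Sc.P_RV_retract
import Pool.Agent.Helper438.Sc.P_RV_contractible

/-! Singular cohomology, the Borel construction of the stack of torsion sheaves on the projective
line, and all the auxiliary spaces used in the computation. -/

namespace Pool.Agent.Helper438.Sc

universe u v w



theorem aux_scal_zero (a : ℕ →₀ ℕ) (c : Cd a) : scal a 0 c = 0 := by
  funext j p
  unfold scal
  have hp : p.1.2 < a p.1.1 := p.2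
  have : a p.1.1 - p.1.2 ≠ 0 := by omega
  simp [this]

theorem aux_scal_one (a : ℕ →₀ ℕ) (c : Cd a) : scal a 1 c = c := by
  funext j p
  unfold scal
  simp

theorem aux_contr (a b : ℕ →₀ ℕ) (c₀ : Wc a b) : ContractibleSpace (Wc a b) := by
  rw [contractible_iff_id_nullhomotopic]
  have h0 : ((0, 0) : Cd a × Cd b) ∈ Wc a b := by
    have h := scal_Wc a b c₀.1 c₀.2 0 le_rfl zero_le_one
    rwa [aux_scal_zero, aux_scal_zero] at h
  refine ⟨⟨(0, 0), h0⟩, ⟨⟨⟨fun p => ⟨(scal a (1 - (p.1 : ℝ)) p.2.1.1,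
    scal b (1 - (p.1 : ℝ)) p.2.1.2), scal_Wc a b p.2.1 p.2.2 _ (by linarith [p.1.2.2])
      (by linarith [p.1.2.1])⟩, ?_⟩, ?_, ?_⟩⟩⟩
  · refine Continuous.subtype_mk ?_ _
    refine Continuous.prodMk ?_ ?_
    · unfold scal
      fun_prop
    · unfold scal
      fun_prop
  · intro x
    apply Subtype.ext
    show (scal a (1 - ((0 : unitInterval) : ℝ)) x.1.1, scal b (1 - ((0 : unitInterval) : ℝ)) x.1.2)
      = x.1
    rw [Set.Icc.coe_zero, sub_zero, aux_scal_one, aux_scal_one]
  · intro x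
    apply Subtype.ext
    show (scal a (1 - ((1 : unitInterval) : ℝ)) x.1.1, scal b (1 - ((1 : unitInterval) : ℝ)) x.1.2)
      = ((0, 0) : Cd a × Cd b)
    rw [Set.Icc.coe_one, sub_self, aux_scal_zero, aux_scal_zero]

theorem RV_Wc (k : Type v) [CommRing k] (a b : ℕ →₀ ℕ) (q : ℕ) : RV k (Wc a b) q := by
  by_cases hne : Nonempty (Wc a b)
  · obtain ⟨c₀⟩ := hne
    have := aux_contr a b c₀
    exact RV_contractible k q
  · have hemp : ∀ n, IsEmpty (Sing (Wc a b) n) := by
      intro n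
      refine ⟨fun σ => hne ⟨σ ⟨Pi.single 0 1, ?_⟩⟩⟩
      exact single_mem_stdSimplex ℝ 0
    cases q with
    | zero =>
      intro c _
      exact ⟨0, fun σ => ((hemp 0).false σ).elim⟩
    | succ n =>
      intro c _
      exact ⟨0, funext fun σ => ((hemp (n + 1)).false σ).elim⟩

end Pool.Agent.Helper438.Sc
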