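import Pool.Agent.Helper438.Sc.Defs
import Pool.Agent.Helper438.Sc.P_RV_retract
import Pool.Agent.Helper438.Sc.P_RV_homeo
import Pool.Agent.Helper438.Sc.P_RV_contractible
import Pool.Agent.Helper438.Sc.P_RV_zero
import Pool.Agent.Helper438.Sc.P_RV_glue

/-! Singular cohomology, the Borel construction of the stack of torsion sheaves on the projective
line, and all the auxiliary spaces used in the computation. -/

namespace Pool.Agent.Helper438.Sc

universe u v w



theorem RV_punct_real_empty {X : Type} [TopologicalSpace X] [IsEmpty X] (k : Type v) [CommRing k]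
    (q : ℕ) : RV k X q := by
  have hE : ∀ n, IsEmpty (Sing X n) := fun n =>
    ⟨fun σ => IsEmpty.false (σ ⟨Pi.single 0 1, single_mem_stdSimplex ℝ 0⟩)⟩
  cases q with
  | zero =>
    intro c _
    exact ⟨0, fun σ => (hE 0).elim σ⟩
  | succ n =>
    intro c _
    exact ⟨0, funext fun σ => (hE _).elim σ⟩

/-- a subset of a subtype, seen as a subset of the whole space -/
def RV_punct_real_hom {E : Type} [TopologicalSpace E] (p : E → Prop) (T : Set E)
    (hT : ∀ x ∈ T, p x) : {x : {x : E // p x} | x.1 ∈ T} ≃ₜ T where
  toFun x := ⟨x.1.1, x.2⟩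
  invFun y := ⟨⟨y.1, hT y.1 y.2⟩, y.2⟩
  left_inv x := rfl
  right_inv y := rfl
  continuous_toFun := Continuous.subtype_mk (continuous_subtype_val.comp continuous_subtype_val) _
  continuous_invFun := Continuous.subtype_mk (Continuous.subtype_mk continuous_subtype_val _) _

theorem RV_punct_real_star {E : Type} [AddCommGroup E] [Module ℝ E] [TopologicalSpace E]
    [ContinuousAdd E] [ContinuousSMul ℝ E] (p : E → Prop) (T : Set E)
    (hT : ∀ x ∈ T, p x) (k : Type v) [CommRing k] (q : ℕ) (x0 : E) (hx0 : x0 ∈ T)
    (hs : StarConvex ℝ x0 T) : RV k {x : {x : E // p x} | x.1 ∈ T} q := by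
  haveI : ContractibleSpace T := hs.contractibleSpace ⟨x0, hx0⟩
  exact RV_homeo k (RV_punct_real_hom p T hT) q (RV_contractible k q)

theorem RV_punct_real_retr (k : Type v) [CommRing k] (m q : ℕ)
    (h : RV k {x : Fin (m + 1) → ℝ // x ≠ 0} q) (T : Set (Fin (m + 1 + 1) → ℝ))
    (hT : ∀ x, x ∈ T ↔ ∃ i : Fin (m + 1), x i.castSucc ≠ 0) : RV k T q := by
  have hmem : ∀ (y : Fin (m + 1) → ℝ) (z : ℝ), y ≠ 0 → (Fin.snoc y z : Fin (m + 1 + 1) → ℝ) ∈ T := by
    intro y z hy
    rw [hT]
    by_contra hc
    push Not at hc
    apply hy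
    funext i
    have := hc i
    simpa using this
  have hne : ∀ x ∈ T, (fun i : Fin (m + 1) => x i.castSucc) ≠ 0 := by
    intro x hx h0
    obtain ⟨i, hi⟩ := (hT x).1 hx
    exact hi (congr_fun h0 i)
  let s : C(T, {x : Fin (m + 1) → ℝ // x ≠ 0}) :=
    ⟨fun x => ⟨fun i => x.1 i.castSucc, hne x.1 x.2⟩, Continuous.subtype_mk
      (continuous_pi (fun i => (continuous_apply i.castSucc).comp continuous_subtype_val)) _⟩
  let r : C({x : Fin (m + 1) → ℝ // x ≠ 0}, T) :=
    ⟨fun y => ⟨Fin.snoc y.1 0, hmem y.1 0 y.2⟩, Continuous.subtype_mk (by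
      refine continuous_pi (fun i => ?_)
      refine Fin.lastCases ?_ (fun j => ?_) i
      · simp only [Fin.snoc_last]; exact continuous_const
      · simp only [Fin.snoc_castSucc]; exact (continuous_apply j).comp continuous_subtype_val) _⟩
  refine RV_retract k s r ?_ q h
  refine ⟨{ toFun := fun p => ⟨Fin.snoc (fun i : Fin (m + 1) => p.2.1 i.castSucc)
              ((p.1 : ℝ) * p.2.1 (Fin.last _)), hmem _ _ (hne p.2.1 p.2.2)⟩
            continuous_toFun := Continuous.subtype_mk (by
              refine continuous_pi (fun i => ?_)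
              refine Fin.lastCases ?_ (fun j => ?_) i
              · simp only [Fin.snoc_last]
                exact (continuous_subtype_val.comp continuous_fst).mul
                  ((continuous_apply (Fin.last (m + 1))).comp (continuous_subtype_val.comp continuous_snd))
              · simp only [Fin.snoc_castSucc]
                exact (continuous_apply j.castSucc).comp (continuous_subtype_val.comp continuous_snd)) _
            map_zero_left := ?_
            map_one_left := ?_ }⟩
  · intro x
    apply Subtype.ext
    change (Fin.snoc (fun i : Fin (m + 1) => x.1 i.castSucc) (((0 : unitInterval) : ℝ) * x.1 (Fin.last _)) : Fin (m + 1 + 1) → ℝ)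
      = Fin.snoc (fun i : Fin (m + 1) => x.1 i.castSucc) 0
    simp
  · intro x
    apply Subtype.ext
    change (Fin.snoc (fun i : Fin (m + 1) => x.1 i.castSucc) (((1 : unitInterval) : ℝ) * x.1 (Fin.last _)) : Fin (m + 1 + 1) → ℝ)
      = x.1
    funext i
    refine Fin.lastCases ?_ (fun j => ?_) i
    · simp
    · simp

theorem RV_punct_real_glue {E : Type} [TopologicalSpace E] (p : E → Prop) (k : Type v) [CommRing k]
    (T₁ T₂ : Set E) (h₁ : IsOpen T₁) (h₂ : IsOpen T₂) (hp : ∀ x, p x → x ∈ T₁ ∨ x ∈ T₂) (q : ℕ)
    (r₁ : RV k {x : {x : E // p x} | x.1 ∈ T₁} (q + 1))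
    (r₂ : RV k {x : {x : E // p x} | x.1 ∈ T₂} (q + 1))
    (r₃ : RV k ({x : {x : E // p x} | x.1 ∈ T₁ ∩ T₂} : Set {x : E // p x}) q) : RV k {x : E // p x} (q + 1) := by
  have h := RV_glue k {x : {x : E // p x} | x.1 ∈ T₁} {x : {x : E // p x} | x.1 ∈ T₂}
    (h₁.preimage continuous_subtype_val) (h₂.preimage continuous_subtype_val) q r₁ r₂ r₃
  have hU : ({x : {x : E // p x} | x.1 ∈ T₁} ∪ {x : {x : E // p x} | x.1 ∈ T₂} : Set _) = Set.univ := by
    rw [Set.eq_univ_iff_forall]
    rintro ⟨x, hx⟩
    exact hp x hx
  rw [hU] at h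
  exact RV_homeo k (Homeomorph.Set.univ _).symm (q + 1) h

theorem RV_punct_real (k : Type v) [CommRing k] (m q : ℕ) (hq : q ≠ m) :
    RV k {x : Fin (m + 1) → ℝ // x ≠ 0} q := by
  induction m generalizing q with
  | zero =>
    obtain ⟨q', rfl⟩ : ∃ q', q = q' + 1 := Nat.exists_eq_succ_of_ne_zero hq
    refine RV_punct_real_glue (fun x : Fin (0 + 1) → ℝ => x ≠ 0) k {x | 0 < x 0} {x | x 0 < 0}
      (isOpen_lt continuous_const (continuous_apply 0)) (isOpen_lt (continuous_apply 0) continuous_const)
      ?_ q' ?_ ?_ ?_
    · intro x hx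
      rcases lt_trichotomy (x 0) 0 with h | h | h
      · exact Or.inr h
      · exfalso; apply hx
        funext i
        have : i = 0 := Fin.ext (by omega)
        rw [this, h]; rfl
      · exact Or.inl h
    · refine RV_punct_real_star _ _ ?_ k _ (fun _ => 1) (by simp) ?_
      · intro x hx h0
        have hx' : 0 < x 0 := hx
        rw [h0] at hx'
        simp at hx'
      · refine Convex.starConvex ?_ (by simp)
        exact convex_halfSpace_gt (LinearMap.isLinear (LinearMap.proj (R := ℝ) (φ := fun _ : Fin (0+1) => ℝ) 0)) 0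
    · refine RV_punct_real_star _ _ ?_ k _ (fun _ => -1) (by simp) ?_
      · intro x hx h0
        have hx' : x 0 < 0 := hx
        rw [h0] at hx'
        simp at hx'
      · refine Convex.starConvex ?_ (by simp)
        exact convex_halfSpace_lt (LinearMap.isLinear (LinearMap.proj (R := ℝ) (φ := fun _ : Fin (0+1) => ℝ) 0)) 0
    · haveI : IsEmpty ({x : {x : Fin (0 + 1) → ℝ // x ≠ 0} | x.1 ∈ {x : Fin (0 + 1) → ℝ | 0 < x 0} ∩ {x | x 0 < 0}} : Set _) := by
        refine ⟨fun x => ?_⟩
        have h1 : 0 < x.1.1 0 := x.2.1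
        have h2 : x.1.1 0 < 0 := x.2.2
        linarith
      exact RV_punct_real_empty k q'
  | succ m ih =>
    rcases Nat.eq_zero_or_pos q with rfl | hq0
    · have hpc : IsPathConnected ({(0 : Fin (m + 1 + 1) → ℝ)}ᶜ) := by
        apply isPathConnected_compl_singleton_of_one_lt_rank
        rw [rank_fin_fun]
        exact_mod_cast (by omega : 1 < m + 1 + 1)
      haveI : PathConnectedSpace {x : Fin (m + 1 + 1) → ℝ // x ≠ 0} :=
        isPathConnected_iff_pathConnectedSpace.1 hpc
      exact RV_zero k
    · obtain ⟨q', rfl⟩ : ∃ q', q = q' + 1 := Nat.exists_eq_succ_of_ne_zero hq0.ne'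
      have hq' : q' ≠ m := fun h => hq (by rw [h])
      set T₁ : Set (Fin (m + 1 + 1) → ℝ) := {x | ¬ ((∀ i : Fin (m + 1), x i.castSucc = 0) ∧ x (Fin.last _) ≤ 0)} with hT₁
      set T₂ : Set (Fin (m + 1 + 1) → ℝ) := {x | ¬ ((∀ i : Fin (m + 1), x i.castSucc = 0) ∧ 0 ≤ x (Fin.last _))} with hT₂
      have hc0 : IsClosed {x : Fin (m + 1 + 1) → ℝ | ∀ i : Fin (m + 1), x i.castSucc = 0} := by
        simp only [Set.setOf_forall]
        exact isClosed_iInter (fun i => isClosed_eq (continuous_apply _) continuous_const)
      have ho₁ : IsOpen T₁ := by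
        have : IsClosed {x : Fin (m + 1 + 1) → ℝ | (∀ i : Fin (m + 1), x i.castSucc = 0) ∧ x (Fin.last _) ≤ 0} :=
          hc0.inter (isClosed_le (continuous_apply _) continuous_const)
        exact this.isOpen_compl
      have ho₂ : IsOpen T₂ := by
        have : IsClosed {x : Fin (m + 1 + 1) → ℝ | (∀ i : Fin (m + 1), x i.castSucc = 0) ∧ 0 ≤ x (Fin.last _)} :=
          hc0.inter (isClosed_le continuous_const (continuous_apply _))
        exact this.isOpen_compl
      have hn₁ : ∀ x ∈ T₁, x ≠ 0 := by
        rintro x hx rfl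
        exact hx (by simp)
      have hn₂ : ∀ x ∈ T₂, x ≠ 0 := by
        rintro x hx rfl
        exact hx (by simp)
      refine RV_punct_real_glue (fun x : Fin (m + 1 + 1) → ℝ => x ≠ 0) k T₁ T₂ ho₁ ho₂ ?_ q' ?_ ?_ ?_
      · intro x hx
        by_contra hc
        push Not at hc
        have h1 : (∀ i : Fin (m + 1), x i.castSucc = 0) ∧ x (Fin.last _) ≤ 0 := not_not.1 hc.1
        have h2 : (∀ i : Fin (m + 1), x i.castSucc = 0) ∧ 0 ≤ x (Fin.last _) := not_not.1 hc.2
        apply hx
        funext i
        refine Fin.lastCases ?_ (fun j => ?_) i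
        · exact le_antisymm h1.2 h2.2
        · exact h1.1 j
      · refine RV_punct_real_star _ T₁ hn₁ k _ (Pi.single (Fin.last _) 1) ?_ ?_
        · intro h
          have := h.2
          simp at this
          linarith
        · intro x hx a b ha hb hab hmem
          apply hx
          have h1 := hmem.1
          have h2 := hmem.2
          simp only [Pi.add_apply, Pi.smul_apply, Pi.single_eq_same, smul_eq_mul, mul_one] at h2
          have h3 : ∀ i : Fin (m + 1), b * x i.castSucc = 0 := by
            intro i
            have := h1 i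
            simpa [Pi.single_apply, (Fin.castSucc_lt_last i).ne] using this
          have hb0 : 0 < b := by
            rcases lt_or_eq_of_le hb with h | h
            · exact h
            · exfalso
              rw [← h] at h2 hab
              linarith
          refine ⟨fun i => ?_, ?_⟩
          · rcases mul_eq_zero.1 (h3 i) with h | h
            · exact absurd h hb0.ne'
            · exact h
          · by_contra hc
            push Not at hc
            nlinarith [mul_pos hb0 hc]
      · refine RV_punct_real_star _ T₂ hn₂ k _ (Pi.single (Fin.last _) (-1)) ?_ ?_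
        · intro h
          have := h.2
          simp at this
          linarith
        · intro x hx a b ha hb hab hmem
          apply hx
          have h1 := hmem.1
          have h2 := hmem.2
          simp only [Pi.add_apply, Pi.smul_apply, Pi.single_eq_same, smul_eq_mul] at h2
          have h3 : ∀ i : Fin (m + 1), b * x i.castSucc = 0 := by
            intro i
            have := h1 i
            simpa [Pi.single_apply, (Fin.castSucc_lt_last i).ne] using this
          have hb0 : 0 < b := by
            rcases lt_or_eq_of_le hb with h | h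
            · exact h
            · exfalso
              rw [← h] at h2 hab
              linarith
          refine ⟨fun i => ?_, ?_⟩
          · rcases mul_eq_zero.1 (h3 i) with h | h
            · exact absurd h hb0.ne'
            · exact h
          · by_contra hc
            push Not at hc
            nlinarith [mul_neg_of_pos_of_neg hb0 hc]
      · refine RV_homeo k (RV_punct_real_hom _ (T₁ ∩ T₂) (fun x hx => hn₁ x hx.1)) q' ?_
        refine RV_punct_real_retr k m q' (ih q' hq') _ ?_
        intro x
        constructor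
        · rintro ⟨h1, h2⟩
          by_contra hc
          push Not at hc
          rcases le_total (x (Fin.last _)) 0 with h | h
          · exact h1 ⟨hc, h⟩
          · exact h2 ⟨hc, h⟩
        · rintro ⟨i, hi⟩
          exact ⟨fun h => hi (h.1 i), fun h => hi (h.1 i)⟩

end Pool.Agent.Helper438.Sc
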