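import Pool.Agent.Helper438.Sc.Defs
import Pool.Agent.Helper438.Sc.P_RV_homeo
import Pool.Agent.Helper438.Sc.P_RV_punct_real

/-! Singular cohomology, the Borel construction of the stack of torsion sheaves on the projective
line, and all the auxiliary spaces used in the computation. -/

namespace Pool.Agent.Helper438.Sc

universe u v w



theorem RV_punct (k : Type v) [CommRing k] (N : Type) [Fintype N] (hN : 0 < Fintype.card N)
    (q : ℕ) (hq : Even q) : RV k {x : N → ℂ // x ≠ 0} q := by
  obtain ⟨m, hm⟩ : ∃ m, m + 1 = Fintype.card N * 2 := ⟨Fintype.card N * 2 - 1, by omega⟩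
  have hfr : Module.finrank ℝ (N → ℂ) = Module.finrank ℝ (Fin (m + 1) → ℝ) := by
    rw [Module.finrank_pi_fintype, Module.finrank_fin_fun, hm]
    simp [Complex.finrank_real_complex]
  let e : (N → ℂ) ≃L[ℝ] (Fin (m + 1) → ℝ) :=
    (LinearEquiv.ofFinrankEq _ _ hfr).toContinuousLinearEquiv
  refine RV_homeo k (e.toHomeomorph.subtype (p := fun x : N → ℂ => x ≠ 0)
    (q := fun x : Fin (m + 1) → ℝ => x ≠ 0) ?_) q (RV_punct_real k m q ?_)
  · intro x
    rw [not_iff_not]
    exact (e.map_eq_zero_iff (x := x)).symm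
  · rintro rfl
    obtain ⟨r, hr⟩ := hq
    omega

end Pool.Agent.Helper438.Sc
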