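import Pool.Agent.Helper438.Sc.Defs

/-! Singular cohomology, the Borel construction of the stack of torsion sheaves on the projective
line, and all the auxiliary spaces used in the computation. -/

namespace Pool.Agent.Helper438.Sc

universe u v w



theorem nrm_mul {α β γ : Type} [Fintype α] [Fintype β] [Fintype γ] (A : Matrix α β ℂ)
    (B : Matrix β γ ℂ) : nrm (A * B) ≤ nrm A * nrm B := by
  unfold nrm
  calc ∑ i, ∑ k, ‖(A * B) i k‖ ≤ ∑ i, ∑ k, ∑ j, ‖A i j‖ * ‖B j k‖ := by
        refine Finset.sum_le_sum fun i _ => Finset.sum_le_sum fun k _ => ?_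
        rw [Matrix.mul_apply]
        refine (norm_sum_le _ _).trans (Finset.sum_le_sum fun j _ => ?_)
        rw [norm_mul]
    _ = ∑ i, ∑ j, ‖A i j‖ * ∑ k, ‖B j k‖ := by
        refine Finset.sum_congr rfl fun i _ => ?_
        rw [Finset.sum_comm]
        exact Finset.sum_congr rfl fun j _ => (Finset.mul_sum _ _ _).symm
    _ ≤ ∑ i, ∑ j, ‖A i j‖ * ∑ j, ∑ k, ‖B j k‖ := by
        refine Finset.sum_le_sum fun i _ => Finset.sum_le_sum fun j _ => ?_
        refine mul_le_mul_of_nonneg_left ?_ (norm_nonneg _)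
        exact Finset.single_le_sum (f := fun j => ∑ k, ‖B j k‖)
          (fun j _ => Finset.sum_nonneg fun k _ => norm_nonneg _) (Finset.mem_univ j)
    _ = (∑ i, ∑ j, ‖A i j‖) * ∑ j, ∑ k, ‖B j k‖ := by
        simp only [Finset.sum_mul]

end Pool.Agent.Helper438.Sc
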