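import Pool.Agent.Helper438.Sc.Defs
import Pool.Agent.Helper438.Sc.P_nrm_mul

/-! Singular cohomology, the Borel construction of the stack of torsion sheaves on the projective
line, and all the auxiliary spaces used in the computation. -/

namespace Pool.Agent.Helper438.Sc

universe u v w



theorem gin_pack {α : Type} [Fintype α] [DecidableEq α] [Nonempty α] (A : Matrix α α ℂ) :
    (∀ x ∈ spectrum ℂ A, ∀ m : ℕ, ‖x‖ ^ m ≤ nrm (A ^ m)) ∧
    ∃ x ∈ spectrum ℂ A, ∀ r : ℝ, ‖x‖ < r →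
      ∀ᶠ n : ℕ in Filter.atTop, nrm (A ^ n) ≤ (Fintype.card α : ℝ) * r ^ n := by
  let i1 : NormedRing (Matrix α α ℂ) := Matrix.linftyOpNormedRing
  let i2 : NormedAlgebra ℂ (Matrix α α ℂ) := Matrix.linftyOpNormedAlgebra
  have i3 : CompleteSpace (Matrix α α ℂ) := FiniteDimensional.complete ℂ _
  have i4 : NormOneClass (Matrix α α ℂ) := Matrix.linfty_opNormOneClass
  have h1 : ∀ M : Matrix α α ℂ, ‖M‖ ≤ nrm M := by
    intro M
    rw [Matrix.linfty_opNorm_def]
    have h2 : ((Finset.univ : Finset α).sup fun i : α => ∑ j : α, ‖M i j‖₊) ≤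
        ∑ i, ∑ j, ‖M i j‖₊ := by
      refine Finset.sup_le fun i _ => ?_
      exact Finset.single_le_sum (f := fun i => ∑ j : α, ‖M i j‖₊) (fun _ _ => bot_le)
        (Finset.mem_univ i)
    have h3 := NNReal.coe_le_coe.2 h2
    refine h3.trans (le_of_eq ?_)
    unfold nrm
    push_cast
    rfl
  have h2 : ∀ M : Matrix α α ℂ, nrm M ≤ (Fintype.card α : ℝ) * ‖M‖ := by
    intro M
    rw [Matrix.linfty_opNorm_def]
    unfold nrm
    have h3 : ∀ i : α, ∑ j, ‖M i j‖ ≤
        (((Finset.univ : Finset α).sup fun i : α => ∑ j : α, ‖M i j‖₊ : NNReal) : ℝ) := by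
      intro i
      have h4 := Finset.le_sup (f := fun i : α => ∑ j : α, ‖M i j‖₊) (Finset.mem_univ i)
      have h5 := NNReal.coe_le_coe.2 h4
      refine le_trans (le_of_eq ?_) h5
      push_cast
      rfl
    refine (Finset.sum_le_sum fun i _ => h3 i).trans ?_
    rw [Finset.sum_const, Finset.card_univ, nsmul_eq_mul]
  constructor
  · intro x hx m
    have h3 : x ^ m ∈ spectrum ℂ (A ^ m) := spectrum.pow_mem_pow A m hx
    have h4 := spectrum.norm_le_norm_of_mem h3
    rw [norm_pow] at h4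
    exact h4.trans (h1 _)
  · obtain ⟨x, hx, hxr⟩ := spectrum.exists_nnnorm_eq_spectralRadius A
    refine ⟨x, hx, ?_⟩
    intro r hr
    have hg := spectrum.pow_nnnorm_pow_one_div_tendsto_nhds_spectralRadius A
    rw [← hxr] at hg
    have hr0 : 0 < r := (norm_nonneg x).trans_lt hr
    have hlt : ((‖x‖₊ : NNReal) : ENNReal) < ((r.toNNReal : NNReal) : ENNReal) := by
      rw [ENNReal.coe_lt_coe, ← NNReal.coe_lt_coe, Real.coe_toNNReal _ hr0.le]
      exact hr
    filter_upwards [hg.eventually_lt_const hlt, Filter.eventually_ge_atTop 1] with n hn hn1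
    refine (h2 _).trans ?_
    refine mul_le_mul_of_nonneg_left ?_ (Nat.cast_nonneg _)
    have hn0 : (0 : ℝ) < n := by exact_mod_cast hn1
    have h5 : ((‖A ^ n‖₊ : NNReal) : ENNReal) ≤ ((r.toNNReal : NNReal) : ENNReal) ^ (n : ℝ) := by
      have h6 := ENNReal.rpow_le_rpow hn.le hn0.le
      rwa [← ENNReal.rpow_mul, one_div, inv_mul_cancel₀ hn0.ne', ENNReal.rpow_one] at h6
    rw [ENNReal.rpow_natCast, ← ENNReal.coe_pow, ENNReal.coe_le_coe, ← NNReal.coe_le_coe] at h5
    rw [NNReal.coe_pow, Real.coe_toNNReal _ hr0.le] at h5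
    exact h5

theorem gin_nonneg {α β : Type} [Fintype α] [Fintype β] (A : Matrix α β ℂ) : 0 ≤ nrm A :=
  Finset.sum_nonneg fun _ _ => Finset.sum_nonneg fun _ _ => norm_nonneg _

theorem gin_ne {α : Type} [Fintype α] [DecidableEq α] {A : Matrix α α ℂ} {x : ℂ}
    (hx : x ∈ spectrum ℂ A) : Nonempty α := by
  by_contra h
  rw [not_nonempty_iff] at h
  rw [spectrum.mem_iff] at hx
  exact hx (isUnit_of_subsingleton _)

theorem gin_exists {s t : ℝ} (hst : s * t < 1) :
    ∃ r q : ℝ, s < r ∧ t < q ∧ r * q < 1 := by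
  have h1 : Filter.Tendsto (fun ε : ℝ => (s + ε) * (t + ε)) (nhdsWithin 0 (Set.Ioi 0))
      (nhds ((s + 0) * (t + 0))) := by
    have : Continuous (fun ε : ℝ => (s + ε) * (t + ε)) := by fun_prop
    exact (this.tendsto 0).mono_left nhdsWithin_le_nhds
  have h2 : (s + 0) * (t + 0) < 1 := by simpa using hst
  obtain ⟨ε, hε, hε0⟩ := ((h1.eventually_lt_const h2).and self_mem_nhdsWithin).exists
  have hε1 : 0 < ε := hε0
  exact ⟨s + ε, t + ε, by linarith, by linarith, hε⟩

theorem good_iff_nrm {α β : Type} [Fintype α] [DecidableEq α] [Fintype β] [DecidableEq β]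
    (A : Matrix α α ℂ) (B : Matrix β β ℂ) :
    good A B ↔ ∃ m : ℕ, 1 ≤ m ∧ nrm (A ^ m) * nrm (B ^ m) < 1 := by
  constructor
  · intro h
    rcases isEmpty_or_nonempty α with hα | hα
    · refine ⟨1, le_rfl, ?_⟩
      have : nrm (A ^ 1) = 0 := by simp [nrm]
      rw [this, zero_mul]
      exact one_pos
    rcases isEmpty_or_nonempty β with hβ | hβ
    · refine ⟨1, le_rfl, ?_⟩
      have : nrm (B ^ 1) = 0 := by simp [nrm]
      rw [this, mul_zero]
      exact one_pos
    obtain ⟨-, x, hx, hx2⟩ := gin_pack A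
    obtain ⟨-, y, hy, hy2⟩ := gin_pack B
    have hxy := h x hx y hy
    rw [norm_mul] at hxy
    obtain ⟨r, q, hr, hq, hrq⟩ := gin_exists hxy
    have hr0 : 0 < r := (norm_nonneg x).trans_lt hr
    have hq0 : 0 < q := (norm_nonneg y).trans_lt hq
    have h3 : Filter.Tendsto (fun n : ℕ => ((Fintype.card α : ℝ) * (Fintype.card β : ℝ)) *
        (r * q) ^ n) Filter.atTop (nhds (((Fintype.card α : ℝ) * (Fintype.card β : ℝ)) * 0)) :=
      (tendsto_pow_atTop_nhds_zero_of_lt_one (by positivity) hrq).const_mul _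
    rw [mul_zero] at h3
    obtain ⟨n, ⟨⟨h4, h5⟩, h6⟩, h7⟩ := ((((hx2 r hr).and (hy2 q hq)).and
      (h3.eventually_lt_const one_pos)).and (Filter.eventually_ge_atTop 1)).exists
    refine ⟨n, h7, ?_⟩
    refine lt_of_le_of_lt ?_ h6
    refine (mul_le_mul h4 h5 (gin_nonneg _) (by positivity)).trans (le_of_eq ?_)
    rw [mul_pow]
    ring
  · rintro ⟨m, hm, hlt⟩ x hx y hy
    have hα := gin_ne hx
    have hβ := gin_ne hy
    have h1 := (gin_pack A).1 x hx m
    have h2 := (gin_pack B).1 y hy m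
    have h3 : ‖x * y‖ ^ m < 1 := by
      rw [norm_mul, mul_pow]
      exact (mul_le_mul h1 h2 (by positivity) (gin_nonneg _)).trans_lt hlt
    exact (pow_lt_one_iff_of_nonneg (norm_nonneg _) (by omega)).1 h3

end Pool.Agent.Helper438.Sc
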