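import Pool.Agent.Helper438.Sc.Defs
import Pool.Agent.Helper438.Sc.P_good_iff_nrm

/-! Singular cohomology, the Borel construction of the stack of torsion sheaves on the projective
line, and all the auxiliary spaces used in the computation. -/

namespace Pool.Agent.Helper438.Sc

universe u v w



theorem good_open_nrm {α β : Type} [Fintype α] [Fintype β] :
    Continuous (fun A : Matrix α β ℂ => nrm A) := by
  unfold nrm
  refine continuous_finsetSum _ (fun i _ => continuous_finsetSum _ (fun j _ => ?_))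
  exact ((continuous_apply_apply i j)).norm

theorem good_open {α β : Type} [Fintype α] [DecidableEq α] [Fintype β] [DecidableEq β] :
    IsOpen {p : Matrix α α ℂ × Matrix β β ℂ | good p.1 p.2} := by
  have h1 : {p : Matrix α α ℂ × Matrix β β ℂ | good p.1 p.2} =
      ⋃ m : ℕ, {p : Matrix α α ℂ × Matrix β β ℂ |
        1 ≤ m ∧ nrm (p.1 ^ m) * nrm (p.2 ^ m) < 1} := by
    ext p
    rw [Set.mem_iUnion]
    exact good_iff_nrm p.1 p.2
  rw [h1]
  refine isOpen_iUnion (fun m => ?_)
  by_cases hm : 1 ≤ m
  · have h2 : {p : Matrix α α ℂ × Matrix β β ℂ |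
        1 ≤ m ∧ nrm (p.1 ^ m) * nrm (p.2 ^ m) < 1} =
        {p : Matrix α α ℂ × Matrix β β ℂ | nrm (p.1 ^ m) * nrm (p.2 ^ m) < 1} := by
      ext p
      simp [hm]
    rw [h2]
    refine isOpen_lt ?_ continuous_const
    have c1 : Continuous (fun p : Matrix α α ℂ × Matrix β β ℂ => p.1 ^ m) :=
      continuous_fst.pow m
    have c2 : Continuous (fun p : Matrix α α ℂ × Matrix β β ℂ => p.2 ^ m) :=
      continuous_snd.pow m
    exact (good_open_nrm.comp c1).mul (good_open_nrm.comp c2)
  · have h2 : {p : Matrix α α ℂ × Matrix β β ℂ |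
        1 ≤ m ∧ nrm (p.1 ^ m) * nrm (p.2 ^ m) < 1} = ∅ := by
      ext p
      simp [hm]
    rw [h2]
    exact isOpen_empty

end Pool.Agent.Helper438.Sc
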