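import Pool.Agent.Helper438.Sc.Defs
import Pool.Agent.Helper438.Sc.P_good_open

/-! Singular cohomology, the Borel construction of the stack of torsion sheaves on the projective
line, and all the auxiliary spaces used in the computation. -/

namespace Pool.Agent.Helper438.Sc

universe u v w



theorem Wc_open (a b : ℕ →₀ ℕ) : IsOpen (Wc a b) := by
  have hNA : ∀ d : ℕ →₀ ℕ, Continuous (NA d) := by
    intro d
    refine continuous_pi fun p => continuous_pi fun q => ?_
    unfold NA
    by_cases h : q.1.2 + 1 < d q.1.1
    · simp only [if_pos h]
      exact continuous_const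
    · simp only [if_neg h]
      exact (continuous_apply p).comp (continuous_apply q.1.1)
  have hc : Continuous (fun c : Cd a × Cd b => ((NA a c.1, NA b c.2) :
      Matrix (Ix a) (Ix a) ℂ × Matrix (Ix b) (Ix b) ℂ)) :=
    ((hNA a).comp continuous_fst).prodMk ((hNA b).comp continuous_snd)
  exact good_open.preimage hc

end Pool.Agent.Helper438.Sc
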