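import Pool.Agent.Helper438.Sc.Defs
import Pool.Agent.Helper438.Sc.P_diag_nilp
import Pool.Agent.Helper438.Sc.P_good_of_nilpotent
import Pool.Agent.Helper438.Sc.P_Wc_open

/-! Singular cohomology, the Borel construction of the stack of torsion sheaves on the projective
line, and all the auxiliary spaces used in the computation. -/

namespace Pool.Agent.Helper438.Sc

universe u v w



theorem Wc_box_aux {α : Type} [Fintype α] (U : Set (ℕ → α → ℂ)) (hU : U ∈ nhds (0 : ℕ → α → ℂ)) :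
    ∃ (ε : ℝ) (J : ℕ), 0 < ε ∧ ∀ c : ℕ → α → ℂ, (∀ j < J, ∀ p, ‖c j p‖ ≤ ε) → c ∈ U := by
  rw [nhds_pi, Filter.mem_pi] at hU
  obtain ⟨I, hI, t, ht, hsub⟩ := hU
  have ht' : ∀ i, ∃ e : ℝ, 0 < e ∧ Metric.ball (0 : α → ℂ) e ⊆ t i := fun i => by
    obtain ⟨e, he, hb⟩ := Metric.mem_nhds_iff.1 (ht i)
    exact ⟨e, he, hb⟩
  choose e he hb using ht'
  obtain ⟨ε, hε, hε0⟩ : ∃ ε : ℝ, (∀ i ∈ I, ε < e i) ∧ 0 < ε := by
    have h1 : ∀ᶠ ε in nhdsWithin (0 : ℝ) (Set.Ioi 0), ∀ i ∈ I, ε < e i :=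
      (Filter.eventually_all_finite hI).2 fun i _ =>
        mem_nhdsWithin_of_mem_nhds (Iio_mem_nhds (he i))
    exact (h1.and self_mem_nhdsWithin).exists
  obtain ⟨M, hM⟩ := hI.bddAbove
  refine ⟨ε, M + 1, hε0, fun c hc => hsub fun i hi => hb i ?_⟩
  rw [mem_ball_zero_iff]
  refine lt_of_le_of_lt ((pi_norm_le_iff_of_nonneg hε0.le).2 fun p => hc i ?_ p) (hε i hi)
  exact Nat.lt_succ_of_le (hM hi)

theorem Wc_box (a b : ℕ →₀ ℕ) : ∃ (ε : ℝ) (J : ℕ), 0 < ε ∧ ∀ c : Cd a × Cd b,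
    (∀ j < J, ∀ p, ‖c.1 j p‖ ≤ ε) → (∀ j < J, ∀ p, ‖c.2 j p‖ ≤ ε) → c ∈ Wc a b := by
  have h0 : ((0 : Cd a), (0 : Cd b)) ∈ Wc a b :=
    good_of_nilpotent _ _ (diag_nilp b 0 fun _ _ _ => rfl)
  have hn : Wc a b ∈ nhds ((0 : Cd a), (0 : Cd b)) := (Wc_open a b).mem_nhds h0
  obtain ⟨U, hU, V, hV, hUV⟩ := mem_nhds_prod_iff.1 hn
  obtain ⟨e1, J1, he1, h1⟩ := Wc_box_aux U hU
  obtain ⟨e2, J2, he2, h2⟩ := Wc_box_aux V hV
  refine ⟨min e1 e2, max J1 J2, lt_min he1 he2, fun c hc1 hc2 => hUV ⟨h1 _ ?_, h2 _ ?_⟩⟩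
  · exact fun j hj p => (hc1 j (lt_of_lt_of_le hj (le_max_left _ _)) p).trans (min_le_left _ _)
  · exact fun j hj p => (hc2 j (lt_of_lt_of_le hj (le_max_right _ _)) p).trans (min_le_right _ _)

end Pool.Agent.Helper438.Sc
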