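import Pool.Agent.Helper438.Sc.Defs
import Pool.Agent.Helper438.Sc.P_scal_Wc
import Pool.Agent.Helper438.Sc.P_Wc_box

/-! Singular cohomology, the Borel construction of the stack of torsion sheaves on the projective
line, and all the auxiliary spaces used in the computation. -/

namespace Pool.Agent.Helper438.Sc

universe u v w



section WDR

variable {a b : ℕ →₀ ℕ}

/-- general homotopy helper -/
theorem wdr_hom {X V : Type} [TopologicalSpace X] [TopologicalSpace V] {Z : Set V} (f g : C(X, Z))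
    (F : unitInterval × X → V) (hF : Continuous F) (hZ : ∀ p, F p ∈ Z)
    (h0 : ∀ x, F (0, x) = f x) (h1 : ∀ x, F (1, x) = g x) : f.Homotopic g :=
  ⟨{ toFun := fun p => ⟨F p, hZ p⟩
     continuous_toFun := hF.subtype_mk _
     map_zero_left := fun x => Subtype.ext (h0 x)
     map_one_left := fun x => Subtype.ext (h1 x) }⟩

def wdr_nA (a : ℕ →₀ ℕ) : Type := {x : ℕ × Ix a // x.1 < x.2.1.1}
def wdr_nB (b : ℕ →₀ ℕ) : Type := {x : ℕ × Ix b // x.1 ≤ x.2.1.1}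

instance wdr_finA (a : ℕ →₀ ℕ) : Finite (wdr_nA a) := by
  apply Finite.of_injective (β := Σ p : Ix a, Fin p.1.1)
    (fun x : wdr_nA a => (⟨x.1.2, ⟨x.1.1, x.2⟩⟩ : Σ p : Ix a, Fin p.1.1))
  intro x y h
  simp only [Sigma.mk.injEq] at h
  obtain ⟨h1, h2⟩ := h
  obtain ⟨⟨j, p⟩, hx⟩ := x
  obtain ⟨⟨j', p'⟩, hy⟩ := y
  simp only at h1 h2
  subst h1
  simp only [heq_eq_eq, Fin.mk.injEq] at h2
  subst h2
  rfl

instance wdr_finB (b : ℕ →₀ ℕ) : Finite (wdr_nB b) := by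
  apply Finite.of_injective (β := Σ p : Ix b, Fin (p.1.1 + 1))
    (fun x : wdr_nB b => (⟨x.1.2, ⟨x.1.1, Nat.lt_succ_of_le x.2⟩⟩ : Σ p : Ix b, Fin (p.1.1 + 1)))
  intro x y h
  simp only [Sigma.mk.injEq] at h
  obtain ⟨h1, h2⟩ := h
  obtain ⟨⟨j, p⟩, hx⟩ := x
  obtain ⟨⟨j', p'⟩, hy⟩ := y
  simp only at h1 h2
  subst h1
  simp only [heq_eq_eq, Fin.mk.injEq] at h2
  subst h2
  rfl

/-- extension by zero -/
noncomputable def wdr_ext (x : wdr_nA a ⊕ wdr_nB b → ℂ) : Cd a × Cd b :=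
  (fun j p => if h : j < p.1.1 then x (Sum.inl ⟨(j, p), h⟩) else 0,
   fun j p => if h : j ≤ p.1.1 then x (Sum.inr ⟨(j, p), h⟩) else 0)

/-- normal coordinates -/
noncomputable def wdr_pr (c : Cd a × Cd b) : wdr_nA a ⊕ wdr_nB b → ℂ :=
  Sum.elim (fun n => c.1 n.1.1 n.1.2) (fun n => c.2 n.1.1 n.1.2)

noncomputable def wdr_K (t : ℝ) (c : Cd a × Cd b) : Cd a × Cd b :=
  (fun j p => if j < p.1.1 then c.1 j p else (t : ℂ) * c.1 j p,
   fun j p => if j ≤ p.1.1 then c.2 j p else (t : ℂ) * c.2 j p)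

noncomputable def wdr_S (t : ℝ) (c : Cd a × Cd b) : Cd a × Cd b := (scal a t c.1, scal b t c.2)

noncomputable def wdr_m (J : ℕ) (c : Cd a × Cd b) : ℝ :=
  ∑ j ∈ Finset.range J, ∑ p, ‖c.1 j p‖ + ∑ j ∈ Finset.range J, ∑ p, ‖c.2 j p‖

noncomputable def wdr_rho (ε : ℝ) (J : ℕ) (c : Cd a × Cd b) : ℝ := min 1 (ε / (1 + wdr_m J c))

theorem wdr_ext_cont : Continuous (wdr_ext : (wdr_nA a ⊕ wdr_nB b → ℂ) → Cd a × Cd b) := by
  unfold wdr_ext
  refine Continuous.prodMk ?_ ?_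
  · refine continuous_pi fun j => continuous_pi fun p => ?_
    by_cases h : j < p.1.1
    · simp only [h, dif_pos]
      exact continuous_apply _
    · simp only [h, dif_neg, not_false_eq_true]
      exact continuous_const
  · refine continuous_pi fun j => continuous_pi fun p => ?_
    by_cases h : j ≤ p.1.1
    · simp only [h, dif_pos]
      exact continuous_apply _
    · simp only [h, dif_neg, not_false_eq_true]
      exact continuous_const

theorem wdr_c1 (j : ℕ) (p : Ix a) : Continuous (fun c : Cd a × Cd b => c.1 j p) :=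
  (continuous_apply p).comp ((continuous_apply j).comp continuous_fst)

theorem wdr_c2 (j : ℕ) (p : Ix b) : Continuous (fun c : Cd a × Cd b => c.2 j p) :=
  (continuous_apply p).comp ((continuous_apply j).comp continuous_snd)

theorem wdr_pr_cont : Continuous (wdr_pr : Cd a × Cd b → (wdr_nA a ⊕ wdr_nB b → ℂ)) := by
  refine continuous_pi fun n => ?_
  rcases n with n | n
  · exact wdr_c1 _ _
  · exact wdr_c2 _ _

theorem wdr_K_cont : Continuous (fun q : ℝ × (Cd a × Cd b) => wdr_K q.1 q.2) := by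
  unfold wdr_K
  refine Continuous.prodMk ?_ ?_
  · refine continuous_pi fun j => continuous_pi fun p => ?_
    have h1 : Continuous (fun q : ℝ × (Cd a × Cd b) => q.2.1 j p) := (wdr_c1 j p).comp continuous_snd
    by_cases h : j < p.1.1
    · simp only [h, if_true]
      exact h1
    · simp only [h, if_false]
      exact (Complex.continuous_ofReal.comp continuous_fst).mul h1
  · refine continuous_pi fun j => continuous_pi fun p => ?_
    have h1 : Continuous (fun q : ℝ × (Cd a × Cd b) => q.2.2 j p) := (wdr_c2 j p).comp continuous_snd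
    by_cases h : j ≤ p.1.1
    · simp only [h, if_true]
      exact h1
    · simp only [h, if_false]
      exact (Complex.continuous_ofReal.comp continuous_fst).mul h1

theorem wdr_S_cont : Continuous (fun q : ℝ × (Cd a × Cd b) => wdr_S q.1 q.2) := by
  unfold wdr_S scal
  refine Continuous.prodMk ?_ ?_
  · refine continuous_pi fun j => continuous_pi fun p => ?_
    exact ((Complex.continuous_ofReal.comp continuous_fst).pow _).mul
      ((wdr_c1 j p).comp continuous_snd)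
  · refine continuous_pi fun j => continuous_pi fun p => ?_
    exact ((Complex.continuous_ofReal.comp continuous_fst).pow _).mul
      ((wdr_c2 j p).comp continuous_snd)

theorem wdr_m_cont (J : ℕ) : Continuous (wdr_m J : Cd a × Cd b → ℝ) := by
  unfold wdr_m
  refine Continuous.add ?_ ?_
  · exact continuous_finset_sum _ fun j _ => continuous_finset_sum _ fun p _ => (wdr_c1 j p).norm
  · exact continuous_finset_sum _ fun j _ => continuous_finset_sum _ fun p _ => (wdr_c2 j p).norm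

theorem wdr_m_nonneg (J : ℕ) (c : Cd a × Cd b) : 0 ≤ wdr_m J c := by
  unfold wdr_m
  positivity

theorem wdr_rho_cont (ε : ℝ) (J : ℕ) : Continuous (wdr_rho ε J : Cd a × Cd b → ℝ) := by
  unfold wdr_rho
  refine continuous_const.min (continuous_const.div (continuous_const.add (wdr_m_cont J)) ?_)
  intro c
  have := wdr_m_nonneg J c
  linarith

theorem wdr_rho_pos {ε : ℝ} (hε : 0 < ε) (J : ℕ) (c : Cd a × Cd b) : 0 < wdr_rho ε J c := by
  have := wdr_m_nonneg J c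
  unfold wdr_rho
  apply lt_min one_pos
  positivity

theorem wdr_rho_le (ε : ℝ) (J : ℕ) (c : Cd a × Cd b) : wdr_rho ε J c ≤ 1 := min_le_left _ _

theorem wdr_rho_mul {ε : ℝ} (hε : 0 < ε) (J : ℕ) (c : Cd a × Cd b) {x : ℝ} (hx : x ≤ wdr_m J c)
    (hx0 : 0 ≤ x) :
    wdr_rho ε J c * x ≤ ε := by
  have hm := wdr_m_nonneg J c
  have h1 : wdr_rho ε J c ≤ ε / (1 + wdr_m J c) := min_le_right _ _
  calc wdr_rho ε J c * x ≤ ε / (1 + wdr_m J c) * (1 + wdr_m J c) := by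
        apply mul_le_mul h1 (by linarith) hx0 (by positivity)
    _ = ε := div_mul_cancel₀ _ (by positivity)

theorem wdr_le1 (J : ℕ) (c : Cd a × Cd b) (j : ℕ) (hj : j < J) (p : Ix a) :
    ‖c.1 j p‖ ≤ wdr_m J c := by
  unfold wdr_m
  have h1 : ‖c.1 j p‖ ≤ ∑ p, ‖c.1 j p‖ :=
    Finset.single_le_sum (f := fun p => ‖c.1 j p‖) (fun _ _ => norm_nonneg _) (Finset.mem_univ p)
  have h2 : ∑ p, ‖c.1 j p‖ ≤ ∑ j ∈ Finset.range J, ∑ p, ‖c.1 j p‖ :=
    Finset.single_le_sum (f := fun j => ∑ p, ‖c.1 j p‖)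
      (fun _ _ => Finset.sum_nonneg fun _ _ => norm_nonneg _) (Finset.mem_range.mpr hj)
  have h3 : 0 ≤ ∑ j ∈ Finset.range J, ∑ p, ‖c.2 j p‖ := by positivity
  linarith

theorem wdr_le2 (J : ℕ) (c : Cd a × Cd b) (j : ℕ) (hj : j < J) (p : Ix b) :
    ‖c.2 j p‖ ≤ wdr_m J c := by
  unfold wdr_m
  have h1 : ‖c.2 j p‖ ≤ ∑ p, ‖c.2 j p‖ :=
    Finset.single_le_sum (f := fun p => ‖c.2 j p‖) (fun _ _ => norm_nonneg _) (Finset.mem_univ p)
  have h2 : ∑ p, ‖c.2 j p‖ ≤ ∑ j ∈ Finset.range J, ∑ p, ‖c.2 j p‖ :=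
    Finset.single_le_sum (f := fun j => ∑ p, ‖c.2 j p‖)
      (fun _ _ => Finset.sum_nonneg fun _ _ => norm_nonneg _) (Finset.mem_range.mpr hj)
  have h3 : 0 ≤ ∑ j ∈ Finset.range J, ∑ p, ‖c.1 j p‖ := by positivity
  linarith

theorem wdr_exp (a : ℕ →₀ ℕ) (p : Ix a) : 1 ≤ a p.1.1 - p.1.2 := by
  have := p.2
  omega

theorem wdr_norm_aux {θ t : ℝ} (h0 : 0 ≤ θ) (h1 : θ ≤ 1) (ht0 : 0 ≤ t) (ht1 : t ≤ 1) (e : ℕ)
    (he : 1 ≤ e) (z : ℂ) (P : Prop) [Decidable P] :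
    ‖(θ : ℂ) ^ e * (if P then z else (t : ℂ) * z)‖ ≤ θ * ‖z‖ := by
  rw [norm_mul, norm_pow, Complex.norm_real, Real.norm_of_nonneg h0]
  have h2 : θ ^ e ≤ θ := by
    calc θ ^ e ≤ θ ^ 1 := pow_le_pow_of_le_one h0 h1 he
      _ = θ := pow_one θ
  have h3 : ‖(if P then z else (t : ℂ) * z)‖ ≤ ‖z‖ := by
    split_ifs
    · exact le_rfl
    · rw [norm_mul, Complex.norm_real, Real.norm_of_nonneg ht0]
      exact mul_le_of_le_one_left (norm_nonneg _) ht1
  exact mul_le_mul h2 h3 (norm_nonneg _) h0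

theorem wdr_box {ε : ℝ} {J : ℕ} (hε : 0 < ε)
    (hbox : ∀ c : Cd a × Cd b, (∀ j < J, ∀ p, ‖c.1 j p‖ ≤ ε) → (∀ j < J, ∀ p, ‖c.2 j p‖ ≤ ε) →
      c ∈ Wc a b) (c : Cd a × Cd b) {θ t : ℝ} (h0 : 0 ≤ θ) (h1 : θ ≤ wdr_rho ε J c)
    (ht0 : 0 ≤ t) (ht1 : t ≤ 1) : wdr_S θ (wdr_K t c) ∈ Wc a b := by
  have hθ1 : θ ≤ 1 := h1.trans (wdr_rho_le _ _ _)
  apply hbox
  · intro j hj p
    refine (wdr_norm_aux h0 hθ1 ht0 ht1 _ (wdr_exp a p) (c.1 j p) (j < p.1.1)).trans ?_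
    refine (mul_le_mul_of_nonneg_right h1 (norm_nonneg _)).trans ?_
    exact wdr_rho_mul hε J c (wdr_le1 J c j hj p) (norm_nonneg _)
  · intro j hj p
    refine (wdr_norm_aux h0 hθ1 ht0 ht1 _ (wdr_exp b p) (c.2 j p) (j ≤ p.1.1)).trans ?_
    refine (mul_le_mul_of_nonneg_right h1 (norm_nonneg _)).trans ?_
    exact wdr_rho_mul hε J c (wdr_le2 J c j hj p) (norm_nonneg _)

theorem wdr_K_one (c : Cd a × Cd b) : wdr_K 1 c = c := by
  unfold wdr_K
  ext j p
  · simp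
  · simp

theorem wdr_K_zero (c : Cd a × Cd b) : wdr_K 0 c = wdr_ext (wdr_pr c) := by
  unfold wdr_K wdr_ext wdr_pr
  ext j p
  · simp
  · simp

theorem wdr_S_one (c : Cd a × Cd b) : wdr_S 1 c = c := by
  unfold wdr_S scal
  ext j p
  · simp
  · simp

theorem wdr_pr_ext (x : wdr_nA a ⊕ wdr_nB b → ℂ) : wdr_pr (wdr_ext x) = x := by
  funext n
  rcases n with ⟨⟨j, p⟩, hn⟩ | ⟨⟨j, p⟩, hn⟩
  · simp only at hn
    simp [wdr_pr, wdr_ext, hn]
  · simp only at hn
    simp [wdr_pr, wdr_ext, hn]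

theorem wdr_pr_K (t : ℝ) (c : Cd a × Cd b) : wdr_pr (wdr_K t c) = wdr_pr c := by
  funext n
  rcases n with ⟨⟨j, p⟩, hn⟩ | ⟨⟨j, p⟩, hn⟩
  · simp only at hn
    simp [wdr_pr, wdr_K, hn]
  · simp only at hn
    simp [wdr_pr, wdr_K, hn]

theorem wdr_Scell (c : Cd a × Cd b) : c ∈ Scell a b ↔ wdr_pr c = 0 := by
  constructor
  · rintro ⟨h1, h2⟩
    funext n
    rcases n with ⟨⟨j, p⟩, hn⟩ | ⟨⟨j, p⟩, hn⟩
    · exact h1 j p hn
    · exact h2 j p hn
  · intro h
    refine ⟨fun j p hj => ?_, fun j p hj => ?_⟩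
    · exact congrFun h (Sum.inl ⟨(j, p), hj⟩)
    · exact congrFun h (Sum.inr ⟨(j, p), hj⟩)

theorem wdr_pr_S {θ : ℝ} (hθ : 0 < θ) (c : Cd a × Cd b) (hc : wdr_pr c ≠ 0) :
    wdr_pr (wdr_S θ c) ≠ 0 := by
  intro h
  apply hc
  have hθ' : (θ : ℂ) ≠ 0 := by exact_mod_cast hθ.ne'
  funext n
  have h1 := congrFun h n
  rcases n with ⟨⟨j, p⟩, hn⟩ | ⟨⟨j, p⟩, hn⟩
  · have h2 : (θ : ℂ) ^ (a p.1.1 - p.1.2) * c.1 j p = 0 := h1
    exact (mul_eq_zero.mp h2).resolve_left (pow_ne_zero _ hθ')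
  · have h2 : (θ : ℂ) ^ (b p.1.1 - p.1.2) * c.2 j p = 0 := h1
    exact (mul_eq_zero.mp h2).resolve_left (pow_ne_zero _ hθ')

theorem wdr_m_ext (J : ℕ) (c : Cd a × Cd b) : wdr_m J (wdr_ext (wdr_pr c)) ≤ wdr_m J c := by
  rw [← wdr_K_zero]
  unfold wdr_m
  apply add_le_add
  · apply Finset.sum_le_sum
    intro j _
    apply Finset.sum_le_sum
    intro p _
    unfold wdr_K
    by_cases h : j < p.1.1
    · simp [h]
    · simp [h]
  · apply Finset.sum_le_sum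
    intro j _
    apply Finset.sum_le_sum
    intro p _
    unfold wdr_K
    by_cases h : j ≤ p.1.1
    · simp [h]
    · simp [h]

theorem wdr_rho_ext {ε : ℝ} (hε : 0 < ε) (J : ℕ) (c : Cd a × Cd b) :
    wdr_rho ε J c ≤ wdr_rho ε J (wdr_ext (wdr_pr c)) := by
  unfold wdr_rho
  apply min_le_min le_rfl
  have h1 := wdr_m_ext J c
  have h2 := wdr_m_nonneg J (wdr_ext (wdr_pr c))
  apply div_le_div_of_nonneg_left hε.le (by linarith) (by linarith)

theorem wdr_nonempty (h : 0 < cdim a b) : Nonempty (wdr_nA a ⊕ wdr_nB b) := by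
  by_contra hcon
  have hA : ∀ i, 0 < i → a i = 0 := by
    intro i hi
    by_contra hai
    apply hcon
    have hp : (0 : ℕ) < a i := Nat.pos_of_ne_zero hai
    exact ⟨Sum.inl ⟨(0, ⟨(i, 0), hp⟩), hi⟩⟩
  have hB : ∀ i, b i = 0 := by
    intro i
    by_contra hbi
    apply hcon
    have hp : (0 : ℕ) < b i := Nat.pos_of_ne_zero hbi
    exact ⟨Sum.inr ⟨(0, ⟨(i, 0), hp⟩), Nat.zero_le _⟩⟩
  have h0 : cdim a b = 0 := by
    unfold cdim
    have h1 : (a.sum fun i x => i * x) = 0 := by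
      apply Finset.sum_eq_zero
      intro i _
      rcases Nat.eq_zero_or_pos i with hi | hi
      · simp [hi]
      · simp [hA i hi]
    have h2 : (b.sum fun i x => (i + 1) * x) = 0 := by
      apply Finset.sum_eq_zero
      intro i _
      simp [hB i]
    rw [h1, h2]
  omega

end WDR

theorem Wc_diff_retract (a b : ℕ →₀ ℕ) (h : 0 < cdim a b) :
    ∃ (N : Type) (_ : Fintype N) (_ : 0 < Fintype.card N)
      (s : C((Wc a b \ Scell a b : Set (Cd a × Cd b)), {x : N → ℂ // x ≠ 0}))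
      (r : C({x : N → ℂ // x ≠ 0}, (Wc a b \ Scell a b : Set (Cd a × Cd b)))),
      (r.comp s).Homotopic (ContinuousMap.id _) := by
  obtain ⟨ε, J, hε, hbox⟩ := Wc_box a b
  have hne := wdr_nonempty h
  have hfin : Fintype (wdr_nA a ⊕ wdr_nB b) := Fintype.ofFinite _
  refine ⟨wdr_nA a ⊕ wdr_nB b, hfin, Fintype.card_pos, ?_⟩
  have hX : ∀ c : (Wc a b \ Scell a b : Set (Cd a × Cd b)), wdr_pr c.1 ≠ 0 := by
    intro c hc
    exact c.2.2 ((wdr_Scell _).mpr hc)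
  have hmem : ∀ (c : Cd a × Cd b), wdr_pr c ≠ 0 → ∀ θ t : ℝ, 0 < θ → θ ≤ wdr_rho ε J c → 0 ≤ t →
      t ≤ 1 → wdr_S θ (wdr_K t c) ∈ Wc a b \ Scell a b := by
    intro c hc θ t h1 h2 h3 h4
    refine ⟨wdr_box hε hbox c h1.le h2 h3 h4, ?_⟩
    rw [wdr_Scell]
    apply wdr_pr_S h1
    rw [wdr_pr_K]
    exact hc
  let s : C((Wc a b \ Scell a b : Set (Cd a × Cd b)), {x : wdr_nA a ⊕ wdr_nB b → ℂ // x ≠ 0}) :=
    ⟨fun c => ⟨wdr_pr c.1, hX c⟩, (wdr_pr_cont.comp continuous_subtype_val).subtype_mk _⟩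
  have hr : ∀ x : {x : wdr_nA a ⊕ wdr_nB b → ℂ // x ≠ 0},
      wdr_S (wdr_rho ε J (wdr_ext x.1)) (wdr_ext x.1) ∈ Wc a b \ Scell a b := by
    intro x
    have h1 := hmem (wdr_ext x.1) (by rw [wdr_pr_ext]; exact x.2) _ 1
      (wdr_rho_pos hε J (wdr_ext x.1)) le_rfl zero_le_one le_rfl
    rwa [wdr_K_one] at h1
  have hextc : Continuous (fun x : {x : wdr_nA a ⊕ wdr_nB b → ℂ // x ≠ 0} =>
      (wdr_ext x.1 : Cd a × Cd b)) := wdr_ext_cont.comp continuous_subtype_val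
  let r : C({x : wdr_nA a ⊕ wdr_nB b → ℂ // x ≠ 0}, (Wc a b \ Scell a b : Set (Cd a × Cd b))) :=
    ⟨fun x => ⟨wdr_S (wdr_rho ε J (wdr_ext x.1)) (wdr_ext x.1), hr x⟩,
      (wdr_S_cont.comp (((wdr_rho_cont ε J).comp hextc).prodMk hextc)).subtype_mk _⟩
  -- intermediate maps
  have hg1 : ∀ c : (Wc a b \ Scell a b : Set (Cd a × Cd b)),
      wdr_S (wdr_rho ε J c.1) c.1 ∈ Wc a b \ Scell a b := by
    intro c
    have h1 := hmem c.1 (hX c) _ 1 (wdr_rho_pos hε J c.1) le_rfl zero_le_one le_rfl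
    rwa [wdr_K_one] at h1
  have hg2 : ∀ c : (Wc a b \ Scell a b : Set (Cd a × Cd b)),
      wdr_S (wdr_rho ε J c.1) (wdr_ext (wdr_pr c.1)) ∈ Wc a b \ Scell a b := by
    intro c
    have h1 := hmem c.1 (hX c) _ 0 (wdr_rho_pos hε J c.1) le_rfl le_rfl zero_le_one
    rwa [wdr_K_zero] at h1
  have hvc : Continuous (fun c : (Wc a b \ Scell a b : Set (Cd a × Cd b)) => c.1) :=
    continuous_subtype_val
  have hec : Continuous (fun c : (Wc a b \ Scell a b : Set (Cd a × Cd b)) =>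
      (wdr_ext (wdr_pr c.1) : Cd a × Cd b)) := wdr_ext_cont.comp (wdr_pr_cont.comp hvc)
  let g1 : C((Wc a b \ Scell a b : Set (Cd a × Cd b)), (Wc a b \ Scell a b : Set (Cd a × Cd b))) :=
    ⟨fun c => ⟨wdr_S (wdr_rho ε J c.1) c.1, hg1 c⟩,
      (wdr_S_cont.comp (((wdr_rho_cont ε J).comp hvc).prodMk hvc)).subtype_mk _⟩
  let g2 : C((Wc a b \ Scell a b : Set (Cd a × Cd b)), (Wc a b \ Scell a b : Set (Cd a × Cd b))) :=
    ⟨fun c => ⟨wdr_S (wdr_rho ε J c.1) (wdr_ext (wdr_pr c.1)), hg2 c⟩,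
      (wdr_S_cont.comp (((wdr_rho_cont ε J).comp hvc).prodMk hec)).subtype_mk _⟩
  have hT : Continuous (fun q : unitInterval × (Wc a b \ Scell a b : Set (Cd a × Cd b)) =>
      (q.1 : ℝ)) := continuous_subtype_val.comp continuous_fst
  have hV : Continuous (fun q : unitInterval × (Wc a b \ Scell a b : Set (Cd a × Cd b)) =>
      q.2.1) := continuous_subtype_val.comp continuous_snd
  have hR : Continuous (fun q : unitInterval × (Wc a b \ Scell a b : Set (Cd a × Cd b)) =>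
      wdr_rho ε J q.2.1) := (wdr_rho_cont ε J).comp hV
  have hE : Continuous (fun q : unitInterval × (Wc a b \ Scell a b : Set (Cd a × Cd b)) =>
      (wdr_ext (wdr_pr q.2.1) : Cd a × Cd b)) := wdr_ext_cont.comp (wdr_pr_cont.comp hV)
  -- step 1
  have step1 : (ContinuousMap.id _).Homotopic g1 := by
    apply wdr_hom _ _ (fun q => wdr_S (1 - q.1 + q.1 * wdr_rho ε J q.2.1) q.2.1)
    · exact wdr_S_cont.comp (((continuous_const.sub hT).add (hT.mul hR)).prodMk hV)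
    · intro q
      have h0 := q.1.2.1
      have h1 := q.1.2.2
      have h2 := wdr_rho_pos hε J q.2.1
      have h3 := wdr_rho_le ε J q.2.1
      have h4 : 0 < 1 - (q.1 : ℝ) + q.1 * wdr_rho ε J q.2.1 := by
        rcases eq_or_lt_of_le h1 with h5 | h5
        · rw [h5]; linarith
        · have : 0 ≤ (q.1 : ℝ) * wdr_rho ε J q.2.1 := by positivity
          linarith
      have h5 : 1 - (q.1 : ℝ) + q.1 * wdr_rho ε J q.2.1 ≤ 1 := by nlinarith
      refine ⟨scal_Wc a b q.2.1 q.2.2.1 _ h4.le h5, ?_⟩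
      rw [wdr_Scell]
      exact wdr_pr_S h4 _ (hX q.2)
    · intro c
      simp [wdr_S_one]
    · intro c
      simp [g1]
  have step2 : g1.Homotopic g2 := by
    apply wdr_hom _ _ (fun q => wdr_S (wdr_rho ε J q.2.1) (wdr_K (1 - q.1) q.2.1))
    · exact wdr_S_cont.comp (hR.prodMk (wdr_K_cont.comp ((continuous_const.sub hT).prodMk hV)))
    · intro q
      have h0 := q.1.2.1
      have h1 := q.1.2.2
      exact hmem _ (hX q.2) _ _ (wdr_rho_pos hε J q.2.1) le_rfl (by linarith) (by linarith)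
    · intro c
      simp [g1, wdr_K_one]
    · intro c
      simp [g2, wdr_K_zero]
  have step3 : g2.Homotopic (r.comp s) := by
    apply wdr_hom _ _ (fun q => wdr_S ((1 - q.1) * wdr_rho ε J q.2.1 +
      q.1 * wdr_rho ε J (wdr_ext (wdr_pr q.2.1))) (wdr_ext (wdr_pr q.2.1)))
    · exact wdr_S_cont.comp ((((continuous_const.sub hT).mul hR).add
        (hT.mul ((wdr_rho_cont ε J).comp hE))).prodMk hE)
    · intro q
      have h0 := q.1.2.1
      have h1 := q.1.2.2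
      have h2 := wdr_rho_pos hε J q.2.1
      have h3 := wdr_rho_ext hε J q.2.1
      have h4 : wdr_rho ε J q.2.1 ≤ (1 - (q.1 : ℝ)) * wdr_rho ε J q.2.1 +
          q.1 * wdr_rho ε J (wdr_ext (wdr_pr q.2.1)) := by nlinarith
      have h5 : (1 - (q.1 : ℝ)) * wdr_rho ε J q.2.1 +
          q.1 * wdr_rho ε J (wdr_ext (wdr_pr q.2.1)) ≤ wdr_rho ε J (wdr_ext (wdr_pr q.2.1)) := by
        nlinarith
      have h6 := hmem (wdr_ext (wdr_pr q.2.1)) (by rw [wdr_pr_ext]; exact hX q.2) _ 1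
        (lt_of_lt_of_le h2 h4) h5 zero_le_one le_rfl
      rwa [wdr_K_one] at h6
    · intro c
      simp [g2]
    · intro c
      simp [r, s]
  exact ⟨s, r, ((step1.trans step2).trans step3).symm⟩

end Pool.Agent.Helper438.Sc
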