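import Pool.Agent.Helper438.Sc.Defs
import Pool.Agent.Helper438.Sc.P_RV_retract
import Pool.Agent.Helper438.Sc.P_RV_punct
import Pool.Agent.Helper438.Sc.P_Wc_diff_retract

/-! Singular cohomology, the Borel construction of the stack of torsion sheaves on the projective
line, and all the auxiliary spaces used in the computation. -/

namespace Pool.Agent.Helper438.Sc

universe u v w



theorem RV_Wc_diff (k : Type v) [CommRing k] (a b : ℕ →₀ ℕ) (h : 0 < cdim a b) (q : ℕ)
    (hq : Even q) : RV k (Wc a b \ Scell a b : Set (Cd a × Cd b)) q := by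
  obtain ⟨N, _, hN, s, r, H⟩ := Wc_diff_retract a b h
  exact RV_retract k s r H q (RV_punct k N hN q hq)

end Pool.Agent.Helper438.Sc
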