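import Pool.Agent.Helper438.Sc.Defs

/-! Singular cohomology, the Borel construction of the stack of torsion sheaves on the projective
line, and all the auxiliary spaces used in the computation. -/

namespace Pool.Agent.Helper438.Sc

universe u v w



theorem card_Ix (a : ℕ →₀ ℕ) : Fintype.card (Ix a) = a.sum fun _ x => x := by
  have e : Ix a ≃ Σ i : a.support, Fin (a i) :=
    { toFun := fun p => ⟨⟨p.1.1, by
        have h := p.2
        rw [Finsupp.mem_support_iff]
        omega⟩, ⟨p.1.2, p.2⟩⟩
      invFun := fun q => ⟨(q.1.1, q.2.1), q.2.2⟩
      left_inv := fun p => rfl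
      right_inv := fun q => rfl }
  rw [Fintype.card_congr e, Fintype.card_sigma]
  simp only [Fintype.card_fin]
  rw [Finsupp.sum, ← Finset.sum_coe_sort a.support (fun i => a i)]

end Pool.Agent.Helper438.Sc
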