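import Pool.Agent.Helper438.Sc.Defs

/-! Singular cohomology, the Borel construction of the stack of torsion sheaves on the projective
line, and all the auxiliary spaces used in the computation. -/

namespace Pool.Agent.Helper438.Sc

universe u v w



theorem fitting_core {ι : Type} [Fintype ι] [DecidableEq ι] (u : Matrix ι ι ℂ) :
    ∃ (d e : ℕ) (U1 U1' : Matrix (Fin d) (Fin d) ℂ) (U2 : Matrix (Fin e) (Fin e) ℂ)
      (h : Matrix ι (Fin d ⊕ Fin e) ℂ) (h' : Matrix (Fin d ⊕ Fin e) ι ℂ),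
      h * h' = 1 ∧ h' * h = 1 ∧ U1 * U1' = 1 ∧ U1' * U1 = 1 ∧ IsNilpotent U2 ∧
      u * h = h * Matrix.fromBlocks U1 0 0 U2 := by
  classical
  obtain ⟨f, hf⟩ : ∃ f : Module.End ℂ (ι → ℂ), f = Matrix.toLin' u := ⟨_, rfl⟩
  obtain ⟨N, hN, hN1⟩ := ((LinearMap.eventually_isCompl_ker_pow_range_pow f).and
    (Filter.eventually_ge_atTop 1)).exists
  obtain ⟨V2, hV2⟩ : ∃ V2, V2 = LinearMap.ker (f ^ N) := ⟨_, rfl⟩
  obtain ⟨V1, hV1⟩ : ∃ V1, V1 = LinearMap.range (f ^ N) := ⟨_, rfl⟩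
  rw [← hV2, ← hV1] at hN
  have s1 : ∀ x ∈ V1, f x ∈ V1 := by
    rw [hV1]
    rintro _ ⟨y, rfl⟩
    refine ⟨f y, ?_⟩
    rw [← Module.End.mul_apply, ← Module.End.mul_apply, ← pow_succ, ← pow_succ']
  have s2 : ∀ x ∈ V2, f x ∈ V2 := by
    rw [hV2]
    intro x hx
    rw [LinearMap.mem_ker] at hx ⊢
    rw [← Module.End.mul_apply, ← pow_succ, pow_succ', Module.End.mul_apply, hx, map_zero]
  obtain ⟨f1, hf1⟩ : ∃ f1 : Module.End ℂ V1, f1 = f.restrict s1 := ⟨_, rfl⟩
  obtain ⟨f2, hf2⟩ : ∃ f2 : Module.End ℂ V2, f2 = f.restrict s2 := ⟨_, rfl⟩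
  have hf1c : ∀ x : V1, ((f1 x : V1) : ι → ℂ) = f x := fun x => by rw [hf1]; rfl
  have hf2c : ∀ x : V2, ((f2 x : V2) : ι → ℂ) = f x := fun x => by rw [hf2]; rfl
  have hf2p : ∀ (k : ℕ) (x : V2), (((f2 ^ k) x : V2) : ι → ℂ) = (f ^ k) x := by
    intro k
    induction k with
    | zero => intro x; simp
    | succ k ih => intro x; rw [pow_succ, pow_succ, Module.End.mul_apply, Module.End.mul_apply, ih, hf2c]
  have hnil : IsNilpotent f2 := by
    refine ⟨N, ?_⟩
    ext x : 1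
    apply Subtype.ext
    rw [hf2p]
    have hx := LinearMap.mem_ker.mp (hV2.le x.2)
    rw [hx]
    rfl
  have hinj : Function.Injective f1 := by
    rw [← LinearMap.ker_eq_bot, LinearMap.ker_eq_bot']
    intro x hx
    have hx0 : f (x : ι → ℂ) = 0 := by rw [← hf1c, hx]; rfl
    have hxV2 : (x : ι → ℂ) ∈ V2 := by
      rw [hV2, LinearMap.mem_ker]
      obtain ⟨m, rfl⟩ := Nat.exists_eq_add_of_le' hN1
      rw [pow_succ, Module.End.mul_apply, hx0, map_zero]
    have := Submodule.disjoint_def.mp hN.disjoint (x : ι → ℂ) hxV2 x.2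
    exact Subtype.ext this
  let E1 : V1 ≃ₗ[ℂ] V1 := LinearEquiv.ofInjectiveEndo f1 hinj
  let b1 := Module.finBasis ℂ V1
  let b2 := Module.finBasis ℂ V2
  let b : Module.Basis (Fin (Module.finrank ℂ V1) ⊕ Fin (Module.finrank ℂ V2)) ℂ (ι → ℂ) :=
    (b1.prod b2).map (Submodule.prodEquivOfIsCompl V1 V2 hN.symm)
  have hb1 : ∀ i, b (Sum.inl i) = (b1 i : ι → ℂ) := by
    intro i
    simp [b]
  have hb2 : ∀ i, b (Sum.inr i) = (b2 i : ι → ℂ) := by
    intro i
    simp [b]
  refine ⟨_, _, LinearMap.toMatrix b1 b1 f1, LinearMap.toMatrix b1 b1 (E1.symm : V1 →ₗ[ℂ] V1),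
    LinearMap.toMatrix b2 b2 f2, (Pi.basisFun ℂ ι).toMatrix b, b.toMatrix (Pi.basisFun ℂ ι), ?_, ?_, ?_, ?_, ?_, ?_⟩
  · exact Module.Basis.toMatrix_mul_toMatrix_flip _ _
  · exact Module.Basis.toMatrix_mul_toMatrix_flip _ _
  · rw [← LinearMap.toMatrix_comp]
    have : f1 ∘ₗ (E1.symm : V1 →ₗ[ℂ] V1) = LinearMap.id := by
      ext x : 1
      exact E1.apply_symm_apply x
    rw [this, LinearMap.toMatrix_id]
  · rw [← LinearMap.toMatrix_comp]
    have : (E1.symm : V1 →ₗ[ℂ] V1) ∘ₗ f1 = LinearMap.id := by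
      ext x : 1
      exact E1.symm_apply_apply x
    rw [this, LinearMap.toMatrix_id]
  · obtain ⟨k, hk⟩ := hnil
    refine ⟨k, ?_⟩
    rw [LinearMap.toMatrix_pow, hk, map_zero]
  · ext i j
    rw [Matrix.mul_apply, Matrix.mul_apply]
    have hl : ∑ x, u i x * (Pi.basisFun ℂ ι).toMatrix b x j = f (b j) i := by
      rw [hf, Matrix.toLin'_apply]
      simp [Matrix.mulVec, dotProduct, Module.Basis.toMatrix_apply]
    rw [hl, Fintype.sum_sum_type]
    rcases j with j | j
    · have h2 : f (b (Sum.inl j)) = ∑ k, (LinearMap.toMatrix b1 b1 f1) k j • (b1 k : ι → ℂ) := by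
        rw [hb1, ← hf1c]
        have h3 := b1.sum_repr (f1 (b1 j))
        have h4 := congrArg (fun x : V1 => (x : ι → ℂ)) h3
        simp only [Submodule.coe_sum, Submodule.coe_smul] at h4
        rw [← h4]
        refine Finset.sum_congr rfl fun k _ => ?_
        rw [LinearMap.toMatrix_apply]
      rw [h2]
      simp only [Finset.sum_apply, Pi.smul_apply, smul_eq_mul, Matrix.fromBlocks_apply₁₁, Matrix.fromBlocks_apply₂₁,
        Matrix.zero_apply, mul_zero, Finset.sum_const_zero, add_zero, Module.Basis.toMatrix_apply, Pi.basisFun_repr, hb1]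
      refine Finset.sum_congr rfl fun k _ => mul_comm _ _
    · have h2 : f (b (Sum.inr j)) = ∑ k, (LinearMap.toMatrix b2 b2 f2) k j • (b2 k : ι → ℂ) := by
        rw [hb2, ← hf2c]
        have h3 := b2.sum_repr (f2 (b2 j))
        have h4 := congrArg (fun x : V2 => (x : ι → ℂ)) h3
        simp only [Submodule.coe_sum, Submodule.coe_smul] at h4
        rw [← h4]
        refine Finset.sum_congr rfl fun k _ => ?_
        rw [LinearMap.toMatrix_apply]
      rw [h2]
      simp only [Finset.sum_apply, Pi.smul_apply, smul_eq_mul, Matrix.fromBlocks_apply₁₂, Matrix.fromBlocks_apply₂₂,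
        Matrix.zero_apply, mul_zero, Finset.sum_const_zero, zero_add, Module.Basis.toMatrix_apply, Pi.basisFun_repr, hb2]
      refine Finset.sum_congr rfl fun k _ => mul_comm _ _

theorem fitting_stab {n : ℕ} (M M' : Matrix (Fin n) (Fin n) ℂ) (h1 : M * M' = 1) (h2 : M' * M = 1)
    (L : Submodule ℂ (Fin n → ℂ)) (hL : ∀ v ∈ L, M.mulVec v ∈ L) : ∀ v ∈ L, M'.mulVec v ∈ L := by
  have hL' : ∀ v ∈ L, (Matrix.toLin' M) v ∈ L := by
    intro v hv
    rw [Matrix.toLin'_apply]
    exact hL v hv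
  let R : L →ₗ[ℂ] L := (Matrix.toLin' M).restrict hL'
  have hinj : Function.Injective R := by
    rw [← LinearMap.ker_eq_bot, LinearMap.ker_eq_bot']
    intro x hx
    have hx0 : M.mulVec (x : Fin n → ℂ) = 0 := by
      have := congrArg (fun y : L => (y : Fin n → ℂ)) hx
      exact this
    apply Subtype.ext
    have h3 : M'.mulVec (M.mulVec (x : Fin n → ℂ)) = x := by
      rw [Matrix.mulVec_mulVec, h2, Matrix.one_mulVec]
    rw [hx0, Matrix.mulVec_zero] at h3
    exact h3.symm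
  have hsurj : Function.Surjective R := LinearMap.injective_iff_surjective.mp hinj
  intro v hv
  obtain ⟨w, hw⟩ := hsurj ⟨v, hv⟩
  have hw' : M.mulVec (w : Fin n → ℂ) = v := congrArg (fun y : L => (y : Fin n → ℂ)) hw
  rw [← hw', Matrix.mulVec_mulVec, h2, Matrix.one_mulVec]
  exact w.2

theorem fitting {ι : Type} [Fintype ι] [DecidableEq ι] (A B : Matrix ι ι ℂ) (s : ℕ → ι → ℂ)
    (h : Gen A B s) : ∃ (d e : ℕ) (A1 : Matrix (Fin d) (Fin d) ℂ) (s1 : ℕ → Fin d → ℂ)
      (B2 : Matrix (Fin e) (Fin e) ℂ) (s2 : ℕ → Fin e → ℂ), IsNilpotent B2 ∧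
      (∀ L : Submodule ℂ (Fin d → ℂ), (∀ j, s1 j ∈ L) → (∀ v ∈ L, A1.mulVec v ∈ L) → L = ⊤) ∧
      (∀ L : Submodule ℂ (Fin e → ℂ), (∀ j, s2 j ∈ L) → (∀ v ∈ L, B2.mulVec v ∈ L) → L = ⊤) ∧
      REq (Matrix.fromBlocks A1 0 0 1) (Matrix.fromBlocks 1 0 0 B2)
        (fun j => Sum.elim (s1 j) (s2 j)) A B s := by
  obtain ⟨t, hdet, hgen⟩ := h
  obtain ⟨X, hX⟩ : ∃ X, X = A + t • B := ⟨_, rfl⟩
  rw [← hX] at hdet
  have hXu : IsUnit X.det := isUnit_iff_ne_zero.mpr hdet
  have hX1 : X * X⁻¹ = 1 := Matrix.mul_nonsing_inv X hXu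
  have hX2 : X⁻¹ * X = 1 := Matrix.nonsing_inv_mul X hXu
  obtain ⟨u, hu⟩ : ∃ u, u = X⁻¹ * B := ⟨_, rfl⟩
  have hUt : Ut A B t = u := by unfold Ut; rw [hu, hX]
  rw [hUt] at hgen
  have hBu : X * u = B := by rw [hu, ← Matrix.mul_assoc, hX1, Matrix.one_mul]
  obtain ⟨d, e, U1, U1', U2, h, h', hh1, hh2, hU1, hU2, hnil, hblk⟩ := fitting_core u
  have hnilt : IsNilpotent (t • U2) := by
    obtain ⟨k, hk⟩ := hnil
    exact ⟨k, by rw [smul_pow, hk, smul_zero]⟩
  obtain ⟨W, hW1, hW2⟩ : ∃ W, (1 - t • U2) * W = 1 ∧ W * (1 - t • U2) = 1 := by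
    obtain ⟨w, hw⟩ := hnilt.isUnit_one_sub
    refine ⟨(w⁻¹ : (Matrix (Fin e) (Fin e) ℂ)ˣ), ?_, ?_⟩
    · rw [← hw]; exact w.mul_inv
    · rw [← hw]; exact w.inv_mul
  have hcomm0 : (1 - t • U2) * U2 = U2 * (1 - t • U2) := by
    rw [Matrix.sub_mul, Matrix.mul_sub, Matrix.one_mul, Matrix.mul_one, Matrix.smul_mul, Matrix.mul_smul]
  have hcomm : W * U2 = U2 * W := by
    calc W * U2 = W * U2 * ((1 - t • U2) * W) := by rw [hW1, Matrix.mul_one]
      _ = W * (U2 * (1 - t • U2)) * W := by simp only [Matrix.mul_assoc]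
      _ = W * ((1 - t • U2) * U2) * W := by rw [hcomm0]
      _ = (W * (1 - t • U2)) * U2 * W := by simp only [Matrix.mul_assoc]
      _ = U2 * W := by rw [hW2, Matrix.one_mul]
  obtain ⟨A1, hA1⟩ : ∃ A1, A1 = U1' - t • (1 : Matrix (Fin d) (Fin d) ℂ) := ⟨_, rfl⟩
  obtain ⟨B2, hB2⟩ : ∃ B2, B2 = U2 * W := ⟨_, rfl⟩
  have hUA : U1 * A1 = 1 - t • U1 := by
    rw [hA1, Matrix.mul_sub, hU1, Matrix.mul_smul, Matrix.mul_one]
  have hWB : (1 - t • U2) * B2 = U2 := by
    rw [hB2, ← Matrix.mul_assoc, hcomm0, Matrix.mul_assoc, hW1, Matrix.mul_one]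
  -- 1 + t B2 = W
  have hWt : W = 1 + t • B2 := by
    have h1 : W * (1 - t • U2) = 1 := hW2
    rw [Matrix.mul_sub, Matrix.mul_one, Matrix.mul_smul, hcomm, ← hB2] at h1
    rw [← h1]; abel
  refine ⟨d, e, A1, fun j i => (h'.mulVec (s j)) (Sum.inl i), B2, fun j i => (h'.mulVec (s j)) (Sum.inr i),
    ?_, ?_, ?_, ?_⟩
  · rw [hB2]
    exact (show Commute U2 W from hcomm.symm).isNilpotent_mul_right hnil
  · intro L1 hs hst
    -- stable under U1
    have hst1 : ∀ v ∈ L1, U1'.mulVec v ∈ L1 := by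
      intro v hv
      have h1 : U1'.mulVec v = A1.mulVec v + t • v := by
        rw [hA1, Matrix.sub_mulVec, Matrix.smul_mulVec, Matrix.one_mulVec]; abel
      rw [h1]
      exact L1.add_mem (hst v hv) (L1.smul_mem t hv)
    have hst2 := fitting_stab U1' U1 hU2 hU1 L1 hst1
    let pr : (ι → ℂ) →ₗ[ℂ] (Fin d → ℂ) :=
      { toFun := fun v i => (h'.mulVec v) (Sum.inl i)
        map_add' := fun v w => by ext i; simp [Matrix.mulVec_add]
        map_smul' := fun c v => by ext i; simp [Matrix.mulVec_smul] }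
    have hpr : ∀ v, pr v = fun i => (h'.mulVec v) (Sum.inl i) := fun v => rfl
    have htop := hgen (L1.comap pr) (fun j => hs j) (by
      intro v hv
      rw [Submodule.mem_comap] at hv ⊢
      have h1 : h' * u = Matrix.fromBlocks U1 0 0 U2 * h' := by
        calc h' * u = h' * u * (h * h') := by rw [hh1, Matrix.mul_one]
          _ = h' * (u * h) * h' := by simp only [Matrix.mul_assoc]
          _ = (h' * h) * Matrix.fromBlocks U1 0 0 U2 * h' := by rw [hblk]; simp only [Matrix.mul_assoc]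
          _ = _ := by rw [hh2, Matrix.one_mul]
      have h2 : pr (u.mulVec v) = U1.mulVec (pr v) := by
        ext i
        rw [hpr, hpr]
        rw [Matrix.mulVec_mulVec, h1, ← Matrix.mulVec_mulVec, Matrix.fromBlocks_mulVec]
        simp [Function.comp_def]
      rw [h2]
      exact hst2 _ hv)
    rw [eq_top_iff]
    intro w _
    have h3 : h.mulVec (Sum.elim w 0) ∈ L1.comap pr := by rw [htop]; trivial
    rw [Submodule.mem_comap, hpr, Matrix.mulVec_mulVec, hh2, Matrix.one_mulVec] at h3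
    exact h3
  · intro L2 hs hst
    have hst1 : ∀ v ∈ L2, W.mulVec v ∈ L2 := by
      intro v hv
      have h1 : W.mulVec v = v + t • B2.mulVec v := by
        rw [hWt, Matrix.add_mulVec, Matrix.one_mulVec, Matrix.smul_mulVec]
      rw [h1]
      exact L2.add_mem hv (L2.smul_mem t (hst v hv))
    have hst2 := fitting_stab W (1 - t • U2) hW2 hW1 L2 hst1
    have hst3 : ∀ v ∈ L2, U2.mulVec v ∈ L2 := by
      intro v hv
      have h1 : U2.mulVec v = B2.mulVec ((1 - t • U2).mulVec v) := by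
        rw [Matrix.mulVec_mulVec]
        congr 1
        rw [hB2, Matrix.mul_assoc, hW2, Matrix.mul_one]
      rw [h1]
      exact hst _ (hst2 v hv)
    let pr : (ι → ℂ) →ₗ[ℂ] (Fin e → ℂ) :=
      { toFun := fun v i => (h'.mulVec v) (Sum.inr i)
        map_add' := fun v w => by ext i; simp [Matrix.mulVec_add]
        map_smul' := fun c v => by ext i; simp [Matrix.mulVec_smul] }
    have hpr : ∀ v, pr v = fun i => (h'.mulVec v) (Sum.inr i) := fun v => rfl
    have htop := hgen (L2.comap pr) (fun j => hs j) (by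
      intro v hv
      rw [Submodule.mem_comap] at hv ⊢
      have h1 : h' * u = Matrix.fromBlocks U1 0 0 U2 * h' := by
        calc h' * u = h' * u * (h * h') := by rw [hh1, Matrix.mul_one]
          _ = h' * (u * h) * h' := by simp only [Matrix.mul_assoc]
          _ = (h' * h) * Matrix.fromBlocks U1 0 0 U2 * h' := by rw [hblk]; simp only [Matrix.mul_assoc]
          _ = _ := by rw [hh2, Matrix.one_mul]
      have h2 : pr (u.mulVec v) = U2.mulVec (pr v) := by
        ext i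
        rw [hpr, hpr]
        rw [Matrix.mulVec_mulVec, h1, ← Matrix.mulVec_mulVec, Matrix.fromBlocks_mulVec]
        simp [Function.comp_def]
      rw [h2]
      exact hst3 _ hv)
    rw [eq_top_iff]
    intro w _
    have h3 : h.mulVec (Sum.elim 0 w) ∈ L2.comap pr := by rw [htop]; trivial
    rw [Submodule.mem_comap, hpr, Matrix.mulVec_mulVec, hh2, Matrix.one_mulVec] at h3
    exact h3
  · refine ⟨X * h * Matrix.fromBlocks U1 0 0 (1 - t • U2), h, Matrix.fromBlocks U1' 0 0 W * h' * X⁻¹, h',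
      ?_, ?_, hh1, hh2, ?_, ?_, ?_⟩
    · calc X * h * Matrix.fromBlocks U1 0 0 (1 - t • U2) * (Matrix.fromBlocks U1' 0 0 W * h' * X⁻¹)
          = X * h * (Matrix.fromBlocks U1 0 0 (1 - t • U2) * Matrix.fromBlocks U1' 0 0 W) * h' * X⁻¹ := by
            simp only [Matrix.mul_assoc]
        _ = 1 := by
            rw [Matrix.fromBlocks_multiply]
            simp only [Matrix.mul_zero, Matrix.zero_mul, add_zero, zero_add, hU1, hW1, Matrix.fromBlocks_one,
              Matrix.mul_one]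
            rw [Matrix.mul_assoc X h h', hh1, Matrix.mul_one, hX1]
    · calc Matrix.fromBlocks U1' 0 0 W * h' * X⁻¹ * (X * h * Matrix.fromBlocks U1 0 0 (1 - t • U2))
          = Matrix.fromBlocks U1' 0 0 W * h' * (X⁻¹ * X) * h * Matrix.fromBlocks U1 0 0 (1 - t • U2) := by
            simp only [Matrix.mul_assoc]
        _ = Matrix.fromBlocks U1' 0 0 W * (h' * h) * Matrix.fromBlocks U1 0 0 (1 - t • U2) := by
            rw [hX2, Matrix.mul_one]; simp only [Matrix.mul_assoc]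
        _ = 1 := by
            rw [hh2, Matrix.mul_one, Matrix.fromBlocks_multiply]
            simp only [Matrix.mul_zero, Matrix.zero_mul, add_zero, zero_add, hU2, hW2, Matrix.fromBlocks_one]
    · have hA : A = X - t • B := by rw [hX]; abel
      have h1 : A * h = X * h * (1 - t • Matrix.fromBlocks U1 0 0 U2) := by
        rw [hA, Matrix.sub_mul, Matrix.smul_mul, ← hBu, Matrix.mul_assoc X u h, hblk, Matrix.mul_sub,
          Matrix.mul_one, Matrix.mul_smul, Matrix.mul_assoc X h]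
      rw [h1, Matrix.mul_assoc (X * h), Matrix.fromBlocks_multiply]
      congr 1
      simp only [Matrix.mul_zero, Matrix.zero_mul, add_zero, zero_add, Matrix.mul_one, hUA]
      rw [← Matrix.fromBlocks_one, Matrix.fromBlocks_smul, sub_eq_add_neg, Matrix.fromBlocks_neg, Matrix.fromBlocks_add]
      simp [sub_eq_add_neg]
    · rw [Matrix.mul_assoc (X * h), Matrix.fromBlocks_multiply]
      simp only [Matrix.mul_zero, Matrix.zero_mul, add_zero, zero_add, Matrix.mul_one, hWB]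
      rw [← hBu, Matrix.mul_assoc X u h, hblk, Matrix.mul_assoc X h]
    · intro j
      have h1 : (Sum.elim (fun i => (h'.mulVec (s j)) (Sum.inl i)) (fun i => (h'.mulVec (s j)) (Sum.inr i)) :
          Fin d ⊕ Fin e → ℂ) = h'.mulVec (s j) := by
        ext i; cases i <;> rfl
      change s j = h.mulVec (Sum.elim (fun i => (h'.mulVec (s j)) (Sum.inl i)) (fun i => (h'.mulVec (s j)) (Sum.inr i)))
      rw [h1, Matrix.mulVec_mulVec, hh1, Matrix.one_mulVec]

end Pool.Agent.Helper438.Sc
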