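import Pool.Agent.Helper438.Sc.Defs

/-! Singular cohomology, the Borel construction of the stack of torsion sheaves on the projective
line, and all the auxiliary spaces used in the computation. -/

namespace Pool.Agent.Helper438.Sc

universe u v w



theorem hermite_greedy1 {κ V : Type} [LinearOrder κ] [WellFoundedLT κ] [AddCommGroup V] [Module ℂ V]
    (b : κ → V) (S : Set κ) (hS : ∀ p, p ∈ S ↔ b p ∉ Submodule.span ℂ (b '' {q | q < p})) (p : κ) :
    b p ∈ Submodule.span ℂ (b '' {q | q ≤ p ∧ q ∈ S}) := by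
  induction p using WellFoundedLT.induction with
  | ind p ih =>
    by_cases hp : p ∈ S
    · exact Submodule.subset_span ⟨p, ⟨le_rfl, hp⟩, rfl⟩
    · have h1 : b p ∈ Submodule.span ℂ (b '' {q | q < p}) := by
        by_contra hcon
        exact hp ((hS p).mpr hcon)
      refine (Submodule.span_le.mpr ?_) h1
      rintro _ ⟨q, hq, rfl⟩
      have hq' : q < p := hq
      refine Submodule.span_mono ?_ (ih q hq')
      apply Set.image_mono
      rintro x ⟨hx1, hx2⟩
      exact ⟨hx1.trans hq'.le, hx2⟩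

theorem hermite_greedy1' {κ V : Type} [LinearOrder κ] [WellFoundedLT κ] [AddCommGroup V] [Module ℂ V]
    (b : κ → V) (S : Set κ) (hS : ∀ p, p ∈ S ↔ b p ∉ Submodule.span ℂ (b '' {q | q < p})) (p : κ)
    (hp : p ∉ S) : b p ∈ Submodule.span ℂ (b '' {q | q < p ∧ q ∈ S}) := by
  refine Submodule.span_mono ?_ (hermite_greedy1 b S hS p)
  apply Set.image_mono
  rintro q ⟨h1, h2⟩
  refine ⟨lt_of_le_of_ne h1 ?_, h2⟩
  rintro rfl
  exact hp h2

theorem hermite_greedy2 {κ V : Type} [LinearOrder κ] [AddCommGroup V] [Module ℂ V]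
    (b : κ → V) (S : Set κ) (hS : ∀ p, p ∈ S ↔ b p ∉ Submodule.span ℂ (b '' {q | q < p})) :
    LinearIndepOn ℂ b S := by
  rw [linearIndepOn_iff_linearIndepOn_finset]
  intro t
  induction t using Finset.induction_on_max with
  | empty =>
    intro _
    rw [Finset.coe_empty]
    exact linearIndepOn_empty ℂ b
  | insert a s hs ih =>
    intro h
    rw [Finset.coe_insert] at h ⊢
    refine (ih (fun x hx => h (Set.mem_insert_of_mem a hx))).insert ?_
    intro hmem
    apply (hS a).mp (h (Set.mem_insert a _))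
    refine Submodule.span_mono ?_ hmem
    apply Set.image_mono
    intro x hx
    exact hs x hx

/-- the family of vectors `u^k s_j` -/
def hermite_b {V : Type} [AddCommGroup V] [Module ℂ V] (u : V →ₗ[ℂ] V) (s : ℕ → V) (p : ℕ ×ₗ ℕ) : V :=
  (u ^ (ofLex p).2) (s (ofLex p).1)

theorem hermite_b_mk {V : Type} [AddCommGroup V] [Module ℂ V] (u : V →ₗ[ℂ] V) (s : ℕ → V) (j k : ℕ) :
    hermite_b u s (toLex (j, k)) = (u ^ k) (s j) := rfl

theorem hermite_b_succ {V : Type} [AddCommGroup V] [Module ℂ V] (u : V →ₗ[ℂ] V) (s : ℕ → V) (j k : ℕ) :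
    hermite_b u s (toLex (j, k + 1)) = u (hermite_b u s (toLex (j, k))) := by
  rw [hermite_b_mk, hermite_b_mk, pow_succ']
  rfl

theorem hermite_up {V : Type} [AddCommGroup V] [Module ℂ V] (u : V →ₗ[ℂ] V) (s : ℕ → V) (j k : ℕ)
    (h : hermite_b u s (toLex (j, k)) ∈ Submodule.span ℂ (hermite_b u s '' {q | q < toLex (j, k)})) :
    hermite_b u s (toLex (j, k + 1)) ∈ Submodule.span ℂ (hermite_b u s '' {q | q < toLex (j, k + 1)}) := by
  rw [hermite_b_succ]
  have h1 := Submodule.mem_map_of_mem (f := u) h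
  rw [Submodule.map_span] at h1
  refine (Submodule.span_mono ?_) h1
  rintro _ ⟨_, ⟨q, hq, rfl⟩, rfl⟩
  obtain ⟨i, l, rfl⟩ : ∃ i l, q = toLex (i, l) := ⟨(ofLex q).1, (ofLex q).2, rfl⟩
  refine ⟨toLex (i, l + 1), ?_, hermite_b_succ u s i l⟩
  have hq' : toLex (i, l) < toLex (j, k) := hq
  show toLex (i, l + 1) < toLex (j, k + 1)
  rw [Prod.Lex.toLex_lt_toLex] at hq' ⊢
  rcases hq' with h2 | ⟨h2, h3⟩
  · exact Or.inl h2
  · exact Or.inr ⟨h2, Nat.succ_lt_succ h3⟩

theorem hermite_up' {V : Type} [AddCommGroup V] [Module ℂ V] (u : V →ₗ[ℂ] V) (s : ℕ → V)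
    (S : Set (ℕ ×ₗ ℕ)) (hS : ∀ p, p ∈ S ↔ hermite_b u s p ∉ Submodule.span ℂ (hermite_b u s '' {q | q < p}))
    (j k l : ℕ) (hkl : k ≤ l) (h : toLex (j, k) ∉ S) : toLex (j, l) ∉ S := by
  obtain ⟨m, rfl⟩ := Nat.exists_eq_add_of_le hkl
  clear hkl
  induction m with
  | zero => exact h
  | succ m ih =>
    intro h1
    apply (hS _).mp h1
    show hermite_b u s (toLex (j, k + m + 1)) ∈ Submodule.span ℂ (hermite_b u s '' {q | q < toLex (j, k + m + 1)})
    apply hermite_up
    by_contra h2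
    exact ih ((hS _).mpr h2)

/-- the type -/
theorem hermite_type (S : Set (ℕ ×ₗ ℕ)) (hfin : S.Finite)
    (hup : ∀ j k l : ℕ, k ≤ l → toLex (j, k) ∉ S → toLex (j, l) ∉ S) :
    ∃ a : ℕ →₀ ℕ, ∀ j k, toLex (j, k) ∈ S ↔ k < a j := by
  classical
  have hex : ∀ j, ∃ k, toLex (j, k) ∉ S := by
    intro j
    by_contra hcon
    push Not at hcon
    have hinj : Function.Injective (fun k : ℕ => (toLex (j, k) : ℕ ×ₗ ℕ)) := by
      intro k l hkl
      exact (Prod.ext_iff.mp (toLex.injective hkl)).2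
    exact Set.infinite_of_injective_forall_mem hinj hcon hfin
  have hmem : ∀ j k, toLex (j, k) ∈ S ↔ k < Nat.find (hex j) := by
    intro j k
    constructor
    · intro h
      by_contra hcon
      push Not at hcon
      exact hup j _ k hcon (Nat.find_spec (hex j)) h
    · intro h
      have := Nat.find_min (hex j) h
      push Not at this
      exact this
  have hsupp : (Function.support (fun j => Nat.find (hex j))).Finite := by
    apply (hfin.image (fun p : ℕ ×ₗ ℕ => (ofLex p).1)).subset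
    intro j hj
    have hj' : Nat.find (hex j) ≠ 0 := hj
    exact ⟨toLex (j, 0), (hmem j 0).mpr (Nat.pos_of_ne_zero hj'), rfl⟩
  exact ⟨Finsupp.ofSupportFinite _ hsupp, hmem⟩

/-- index -/
def hermite_ix (a : ℕ →₀ ℕ) (j k : ℕ) (h : k < a j) : Ix a := ⟨(j, k), h⟩

theorem hermite_ix_val (a : ℕ →₀ ℕ) (j k : ℕ) (h : k < a j) : (hermite_ix a j k h).1 = (j, k) := rfl

theorem hermite_ix_eq (a : ℕ →₀ ℕ) (j k : ℕ) (h : k < a j) (p : Ix a) : p = hermite_ix a j k h ↔ p.1 = (j, k) := by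
  constructor
  · rintro rfl
    rfl
  · intro h1
    exact Subtype.ext h1

theorem hermite_ite (a : ℕ →₀ ℕ) (j k : ℕ) (h : k < a j) (p : Ix a) [Decidable (p = hermite_ix a j k h)]
    [Decidable (p.1 = (j, k))] :
    (if p.1 = (j, k) then (1 : ℂ) else 0) = if p = hermite_ix a j k h then 1 else 0 := by
  by_cases h1 : p = hermite_ix a j k h
  · rw [if_pos h1, if_pos ((hermite_ix_eq a j k h p).mp h1)]
  · rw [if_neg h1, if_neg (fun h2 => h1 ((hermite_ix_eq a j k h p).mpr h2))]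

theorem hermite_NA1 (a : ℕ →₀ ℕ) (c : Cd a) (q : Ix a) (h : q.1.2 + 1 < a q.1.1) :
    (fun p => NA a c p q) = fun p => if p = hermite_ix a q.1.1 (q.1.2 + 1) h then 1 else 0 := by
  funext p
  unfold NA
  rw [if_pos h]
  exact hermite_ite a _ _ h p

theorem hermite_NA2 (a : ℕ →₀ ℕ) (c : Cd a) (q : Ix a) (h : ¬ q.1.2 + 1 < a q.1.1) :
    (fun p => NA a c p q) = c q.1.1 := by
  funext p
  unfold NA
  rw [if_neg h]

theorem hermite_NS1 (a : ℕ →₀ ℕ) (c : Cd a) (j : ℕ) (h : 0 < a j) :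
    NS a c j = fun p => if p = hermite_ix a j 0 h then 1 else 0 := by
  funext p
  unfold NS
  rw [if_pos h]
  exact hermite_ite a _ _ h p

theorem hermite_NS2 (a : ℕ →₀ ℕ) (c : Cd a) (j : ℕ) (h : ¬ 0 < a j) :
    NS a c j = c j := by
  funext p
  unfold NS
  rw [if_neg h]

theorem hermite (V : Type) [AddCommGroup V] [Module ℂ V] [FiniteDimensional ℂ V]
    (u : V →ₗ[ℂ] V) (s : ℕ → V)
    (hgen : ∀ L : Submodule ℂ V, (∀ j, s j ∈ L) → (∀ v ∈ L, u v ∈ L) → L = ⊤) :
    ∃ (a : ℕ →₀ ℕ) (c : Cd a) (e : (Ix a → ℂ) ≃ₗ[ℂ] V),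
      (∀ j (p : Ix a), j < p.1.1 → c j p = 0) ∧
      (∀ v, e ((NA a c).mulVec v) = u (e v)) ∧ (∀ j, e (NS a c j) = s j) := by
  classical
  obtain ⟨S, hS⟩ : ∃ S : Set (ℕ ×ₗ ℕ), ∀ p, p ∈ S ↔
      hermite_b u s p ∉ Submodule.span ℂ (hermite_b u s '' {q | q < p}) := ⟨{p | _}, fun p => Iff.rfl⟩
  have hli := hermite_greedy2 (hermite_b u s) S hS
  have hfinS : S.Finite := by
    have : Finite S := LinearIndependent.finite_of_isNoetherian hli
    exact Set.toFinite S
  obtain ⟨a, ha⟩ := hermite_type S hfinS (hermite_up' u s S hS)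
  -- the basis
  obtain ⟨b, hb⟩ : ∃ b : Module.Basis (Ix a) ℂ V, ∀ p : Ix a, b p = (u ^ p.1.2) (s p.1.1) := by
    have hli2 : LinearIndependent ℂ (fun p : Ix a => (u ^ p.1.2) (s p.1.1)) := by
      have h1 : LinearIndependent ℂ (fun p : S => hermite_b u s p) := hli
      exact h1.comp (fun p : Ix a => ⟨toLex (p.1.1, p.1.2), (ha _ _).mpr p.2⟩) (by
        intro p q hpq
        have h2 := congrArg Subtype.val hpq
        exact Subtype.ext (toLex.injective h2))
    have hsp : ⊤ ≤ Submodule.span ℂ (Set.range (fun p : Ix a => (u ^ p.1.2) (s p.1.1))) := by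
      have hall : ∀ j k, (u ^ k) (s j) ∈ Submodule.span ℂ (Set.range (fun p : Ix a => (u ^ p.1.2) (s p.1.1))) := by
        intro j k
        have h1 := hermite_greedy1 (hermite_b u s) S hS (toLex (j, k))
        rw [hermite_b_mk] at h1
        refine Submodule.span_mono ?_ h1
        rintro _ ⟨q, hq, rfl⟩
        exact ⟨⟨((ofLex q).1, (ofLex q).2), (ha _ _).mp hq.2⟩, rfl⟩
      have hstab : ∀ v ∈ Submodule.span ℂ (Set.range (fun p : Ix a => (u ^ p.1.2) (s p.1.1))),
          u v ∈ Submodule.span ℂ (Set.range (fun p : Ix a => (u ^ p.1.2) (s p.1.1))) := by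
        intro v hv
        have h1 := Submodule.mem_map_of_mem (f := u) hv
        rw [Submodule.map_span] at h1
        refine (Submodule.span_le.mpr ?_) h1
        rintro _ ⟨_, ⟨p, rfl⟩, rfl⟩
        have h2 := hall p.1.1 (p.1.2 + 1)
        rw [pow_succ'] at h2
        exact h2
      rw [hgen _ (fun j => hall j 0) hstab]
    exact ⟨Module.Basis.mk hli2 hsp, fun p => Module.Basis.mk_apply hli2 hsp p⟩
  obtain ⟨c, hc⟩ : ∃ c : Cd a, ∀ j, c j = b.equivFun ((u ^ (a j)) (s j)) := ⟨_, fun _ => rfl⟩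
  have hec : ∀ j, b.equivFun.symm (c j) = (u ^ (a j)) (s j) := by
    intro j
    rw [hc, LinearEquiv.symm_apply_apply]
  have hebas : ∀ p : Ix a, b.equivFun.symm (fun q => if q = p then 1 else 0) = b p := by
    intro p
    rw [Module.Basis.equivFun_symm_apply]
    simp
  refine ⟨a, c, b.equivFun.symm, ?_, ?_, ?_⟩
  · intro j p hjp
    have hns : toLex (j, a j) ∉ S := by
      rw [ha]
      exact lt_irrefl _
    have h1 := hermite_greedy1' (hermite_b u s) S hS _ hns
    rw [hermite_b_mk] at h1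
    have h2 : (u ^ (a j)) (s j) ∈ Submodule.span ℂ (b '' {q | q.1.1 ≤ j}) := by
      refine Submodule.span_mono ?_ h1
      rintro _ ⟨q, ⟨hq1, hq2⟩, rfl⟩
      obtain ⟨i, l, rfl⟩ : ∃ i l, q = toLex (i, l) := ⟨(ofLex q).1, (ofLex q).2, rfl⟩
      refine ⟨⟨(i, l), (ha _ _).mp hq2⟩, ?_, hb _⟩
      rw [Prod.Lex.toLex_lt_toLex] at hq1
      show i ≤ j
      rcases hq1 with h3 | ⟨h3, _⟩
      · exact le_of_lt h3
      · exact le_of_eq h3
    rw [Module.Basis.mem_span_image] at h2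
    rw [hc, Module.Basis.equivFun_apply]
    by_contra h3
    have h4 := h2 (Finsupp.mem_support_iff.mpr h3)
    have h5 : p.1.1 ≤ j := h4
    omega
  · intro v
    have hlin : (b.equivFun.symm : (Ix a → ℂ) →ₗ[ℂ] V) ∘ₗ (NA a c).mulVecLin =
        u ∘ₗ (b.equivFun.symm : (Ix a → ℂ) →ₗ[ℂ] V) := by
      apply (Pi.basisFun ℂ (Ix a)).ext
      intro q
      rw [Pi.basisFun_apply]
      show b.equivFun.symm ((NA a c).mulVec (Pi.single q 1)) = u (b.equivFun.symm (Pi.single q 1))
      have h1 : (Pi.single q 1 : Ix a → ℂ) = fun p => if p = q then 1 else 0 := by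
        funext p
        rw [Pi.single_apply]
      have h2 : b.equivFun.symm (Pi.single q 1) = b q := by rw [h1, hebas]
      have h3 : (NA a c).mulVec (Pi.single q 1) = fun p => NA a c p q := by
        rw [Matrix.mulVec_single_one]
        rfl
      rw [h2, h3, hb]
      by_cases h4 : q.1.2 + 1 < a q.1.1
      · rw [hermite_NA1 a c q h4, hebas, hb, hermite_ix_val]
        show (u ^ (q.1.2 + 1)) (s q.1.1) = _
        rw [pow_succ']
        rfl
      · have h6 : a q.1.1 = q.1.2 + 1 := by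
          have h7 : q.1.2 < a q.1.1 := q.2
          omega
        rw [hermite_NA2 a c q h4, hec, h6, pow_succ']
        rfl
    exact LinearMap.congr_fun hlin v
  · intro j
    by_cases h4 : 0 < a j
    · rw [hermite_NS1 a c j h4, hebas, hb, hermite_ix_val]
      show (u ^ 0) (s j) = s j
      rw [pow_zero]
      rfl
    · have h6 : a j = 0 := by omega
      rw [hermite_NS2 a c j h4, hec, h6, pow_zero]
      rfl

end Pool.Agent.Helper438.Sc
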