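import Pool.Agent.Helper438.Sc.Defs
import Pool.Agent.Helper438.Sc.P_NA_pow_lt
import Pool.Agent.Helper438.Sc.P_NA_pow_top

/-! Singular cohomology, the Borel construction of the stack of torsion sheaves on the projective
line, and all the auxiliary spaces used in the computation. -/

namespace Pool.Agent.Helper438.Sc

universe u v w



/-- vectors supported on the indices with first entry `< j` -/
def nd_F (a : ℕ →₀ ℕ) (j : ℕ) : Submodule ℂ (Ix a → ℂ) where
  carrier := {v | ∀ p : Ix a, j ≤ p.1.1 → v p = 0}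
  add_mem' := by
    intro v w hv hw p hp
    rw [Pi.add_apply, hv p hp, hw p hp, add_zero]
  zero_mem' := by
    intro p _
    rfl
  smul_mem' := by
    intro r v hv p hp
    rw [Pi.smul_apply, hv p hp, smul_zero]

theorem nd_stable (a : ℕ →₀ ℕ) (c : Cd a) (h : ∀ j (p : Ix a), j < p.1.1 → c j p = 0) (j : ℕ)
    (v : Ix a → ℂ) (hv : v ∈ nd_F a j) : (NA a c).mulVec v ∈ nd_F a j := by
  intro p hp
  rw [Matrix.mulVec, dotProduct]
  apply Finset.sum_eq_zero
  intro q _
  by_cases hq : j ≤ q.1.1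
  · rw [hv q hq, mul_zero]
  · have h1 : NA a c p q = 0 := by
      unfold NA
      split_ifs with h2 h3
      · exfalso
        rw [h3] at hp
        exact hq hp
      · rfl
      · exact h _ p (by omega)
    rw [h1, zero_mul]

theorem nd_rel (a : ℕ →₀ ℕ) (c : Cd a) (h : ∀ j (p : Ix a), j < p.1.1 → c j p = 0) (j : ℕ) :
    c j - ∑ k : Fin (a j), c j ⟨(j, k.1), k.2⟩ • (Pi.single (⟨(j, k.1), k.2⟩ : Ix a) (1 : ℂ) : Ix a → ℂ) ∈
      nd_F a j := by
  intro p hp
  rw [Pi.sub_apply, Finset.sum_apply]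
  rcases hp.lt_or_eq with hlt | heq
  · rw [h j p hlt, zero_sub, neg_eq_zero]
    apply Finset.sum_eq_zero
    intro k _
    rw [Pi.smul_apply, Pi.single_apply, if_neg, smul_zero]
    intro hpk
    rw [hpk] at hlt
    exact lt_irrefl _ hlt
  · obtain ⟨⟨j', k'⟩, hk'⟩ := p
    simp only at heq
    subst heq
    have hk'' : k' < a j := hk'
    rw [Finset.sum_eq_single (⟨k', hk''⟩ : Fin (a j))]
    · rw [Pi.smul_apply, Pi.single_apply, if_pos rfl, smul_eq_mul, mul_one]
      exact sub_self _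
    · intro k _ hk
      rw [Pi.smul_apply, Pi.single_apply, if_neg, smul_zero]
      intro hpk
      apply hk
      have h1 := congrArg (fun x : Ix a => x.1.2) hpk
      exact Fin.ext h1.symm
    · intro hnot
      exact absurd (Finset.mem_univ _) hnot

theorem nilp_diag (a : ℕ →₀ ℕ) (c : Cd a) (h : ∀ j (p : Ix a), j < p.1.1 → c j p = 0)
    (hn : IsNilpotent (NA a c)) : ∀ j (p : Ix a), j ≤ p.1.1 → c j p = 0 := by
  classical
  intro j p hp
  rcases hp.lt_or_eq with hlt | heq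
  · exact h j p hlt
  by_contra hne
  obtain ⟨w, hw⟩ : ∃ w : ℕ → Ix a → ℂ, ∀ m, w m = ((NA a c) ^ m).mulVec (NS a c j) :=
    ⟨_, fun _ => rfl⟩
  have hwadd : ∀ s m, w (s + m) = ((NA a c) ^ s).mulVec (w m) := by
    intro s m
    rw [hw, hw, Matrix.mulVec_mulVec, pow_add]
  have hsucc : ∀ m, w m ∈ nd_F a j → w (m + 1) ∈ nd_F a j := by
    intro m hm
    rw [add_comm, hwadd, pow_one]
    exact nd_stable a c h j _ hm
  have hmono : ∀ m m', m ≤ m' → w m ∈ nd_F a j → w m' ∈ nd_F a j := by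
    intro m m' hmm hm
    induction m', hmm using Nat.le_induction with
    | base => exact hm
    | succ m' _ ih => exact hsucc m' ih
  have hstab : ∀ s v, v ∈ nd_F a j → ((NA a c) ^ s).mulVec v ∈ nd_F a j := by
    intro s
    induction s with
    | zero => intro v hv; rw [pow_zero, Matrix.one_mulVec]; exact hv
    | succ s ih =>
      intro v hv
      rw [pow_succ, ← Matrix.mulVec_mulVec]
      exact ih _ (nd_stable a c h j v hv)
  have hex : ∃ m, w m ∈ nd_F a j := by
    obtain ⟨M, hM⟩ := hn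
    refine ⟨M, ?_⟩
    rw [hw, hM, Matrix.zero_mulVec]
    exact Submodule.zero_mem _
  have hlt : ∀ (k : ℕ) (hk : k < a j), w k = Pi.single (⟨(j, k), hk⟩ : Ix a) 1 := by
    intro k hk
    rw [hw, NA_pow_lt a c j k hk]
  have hnot : ∀ k, k < a j → w k ∉ nd_F a j := by
    intro k hk hmem
    rw [hlt k hk] at hmem
    have h1 := hmem ⟨(j, k), hk⟩ le_rfl
    rw [Pi.single_eq_same] at h1
    exact one_ne_zero h1
  have hspec := Nat.find_spec hex
  obtain ⟨M, hM⟩ : ∃ M, M = Nat.find hex := ⟨_, rfl⟩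
  rw [← hM] at hspec
  have hMmin : ∀ m, m < M → w m ∉ nd_F a j := by
    intro m hm
    rw [hM] at hm
    exact Nat.find_min hex hm
  have hMa : a j ≤ M := by
    by_contra hcon
    exact hnot M (not_le.1 hcon) hspec
  -- smallest k0
  have hex2 : ∃ k, ∃ hk : k < a j, c j ⟨(j, k), hk⟩ ≠ 0 := by
    obtain ⟨⟨j', k'⟩, hk'⟩ := p
    simp only at heq
    subst heq
    exact ⟨k', hk', hne⟩
  obtain ⟨hk0, hck0⟩ := Nat.find_spec hex2
  have hk0min : ∀ k (hk : k < a j), k < Nat.find hex2 → c j ⟨(j, k), hk⟩ = 0 := by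
    intro k hk hlt2
    by_contra hcon
    exact Nat.find_min hex2 hlt2 ⟨hk, hcon⟩
  generalize Nat.find hex2 = k0 at hk0 hck0 hk0min
  obtain ⟨s, hs⟩ : ∃ s, s + k0 + 1 = M := ⟨M - 1 - k0, by omega⟩
  have hrel := hstab s _ (nd_rel a c h j)
  rw [Matrix.mulVec_sub] at hrel
  have hsum : ((NA a c) ^ s).mulVec (∑ k : Fin (a j), c j ⟨(j, k.1), k.2⟩ •
      (Pi.single (⟨(j, k.1), k.2⟩ : Ix a) (1 : ℂ) : Ix a → ℂ)) =
      ∑ k : Fin (a j), c j ⟨(j, k.1), k.2⟩ • w (s + k.1) := by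
    have h1 := map_sum (Matrix.mulVecLin ((NA a c) ^ s)) (fun k : Fin (a j) =>
      c j ⟨(j, k.1), k.2⟩ • (Pi.single (⟨(j, k.1), k.2⟩ : Ix a) (1 : ℂ) : Ix a → ℂ)) Finset.univ
    rw [Matrix.mulVecLin_apply] at h1
    rw [h1]
    apply Finset.sum_congr rfl
    intro k _
    rw [map_smul, Matrix.mulVecLin_apply, hwadd s k.1, hlt k.1 k.2]
    rfl
  have hcj : c j = w (a j) := by rw [hw, NA_pow_top]
  have hcs : ((NA a c) ^ s).mulVec (c j) = w (s + a j) := by
    rw [hwadd, ← hcj]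
  rw [hsum, hcs] at hrel
  have hbig : w (s + a j) ∈ nd_F a j := hmono M _ (by omega) hspec
  have hsumF : ∑ k : Fin (a j), c j ⟨(j, k.1), k.2⟩ • w (s + k.1) ∈ nd_F a j := by
    have h1 := (nd_F a j).sub_mem hbig hrel
    rw [sub_sub_cancel] at h1
    exact h1
  rw [← Finset.add_sum_erase Finset.univ _ (Finset.mem_univ (⟨k0, hk0⟩ : Fin (a j)))] at hsumF
  have hrest : ∑ k ∈ Finset.univ.erase (⟨k0, hk0⟩ : Fin (a j)),
      c j ⟨(j, k.1), k.2⟩ • w (s + k.1) ∈ nd_F a j := by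
    apply Submodule.sum_mem
    intro k hk
    have hkne : k.1 ≠ k0 := by
      intro h1
      exact (Finset.ne_of_mem_erase hk) (Fin.ext h1)
    rcases lt_or_gt_of_ne hkne with h1 | h1
    · rw [hk0min k.1 k.2 h1, zero_smul]
      exact Submodule.zero_mem _
    · apply Submodule.smul_mem
      exact hmono M _ (by omega) hspec
  have hfin := ((nd_F a j).add_mem_iff_left hrest).1 hsumF
  have hfin2 := ((nd_F a j).smul_mem_iff hck0).1 hfin
  exact hMmin (s + k0) (by omega) hfin2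
end Pool.Agent.Helper438.Sc
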