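import Pool.Agent.Helper438.Sc.Defs
import Pool.Agent.Helper438.Sc.P_hermite
import Pool.Agent.Helper438.Sc.P_nilp_diag
import Pool.Agent.Helper438.Sc.P_fitting

namespace Pool.Agent.Helper438.Sc

universe u v w

theorem cells_cover_nilp {e : ℕ} (b : ℕ →₀ ℕ) (c : Cd b) (B2 : Matrix (Fin e) (Fin e) ℂ)
    (hB : IsNilpotent B2) (f : (Ix b → ℂ) ≃ₗ[ℂ] (Fin e → ℂ))
    (h : ∀ v, f ((NA b c).mulVec v) = B2.mulVec (f v)) : IsNilpotent (NA b c) := by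
  obtain ⟨m, hm⟩ := hB
  refine ⟨m, ?_⟩
  have key : ∀ (k : ℕ) (v : Ix b → ℂ), f (((NA b c) ^ k).mulVec v) = (B2 ^ k).mulVec (f v) := by
    intro k
    induction k with
    | zero => intro v; simp
    | succ k ih =>
      intro v
      rw [pow_succ, ← Matrix.mulVec_mulVec, ih, h, Matrix.mulVec_mulVec, ← pow_succ]
  apply Matrix.toLin'.injective
  apply LinearMap.ext
  intro v
  apply f.injective
  rw [Matrix.toLin'_apply, key m v, hm]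
  simp

theorem cells_cover {ι : Type} [Fintype ι] [DecidableEq ι] (A B : Matrix ι ι ℂ)
    (s : ℕ → ι → ℂ) (h : Gen A B s) :
    ∃ (a b : ℕ →₀ ℕ) (c : Cd a × Cd b), c ∈ Scell a b ∧ REq (chA c) (chB c) (chS c) A B s := by
  obtain ⟨d, e, A1, s1, B2, s2, hB2, h1, h2, hreq⟩ := fitting A B s h
  obtain ⟨a, c1, e1, ha, he1, hs1⟩ := hermite (Fin d → ℂ) (Matrix.toLin' A1) s1
    (fun L hL hL' => h1 L hL (fun v hv => by simpa using hL' v hv))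
  obtain ⟨b, c2, e2, hb, he2, hs2⟩ := hermite (Fin e → ℂ) (Matrix.toLin' B2) s2
    (fun L hL hL' => h2 L hL (fun v hv => by simpa using hL' v hv))
  have hn : IsNilpotent (NA b c2) := cells_cover_nilp b c2 B2 hB2 e2
    (fun v => by simpa using he2 v)
  refine ⟨a, b, (c1, c2), ⟨ha, nilp_diag b c2 hb hn⟩, ?_⟩
  refine REq.trans ?_ hreq
  have E1 : LinearMap.toMatrix' (e1 : (Ix a → ℂ) →ₗ[ℂ] (Fin d → ℂ)) *
      LinearMap.toMatrix' (e1.symm : (Fin d → ℂ) →ₗ[ℂ] (Ix a → ℂ)) = 1 := by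
    rw [← LinearMap.toMatrix'_comp]
    simp
  have E1' : LinearMap.toMatrix' (e1.symm : (Fin d → ℂ) →ₗ[ℂ] (Ix a → ℂ)) *
      LinearMap.toMatrix' (e1 : (Ix a → ℂ) →ₗ[ℂ] (Fin d → ℂ)) = 1 := by
    rw [← LinearMap.toMatrix'_comp]
    simp
  have E2 : LinearMap.toMatrix' (e2 : (Ix b → ℂ) →ₗ[ℂ] (Fin e → ℂ)) *
      LinearMap.toMatrix' (e2.symm : (Fin e → ℂ) →ₗ[ℂ] (Ix b → ℂ)) = 1 := by
    rw [← LinearMap.toMatrix'_comp]
    simp
  have E2' : LinearMap.toMatrix' (e2.symm : (Fin e → ℂ) →ₗ[ℂ] (Ix b → ℂ)) *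
      LinearMap.toMatrix' (e2 : (Ix b → ℂ) →ₗ[ℂ] (Fin e → ℂ)) = 1 := by
    rw [← LinearMap.toMatrix'_comp]
    simp
  have F1 : A1 * LinearMap.toMatrix' (e1 : (Ix a → ℂ) →ₗ[ℂ] (Fin d → ℂ)) =
      LinearMap.toMatrix' (e1 : (Ix a → ℂ) →ₗ[ℂ] (Fin d → ℂ)) * NA a c1 := by
    apply Matrix.toLin'.injective
    apply LinearMap.ext
    intro v
    have := he1 v
    rw [Matrix.toLin'_mul, Matrix.toLin'_mul, Matrix.toLin'_toMatrix']
    simpa using this.symm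
  have F2 : B2 * LinearMap.toMatrix' (e2 : (Ix b → ℂ) →ₗ[ℂ] (Fin e → ℂ)) =
      LinearMap.toMatrix' (e2 : (Ix b → ℂ) →ₗ[ℂ] (Fin e → ℂ)) * NA b c2 := by
    apply Matrix.toLin'.injective
    apply LinearMap.ext
    intro v
    have := he2 v
    rw [Matrix.toLin'_mul, Matrix.toLin'_mul, Matrix.toLin'_toMatrix']
    simpa using this.symm
  refine ⟨Matrix.fromBlocks (LinearMap.toMatrix' (e1 : (Ix a → ℂ) →ₗ[ℂ] (Fin d → ℂ))) 0 0
      (LinearMap.toMatrix' (e2 : (Ix b → ℂ) →ₗ[ℂ] (Fin e → ℂ))),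
    Matrix.fromBlocks (LinearMap.toMatrix' (e1 : (Ix a → ℂ) →ₗ[ℂ] (Fin d → ℂ))) 0 0
      (LinearMap.toMatrix' (e2 : (Ix b → ℂ) →ₗ[ℂ] (Fin e → ℂ))),
    Matrix.fromBlocks (LinearMap.toMatrix' (e1.symm : (Fin d → ℂ) →ₗ[ℂ] (Ix a → ℂ))) 0 0
      (LinearMap.toMatrix' (e2.symm : (Fin e → ℂ) →ₗ[ℂ] (Ix b → ℂ))),
    Matrix.fromBlocks (LinearMap.toMatrix' (e1.symm : (Fin d → ℂ) →ₗ[ℂ] (Ix a → ℂ))) 0 0
      (LinearMap.toMatrix' (e2.symm : (Fin e → ℂ) →ₗ[ℂ] (Ix b → ℂ))), ?_, ?_, ?_, ?_, ?_, ?_, ?_⟩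
  · rw [Matrix.fromBlocks_multiply, E1, E2]; simp
  · rw [Matrix.fromBlocks_multiply, E1', E2']; simp
  · rw [Matrix.fromBlocks_multiply, E1, E2]; simp
  · rw [Matrix.fromBlocks_multiply, E1', E2']; simp
  · unfold chA
    rw [Matrix.fromBlocks_multiply, Matrix.fromBlocks_multiply, F1]
    simp
  · unfold chB
    rw [Matrix.fromBlocks_multiply, Matrix.fromBlocks_multiply, F2]
    simp
  · intro j
    have G1 := hs1 j
    have G2 := hs2 j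
    unfold chS
    rw [Matrix.fromBlocks_mulVec]
    simp only [Sum.elim_comp_inl, Sum.elim_comp_inr, Matrix.zero_mulVec, add_zero, zero_add]
    have G1' : (LinearMap.toMatrix' (e1 : (Ix a → ℂ) →ₗ[ℂ] (Fin d → ℂ))).mulVec (NS a c1 j) = s1 j := by
      rw [LinearMap.toMatrix'_mulVec]
      exact G1
    have G2' : (LinearMap.toMatrix' (e2 : (Ix b → ℂ) →ₗ[ℂ] (Fin e → ℂ))).mulVec (NS b c2 j) = s2 j := by
      rw [LinearMap.toMatrix'_mulVec]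
      exact G2
    rw [G1', G2']

end Pool.Agent.Helper438.Sc
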