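import Pool.Agent.Helper438.Sc.Defs

/-! Singular cohomology, the Borel construction of the stack of torsion sheaves on the projective
line, and all the auxiliary spaces used in the computation. -/

namespace Pool.Agent.Helper438.Sc

universe u v w



theorem ch_Ut (a b : ℕ →₀ ℕ) (c : Cd a × Cd b) (t : ℂ)
    (h1 : (NA a c.1 + t • (1 : Matrix (Ix a) (Ix a) ℂ)).det ≠ 0)
    (h2 : ((1 : Matrix (Ix b) (Ix b) ℂ) + t • NA b c.2).det ≠ 0) :
    (chA c + t • chB c).det ≠ 0 ∧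
    Ut (chA c) (chB c) t = Matrix.fromBlocks (NA a c.1 + t • (1 : Matrix (Ix a) (Ix a) ℂ))⁻¹ 0 0
      (((1 : Matrix (Ix b) (Ix b) ℂ) + t • NA b c.2)⁻¹ * NA b c.2) := by
  have e : chA c + t • chB c = Matrix.fromBlocks (NA a c.1 + t • (1 : Matrix (Ix a) (Ix a) ℂ)) 0 0
      ((1 : Matrix (Ix b) (Ix b) ℂ) + t • NA b c.2) := by
    unfold chA chB
    rw [Matrix.fromBlocks_smul, Matrix.fromBlocks_add]
    simp
  have hdet : (chA c + t • chB c).det ≠ 0 := by
    rw [e, Matrix.det_fromBlocks_zero₂₁]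
    exact mul_ne_zero h1 h2
  refine ⟨hdet, ?_⟩
  have hinv : (chA c + t • chB c)⁻¹ =
      Matrix.fromBlocks (NA a c.1 + t • (1 : Matrix (Ix a) (Ix a) ℂ))⁻¹ 0 0
      ((1 : Matrix (Ix b) (Ix b) ℂ) + t • NA b c.2)⁻¹ := by
    apply Matrix.inv_eq_left_inv
    rw [e, Matrix.fromBlocks_multiply]
    simp only [Matrix.mul_zero, Matrix.zero_mul, add_zero, zero_add]
    rw [Matrix.nonsing_inv_mul _ (isUnit_iff_ne_zero.mpr h1),
      Matrix.nonsing_inv_mul _ (isUnit_iff_ne_zero.mpr h2), Matrix.fromBlocks_one]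
  unfold Ut
  rw [hinv]
  unfold chB
  rw [Matrix.fromBlocks_multiply]
  simp

end Pool.Agent.Helper438.Sc
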