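import Pool.Agent.Helper438.Sc.Defs

/-! Singular cohomology, the Borel construction of the stack of torsion sheaves on the projective
line, and all the auxiliary spaces used in the computation. -/

namespace Pool.Agent.Helper438.Sc

universe u v w



theorem ch_det (a b : ℕ →₀ ℕ) (c : Cd a × Cd b) (t : ℂ) (h : (chA c + t • chB c).det ≠ 0) :
    (NA a c.1 + t • (1 : Matrix (Ix a) (Ix a) ℂ)).det ≠ 0 ∧
    ((1 : Matrix (Ix b) (Ix b) ℂ) + t • NA b c.2).det ≠ 0 := by
  have h1 : chA c + t • chB c = Matrix.fromBlocks (NA a c.1 + t • (1 : Matrix (Ix a) (Ix a) ℂ)) 0 0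
      ((1 : Matrix (Ix b) (Ix b) ℂ) + t • NA b c.2) := by
    rw [chA, chB, Matrix.fromBlocks_smul, Matrix.fromBlocks_add]
    simp
  rw [h1, Matrix.det_fromBlocks_zero₂₁] at h
  exact ⟨left_ne_zero_of_mul h, right_ne_zero_of_mul h⟩

end Pool.Agent.Helper438.Sc
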