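import Pool.Agent.Helper438.Sc.Defs
import Pool.Agent.Helper438.Sc.P_ch_Ut

/-! Singular cohomology, the Borel construction of the stack of torsion sheaves on the projective
line, and all the auxiliary spaces used in the computation. -/

namespace Pool.Agent.Helper438.Sc

universe u v w



theorem ch_bad {n : Type} [Fintype n] [DecidableEq n] (A : Matrix n n ℂ) :
    {t : ℂ | (A + t • (1 : Matrix n n ℂ)).det = 0}.Finite := by
  have h1 : {t : ℂ | (A + t • (1 : Matrix n n ℂ)).det = 0} ⊆ {t | (-A).charpoly.IsRoot t} := by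
    intro t ht
    rw [Set.mem_setOf_eq] at ht ⊢
    rw [Polynomial.IsRoot, Matrix.eval_charpoly, ← ht]
    congr 1
    rw [sub_neg_eq_add, add_comm]
    congr 1
    ext i j
    simp [Matrix.scalar_apply, Matrix.diagonal_apply, Matrix.one_apply]
  refine Set.Finite.subset ?_ h1
  exact Polynomial.finite_setOf_isRoot (Matrix.charpoly_monic _).ne_zero

theorem ch_exists_t (a b : ℕ →₀ ℕ) (c : Cd a × Cd b) : ∃ t : ℂ, (chA c + t • chB c).det ≠ 0 := by
  classical
  have f1 := ch_bad (NA a c.1)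
  have f2 : ((fun t : ℂ => t⁻¹) ⁻¹' {t : ℂ | (NA b c.2 + t • (1 : Matrix (Ix b) (Ix b) ℂ)).det = 0}).Finite :=
    (ch_bad (NA b c.2)).preimage (inv_injective.injOn)
  have f3 : ({0} : Set ℂ).Finite := Set.finite_singleton 0
  obtain ⟨t, ht⟩ := ((f1.union f2).union f3).infinite_compl.nonempty
  simp only [Set.mem_compl_iff, Set.mem_union, Set.mem_setOf_eq, Set.mem_preimage,
    Set.mem_singleton_iff, not_or] at ht
  obtain ⟨⟨h1, h2⟩, h0⟩ := ht
  refine ⟨t, (ch_Ut a b c t h1 ?_).1⟩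
  have h3 : (1 : Matrix (Ix b) (Ix b) ℂ) + t • NA b c.2 =
      t • (NA b c.2 + t⁻¹ • (1 : Matrix (Ix b) (Ix b) ℂ)) := by
    rw [smul_add, smul_smul, mul_inv_cancel₀ h0, one_smul, add_comm]
  rw [h3, Matrix.det_smul]
  exact mul_ne_zero (pow_ne_zero _ h0) h2

end Pool.Agent.Helper438.Sc
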