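import Pool.Agent.Helper438.Sc.Defs

/-! Singular cohomology, the Borel construction of the stack of torsion sheaves on the projective
line, and all the auxiliary spaces used in the computation. -/

namespace Pool.Agent.Helper438.Sc

universe u v w



theorem aeval_fromBlocks_aux {α β : Type} [Fintype α] [DecidableEq α] [Fintype β] [DecidableEq β]
    (U : Matrix α α ℂ) (V : Matrix β β ℂ) (P : Polynomial ℂ) :
    Polynomial.aeval (Matrix.fromBlocks U 0 0 V) P
      = Matrix.fromBlocks (Polynomial.aeval U P) 0 0 (Polynomial.aeval V P) := by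
  induction P using Polynomial.induction_on' with
  | add p q hp hq =>
    rw [map_add, map_add, map_add, hp, hq, Matrix.fromBlocks_add]
    simp
  | monomial n c =>
    rw [Polynomial.aeval_monomial, Polynomial.aeval_monomial, Polynomial.aeval_monomial,
      Matrix.fromBlocks_diagonal_pow]
    rw [← Algebra.smul_def, ← Algebra.smul_def, ← Algebra.smul_def, Matrix.fromBlocks_smul]
    simp

theorem spec_iff_det_aux {α : Type} [Fintype α] [DecidableEq α] (A : Matrix α α ℂ) (m : ℂ) :
    m ∈ spectrum ℂ A ↔ (m • (1 : Matrix α α ℂ) - A).det = 0 := by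
  rw [spectrum.mem_iff, Algebra.algebraMap_eq_smul_one, Matrix.isUnit_iff_isUnit_det,
    isUnit_iff_ne_zero, not_not]

theorem det_smul_zero_aux {α : Type} [Fintype α] [DecidableEq α] (N : Matrix α α ℂ) (c : ℂ)
    (hc : c ≠ 0) (h : (c • N).det = 0) : N.det = 0 := by
  rw [Matrix.det_smul] at h
  rcases mul_eq_zero.1 h with h | h
  · exact absurd h (pow_ne_zero _ hc)
  · exact h

theorem proj_poly {α β : Type} [Fintype α] [DecidableEq α] [Fintype β] [DecidableEq β]
    (A : Matrix α α ℂ) (B : Matrix β β ℂ) (h : good A B) (t : ℂ)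
    (h1 : (A + t • (1 : Matrix α α ℂ)).det ≠ 0) (h2 : ((1 : Matrix β β ℂ) + t • B).det ≠ 0) :
    ∃ P : Polynomial ℂ, Polynomial.aeval
      (Matrix.fromBlocks (A + t • (1 : Matrix α α ℂ))⁻¹ 0 0 (((1 : Matrix β β ℂ) + t • B)⁻¹ * B)) P
      = Matrix.fromBlocks 1 0 0 0 := by
  have hu1 : IsUnit (A + t • (1 : Matrix α α ℂ)).det := isUnit_iff_ne_zero.2 h1
  have hu2 : IsUnit ((1 : Matrix β β ℂ) + t • B).det := isUnit_iff_ne_zero.2 h2
  have hcop : IsCoprime ((A + t • (1 : Matrix α α ℂ))⁻¹).charpoly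
      ((((1 : Matrix β β ℂ) + t • B)⁻¹ * B)).charpoly := by
    refine (Polynomial.isCoprime_iff_aeval_ne_zero_of_isAlgClosed (k := ℂ) ℂ _ _).2 ?_
    intro m
    by_contra hcon
    push Not at hcon
    obtain ⟨hm1, hm2⟩ := hcon
    have hs1 : m ∈ spectrum ℂ ((A + t • (1 : Matrix α α ℂ))⁻¹) := by
      rw [Matrix.mem_spectrum_iff_isRoot_charpoly, Polynomial.IsRoot.def]
      simpa [Polynomial.aeval_def] using hm1
    have hs2 : m ∈ spectrum ℂ (((1 : Matrix β β ℂ) + t • B)⁻¹ * B) := by
      rw [Matrix.mem_spectrum_iff_isRoot_charpoly, Polynomial.IsRoot.def]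
      simpa [Polynomial.aeval_def] using hm2
    rw [spec_iff_det_aux] at hs1 hs2
    have e1 : (A + t • (1 : Matrix α α ℂ)) * (m • (1 : Matrix α α ℂ)
        - (A + t • (1 : Matrix α α ℂ))⁻¹) = m • (A + t • (1 : Matrix α α ℂ)) - 1 := by
      rw [Matrix.mul_sub, Matrix.mul_nonsing_inv _ hu1, Matrix.mul_smul, Matrix.mul_one]
    have d1 : (m • (A + t • (1 : Matrix α α ℂ)) - 1).det = 0 := by
      rw [← e1, Matrix.det_mul, hs1, mul_zero]
    have e2 : ((1 : Matrix β β ℂ) + t • B) * (m • (1 : Matrix β β ℂ)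
        - ((1 : Matrix β β ℂ) + t • B)⁻¹ * B) = m • (1 : Matrix β β ℂ) - (1 - t * m) • B := by
      rw [Matrix.mul_sub, ← Matrix.mul_assoc, Matrix.mul_nonsing_inv _ hu2, Matrix.mul_smul,
        Matrix.mul_one, Matrix.one_mul, smul_add, smul_smul, sub_smul, one_smul, mul_comm m t]
      abel
    have d2 : (m • (1 : Matrix β β ℂ) - (1 - t * m) • B).det = 0 := by
      rw [← e2, Matrix.det_mul, hs2, mul_zero]
    have hm0 : m ≠ 0 := by
      intro h0
      rw [h0, zero_smul, zero_sub] at d1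
      have : ((-1 : ℂ) • (1 : Matrix α α ℂ)).det = 0 := by
        rw [neg_smul, one_smul]
        exact d1
      have h3 := det_smul_zero_aux _ _ (by norm_num) this
      rw [Matrix.det_one] at h3
      exact one_ne_zero h3
    have htm : 1 - t * m ≠ 0 := by
      intro h0
      rw [h0, zero_smul, sub_zero] at d2
      have h3 := det_smul_zero_aux _ _ hm0 d2
      rw [Matrix.det_one] at h3
      exact one_ne_zero h3
    have f1 : m • (A + t • (1 : Matrix α α ℂ)) - 1
        = (-m) • ((m⁻¹ - t) • (1 : Matrix α α ℂ) - A) := by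
      ext i j
      simp only [Matrix.sub_apply, Matrix.smul_apply, Matrix.add_apply, smul_eq_mul]
      field_simp
      ring
    rw [f1] at d1
    have g1 := det_smul_zero_aux _ _ (neg_ne_zero.2 hm0) d1
    rw [← spec_iff_det_aux] at g1
    have f2 : m • (1 : Matrix β β ℂ) - (1 - t * m) • B
        = (1 - t * m) • ((m / (1 - t * m)) • (1 : Matrix β β ℂ) - B) := by
      ext i j
      simp only [Matrix.sub_apply, Matrix.smul_apply, smul_eq_mul]
      rw [mul_sub, ← mul_assoc, mul_div_cancel₀ _ htm]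
    rw [f2] at d2
    have g2 := det_smul_zero_aux _ _ htm d2
    rw [← spec_iff_det_aux] at g2
    have h5 := h _ g1 _ g2
    have h6 : (m⁻¹ - t) * (m / (1 - t * m)) = 1 := by
      have : m⁻¹ - t = (1 - t * m) / m := by
        field_simp
      rw [this, div_mul_div_comm, mul_comm m (1 - t * m), div_self (mul_ne_zero htm hm0)]
    rw [h6, norm_one] at h5
    exact lt_irrefl _ h5
  obtain ⟨a, b, hab⟩ := hcop
  refine ⟨b * ((((1 : Matrix β β ℂ) + t • B)⁻¹ * B)).charpoly, ?_⟩
  rw [aeval_fromBlocks_aux]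
  have e1 : Polynomial.aeval ((A + t • (1 : Matrix α α ℂ))⁻¹)
      (b * ((((1 : Matrix β β ℂ) + t • B)⁻¹ * B)).charpoly) = 1 := by
    have : b * ((((1 : Matrix β β ℂ) + t • B)⁻¹ * B)).charpoly
        = 1 - a * ((A + t • (1 : Matrix α α ℂ))⁻¹).charpoly := by
      rw [← hab]; ring
    rw [this, map_sub, map_mul, Matrix.aeval_self_charpoly, mul_zero, sub_zero, map_one]
  have e2 : Polynomial.aeval (((1 : Matrix β β ℂ) + t • B)⁻¹ * B)
      (b * ((((1 : Matrix β β ℂ) + t • B)⁻¹ * B)).charpoly) = 0 := by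
    rw [map_mul, Matrix.aeval_self_charpoly, mul_zero]
  rw [e1, e2]

end Pool.Agent.Helper438.Sc
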