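import Pool.Agent.Helper438.Sc.Defs
import Pool.Agent.Helper438.Sc.P_NA_pow_lt
import Pool.Agent.Helper438.Sc.P_proj_poly
import Pool.Agent.Helper438.Sc.P_ch_Ut
import Pool.Agent.Helper438.Sc.P_ch_det
import Pool.Agent.Helper438.Sc.P_ch_exists_t

/-! Singular cohomology, the Borel construction of the stack of torsion sheaves on the projective
line, and all the auxiliary spaces used in the computation. -/

namespace Pool.Agent.Helper438.Sc

universe u v w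



theorem stab_inv {ι : Type} [Fintype ι] [DecidableEq ι] {M M' : Matrix ι ι ℂ} (h : M' * M = 1)
    (L : Submodule ℂ (ι → ℂ)) (hL : ∀ v ∈ L, M.mulVec v ∈ L) : ∀ v ∈ L, M'.mulVec v ∈ L := by
  intro v hv
  have hinj : Function.Injective ((Matrix.mulVecLin M).restrict (p := L) (q := L) hL) := by
    intro x y hxy
    have h1 : M.mulVec (x : ι → ℂ) = M.mulVec (y : ι → ℂ) := by
      have := congrArg Subtype.val hxy
      exact this
    have h2 : M'.mulVec (M.mulVec (x : ι → ℂ)) = M'.mulVec (M.mulVec (y : ι → ℂ)) := by rw [h1]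
    rw [Matrix.mulVec_mulVec, Matrix.mulVec_mulVec, h, Matrix.one_mulVec, Matrix.one_mulVec] at h2
    exact Subtype.ext h2
  obtain ⟨w, hw⟩ := (LinearMap.injective_iff_surjective.1 hinj) ⟨v, hv⟩
  have h1 : M.mulVec (w : ι → ℂ) = v := by
    have := congrArg Subtype.val hw
    exact this
  rw [← h1, Matrix.mulVec_mulVec, h, Matrix.one_mulVec]
  exact w.2

theorem stab_pow {ι : Type} [Fintype ι] [DecidableEq ι] {M : Matrix ι ι ℂ}
    (L : Submodule ℂ (ι → ℂ)) (hL : ∀ v ∈ L, M.mulVec v ∈ L) (k : ℕ) :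
    ∀ v ∈ L, (M ^ k).mulVec v ∈ L := by
  induction k with
  | zero => intro v hv; rw [pow_zero, Matrix.one_mulVec]; exact hv
  | succ k ih =>
    intro v hv
    rw [pow_succ, ← Matrix.mulVec_mulVec]
    exact ih _ (hL v hv)

theorem stab_aeval {ι : Type} [Fintype ι] [DecidableEq ι] {M : Matrix ι ι ℂ}
    (L : Submodule ℂ (ι → ℂ)) (hL : ∀ v ∈ L, M.mulVec v ∈ L) (P : Polynomial ℂ) :
    ∀ v ∈ L, (Polynomial.aeval M P).mulVec v ∈ L := by
  intro v hv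
  induction P using Polynomial.induction_on' with
  | add p q hp hq =>
    rw [map_add, Matrix.add_mulVec]
    exact L.add_mem hp hq
  | monomial n a =>
    rw [Polynomial.aeval_monomial, ← Algebra.smul_def, Matrix.smul_mulVec]
    exact L.smul_mem _ (stab_pow L hL n v hv)

theorem top_of_stable (a : ℕ →₀ ℕ) (c : Cd a) (L : Submodule ℂ (Ix a → ℂ))
    (hS : ∀ j, NS a c j ∈ L) (hA : ∀ v ∈ L, (NA a c).mulVec v ∈ L) : L = ⊤ := by
  rw [eq_top_iff, ← (Pi.basisFun ℂ (Ix a)).span_eq, Submodule.span_le]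
  rintro _ ⟨p, rfl⟩
  rw [Pi.basisFun_apply]
  have key : ∀ p : Ix a, (Pi.single p (1 : ℂ) : Ix a → ℂ) ∈ L := by
    rintro ⟨⟨j, k⟩, h⟩
    have h1 := NA_pow_lt a c j k h
    have h2 := stab_pow L hA k _ (hS j)
    rw [h1] at h2
    exact h2
  exact key p

theorem chart_gen (a b : ℕ →₀ ℕ) (c : Cd a × Cd b) (hc : c ∈ Wc a b) :
    Gen (chA c) (chB c) (chS c) := by
  obtain ⟨t, ht⟩ := ch_exists_t a b c
  refine ⟨t, ht, fun L hS hU => ?_⟩
  obtain ⟨h1, h2⟩ := ch_det a b c t ht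
  rw [(ch_Ut a b c t h1 h2).2] at hU
  obtain ⟨P, hP⟩ := proj_poly (NA a c.1) (NA b c.2) hc t h1 h2
  have hproj := stab_aeval L hU P
  rw [hP] at hproj
  have pj : ∀ (x : Ix a → ℂ) (y : Ix b → ℂ),
      (Matrix.fromBlocks (1 : Matrix (Ix a) (Ix a) ℂ) 0 0 (0 : Matrix (Ix b) (Ix b) ℂ)).mulVec
        (Sum.elim x y) = Sum.elim x 0 := by
    intro x y
    rw [Matrix.fromBlocks_mulVec]
    simp
  have uj : ∀ (x : Ix a → ℂ) (y : Ix b → ℂ) (M : Matrix (Ix a) (Ix a) ℂ) (N : Matrix (Ix b) (Ix b) ℂ),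
      (Matrix.fromBlocks M 0 0 N).mulVec (Sum.elim x y) = Sum.elim (M.mulVec x) (N.mulVec y) := by
    intro x y M N
    rw [Matrix.fromBlocks_mulVec]
    simp
  have a1 : ∀ x y : Ix a → ℂ, (Sum.elim (x + y) (0 : Ix b → ℂ) : Ix a ⊕ Ix b → ℂ) = Sum.elim x 0 + Sum.elim y 0 := by
    intro x y; funext p; cases p <;> simp
  have a2 : ∀ x y : Ix b → ℂ, (Sum.elim (0 : Ix a → ℂ) (x + y) : Ix a ⊕ Ix b → ℂ) = Sum.elim (0 : Ix a → ℂ) x + Sum.elim (0 : Ix a → ℂ) y := by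
    intro x y; funext p; cases p <;> simp
  have s1 : ∀ (r : ℂ) (x : Ix a → ℂ), (Sum.elim (r • x) (0 : Ix b → ℂ) : Ix a ⊕ Ix b → ℂ) = r • Sum.elim x 0 := by
    intro r x; funext p; cases p <;> simp
  have s2 : ∀ (r : ℂ) (x : Ix b → ℂ), (Sum.elim (0 : Ix a → ℂ) (r • x) : Ix a ⊕ Ix b → ℂ) = r • Sum.elim (0 : Ix a → ℂ) x := by
    intro r x; funext p; cases p <;> simp
  have z0 : (Sum.elim (0 : Ix a → ℂ) (0 : Ix b → ℂ)) = (0 : Ix a ⊕ Ix b → ℂ) := by
    funext p; cases p <;> simp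
  let L1 : Submodule ℂ (Ix a → ℂ) :=
    { carrier := {x | Sum.elim x (0 : Ix b → ℂ) ∈ L}
      add_mem' := by
        intro x y hx hy
        show Sum.elim (x + y) (0 : Ix b → ℂ) ∈ L
        rw [a1]; exact L.add_mem hx hy
      zero_mem' := by
        show Sum.elim (0 : Ix a → ℂ) (0 : Ix b → ℂ) ∈ L
        rw [z0]; exact L.zero_mem
      smul_mem' := by
        intro r x hx
        show Sum.elim (r • x) (0 : Ix b → ℂ) ∈ L
        rw [s1]; exact L.smul_mem _ hx }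
  let L2 : Submodule ℂ (Ix b → ℂ) :=
    { carrier := {x | Sum.elim (0 : Ix a → ℂ) x ∈ L}
      add_mem' := by
        intro x y hx hy
        show Sum.elim (0 : Ix a → ℂ) (x + y) ∈ L
        rw [a2]; exact L.add_mem hx hy
      zero_mem' := by
        show Sum.elim (0 : Ix a → ℂ) (0 : Ix b → ℂ) ∈ L
        rw [z0]; exact L.zero_mem
      smul_mem' := by
        intro r x hx
        show Sum.elim (0 : Ix a → ℂ) (r • x) ∈ L
        rw [s2]; exact L.smul_mem _ hx }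
  have m1 : ∀ x, x ∈ L1 ↔ Sum.elim x (0 : Ix b → ℂ) ∈ L := fun x => Iff.rfl
  have m2 : ∀ x, x ∈ L2 ↔ Sum.elim (0 : Ix a → ℂ) x ∈ L := fun x => Iff.rfl
  have n1 : ∀ j, NS a c.1 j ∈ L1 := by
    intro j
    rw [m1, ← pj (NS a c.1 j) (NS b c.2 j)]
    exact hproj _ (hS j)
  have n2 : ∀ j, NS b c.2 j ∈ L2 := by
    intro j
    rw [m2]
    have e : Sum.elim (0 : Ix a → ℂ) (NS b c.2 j) = chS c j - Sum.elim (NS a c.1 j) 0 := by
      funext p; cases p <;> simp [chS]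
    rw [e]
    exact L.sub_mem (hS j) (n1 j)
  -- stability of `L1`
  have u1 : ∀ v ∈ L1, ((NA a c.1 + t • (1 : Matrix (Ix a) (Ix a) ℂ))⁻¹).mulVec v ∈ L1 := by
    intro v hv
    have h := hU _ ((m1 v).1 hv)
    rw [uj, Matrix.mulVec_zero] at h
    exact h
  have i1 : (NA a c.1 + t • (1 : Matrix (Ix a) (Ix a) ℂ)) *
      (NA a c.1 + t • (1 : Matrix (Ix a) (Ix a) ℂ))⁻¹ = 1 :=
    Matrix.mul_nonsing_inv _ (isUnit_iff_ne_zero.2 h1)
  have v1 := stab_inv i1 L1 u1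
  have w1 : ∀ v ∈ L1, (NA a c.1).mulVec v ∈ L1 := by
    intro v hv
    have h := L1.sub_mem (v1 v hv) (L1.smul_mem t hv)
    rw [Matrix.add_mulVec, Matrix.smul_mulVec, Matrix.one_mulVec, add_sub_cancel_right] at h
    exact h
  have t1 : L1 = ⊤ := top_of_stable a c.1 L1 n1 w1
  -- stability of `L2`
  have u2 : ∀ v ∈ L2, (((1 : Matrix (Ix b) (Ix b) ℂ) + t • NA b c.2)⁻¹ * NA b c.2).mulVec v ∈ L2 := by
    intro v hv
    have h := hU _ ((m2 v).1 hv)
    rw [uj, Matrix.mulVec_zero] at h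
    exact h
  have i2 : ((1 : Matrix (Ix b) (Ix b) ℂ) + t • NA b c.2) *
      ((1 : Matrix (Ix b) (Ix b) ℂ) + t • NA b c.2)⁻¹ = 1 :=
    Matrix.mul_nonsing_inv _ (isUnit_iff_ne_zero.2 h2)
  have i2' : ((1 : Matrix (Ix b) (Ix b) ℂ) + t • NA b c.2)⁻¹ *
      ((1 : Matrix (Ix b) (Ix b) ℂ) + t • NA b c.2) = 1 :=
    Matrix.nonsing_inv_mul _ (isUnit_iff_ne_zero.2 h2)
  have j2 : ((1 : Matrix (Ix b) (Ix b) ℂ) + t • NA b c.2)⁻¹
      = 1 - t • (((1 : Matrix (Ix b) (Ix b) ℂ) + t • NA b c.2)⁻¹ * NA b c.2) := by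
    have h := i2'
    rw [mul_add, mul_one, Matrix.mul_smul] at h
    exact eq_sub_of_add_eq h
  have v2 : ∀ v ∈ L2, (((1 : Matrix (Ix b) (Ix b) ℂ) + t • NA b c.2)⁻¹).mulVec v ∈ L2 := by
    intro v hv
    rw [j2, Matrix.sub_mulVec, Matrix.one_mulVec, Matrix.smul_mulVec]
    exact L2.sub_mem hv (L2.smul_mem t (u2 v hv))
  have w2 := stab_inv i2 L2 v2
  have x2 : ∀ v ∈ L2, (NA b c.2).mulVec v ∈ L2 := by
    intro v hv
    have h := w2 _ (u2 v hv)
    rw [Matrix.mulVec_mulVec, ← mul_assoc, i2, one_mul] at h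
    exact h
  have t2 : L2 = ⊤ := top_of_stable b c.2 L2 n2 x2
  rw [eq_top_iff]
  intro v _
  have e : v = (Sum.elim (v ∘ Sum.inl) (0 : Ix b → ℂ) + Sum.elim (0 : Ix a → ℂ) (v ∘ Sum.inr) : Ix a ⊕ Ix b → ℂ) := by
    funext p; cases p <;> simp
  rw [e]
  refine L.add_mem ?_ ?_
  · rw [← m1, t1]; exact Submodule.mem_top
  · rw [← m2, t2]; exact Submodule.mem_top

end Pool.Agent.Helper438.Sc
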