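import Pool.Agent.Helper438.Sc.Defs
import Pool.Agent.Helper438.Sc.P_nrm_mul
import Pool.Agent.Helper438.Sc.P_good_iff_nrm

/-! Singular cohomology, the Borel construction of the stack of torsion sheaves on the projective
line, and all the auxiliary spaces used in the computation. -/

namespace Pool.Agent.Helper438.Sc

universe u v w



theorem good_cross_nonneg {α β : Type} [Fintype α] [Fintype β] (A : Matrix α β ℂ) : 0 ≤ nrm A :=
  Finset.sum_nonneg fun _ _ => Finset.sum_nonneg fun _ _ => norm_nonneg _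

theorem good_cross_pow {α : Type} [Fintype α] [DecidableEq α] (A : Matrix α α ℂ) (l : ℕ) :
    nrm (A ^ (l + 1)) ≤ nrm A ^ (l + 1) := by
  induction l with
  | zero => simp
  | succ l ih =>
    rw [pow_succ A (l + 1), pow_succ (nrm A) (l + 1)]
    exact (nrm_mul _ _).trans (mul_le_mul_of_nonneg_right ih (good_cross_nonneg _))

theorem good_cross_aux {α β : Type} [Fintype α] [DecidableEq α] [Fintype β] [DecidableEq β]
    (A : Matrix α α ℂ) (B : Matrix β β ℂ) (m l : ℕ) (hl : 1 ≤ l)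
    (h : nrm (A ^ m) * nrm (B ^ m) < 1) : nrm (A ^ (m * l)) * nrm (B ^ (m * l)) < 1 := by
  obtain ⟨k, rfl⟩ : ∃ k, l = k + 1 := ⟨l - 1, by omega⟩
  rw [pow_mul, pow_mul]
  calc nrm ((A ^ m) ^ (k + 1)) * nrm ((B ^ m) ^ (k + 1))
      ≤ nrm (A ^ m) ^ (k + 1) * nrm (B ^ m) ^ (k + 1) :=
        mul_le_mul (good_cross_pow _ _) (good_cross_pow _ _) (good_cross_nonneg _)
          (pow_nonneg (good_cross_nonneg _) _)
    _ = (nrm (A ^ m) * nrm (B ^ m)) ^ (k + 1) := (mul_pow _ _ _).symm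
    _ < 1 := pow_lt_one₀ (mul_nonneg (good_cross_nonneg _) (good_cross_nonneg _)) h (by omega)

theorem good_cross {α β : Type} [Fintype α] [DecidableEq α] [Fintype β] [DecidableEq β]
    (A A' : Matrix α α ℂ) (B B' : Matrix β β ℂ) (h : good A B) (h' : good A' B') :
    good A B' ∨ good A' B := by
  obtain ⟨m, hm, h1⟩ := (good_iff_nrm A B).1 h
  obtain ⟨l, hl, h2⟩ := (good_iff_nrm A' B').1 h'
  have h3 := good_cross_aux A B m l hl h1
  have h4 := good_cross_aux A' B' l m hm h2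
  rw [mul_comm l m] at h4
  have hM : 1 ≤ m * l := Nat.mul_le_mul hm hl
  by_cases h5 : nrm (A ^ (m * l)) * nrm (B' ^ (m * l)) < 1
  · exact Or.inl ((good_iff_nrm A B').2 ⟨m * l, hM, h5⟩)
  · refine Or.inr ((good_iff_nrm A' B).2 ⟨m * l, hM, ?_⟩)
    by_contra h6
    push Not at h5 h6
    have h7 : 1 ≤ (nrm (A ^ (m * l)) * nrm (B' ^ (m * l))) *
        (nrm (A' ^ (m * l)) * nrm (B ^ (m * l))) := by
      have := mul_le_mul h5 h6 zero_le_one (zero_le_one.trans h5)
      rwa [one_mul] at this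
    have h8 : (nrm (A ^ (m * l)) * nrm (B ^ (m * l))) *
        (nrm (A' ^ (m * l)) * nrm (B' ^ (m * l))) < 1 :=
      mul_lt_one_of_nonneg_of_lt_one_left
        (mul_nonneg (good_cross_nonneg _) (good_cross_nonneg _)) h3 h4.le
    nlinarith

end Pool.Agent.Helper438.Sc
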