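import Pool.Agent.Helper438.Sc.Defs
import Pool.Agent.Helper438.Sc.P_NA_pow_lt
import Pool.Agent.Helper438.Sc.P_NA_pow_top

/-! Singular cohomology, the Borel construction of the stack of torsion sheaves on the projective
line, and all the auxiliary spaces used in the computation. -/

namespace Pool.Agent.Helper438.Sc

universe u v w



theorem nfu_comm (a : ℕ →₀ ℕ) (c c' : Cd a) (h : Matrix (Ix a) (Ix a) ℂ)
    (h1 : h * NA a c = NA a c' * h) (k : ℕ) : h * NA a c ^ k = NA a c' ^ k * h := by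
  induction k with
  | zero => simp
  | succ k ih =>
    rw [pow_succ, ← Matrix.mul_assoc, ih, Matrix.mul_assoc, h1, ← Matrix.mul_assoc, ← pow_succ]

theorem nf_unique (a : ℕ →₀ ℕ) (c c' : Cd a) (h : Matrix (Ix a) (Ix a) ℂ)
    (h1 : h * NA a c = NA a c' * h) (h2 : ∀ j, h.mulVec (NS a c j) = NS a c' j) :
    h = 1 ∧ c = c' := by
  have key : ∀ (j k : ℕ), h.mulVec ((NA a c ^ k).mulVec (NS a c j)) =
      (NA a c' ^ k).mulVec (NS a c' j) := by
    intro j k
    rw [Matrix.mulVec_mulVec, nfu_comm a c c' h h1 k, ← Matrix.mulVec_mulVec, h2]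
  have hh : h = 1 := by
    apply Matrix.ext_of_mulVec_single
    rintro ⟨⟨j, k⟩, hk⟩
    have h3 := key j k
    rw [NA_pow_lt a c j k hk, NA_pow_lt a c' j k hk] at h3
    rw [Matrix.one_mulVec]
    exact h3
  refine ⟨hh, ?_⟩
  funext j
  have h4 := key j (a j)
  rw [hh, Matrix.one_mulVec, NA_pow_top, NA_pow_top] at h4
  exact h4

end Pool.Agent.Helper438.Sc
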