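import Pool.Agent.Helper438.Sc.Defs
import Pool.Agent.Helper438.Sc.P_nrm_mul
import Pool.Agent.Helper438.Sc.P_good_iff_nrm

/-! Singular cohomology, the Borel construction of the stack of torsion sheaves on the projective
line, and all the auxiliary spaces used in the computation. -/

namespace Pool.Agent.Helper438.Sc

universe u v w



theorem sylv_inj {α β : Type} [Fintype α] [DecidableEq α] [Fintype β] [DecidableEq β]
    (A : Matrix α α ℂ) (B : Matrix β β ℂ) (h : good A B) (X : Matrix α β ℂ)
    (hX : X = A * X * B) : X = 0 := by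
  
  obtain ⟨m, -, hm⟩ := (good_iff_nrm A B).1 h
  have hit : ∀ n : ℕ, X = A ^ n * X * B ^ n := by
    intro n
    induction n with
    | zero => simp
    | succ n ih =>
      calc X = A ^ n * X * B ^ n := ih
        _ = A ^ n * (A * X * B) * B ^ n := by rw [← hX]
        _ = A ^ (n + 1) * X * B ^ (n + 1) := by
          rw [pow_succ A, pow_succ' B]
          simp only [Matrix.mul_assoc]
  have hX0 : 0 ≤ nrm X := Finset.sum_nonneg fun i _ => Finset.sum_nonneg fun j _ => norm_nonneg _
  have hA0 : 0 ≤ nrm (A ^ m) := Finset.sum_nonneg fun i _ => Finset.sum_nonneg fun j _ => norm_nonneg _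
  have hB0 : 0 ≤ nrm (B ^ m) := Finset.sum_nonneg fun i _ => Finset.sum_nonneg fun j _ => norm_nonneg _
  have h1 : nrm X ≤ nrm (A ^ m) * nrm X * nrm (B ^ m) := by
    calc nrm X = nrm (A ^ m * X * B ^ m) := by rw [← hit m]
      _ ≤ nrm (A ^ m * X) * nrm (B ^ m) := nrm_mul _ _
      _ ≤ nrm (A ^ m) * nrm X * nrm (B ^ m) := by
        exact mul_le_mul_of_nonneg_right (nrm_mul _ _) hB0
  have h2 : nrm X = 0 := by
    by_contra hne
    have hpos : 0 < nrm X := lt_of_le_of_ne hX0 (Ne.symm hne)
    nlinarith [mul_pos hpos (sub_pos.2 hm)]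
  ext i j
  have h3 := (Finset.sum_eq_zero_iff_of_nonneg (fun i _ => Finset.sum_nonneg fun j _ =>
    norm_nonneg (X i j))).1 h2 i (Finset.mem_univ i)
  have h4 := (Finset.sum_eq_zero_iff_of_nonneg (fun j _ => norm_nonneg (X i j))).1 h3 j
    (Finset.mem_univ j)
  simpa using h4

end Pool.Agent.Helper438.Sc
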