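import Pool.Agent.Helper438.Sc.Defs
import Pool.Agent.Helper438.Sc.P_nf_unique
import Pool.Agent.Helper438.Sc.P_good_symm
import Pool.Agent.Helper438.Sc.P_sylv_inj
import Pool.Agent.Helper438.Sc.P_good_cross
import Pool.Agent.Helper438.Sc.P_good_conj_left
import Pool.Agent.Helper438.Sc.P_good_conj_right

/-! Singular cohomology, the Borel construction of the stack of torsion sheaves on the projective
line, and all the auxiliary spaces used in the computation. -/

namespace Pool.Agent.Helper438.Sc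

universe u v w



theorem chart_inj (a b : ℕ →₀ ℕ) (c c' : Cd a × Cd b) (hc : c ∈ Wc a b) (hc' : c' ∈ Wc a b)
    (h : REq (chA c) (chB c) (chS c) (chA c') (chB c') (chS c')) : c = c' := by
  obtain ⟨g, h, g', h', _, _, h3, h4, h5, h6, h7⟩ := h
  obtain ⟨g11, g12, g21, g22, rfl⟩ : ∃ g11 g12 g21 g22, g = Matrix.fromBlocks g11 g12 g21 g22 :=
    ⟨_, _, _, _, (Matrix.fromBlocks_toBlocks g).symm⟩
  obtain ⟨x11, x12, x21, x22, rfl⟩ : ∃ x11 x12 x21 x22, h = Matrix.fromBlocks x11 x12 x21 x22 :=
    ⟨_, _, _, _, (Matrix.fromBlocks_toBlocks h).symm⟩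
  obtain ⟨y11, y12, y21, y22, rfl⟩ : ∃ y11 y12 y21 y22, h' = Matrix.fromBlocks y11 y12 y21 y22 :=
    ⟨_, _, _, _, (Matrix.fromBlocks_toBlocks h').symm⟩
  unfold chA at h5
  unfold chB at h6
  rw [Matrix.fromBlocks_multiply, Matrix.fromBlocks_multiply, Matrix.fromBlocks_inj] at h5 h6
  rw [Matrix.fromBlocks_multiply, ← Matrix.fromBlocks_one, Matrix.fromBlocks_inj] at h3 h4
  simp only [Matrix.zero_mul, Matrix.mul_zero, add_zero, zero_add, Matrix.one_mul, Matrix.mul_one] at h5 h6
  obtain ⟨a11, a12, a21, a22⟩ := h5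
  obtain ⟨b11, b12, b21, b22⟩ := h6
  obtain ⟨p11, p12, p21, p22⟩ := h3
  obtain ⟨q11, q12, q21, q22⟩ := h4
  set A := NA a c.1 with hA
  set A' := NA a c'.1 with hA'
  set B := NA b c.2 with hB
  set B' := NA b c'.2 with hB'
  have hg : good A B := hc
  have hg' : good A' B' := hc'
  -- the equations
  have e12 : x12 = A' * x12 * B := by rw [a12, ← b12]
  have e21 : x21 = B' * x21 * A := by rw [b21, ← a21]
  have e11 : A' * x11 = x11 * A := by rw [a11, ← b11]
  have e22 : B' * x22 = x22 * B := by rw [b22, ← a22]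
  have key : x12 = 0 ∧ x21 = 0 := by
    rcases good_cross A A' B B' hg hg' with hcr | hcr
    · have z21 : x21 = 0 := sylv_inj B' A (good_symm A B' hcr) x21 e21
      have i11 : y11 * x11 = 1 := by
        rw [z21, Matrix.mul_zero, add_zero] at q11
        exact q11
      have i11' : x11 * y11 = 1 := mul_eq_one_comm.mp i11
      have hgc := good_conj_left A A' x11 y11 B i11' e11 hg
      exact ⟨sylv_inj A' B hgc x12 e12, z21⟩
    · have z12 : x12 = 0 := sylv_inj A' B hcr x12 e12
      have i22 : y22 * x22 = 1 := by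
        rw [z12, Matrix.mul_zero, zero_add] at q22
        exact q22
      have i22' : x22 * y22 = 1 := mul_eq_one_comm.mp i22
      have hgc := good_conj_right A B B' x22 y22 i22' e22 hg
      exact ⟨z12, sylv_inj B' A (good_symm A B' hgc) x21 e21⟩
  obtain ⟨z12, z21⟩ := key
  have hs : ∀ j, x11.mulVec (NS a c.1 j) = NS a c'.1 j ∧ x22.mulVec (NS b c.2 j) = NS b c'.2 j := by
    intro j
    have h8 := h7 j
    rw [z12, z21, Matrix.fromBlocks_mulVec] at h8
    constructor
    · funext p
      have h9 := congrFun h8 (Sum.inl p)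
      simp only [chS, Sum.elim_inl, Matrix.zero_mulVec, add_zero] at h9
      rw [h9]
      rfl
    · funext p
      have h9 := congrFun h8 (Sum.inr p)
      simp only [chS, Sum.elim_inr, Matrix.zero_mulVec, zero_add] at h9
      rw [h9]
      rfl
  have r1 := nf_unique a c.1 c'.1 x11 e11.symm (fun j => (hs j).1)
  have r2 := nf_unique b c.2 c'.2 x22 e22.symm (fun j => (hs j).2)
  exact Prod.ext r1.2 r2.2

end Pool.Agent.Helper438.Sc
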