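import Pool.Agent.Helper438.Sc.Defs

/-! Singular cohomology, the Borel construction of the stack of torsion sheaves on the projective
line, and all the auxiliary spaces used in the computation. -/

namespace Pool.Agent.Helper438.Sc

universe u v w



/-- constructor -/
def nfMk (a : ℕ →₀ ℕ) (x : ℕ × ℕ) (hx : x.2 < a x.1) : Ix a := Subtype.mk x hx

theorem nf_exists_sum (a : ℕ →₀ ℕ) (f : Ix a → ℂ) (x : ℕ × ℕ) (hx : x.2 < a x.1) :
    ∑ r : Ix a, f r * (if r.1 = x then (1 : ℂ) else 0) = f (nfMk a x hx) := by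
  refine (Finset.sum_eq_single (nfMk a x hx) ?_ ?_).trans ?_
  · intro r _ hr
    have h : ¬ (r.1 = x) := fun h => hr (Subtype.ext h)
    exact (congrArg (fun z => f r * z) (if_neg h)).trans (mul_zero _)
  · intro h
    exact absurd (Finset.mem_univ _) h
  · have h : (nfMk a x hx).1 = x := rfl
    exact (congrArg (fun z => f (nfMk a x hx) * z) (if_pos h)).trans (mul_one _)

theorem nf_exists (a : ℕ →₀ ℕ) (A : Matrix (Ix a) (Ix a) ℂ) (s : ℕ → Ix a → ℂ)
    (K : Matrix (Ix a) (Ix a) ℂ) (hK : K = fun p q => ((A ^ q.1.2).mulVec (s q.1.1)) p)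
    (hdet : K.det ≠ 0) (c : Cd a) (hc : c = fun j => K⁻¹.mulVec ((A ^ (a j)).mulVec (s j))) :
    A * K = K * NA a c ∧ ∀ j, s j = K.mulVec (NS a c j) := by
  have hKc : ∀ j, K.mulVec (c j) = (A ^ (a j)).mulVec (s j) := by
    intro j
    rw [hc]
    show K.mulVec (K⁻¹.mulVec ((A ^ (a j)).mulVec (s j))) = _
    rw [Matrix.mulVec_mulVec, Matrix.mul_nonsing_inv K (isUnit_iff_ne_zero.2 hdet),
      Matrix.one_mulVec]
  have hKe : ∀ p q : Ix a, K p q = ((A ^ q.1.2).mulVec (s q.1.1)) p := by
    intro p q; exact congrFun (congrFun hK p) q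
  constructor
  · ext p q
    have h1 : (A * K) p q = ((A ^ (q.1.2 + 1)).mulVec (s q.1.1)) p := by
      rw [pow_succ', ← Matrix.mulVec_mulVec, Matrix.mul_apply]
      show _ = ∑ r, A p r * ((A ^ q.1.2).mulVec (s q.1.1)) r
      apply Finset.sum_congr rfl
      intro r _
      exact congrArg (fun z => A p r * z) (hKe r q)
    refine h1.trans ?_
    rw [Matrix.mul_apply]
    by_cases hq : q.1.2 + 1 < a q.1.1
    · have h2 : ∀ r, K p r * NA a c r q = K p r * (if r.1 = (q.1.1, q.1.2 + 1) then (1 : ℂ) else 0) := by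
        intro r
        exact congrArg (fun z => K p r * z) (if_pos hq)
      have h5 := nf_exists_sum a (K p) (q.1.1, q.1.2 + 1) hq
      have h6 := hKe p (nfMk a (q.1.1, q.1.2 + 1) hq)
      have h7 := Finset.sum_congr rfl (fun r (_ : r ∈ (Finset.univ : Finset (Ix a))) => h2 r)
      exact ((h7.trans h5).trans h6).symm
    · have h2 : ∀ r, K p r * NA a c r q = K p r * c q.1.1 r := by
        intro r
        exact congrArg (fun z => K p r * z) (if_neg hq)
      have h7 := Finset.sum_congr rfl (fun r (_ : r ∈ (Finset.univ : Finset (Ix a))) => h2 r)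
      have h3 : q.1.2 < a q.1.1 := q.2
      have h4 : q.1.2 + 1 = a q.1.1 := by omega
      have h8 : (K.mulVec (c q.1.1)) p = ((A ^ (a q.1.1)).mulVec (s q.1.1)) p :=
        congrFun (hKc _) p
      have h9 : ((A ^ (q.1.2 + 1)).mulVec (s q.1.1)) p = ((A ^ (a q.1.1)).mulVec (s q.1.1)) p :=
        congrArg (fun k => ((A ^ k).mulVec (s q.1.1)) p) h4
      exact (h9.trans h8.symm).trans h7.symm
  · intro j
    funext p
    by_cases hj : 0 < a j
    · have h2 : (K.mulVec (NS a c j)) p = ∑ r, K p r * (if r.1 = (j, 0) then (1 : ℂ) else 0) := by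
        show ∑ r, K p r * NS a c j r = _
        apply Finset.sum_congr rfl
        intro r _
        exact congrArg (fun z => K p r * z) (if_pos hj)
      have h5 := nf_exists_sum a (K p) (j, 0) hj
      have h6 : K p (nfMk a (j, 0) hj) = ((A ^ 0).mulVec (s j)) p := hKe p (nfMk a (j, 0) hj)
      have h7 : ((A ^ 0).mulVec (s j)) p = s j p := by
        rw [pow_zero, Matrix.one_mulVec]
      exact (((h2.trans h5).trans h6).trans h7).symm
    · have h2 : NS a c j = c j := by
        funext r
        exact if_neg hj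
      have h3 : a j = 0 := by omega
      rw [h2, hKc, h3, pow_zero, Matrix.one_mulVec]

end Pool.Agent.Helper438.Sc
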