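import Pool.Agent.Helper438.Sc.Defs
import Pool.Agent.Helper438.Sc.P_sylv_inj

/-! Singular cohomology, the Borel construction of the stack of torsion sheaves on the projective
line, and all the auxiliary spaces used in the computation. -/

namespace Pool.Agent.Helper438.Sc

universe u v w



theorem sylv_surj {α β : Type} [Fintype α] [DecidableEq α] [Fintype β] [DecidableEq β]
    (A : Matrix α α ℂ) (B : Matrix β β ℂ) (h : good A B) (M : Matrix α β ℂ) :
    ∃ X : Matrix α β ℂ, X - A * X * B = M := by
  let f : Matrix α β ℂ →ₗ[ℂ] Matrix α β ℂ :=
    { toFun := fun X => X - A * X * B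
      map_add' := by
        intro X Y
        rw [Matrix.mul_add, Matrix.add_mul]
        abel
      map_smul' := by
        intro c X
        rw [Matrix.mul_smul, Matrix.smul_mul, RingHom.id_apply, smul_sub] }
  have hinj : Function.Injective f := by
    rw [← LinearMap.ker_eq_bot, LinearMap.ker_eq_bot']
    intro X hX
    apply sylv_inj A B h X
    exact sub_eq_zero.1 hX
  exact LinearMap.injective_iff_surjective.1 hinj M

end Pool.Agent.Helper438.Sc
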