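import Pool.Agent.Helper438.Sc.Defs
import Pool.Agent.Helper438.Sc.P_good_symm
import Pool.Agent.Helper438.Sc.P_sylv_surj

/-! Singular cohomology, the Borel construction of the stack of torsion sheaves on the projective
line, and all the auxiliary spaces used in the computation. -/

namespace Pool.Agent.Helper438.Sc

universe u v w



theorem theta_surj {α β : Type} [Fintype α] [DecidableEq α] [Fintype β] [DecidableEq β]
    (A : Matrix α α ℂ) (B : Matrix β β ℂ) (h : good A B)
    (M N : Matrix (α ⊕ β) (α ⊕ β) ℂ) :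
    ∃ (X X' : Matrix (α ⊕ β) (α ⊕ β) ℂ) (dA : Matrix α α ℂ) (dB : Matrix β β ℂ),
      X * Matrix.fromBlocks A 0 0 1 + Matrix.fromBlocks A 0 0 1 * X' +
        Matrix.fromBlocks dA 0 0 0 = M ∧
      X * Matrix.fromBlocks 1 0 0 B + Matrix.fromBlocks 1 0 0 B * X' +
        Matrix.fromBlocks 0 0 0 dB = N := by
  obtain ⟨P, hP⟩ := sylv_surj A B h (N.toBlocks₁₂ - M.toBlocks₁₂ * B)
  obtain ⟨R, hR⟩ := sylv_surj B A (good_symm A B h) (M.toBlocks₂₁ - N.toBlocks₂₁ * A)
  refine ⟨Matrix.fromBlocks N.toBlocks₁₁ (M.toBlocks₁₂ - A * P) (N.toBlocks₂₁ - B * R)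
      M.toBlocks₂₂, Matrix.fromBlocks 0 P R 0, M.toBlocks₁₁ - N.toBlocks₁₁ * A,
      N.toBlocks₂₂ - M.toBlocks₂₂ * B, ?_, ?_⟩
  · conv_rhs => rw [← Matrix.fromBlocks_toBlocks M]
    rw [Matrix.fromBlocks_multiply, Matrix.fromBlocks_multiply, Matrix.fromBlocks_add,
      Matrix.fromBlocks_add, Matrix.fromBlocks_inj]
    refine ⟨?_, ?_, ?_, ?_⟩
    · simp only [Matrix.mul_zero, add_zero, Matrix.zero_mul]
      abel
    · simp only [Matrix.mul_zero, add_zero, Matrix.zero_mul, zero_add, Matrix.mul_one]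
      abel
    · simp only [Matrix.mul_zero, add_zero, Matrix.zero_mul, zero_add, Matrix.one_mul,
        Matrix.sub_mul]
      have e : R = (M.toBlocks₂₁ - N.toBlocks₂₁ * A) + B * R * A := by
        rw [← hR]; abel
      nth_rewrite 2 [e]
      abel
    · simp only [Matrix.mul_zero, add_zero, Matrix.zero_mul, zero_add, Matrix.mul_one]
  · conv_rhs => rw [← Matrix.fromBlocks_toBlocks N]
    rw [Matrix.fromBlocks_multiply, Matrix.fromBlocks_multiply, Matrix.fromBlocks_add,
      Matrix.fromBlocks_add, Matrix.fromBlocks_inj]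
    refine ⟨?_, ?_, ?_, ?_⟩
    · simp only [Matrix.mul_zero, add_zero, Matrix.zero_mul, Matrix.mul_one]
    · simp only [Matrix.mul_zero, add_zero, Matrix.zero_mul, zero_add, Matrix.one_mul,
        Matrix.sub_mul]
      have e : P = (N.toBlocks₁₂ - M.toBlocks₁₂ * B) + A * P * B := by
        rw [← hP]; abel
      nth_rewrite 2 [e]
      abel
    · simp only [Matrix.mul_zero, add_zero, Matrix.zero_mul, zero_add, Matrix.mul_one]
      abel
    · simp only [Matrix.mul_zero, add_zero, Matrix.zero_mul, zero_add]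
      abel

end Pool.Agent.Helper438.Sc
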