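import Pool.Agent.Helper438.Sc.Defs
import Pool.Agent.Helper438.Sc.P_theta_surj

/-! Singular cohomology, the Borel construction of the stack of torsion sheaves on the projective
line, and all the auxiliary spaces used in the computation. -/

namespace Pool.Agent.Helper438.Sc

universe u v w



open Topology in
theorem theta_open_abs {R V W : Type} [NormedRing R] [NormedAlgebra ℂ R] [CompleteSpace R]
    [NormedAddCommGroup V] [NormedSpace ℂ V] [CompleteSpace V]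
    [NormedAddCommGroup W] [NormedSpace ℂ W] [CompleteSpace W]
    (L1 : V →L[ℂ] R) (L2 : W →L[ℂ] R) (c1 c2 : R) (O : Set (R × R × V × W)) (hO : IsOpen O)
    (hs : ∀ x ∈ O, ∀ M N : R, ∃ v : R × R × V × W,
      v.1 * (L1 x.2.2.1 + c1) * x.2.1 + x.1 * L1 v.2.2.1 * x.2.1 +
        x.1 * (L1 x.2.2.1 + c1) * v.2.1 = M ∧
      v.1 * (L2 x.2.2.2 + c2) * x.2.1 + x.1 * L2 v.2.2.2 * x.2.1 +
        x.1 * (L2 x.2.2.2 + c2) * v.2.1 = N) :
    IsOpen ((fun x : R × R × V × W => (x.1 * (L1 x.2.2.1 + c1) * x.2.1,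
      x.1 * (L2 x.2.2.2 + c2) * x.2.1)) '' O) := by
  rw [isOpen_iff_mem_nhds]
  rintro _ ⟨x, hx, rfl⟩
  let p1 : (R × R × V × W) →L[ℂ] R := ContinuousLinearMap.fst ℂ R (R × V × W)
  let p2 : (R × R × V × W) →L[ℂ] R :=
    (ContinuousLinearMap.fst ℂ R (V × W)).comp (ContinuousLinearMap.snd ℂ R (R × V × W))
  let p3 : (R × R × V × W) →L[ℂ] V :=
    (ContinuousLinearMap.fst ℂ V W).comp ((ContinuousLinearMap.snd ℂ R (V × W)).comp
      (ContinuousLinearMap.snd ℂ R (R × V × W)))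
  let p4 : (R × R × V × W) →L[ℂ] W :=
    (ContinuousLinearMap.snd ℂ V W).comp ((ContinuousLinearMap.snd ℂ R (V × W)).comp
      (ContinuousLinearMap.snd ℂ R (R × V × W)))
  have d1 : HasStrictFDerivAt (fun x : R × R × V × W => x.1) p1 x := p1.hasStrictFDerivAt
  have d2 : HasStrictFDerivAt (fun x : R × R × V × W => x.2.1) p2 x := p2.hasStrictFDerivAt
  have d3 : HasStrictFDerivAt (fun x : R × R × V × W => L1 x.2.2.1 + c1) (L1.comp p3) x :=
    ((L1.comp p3).hasStrictFDerivAt).add_const c1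
  have d4 : HasStrictFDerivAt (fun x : R × R × V × W => L2 x.2.2.2 + c2) (L2.comp p4) x :=
    ((L2.comp p4).hasStrictFDerivAt).add_const c2
  have e1 := (d1.fun_mul' d3).fun_mul' d2
  have e2 := (d1.fun_mul' d4).fun_mul' d2
  have e := e1.prodMk e2
  have hsurj : (ContinuousLinearMap.prod
      ((x.1 * (L1 x.2.2.1 + c1)) • p2 + MulOpposite.op x.2.1 • (x.1 • (L1.comp p3) +
        MulOpposite.op (L1 x.2.2.1 + c1) • p1))
      ((x.1 * (L2 x.2.2.2 + c2)) • p2 + MulOpposite.op x.2.1 • (x.1 • (L2.comp p4) +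
        MulOpposite.op (L2 x.2.2.2 + c2) • p1))).range
      = ⊤ := by
    rw [eq_top_iff]
    rintro ⟨M, N⟩ -
    obtain ⟨v, hv1, hv2⟩ := hs x hx M N
    refine ⟨v, ?_⟩
    refine Prod.ext ?_ ?_
    · rw [← hv1]
      show (x.1 * (L1 x.2.2.1 + c1)) * v.2.1 + (x.1 * L1 v.2.2.1 + v.1 * (L1 x.2.2.1 + c1)) * x.2.1
        = _
      noncomm_ring
    · rw [← hv2]
      show (x.1 * (L2 x.2.2.2 + c2)) * v.2.1 + (x.1 * L2 v.2.2.2 + v.1 * (L2 x.2.2.2 + c2)) * x.2.1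
        = _
      noncomm_ring
  have hmap := e.map_nhds_eq_of_surj hsurj
  rw [← hmap]
  exact Filter.image_mem_map (hO.mem_nhds hx)

theorem theta_open {α β : Type} [Fintype α] [DecidableEq α] [Fintype β] [DecidableEq β]
    (O : Set (Matrix (α ⊕ β) (α ⊕ β) ℂ × Matrix (α ⊕ β) (α ⊕ β) ℂ × Matrix α α ℂ × Matrix β β ℂ))
    (hO : IsOpen O) (hO' : ∀ x ∈ O, x.1.det ≠ 0 ∧ x.2.1.det ≠ 0 ∧ good x.2.2.1 x.2.2.2) :
    IsOpen ((fun x : Matrix (α ⊕ β) (α ⊕ β) ℂ × Matrix (α ⊕ β) (α ⊕ β) ℂ × Matrix α α ℂ ×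
        Matrix β β ℂ => (x.1 * Matrix.fromBlocks x.2.2.1 0 0 1 * x.2.1,
          x.1 * Matrix.fromBlocks 1 0 0 x.2.2.2 * x.2.1)) '' O) := by
  let _ : NormedRing (Matrix (α ⊕ β) (α ⊕ β) ℂ) := Matrix.linftyOpNormedRing
  let _ : NormedAlgebra ℂ (Matrix (α ⊕ β) (α ⊕ β) ℂ) := Matrix.linftyOpNormedAlgebra
  let _ : NormedAddCommGroup (Matrix α α ℂ) := Matrix.linftyOpNormedAddCommGroup
  let _ : NormedSpace ℂ (Matrix α α ℂ) := Matrix.linftyOpNormedSpace
  let _ : NormedAddCommGroup (Matrix β β ℂ) := Matrix.linftyOpNormedAddCommGroup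
  let _ : NormedSpace ℂ (Matrix β β ℂ) := Matrix.linftyOpNormedSpace
  have : CompleteSpace (Matrix (α ⊕ β) (α ⊕ β) ℂ) := FiniteDimensional.complete ℂ _
  have : CompleteSpace (Matrix α α ℂ) := FiniteDimensional.complete ℂ _
  have : CompleteSpace (Matrix β β ℂ) := FiniteDimensional.complete ℂ _
  let l1 : Matrix α α ℂ →ₗ[ℂ] Matrix (α ⊕ β) (α ⊕ β) ℂ :=
    { toFun := fun A => Matrix.fromBlocks A 0 0 0
      map_add' := fun A B => by rw [Matrix.fromBlocks_add]; simp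
      map_smul' := fun c A => by
        rw [RingHom.id_apply, Matrix.fromBlocks_smul]; simp }
  let l2 : Matrix β β ℂ →ₗ[ℂ] Matrix (α ⊕ β) (α ⊕ β) ℂ :=
    { toFun := fun A => Matrix.fromBlocks 0 0 0 A
      map_add' := fun A B => by rw [Matrix.fromBlocks_add]; simp
      map_smul' := fun c A => by
        rw [RingHom.id_apply, Matrix.fromBlocks_smul]; simp }
  have h1 : ∀ A : Matrix α α ℂ, (Matrix.fromBlocks A 0 0 1 : Matrix (α ⊕ β) (α ⊕ β) ℂ)
      = l1 A + Matrix.fromBlocks 0 0 0 1 := fun A => by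
    show _ = Matrix.fromBlocks A 0 0 0 + Matrix.fromBlocks 0 0 0 1
    rw [Matrix.fromBlocks_add]; simp
  have h2 : ∀ B : Matrix β β ℂ, (Matrix.fromBlocks 1 0 0 B : Matrix (α ⊕ β) (α ⊕ β) ℂ)
      = l2 B + Matrix.fromBlocks 1 0 0 0 := fun A => by
    show _ = Matrix.fromBlocks 0 0 0 A + Matrix.fromBlocks 1 0 0 0
    rw [Matrix.fromBlocks_add]; simp
  have key := theta_open_abs (LinearMap.toContinuousLinearMap l1)
    (LinearMap.toContinuousLinearMap l2) (Matrix.fromBlocks 0 0 0 1) (Matrix.fromBlocks 1 0 0 0)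
    O hO (by
      intro x hx M N
      obtain ⟨hg, hh, hgood⟩ := hO' x hx
      obtain ⟨X, X', dA, dB, e1, e2⟩ := theta_surj x.2.2.1 x.2.2.2 hgood
        (x.1⁻¹ * M * x.2.1⁻¹) (x.1⁻¹ * N * x.2.1⁻¹)
      have hg' : x.1 * x.1⁻¹ = 1 := Matrix.mul_nonsing_inv _ (isUnit_iff_ne_zero.2 hg)
      have hh' : x.2.1⁻¹ * x.2.1 = 1 := Matrix.nonsing_inv_mul _ (isUnit_iff_ne_zero.2 hh)
      refine ⟨(x.1 * X, X' * x.2.1, dA, dB), ?_, ?_⟩
      · show x.1 * X * (l1 x.2.2.1 + Matrix.fromBlocks 0 0 0 1) * x.2.1 +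
          x.1 * Matrix.fromBlocks dA 0 0 0 * x.2.1 +
          x.1 * (l1 x.2.2.1 + Matrix.fromBlocks 0 0 0 1) * (X' * x.2.1) = M
        rw [← h1]
        calc _ = x.1 * (X * Matrix.fromBlocks x.2.2.1 0 0 1 +
              Matrix.fromBlocks x.2.2.1 0 0 1 * X' + Matrix.fromBlocks dA 0 0 0) * x.2.1 := by
              noncomm_ring
          _ = (x.1 * x.1⁻¹) * M * (x.2.1⁻¹ * x.2.1) := by rw [e1]; noncomm_ring
          _ = M := by rw [hg', hh', one_mul, mul_one]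
      · show x.1 * X * (l2 x.2.2.2 + Matrix.fromBlocks 1 0 0 0) * x.2.1 +
          x.1 * Matrix.fromBlocks 0 0 0 dB * x.2.1 +
          x.1 * (l2 x.2.2.2 + Matrix.fromBlocks 1 0 0 0) * (X' * x.2.1) = N
        rw [← h2]
        calc _ = x.1 * (X * Matrix.fromBlocks 1 0 0 x.2.2.2 +
              Matrix.fromBlocks 1 0 0 x.2.2.2 * X' + Matrix.fromBlocks 0 0 0 dB) * x.2.1 := by
              noncomm_ring
          _ = (x.1 * x.1⁻¹) * N * (x.2.1⁻¹ * x.2.1) := by rw [e2]; noncomm_ring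
          _ = N := by rw [hg', hh', one_mul, mul_one])
  have hfun : (fun x : Matrix (α ⊕ β) (α ⊕ β) ℂ × Matrix (α ⊕ β) (α ⊕ β) ℂ × Matrix α α ℂ ×
        Matrix β β ℂ => (x.1 * Matrix.fromBlocks x.2.2.1 0 0 1 * x.2.1,
          x.1 * Matrix.fromBlocks 1 0 0 x.2.2.2 * x.2.1))
      = fun x => (x.1 * ((LinearMap.toContinuousLinearMap l1) x.2.2.1 +
          Matrix.fromBlocks 0 0 0 1) * x.2.1,
        x.1 * ((LinearMap.toContinuousLinearMap l2) x.2.2.2 +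
          Matrix.fromBlocks 1 0 0 0) * x.2.1) := by
    funext x
    rw [h1, h2]
    rfl
  rw [hfun]
  exact key

end Pool.Agent.Helper438.Sc
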