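import Pool.Agent.Helper438.Sc.Defs
import Pool.Agent.Helper438.Sc.P_NA_pow_lt
import Pool.Agent.Helper438.Sc.P_NA_pow_top
import Pool.Agent.Helper438.Sc.P_nf_exists
import Pool.Agent.Helper438.Sc.P_good_open
import Pool.Agent.Helper438.Sc.P_good_conj_left
import Pool.Agent.Helper438.Sc.P_good_conj_right
import Pool.Agent.Helper438.Sc.P_theta_open

/-! Singular cohomology, the Borel construction of the stack of torsion sheaves on the projective
line, and all the auxiliary spaces used in the computation. -/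

namespace Pool.Agent.Helper438.Sc

universe u v w



section chartopen

theorem cho_equiv {σ ι : Type} [Fintype σ] [DecidableEq σ] [Fintype ι] [DecidableEq ι]
    (g : Matrix ι σ ℂ) (g' : Matrix σ ι ℂ) (h1 : g * g' = 1) (h2 : g' * g = 1) :
    Nonempty (σ ≃ ι) := by
  have := Matrix.square_of_invertible g g' h1 h2
  exact Fintype.card_eq.mp (by omega)

/-- matrix of the vectors `A^k s_j` -/
noncomputable def choK (a : ℕ →₀ ℕ) (A : Matrix (Ix a) (Ix a) ℂ) (s : ℕ → Ix a → ℂ) :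
    Matrix (Ix a) (Ix a) ℂ := fun p q => ((A ^ q.1.2).mulVec (s q.1.1)) p

/-- normal form coordinates -/
noncomputable def choC (a : ℕ →₀ ℕ) (A : Matrix (Ix a) (Ix a) ℂ) (s : ℕ → Ix a → ℂ) : Cd a :=
  fun j => (choK a A s)⁻¹.mulVec ((A ^ (a j)).mulVec (s j))

theorem choK_cont (a : ℕ →₀ ℕ) {Z : Type} [TopologicalSpace Z] (A : Z → Matrix (Ix a) (Ix a) ℂ)
    (s : Z → ℕ → Ix a → ℂ) (hA : Continuous A) (hs : Continuous s) :
    Continuous (fun z => choK a (A z) (s z)) := by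
  refine continuous_matrix (fun p q => ?_)
  have h1 : Continuous (fun z => ((A z) ^ q.1.2).mulVec (s z q.1.1)) :=
    (hA.pow _).matrix_mulVec ((continuous_apply _).comp hs)
  exact (continuous_apply p).comp h1

theorem choC_cont (a : ℕ →₀ ℕ) {Z : Type} [TopologicalSpace Z] (A : Z → Matrix (Ix a) (Ix a) ℂ)
    (s : Z → ℕ → Ix a → ℂ) (hA : Continuous A) (hs : Continuous s) :
    ContinuousOn (fun z => choC a (A z) (s z)) {z | (choK a (A z) (s z)).det ≠ 0} := by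
  have hK := choK_cont a A s hA hs
  have h1 : (fun z => choC a (A z) (s z)) = fun z => fun j => ((choK a (A z) (s z)).det)⁻¹ •
      ((choK a (A z) (s z)).adjugate.mulVec (((A z) ^ (a j)).mulVec (s z j))) := by
    funext z j
    unfold choC
    rw [Matrix.inv_def, Ring.inverse_eq_inv', Matrix.smul_mulVec]
  rw [h1]
  refine continuousOn_pi.mpr (fun j => ?_)
  have h2 : ContinuousOn (fun z => ((choK a (A z) (s z)).det)⁻¹)
      {z | (choK a (A z) (s z)).det ≠ 0} :=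
    ContinuousOn.inv₀ hK.matrix_det.continuousOn (fun z hz => hz)
  have h3 : ContinuousOn (fun z => (choK a (A z) (s z)).adjugate.mulVec
      (((A z) ^ (a j)).mulVec (s z j))) {z | (choK a (A z) (s z)).det ≠ 0} :=
    Continuous.continuousOn (hK.matrix_adjugate.matrix_mulVec
      ((hA.pow _).matrix_mulVec ((continuous_apply _).comp hs)))
  exact h2.smul h3

theorem cho_reindex {σ ι : Type} [Fintype σ] [DecidableEq σ] [Fintype ι] [DecidableEq ι]
    (e : σ ≃ ι) (A B : Matrix ι ι ℂ) (s : ℕ → ι → ℂ) :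
    REq (A.submatrix e e) (B.submatrix e e) (fun j i => s j (e i)) A B s := by
  have key : ∀ M : Matrix ι ι ℂ, M * (1 : Matrix σ σ ℂ).submatrix e.symm id =
      (1 : Matrix σ σ ℂ).submatrix e.symm id * M.submatrix e e := by
    intro M
    have h1 : M = (M.submatrix e e).submatrix e.symm e.symm := by
      ext i j; simp
    conv_lhs => rw [h1]
    rw [Matrix.submatrix_mul_equiv, Matrix.mul_one]
    have h2 : (1 : Matrix σ σ ℂ).submatrix e.symm id * M.submatrix e e =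
      (1 : Matrix σ σ ℂ).submatrix e.symm (Equiv.refl σ) *
        (M.submatrix e e).submatrix (Equiv.refl σ) id := rfl
    rw [h2, Matrix.submatrix_mul_equiv, Matrix.one_mul]
  refine ⟨(1 : Matrix σ σ ℂ).submatrix e.symm id, (1 : Matrix σ σ ℂ).submatrix e.symm id,
    (1 : Matrix σ σ ℂ).submatrix id e.symm, (1 : Matrix σ σ ℂ).submatrix id e.symm,
    ?_, ?_, ?_, ?_, key A, key B, ?_⟩
  · have h2 : (1 : Matrix σ σ ℂ).submatrix e.symm id * (1 : Matrix σ σ ℂ).submatrix id e.symm =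
      (1 : Matrix σ σ ℂ).submatrix e.symm (Equiv.refl σ) *
        (1 : Matrix σ σ ℂ).submatrix (Equiv.refl σ) e.symm := rfl
    rw [h2, Matrix.submatrix_mul_equiv, Matrix.one_mul, Matrix.submatrix_one_equiv]
  · rw [Matrix.submatrix_mul_equiv, Matrix.one_mul, Matrix.submatrix_id_id]
  · have h2 : (1 : Matrix σ σ ℂ).submatrix e.symm id * (1 : Matrix σ σ ℂ).submatrix id e.symm =
      (1 : Matrix σ σ ℂ).submatrix e.symm (Equiv.refl σ) *
        (1 : Matrix σ σ ℂ).submatrix (Equiv.refl σ) e.symm := rfl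
    rw [h2, Matrix.submatrix_mul_equiv, Matrix.one_mul, Matrix.submatrix_one_equiv]
  · rw [Matrix.submatrix_mul_equiv, Matrix.one_mul, Matrix.submatrix_id_id]
  · intro j
    have h2 : ((1 : Matrix σ σ ℂ).submatrix e.symm id).mulVec (fun i => s j (e i)) =
      ((1 : Matrix σ σ ℂ).submatrix e.symm (Equiv.refl σ)).mulVec (fun i => s j (e i)) := rfl
    rw [h2, Matrix.submatrix_mulVec_equiv, Matrix.one_mulVec]
    funext i
    simp

/-- transported sequences -/
noncomputable def choN {σ : Type} [Fintype σ] (h : Matrix σ σ ℂ) (t : ℕ → σ → ℂ) : ℕ → σ → ℂ :=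
  fun j => h.mulVec (t j)

theorem choN_cont {σ : Type} [Fintype σ] {Z : Type} [TopologicalSpace Z] (h : Z → Matrix σ σ ℂ)
    (t : Z → ℕ → σ → ℂ) (hh : Continuous h) (ht : Continuous t) :
    Continuous (fun z => choN (h z) (t z)) := by
  refine continuous_pi (fun j => ?_)
  exact hh.matrix_mulVec ((continuous_apply _).comp ht)

/-- parameter space -/
abbrev choX (a b : ℕ →₀ ℕ) : Type :=
  Matrix (Ix a ⊕ Ix b) (Ix a ⊕ Ix b) ℂ × Matrix (Ix a ⊕ Ix b) (Ix a ⊕ Ix b) ℂ ×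
    Matrix (Ix a) (Ix a) ℂ × Matrix (Ix b) (Ix b) ℂ

/-- the left part of the transported sequence -/
noncomputable def choL (a b : ℕ →₀ ℕ) (z : choX a b × (ℕ → Ix a ⊕ Ix b → ℂ)) : ℕ → Ix a → ℂ :=
  fun j p => choN z.1.2.1 z.2 j (Sum.inl p)

/-- the right part of the transported sequence -/
noncomputable def choR (a b : ℕ →₀ ℕ) (z : choX a b × (ℕ → Ix a ⊕ Ix b → ℂ)) : ℕ → Ix b → ℂ :=
  fun j p => choN z.1.2.1 z.2 j (Sum.inr p)

theorem choL_cont (a b : ℕ →₀ ℕ) : Continuous (choL a b) := by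
  refine continuous_pi (fun j => continuous_pi (fun p => ?_))
  have h1 : Continuous (fun z : choX a b × (ℕ → Ix a ⊕ Ix b → ℂ) => choN z.1.2.1 z.2) :=
    choN_cont _ _ (by fun_prop) (by fun_prop)
  exact (continuous_apply (Sum.inl p)).comp ((continuous_apply j).comp h1)

theorem choR_cont (a b : ℕ →₀ ℕ) : Continuous (choR a b) := by
  refine continuous_pi (fun j => continuous_pi (fun p => ?_))
  have h1 : Continuous (fun z : choX a b × (ℕ → Ix a ⊕ Ix b → ℂ) => choN z.1.2.1 z.2) :=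
    choN_cont _ _ (by fun_prop) (by fun_prop)
  exact (continuous_apply (Sum.inr p)).comp ((continuous_apply j).comp h1)

/-- the open set of parameters -/
def choOm (a b : ℕ →₀ ℕ) (O : Set (Cd a × Cd b)) : Set (choX a b × (ℕ → Ix a ⊕ Ix b → ℂ)) :=
  {z | z.1.1.det ≠ 0 ∧ z.1.2.1.det ≠ 0 ∧ good z.1.2.2.1 z.1.2.2.2 ∧
    (choK a z.1.2.2.1 (choL a b z)).det ≠ 0 ∧ (choK b z.1.2.2.2 (choR a b z)).det ≠ 0 ∧
    (choC a z.1.2.2.1 (choL a b z), choC b z.1.2.2.2 (choR a b z)) ∈ O}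

theorem choOm_open (a b : ℕ →₀ ℕ) (O : Set (Cd a × Cd b)) (hO : IsOpen O) :
    IsOpen (choOm a b O) := by
  have e1 : IsOpen {z : choX a b × (ℕ → Ix a ⊕ Ix b → ℂ) | z.1.1.det ≠ 0} :=
    isOpen_ne_fun (Continuous.matrix_det (by fun_prop)) continuous_const
  have e2 : IsOpen {z : choX a b × (ℕ → Ix a ⊕ Ix b → ℂ) | z.1.2.1.det ≠ 0} :=
    isOpen_ne_fun (Continuous.matrix_det (by fun_prop)) continuous_const
  have e3 : IsOpen {z : choX a b × (ℕ → Ix a ⊕ Ix b → ℂ) | good z.1.2.2.1 z.1.2.2.2} := by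
    have h1 : Continuous (fun z : choX a b × (ℕ → Ix a ⊕ Ix b → ℂ) => z.1.2.2) := by fun_prop
    exact (good_open (α := Ix a) (β := Ix b)).preimage h1
  have e4 : IsOpen {z : choX a b × (ℕ → Ix a ⊕ Ix b → ℂ) |
      (choK a z.1.2.2.1 (choL a b z)).det ≠ 0} :=
    isOpen_ne_fun (Continuous.matrix_det (choK_cont a _ _ (by fun_prop) (choL_cont a b)))
      continuous_const
  have e5 : IsOpen {z : choX a b × (ℕ → Ix a ⊕ Ix b → ℂ) |
      (choK b z.1.2.2.2 (choR a b z)).det ≠ 0} :=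
    isOpen_ne_fun (Continuous.matrix_det (choK_cont b _ _ (by fun_prop) (choR_cont a b)))
      continuous_const
  have c1 := choC_cont a (fun z : choX a b × (ℕ → Ix a ⊕ Ix b → ℂ) => z.1.2.2.1) (choL a b)
    (by fun_prop) (choL_cont a b)
  have c2 := choC_cont b (fun z : choX a b × (ℕ → Ix a ⊕ Ix b → ℂ) => z.1.2.2.2) (choR a b)
    (by fun_prop) (choR_cont a b)
  have c3 : ContinuousOn (fun z : choX a b × (ℕ → Ix a ⊕ Ix b → ℂ) =>
      (choC a z.1.2.2.1 (choL a b z), choC b z.1.2.2.2 (choR a b z)))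
      ({z | (choK a z.1.2.2.1 (choL a b z)).det ≠ 0} ∩
        {z | (choK b z.1.2.2.2 (choR a b z)).det ≠ 0}) :=
    (c1.mono Set.inter_subset_left).prodMk (c2.mono Set.inter_subset_right)
  have e6 := c3.isOpen_inter_preimage (e4.inter e5) hO
  have e7 := e1.inter (e2.inter (e3.inter e6))
  convert e7 using 1
  ext z
  constructor
  · rintro ⟨h1, h2, h3, h4, h5, h6⟩
    exact ⟨h1, h2, h3, ⟨h4, h5⟩, h6⟩
  · rintro ⟨h1, h2, h3, ⟨h4, h5⟩, h6⟩
    exact ⟨h1, h2, h3, h4, h5, h6⟩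

/-- the parametrization -/
noncomputable def choTh (a b : ℕ →₀ ℕ) (x : choX a b) :
    Matrix (Ix a ⊕ Ix b) (Ix a ⊕ Ix b) ℂ × Matrix (Ix a ⊕ Ix b) (Ix a ⊕ Ix b) ℂ :=
  (x.1 * Matrix.fromBlocks x.2.2.1 0 0 1 * x.2.1,
          x.1 * Matrix.fromBlocks 1 0 0 x.2.2.2 * x.2.1)

theorem choW_open (a b : ℕ →₀ ℕ) (O : Set (Cd a × Cd b)) (hO : IsOpen O) :
    IsOpen ((fun z : choX a b × (ℕ → Ix a ⊕ Ix b → ℂ) => (choTh a b z.1, z.2)) ''
      choOm a b O) := by
  rw [isOpen_iff_mem_nhds]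
  rintro _ ⟨⟨x, t⟩, hz, rfl⟩
  obtain ⟨U, V, hU, hV, hxU, htV, hUV⟩ :=
    isOpen_prod_iff.mp (choOm_open a b O hO) x t hz
  have h1 : IsOpen ((choTh a b) '' U) := by
    refine theta_open U hU (fun y hy => ?_)
    have h2 : (y, t) ∈ choOm a b O := hUV ⟨hy, htV⟩
    exact ⟨h2.1, h2.2.1, h2.2.2.1⟩
  refine Filter.mem_of_superset ((h1.prod hV).mem_nhds ⟨⟨x, hxU, rfl⟩, htV⟩) ?_
  rintro ⟨w, t'⟩ ⟨⟨y, hy, hyw⟩, ht'⟩
  refine ⟨(y, t'), hUV ⟨hy, ht'⟩, ?_⟩
  show (choTh a b y, t') = (w, t')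
  rw [hyw]

theorem cho_mp (a b : ℕ →₀ ℕ) (O : Set (Cd a × Cd b))
    (A B : Matrix (Ix a ⊕ Ix b) (Ix a ⊕ Ix b) ℂ) (s : ℕ → Ix a ⊕ Ix b → ℂ)
    (c : Cd a × Cd b) (hc : c ∈ O) (hW : c ∈ Wc a b)
    (H : REq (chA c) (chB c) (chS c) A B s) :
    ((A, B), s) ∈ ((fun z : choX a b × (ℕ → Ix a ⊕ Ix b → ℂ) => (choTh a b z.1, z.2)) ''
      choOm a b O) := by
  obtain ⟨g, h, g', h', h1, h2, h3, h4, h5, h6, h7⟩ := H
  have hN : choN h' s = chS c := by
    funext j
    unfold choN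
    rw [h7, Matrix.mulVec_mulVec, h4, Matrix.one_mulVec]
  have hL : choL a b ((g, h', NA a c.1, NA b c.2), s) = NS a c.1 := by
    funext j p
    show choN h' s j (Sum.inl p) = _
    rw [hN]
    rfl
  have hR : choR a b ((g, h', NA a c.1, NA b c.2), s) = NS b c.2 := by
    funext j p
    show choN h' s j (Sum.inr p) = _
    rw [hN]
    rfl
  have hK : ∀ (a : ℕ →₀ ℕ) (c : Cd a), choK a (NA a c) (NS a c) = 1 := by
    intro a c
    ext p q
    show ((NA a c ^ q.1.2).mulVec (NS a c q.1.1)) p = _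
    rw [NA_pow_lt a c q.1.1 q.1.2 q.2]
    rw [Matrix.one_apply]
    exact Pi.single_apply _ _ _
  have hC : ∀ (a : ℕ →₀ ℕ) (c : Cd a), choC a (NA a c) (NS a c) = c := by
    intro a c
    funext j
    unfold choC
    rw [hK, inv_one, Matrix.one_mulVec, NA_pow_top]
  refine ⟨((g, h', NA a c.1, NA b c.2), s), ⟨?_, ?_, hW, ?_, ?_, ?_⟩, ?_⟩
  · exact Matrix.det_ne_zero_of_right_inverse h1
  · exact Matrix.det_ne_zero_of_right_inverse h4
  · show (choK a (NA a c.1) (choL a b ((g, h', NA a c.1, NA b c.2), s))).det ≠ 0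
    rw [hL, hK, Matrix.det_one]
    exact one_ne_zero
  · show (choK b (NA b c.2) (choR a b ((g, h', NA a c.1, NA b c.2), s))).det ≠ 0
    rw [hR, hK, Matrix.det_one]
    exact one_ne_zero
  · show (choC a (NA a c.1) (choL a b ((g, h', NA a c.1, NA b c.2), s)),
      choC b (NA b c.2) (choR a b ((g, h', NA a c.1, NA b c.2), s))) ∈ O
    rw [hL, hR, hC, hC]
    exact hc
  · show ((g * chA c * h', g * chB c * h'), s) = ((A, B), s)
    rw [← h5, ← h6, Matrix.mul_assoc, Matrix.mul_assoc, h3, Matrix.mul_one, Matrix.mul_one]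

theorem cho_mpr (a b : ℕ →₀ ℕ) (O : Set (Cd a × Cd b))
    (A B : Matrix (Ix a ⊕ Ix b) (Ix a ⊕ Ix b) ℂ) (s : ℕ → Ix a ⊕ Ix b → ℂ)
    (hz : ((A, B), s) ∈ ((fun z : choX a b × (ℕ → Ix a ⊕ Ix b → ℂ) => (choTh a b z.1, z.2)) ''
      choOm a b O)) :
    ∃ c ∈ O, c ∈ Wc a b ∧ REq (chA c) (chB c) (chS c) A B s := by
  obtain ⟨⟨⟨g, h, A₁, B₁⟩, t⟩, ⟨k1, k2, k3, k4, k5, k6⟩, heq⟩ := hz
  have ht : t = s := congrArg Prod.snd heq
  subst ht
  have hA : g * Matrix.fromBlocks A₁ 0 0 1 * h = A := congrArg (fun z => z.1.1) heq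
  have hB : g * Matrix.fromBlocks 1 0 0 B₁ * h = B := congrArg (fun z => z.1.2) heq
  set sL : ℕ → Ix a → ℂ := choL a b ((g, h, A₁, B₁), t) with hsL
  set sR : ℕ → Ix b → ℂ := choR a b ((g, h, A₁, B₁), t) with hsR
  change g.det ≠ 0 at k1
  change h.det ≠ 0 at k2
  change good A₁ B₁ at k3
  change (choK a A₁ sL).det ≠ 0 at k4
  change (choK b B₁ sR).det ≠ 0 at k5
  change (choC a A₁ sL, choC b B₁ sR) ∈ O at k6
  obtain ⟨n1, n2⟩ := nf_exists a A₁ sL (choK a A₁ sL) rfl k4 (choC a A₁ sL) rfl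
  obtain ⟨n3, n4⟩ := nf_exists b B₁ sR (choK b B₁ sR) rfl k5 (choC b B₁ sR) rfl
  set K := choK a A₁ sL with hK
  set K' := choK b B₁ sR with hK'
  set c := choC a A₁ sL with hc
  set c' := choC b B₁ sR with hc'
  have uK : IsUnit K.det := isUnit_iff_ne_zero.mpr k4
  have uK' : IsUnit K'.det := isUnit_iff_ne_zero.mpr k5
  have ug : IsUnit g.det := isUnit_iff_ne_zero.mpr k1
  have uh : IsUnit h.det := isUnit_iff_ne_zero.mpr k2
  let D : Matrix (Ix a ⊕ Ix b) (Ix a ⊕ Ix b) ℂ := Matrix.fromBlocks K 0 0 K'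
  let D' : Matrix (Ix a ⊕ Ix b) (Ix a ⊕ Ix b) ℂ := Matrix.fromBlocks K⁻¹ 0 0 K'⁻¹
  have hDD' : D * D' = 1 := by
    simp only [D, D', Matrix.fromBlocks_multiply]
    rw [Matrix.mul_nonsing_inv K uK, Matrix.mul_nonsing_inv K' uK']
    simp
  have hD'D : D' * D = 1 := by
    simp only [D, D', Matrix.fromBlocks_multiply]
    rw [Matrix.nonsing_inv_mul K uK, Matrix.nonsing_inv_mul K' uK']
    simp
  refine ⟨(c, c'), k6, ?_, g * D, h⁻¹ * D, D' * g⁻¹, D' * h, ?_, ?_, ?_, ?_, ?_, ?_, ?_⟩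
  · -- good
    show good (NA a c) (NA b c')
    refine good_conj_left A₁ (NA a c) K⁻¹ K (NA b c') (Matrix.nonsing_inv_mul K uK) ?_ ?_
    · calc NA a c * K⁻¹ = K⁻¹ * K * NA a c * K⁻¹ := by
            rw [Matrix.nonsing_inv_mul K uK, Matrix.one_mul]
        _ = K⁻¹ * (K * NA a c) * K⁻¹ := by simp only [Matrix.mul_assoc]
        _ = K⁻¹ * A₁ * (K * K⁻¹) := by rw [← n1]; simp only [Matrix.mul_assoc]
        _ = K⁻¹ * A₁ := by rw [Matrix.mul_nonsing_inv K uK, Matrix.mul_one]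
    · refine good_conj_right A₁ B₁ (NA b c') K'⁻¹ K' (Matrix.nonsing_inv_mul K' uK') ?_ k3
      calc NA b c' * K'⁻¹ = K'⁻¹ * K' * NA b c' * K'⁻¹ := by
            rw [Matrix.nonsing_inv_mul K' uK', Matrix.one_mul]
        _ = K'⁻¹ * (K' * NA b c') * K'⁻¹ := by simp only [Matrix.mul_assoc]
        _ = K'⁻¹ * B₁ * (K' * K'⁻¹) := by rw [← n3]; simp only [Matrix.mul_assoc]
        _ = K'⁻¹ * B₁ := by rw [Matrix.mul_nonsing_inv K' uK', Matrix.mul_one]
  · calc g * D * (D' * g⁻¹) = g * (D * D') * g⁻¹ := by simp only [Matrix.mul_assoc]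
      _ = 1 := by rw [hDD', Matrix.mul_one, Matrix.mul_nonsing_inv g ug]
  · calc D' * g⁻¹ * (g * D) = D' * (g⁻¹ * g) * D := by simp only [Matrix.mul_assoc]
      _ = 1 := by rw [Matrix.nonsing_inv_mul g ug, Matrix.mul_one, hD'D]
  · calc h⁻¹ * D * (D' * h) = h⁻¹ * (D * D') * h := by simp only [Matrix.mul_assoc]
      _ = 1 := by rw [hDD', Matrix.mul_one, Matrix.nonsing_inv_mul h uh]
  · calc D' * h * (h⁻¹ * D) = D' * (h * h⁻¹) * D := by simp only [Matrix.mul_assoc]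
      _ = 1 := by rw [Matrix.mul_nonsing_inv h uh, Matrix.mul_one, hD'D]
  · have e1 : Matrix.fromBlocks A₁ 0 0 1 * D = D * chA (a := a) (b := b) (c, c') := by
      simp only [D, chA, Matrix.fromBlocks_multiply]
      rw [n1]
      simp
    calc A * (h⁻¹ * D) = g * Matrix.fromBlocks A₁ 0 0 1 * (h * h⁻¹) * D := by
          rw [← hA]; simp only [Matrix.mul_assoc]
      _ = g * (Matrix.fromBlocks A₁ 0 0 1 * D) := by
          rw [Matrix.mul_nonsing_inv h uh, Matrix.mul_one, Matrix.mul_assoc]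
      _ = g * D * chA (a := a) (b := b) (c, c') := by rw [e1, Matrix.mul_assoc]
  · have e1 : Matrix.fromBlocks 1 0 0 B₁ * D = D * chB (a := a) (b := b) (c, c') := by
      simp only [D, chB, Matrix.fromBlocks_multiply]
      rw [n3]
      simp
    calc B * (h⁻¹ * D) = g * Matrix.fromBlocks 1 0 0 B₁ * (h * h⁻¹) * D := by
          rw [← hB]; simp only [Matrix.mul_assoc]
      _ = g * (Matrix.fromBlocks 1 0 0 B₁ * D) := by
          rw [Matrix.mul_nonsing_inv h uh, Matrix.mul_one, Matrix.mul_assoc]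
      _ = g * D * chB (a := a) (b := b) (c, c') := by rw [e1, Matrix.mul_assoc]
  · intro j
    have e2 : D.mulVec (chS (a := a) (b := b) (c, c') j) = h.mulVec (t j) := by
      simp only [D]
      rw [Matrix.fromBlocks_mulVec]
      have e3 : K.mulVec (chS (a := a) (b := b) (c, c') j ∘ Sum.inl) = sL j := (n2 j).symm
      have e4 : K'.mulVec (chS (a := a) (b := b) (c, c') j ∘ Sum.inr) = sR j := (n4 j).symm
      rw [e3, e4]
      simp only [Matrix.zero_mulVec, add_zero, zero_add]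
      funext i
      rcases i with i | i
      · rfl
      · rfl
    rw [← Matrix.mulVec_mulVec, e2, Matrix.mulVec_mulVec, Matrix.nonsing_inv_mul h uh,
      Matrix.one_mulVec]

end chartopen

theorem chart_open (a b : ℕ →₀ ℕ) {ι : Type} [Fintype ι] [DecidableEq ι]
    (O : Set (Cd a × Cd b)) (hO : IsOpen O) :
    IsOpen {p : Pg ι | ∃ c ∈ O, c ∈ Wc a b ∧
      REq (chA c) (chB c) (chS c) p.1.1.1 p.1.1.2 p.1.2} := by
  by_cases he : Nonempty (Ix a ⊕ Ix b ≃ ι)
  · obtain ⟨e⟩ := he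
    have hcont : Continuous (fun p : Pg ι => (((p.1.1.1.submatrix e e, p.1.1.2.submatrix e e),
        fun j i => p.1.2 j (e i)) : (Matrix (Ix a ⊕ Ix b) (Ix a ⊕ Ix b) ℂ ×
          Matrix (Ix a ⊕ Ix b) (Ix a ⊕ Ix b) ℂ) × (ℕ → Ix a ⊕ Ix b → ℂ))) := by
      have h0 : Continuous (fun p : Pg ι => p.1) := continuous_subtype_val
      refine Continuous.prodMk (Continuous.prodMk ?_ ?_) ?_
      · exact (continuous_fst.comp (continuous_fst.comp h0)).matrix_submatrix e e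
      · exact (continuous_snd.comp (continuous_fst.comp h0)).matrix_submatrix e e
      · refine continuous_pi (fun j => continuous_pi (fun i => ?_))
        exact (continuous_apply (e i)).comp ((continuous_apply j).comp (continuous_snd.comp h0))
    have h1 := (choW_open a b O hO).preimage hcont
    convert h1 using 1
    ext p
    constructor
    · rintro ⟨c, hc, hW, H⟩
      exact cho_mp a b O _ _ _ c hc hW
        (H.trans (cho_reindex e p.1.1.1 p.1.1.2 p.1.2).symm)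
    · intro hp
      obtain ⟨c, hc, hW, H⟩ := cho_mpr a b O _ _ _ hp
      exact ⟨c, hc, hW, H.trans (cho_reindex e p.1.1.1 p.1.1.2 p.1.2)⟩
  · have hempty : {p : Pg ι | ∃ c ∈ O, c ∈ Wc a b ∧
      REq (chA c) (chB c) (chS c) p.1.1.1 p.1.1.2 p.1.2} = ∅ := by
      ext p
      simp only [Set.mem_empty_iff_false, iff_false]
      rintro ⟨c, _, _, g, h, g', h', h1, h2, _⟩
      exact he (cho_equiv g g' h1 h2)
    rw [hempty]
    exact isOpen_empty

end Pool.Agent.Helper438.Sc
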