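import Pool.Agent.Helper438.Sc.Defs

/-! Singular cohomology, the Borel construction of the stack of torsion sheaves on the projective
line, and all the auxiliary spaces used in the computation. -/

namespace Pool.Agent.Helper438.Sc

universe u v w



theorem qs_reindex_aux1 {ι κ : Type} [Fintype ι] [DecidableEq ι] [Fintype κ] [DecidableEq κ]
    (A B : Matrix ι ι ℂ) (e : ι ≃ κ) (t : ℂ) :
    Ut (A.submatrix e.symm e.symm) (B.submatrix e.symm e.symm) t =
      (Ut A B t).submatrix e.symm e.symm := by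
  unfold Ut
  have h1 : A.submatrix e.symm e.symm + t • B.submatrix e.symm e.symm =
      (A + t • B).submatrix e.symm e.symm := rfl
  rw [h1, Matrix.inv_submatrix_equiv]
  rw [← Matrix.submatrix_mul _ _ e.symm e.symm e.symm e.symm.bijective]

theorem qs_reindex_aux2 {ι κ : Type} [Fintype ι] [DecidableEq ι] [Fintype κ] [DecidableEq κ]
    (A : Matrix ι ι ℂ) (e : ι ≃ κ) (v : ι → ℂ) :
    (A.submatrix e.symm e.symm).mulVec (v ∘ e.symm) = (A.mulVec v) ∘ e.symm := by
  rw [Matrix.submatrix_mulVec_equiv]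
  congr 2
  ext i
  simp

theorem qs_reindex {ι κ : Type} [Fintype ι] [DecidableEq ι] [Fintype κ] [DecidableEq κ]
    (A B : Matrix ι ι ℂ) (s : ℕ → ι → ℂ) (e : ι ≃ κ) (hG : Gen A B s) :
    Gen (A.submatrix e.symm e.symm) (B.submatrix e.symm e.symm) (fun j => s j ∘ e.symm) ∧
    REq A B s (A.submatrix e.symm e.symm) (B.submatrix e.symm e.symm)
      (fun j => s j ∘ e.symm) := by
  constructor
  · obtain ⟨t, hdet, hL⟩ := hG
    refine ⟨t, ?_, ?_⟩
    · have h1 : A.submatrix e.symm e.symm + t • B.submatrix e.symm e.symm =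
          (A + t • B).submatrix e.symm e.symm := rfl
      rw [h1, Matrix.det_submatrix_equiv_self]
      exact hdet
    · intro L h1 h2
      set φ : (ι → ℂ) ≃ₗ[ℂ] (κ → ℂ) := LinearEquiv.funCongrLeft ℂ ℂ e.symm with hφ
      have hφv : ∀ v, φ v = v ∘ e.symm := fun v => rfl
      have hL' : L.comap (φ : (ι → ℂ) →ₗ[ℂ] (κ → ℂ)) = ⊤ := by
        apply hL
        · intro j
          rw [Submodule.mem_comap]
          exact h1 j
        · intro v hv
          rw [Submodule.mem_comap] at hv ⊢
          have := h2 _ hv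
          rw [qs_reindex_aux1] at this
          have h3 : ((φ : (ι → ℂ) →ₗ[ℂ] (κ → ℂ)) v) = v ∘ e.symm := rfl
          rw [h3, qs_reindex_aux2] at this
          exact this
      rw [eq_top_iff]
      intro w _
      have : φ.symm w ∈ L.comap (φ : (ι → ℂ) →ₗ[ℂ] (κ → ℂ)) := by
        rw [hL']
        trivial
      rw [Submodule.mem_comap] at this
      have h4 : (φ : (ι → ℂ) →ₗ[ℂ] (κ → ℂ)) (φ.symm w) = w := φ.apply_symm_apply w
      rwa [h4] at this
  · have key : ∀ C : Matrix ι ι ℂ, C.submatrix e.symm e.symm *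
        (1 : Matrix ι ι ℂ).submatrix e.symm id = (1 : Matrix ι ι ℂ).submatrix e.symm id * C := by
      intro C
      have h1 := Matrix.submatrix_mul C (1 : Matrix ι ι ℂ) e.symm e.symm id e.symm.bijective
      have h2 := Matrix.submatrix_mul (1 : Matrix ι ι ℂ) C e.symm id id Function.bijective_id
      rw [Matrix.submatrix_id_id] at h2
      rw [← h1, ← h2, Matrix.mul_one, Matrix.one_mul]
    have hPP' : (1 : Matrix ι ι ℂ).submatrix e.symm id * (1 : Matrix ι ι ℂ).submatrix id e.symm =
        (1 : Matrix κ κ ℂ) := by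
      rw [← Matrix.submatrix_mul _ _ e.symm id e.symm Function.bijective_id, Matrix.mul_one,
        Matrix.submatrix_one_equiv]
    have hP'P : (1 : Matrix ι ι ℂ).submatrix id e.symm * (1 : Matrix ι ι ℂ).submatrix e.symm id =
        (1 : Matrix ι ι ℂ) := by
      rw [← Matrix.submatrix_mul _ _ id e.symm id e.symm.bijective, Matrix.mul_one,
        Matrix.submatrix_id_id]
    refine ⟨(1 : Matrix ι ι ℂ).submatrix e.symm id, (1 : Matrix ι ι ℂ).submatrix e.symm id,
      (1 : Matrix ι ι ℂ).submatrix id e.symm, (1 : Matrix ι ι ℂ).submatrix id e.symm,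
      hPP', hP'P, hPP', hP'P, key A, key B, ?_⟩
    intro j
    ext k
    simp [Matrix.mulVec, dotProduct, Matrix.one_apply]

end Pool.Agent.Helper438.Sc
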