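import Pool.Agent.Helper438.Sc.Defs
import Pool.Agent.Helper438.Sc.P_chart_gen
import Pool.Agent.Helper438.Sc.P_chart_inj
import Pool.Agent.Helper438.Sc.P_card_Ix
import Pool.Agent.Helper438.Sc.P_chart_open
import Pool.Agent.Helper438.Sc.P_qs_reindex

/-! Singular cohomology, the Borel construction of the stack of torsion sheaves on the projective
line, and all the auxiliary spaces used in the computation. -/

namespace Pool.Agent.Helper438.Sc

universe u v w



theorem chart_map (a b : ℕ →₀ ℕ) (n : ℕ)
    (hn : (a.sum fun _ x => x) + (b.sum fun _ x => x) = n) :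
    ∃ χ : Wc a b → Qs (Fin n), Topology.IsOpenEmbedding χ ∧
      ∀ (c : Wc a b) (p : Pg (Fin n)),
        REq (chA c.1) (chB c.1) (chS c.1) p.1.1.1 p.1.1.2 p.1.2 ↔
          χ c = Quotient.mk (pgSetoid (Fin n)) p := by
  have hcard : Fintype.card (Ix a ⊕ Ix b) = n := by
    rw [Fintype.card_sum, card_Ix, card_Ix, hn]
  let e : Ix a ⊕ Ix b ≃ Fin n := Fintype.equivFinOfCardEq hcard
  let pt : Wc a b → Pg (Fin n) := fun c =>
    ⟨(((chA c.1).submatrix e.symm e.symm, (chB c.1).submatrix e.symm e.symm),
      fun j => chS c.1 j ∘ e.symm),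
      (qs_reindex (chA c.1) (chB c.1) (chS c.1) e (chart_gen a b c.1 c.2)).1⟩
  have hpt : ∀ c : Wc a b, REq (chA c.1) (chB c.1) (chS c.1) (pt c).1.1.1 (pt c).1.1.2 (pt c).1.2 :=
    fun c => (qs_reindex (chA c.1) (chB c.1) (chS c.1) e (chart_gen a b c.1 c.2)).2
  let χ : Wc a b → Qs (Fin n) := fun c => Quotient.mk (pgSetoid (Fin n)) (pt c)
  have hiff : ∀ (c : Wc a b) (p : Pg (Fin n)),
        REq (chA c.1) (chB c.1) (chS c.1) p.1.1.1 p.1.1.2 p.1.2 ↔
          χ c = Quotient.mk (pgSetoid (Fin n)) p := by
    intro c p
    constructor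
    · intro h
      exact Quotient.sound (s := pgSetoid (Fin n)) ((hpt c).symm.trans h)
    · intro h
      have h' : REq (pt c).1.1.1 (pt c).1.1.2 (pt c).1.2 p.1.1.1 p.1.1.2 p.1.2 :=
        Quotient.exact (s := pgSetoid (Fin n)) h
      exact (hpt c).trans h'
  refine ⟨χ, ?_, hiff⟩
  have hcNA : ∀ (a : ℕ →₀ ℕ), Continuous (fun c : Cd a => NA a c) := by
    intro a
    refine continuous_matrix fun p q => ?_
    unfold NA
    by_cases h : q.1.2 + 1 < a q.1.1
    · simp only [if_pos h]
      exact continuous_const
    · simp only [if_neg h]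
      fun_prop
  have hcNS : ∀ (a : ℕ →₀ ℕ), Continuous (fun c : Cd a => NS a c) := by
    intro a
    refine continuous_pi fun j => continuous_pi fun p => ?_
    unfold NS
    by_cases h : 0 < a j
    · simp only [if_pos h]
      exact continuous_const
    · simp only [if_neg h]
      fun_prop
  have hcA : Continuous (fun c : Wc a b => chA c.1) := by
    unfold chA
    exact Continuous.matrix_fromBlocks ((hcNA a).comp (continuous_fst.comp continuous_subtype_val))
      continuous_const continuous_const continuous_const
  have hcB : Continuous (fun c : Wc a b => chB c.1) := by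
    unfold chB
    exact Continuous.matrix_fromBlocks continuous_const continuous_const continuous_const
      ((hcNA b).comp (continuous_snd.comp continuous_subtype_val))
  have hcS : Continuous (fun c : Wc a b => chS c.1) := by
    refine continuous_pi fun j => continuous_pi fun p => ?_
    unfold chS
    rcases p with p | p
    · have := (hcNS a).comp (continuous_fst.comp (continuous_subtype_val (p := fun c => c ∈ Wc a b)))
      exact (continuous_apply p).comp ((continuous_apply j).comp this)
    · have := (hcNS b).comp (continuous_snd.comp (continuous_subtype_val (p := fun c => c ∈ Wc a b)))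
      exact (continuous_apply p).comp ((continuous_apply j).comp this)
  have hptc : Continuous pt := by
    refine Continuous.subtype_mk ?_ _
    refine ((hcA.matrix_submatrix _ _).prodMk (hcB.matrix_submatrix _ _)).prodMk ?_
    refine continuous_pi fun j => continuous_pi fun i => ?_
    exact (continuous_apply (e.symm i)).comp ((continuous_apply j).comp hcS)
  have hcont : Continuous χ := continuous_quot_mk.comp hptc
  have hinj : Function.Injective χ := by
    intro c c' h
    have h1 : REq (chA c.1) (chB c.1) (chS c.1) (pt c').1.1.1 (pt c').1.1.2 (pt c').1.2 :=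
      (hiff c (pt c')).2 h
    exact Subtype.ext (chart_inj a b c.1 c'.1 c.2 c'.2 (h1.trans (hpt c').symm))
  refine Topology.IsOpenEmbedding.of_continuous_injective_isOpenMap hcont hinj ?_
  intro O hO
  obtain ⟨O', hO', rfl⟩ := isOpen_induced_iff.1 hO
  have hq : Topology.IsQuotientMap
      (fun p : Pg (Fin n) => (Quotient.mk (pgSetoid (Fin n)) p : Qs (Fin n))) :=
    isQuotientMap_quotient_mk'
  refine hq.isOpen_preimage.1 ?_
  convert chart_open a b (ι := Fin n) O' hO' using 1
  ext p
  constructor
  · rintro ⟨c, hc, hcp⟩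
    exact ⟨c.1, hc, c.2, (hiff c p).2 hcp⟩
  · rintro ⟨c, hc, hcW, hR⟩
    exact ⟨⟨c, hcW⟩, hc, (hiff ⟨c, hcW⟩ p).1 hR⟩

end Pool.Agent.Helper438.Sc
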