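import Pool.Agent.Helper438.Sc.Defs

/-! Singular cohomology, the Borel construction of the stack of torsion sheaves on the projective
line, and all the auxiliary spaces used in the computation. -/

namespace Pool.Agent.Helper438.Sc

universe u v w



theorem finite_types_term (a : ℕ →₀ ℕ) (f : ℕ → ℕ → ℕ) (i : ℕ) (h0 : f i 0 = 0) :
    f i (a i) ≤ a.sum f := by
  by_cases hi : i ∈ a.support
  · exact Finset.single_le_sum (f := fun i => f i (a i)) (fun _ _ => Nat.zero_le _) hi
  · rw [Finsupp.notMem_support_iff.1 hi, h0]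
    exact Nat.zero_le _

theorem finite_types_bd (n m : ℕ) : ∃ f : ℕ →₀ ℕ, ∀ a : ℕ →₀ ℕ,
    (∀ i, a i ≤ n) → (∀ i, i * a i ≤ m) → a ≤ f := by
  refine ⟨Finsupp.onFinset (Finset.range (m + 1)) (fun i => if i ≤ m then n else 0) ?_, ?_⟩
  · intro i hi
    rw [Finset.mem_range]
    by_contra hcon
    apply hi
    rw [if_neg (by omega)]
  · intro a h1 h2 i
    rw [Finsupp.onFinset_apply]
    by_cases hi : i ≤ m
    · rw [if_pos hi]
      exact h1 i
    · rw [if_neg hi]
      by_contra hcon
      have h3 : 1 ≤ a i := by omega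
      have h4 : i * 1 ≤ i * a i := Nat.mul_le_mul_left i h3
      have h5 := h2 i
      omega

theorem finite_types (n m : ℕ) : {τ : (ℕ →₀ ℕ) × (ℕ →₀ ℕ) |
    ((τ.1.sum fun _ x => x) + (τ.2.sum fun _ x => x) = n) ∧ cdim τ.1 τ.2 ≤ m}.Finite := by
  obtain ⟨f, hf⟩ := finite_types_bd n m
  refine ((Set.finite_Iic f).prod (Set.finite_Iic f)).subset ?_
  rintro ⟨a, b⟩ ⟨h1, h2⟩
  unfold cdim at h2
  have h2' : (a.sum fun i x => i * x) + (b.sum fun i x => (i + 1) * x) ≤ m := h2
  have h1' : (a.sum fun _ x => x) + (b.sum fun _ x => x) = n := h1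
  refine ⟨hf a (fun i => ?_) (fun i => ?_), hf b (fun i => ?_) (fun i => ?_)⟩
  · have h3 := finite_types_term a (fun _ x => x) i rfl
    beta_reduce at h3
    omega
  · have h3 := finite_types_term a (fun i x => i * x) i (Nat.mul_zero i)
    beta_reduce at h3
    omega
  · have h3 := finite_types_term b (fun _ x => x) i rfl
    beta_reduce at h3
    omega
  · have h3 := finite_types_term b (fun i x => (i + 1) * x) i (Nat.mul_zero _)
    beta_reduce at h3
    have h4 : i * b i ≤ (i + 1) * b i := Nat.mul_le_mul_right _ (Nat.le_succ i)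
    omega

end Pool.Agent.Helper438.Sc
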