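import Pool.Agent.Helper438.Sc.Defs
import Pool.Agent.Helper438.Sc.P_diag_nilp
import Pool.Agent.Helper438.Sc.P_good_of_nilpotent

/-! Singular cohomology, the Borel construction of the stack of torsion sheaves on the projective
line, and all the auxiliary spaces used in the computation. -/

namespace Pool.Agent.Helper438.Sc

universe u v w



theorem scell_sub (a b : ℕ →₀ ℕ) : Scell a b ⊆ Wc a b := by
  rintro c ⟨-, h2⟩
  exact good_of_nilpotent _ _ (diag_nilp b c.2 h2)

end Pool.Agent.Helper438.Sc
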