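import Pool.Agent.Helper438.Sc.Defs
import Pool.Agent.Helper438.Sc.P_proj_poly
import Pool.Agent.Helper438.Sc.P_ch_Ut
import Pool.Agent.Helper438.Sc.P_ch_det

/-! Singular cohomology, the Borel construction of the stack of torsion sheaves on the projective
line, and all the auxiliary spaces used in the computation. -/

namespace Pool.Agent.Helper438.Sc

universe u v w



section CycAux

variable {α : Type} [Fintype α] [DecidableEq α] {β : Type} [Fintype β] [DecidableEq β]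

/-- `L` is stable under `M` -/
def cycSt (M : Matrix α α ℂ) (L : Submodule ℂ (α → ℂ)) : Prop := ∀ v ∈ L, M.mulVec v ∈ L

theorem cyc_mem (u : Matrix α α ℂ) (s : ℕ → α → ℂ) (i j : ℕ) (h : j ≤ i) :
    s j ∈ Cyc u s i :=
  Submodule.subset_span ⟨j, h, 0, by rw [pow_zero, Matrix.one_mulVec]⟩

theorem cyc_st (u : Matrix α α ℂ) (s : ℕ → α → ℂ) (i : ℕ) : cycSt u (Cyc u s i) := by
  intro v hv
  unfold Cyc at hv ⊢
  induction hv using Submodule.span_induction with
  | mem x hx =>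
    obtain ⟨j, hj, k, rfl⟩ := hx
    exact Submodule.subset_span ⟨j, hj, k + 1, by rw [Matrix.mulVec_mulVec, pow_succ']⟩
  | zero =>
    rw [Matrix.mulVec_zero]
    exact Submodule.zero_mem _
  | add x y _ _ hx hy =>
    rw [Matrix.mulVec_add]
    exact Submodule.add_mem _ hx hy
  | smul c x _ hx =>
    rw [Matrix.mulVec_smul]
    exact Submodule.smul_mem _ _ hx

theorem cycSt_pow {M : Matrix α α ℂ} {L : Submodule ℂ (α → ℂ)} (h : cycSt M L) (k : ℕ) :
    cycSt (M ^ k) L := by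
  induction k with
  | zero =>
    intro v hv
    rw [pow_zero, Matrix.one_mulVec]
    exact hv
  | succ k ih =>
    intro v hv
    rw [pow_succ, ← Matrix.mulVec_mulVec]
    exact ih _ (h v hv)

theorem cyc_le (u : Matrix α α ℂ) (s : ℕ → α → ℂ) (i : ℕ) (L : Submodule ℂ (α → ℂ))
    (h1 : ∀ j ≤ i, s j ∈ L) (h2 : cycSt u L) : Cyc u s i ≤ L := by
  unfold Cyc
  rw [Submodule.span_le]
  rintro _ ⟨j, hj, k, rfl⟩
  exact cycSt_pow h2 k _ (h1 j hj)

theorem cyc_le_of (u w : Matrix α α ℂ) (s : ℕ → α → ℂ) (i : ℕ)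
    (h : ∀ L : Submodule ℂ (α → ℂ), cycSt w L → cycSt u L) : Cyc u s i ≤ Cyc w s i :=
  cyc_le u s i _ (fun j hj => cyc_mem w s i j hj) (h _ (cyc_st w s i))

theorem cycSt_inv {M : Matrix α α ℂ} (hM : M.det ≠ 0) {L : Submodule ℂ (α → ℂ)}
    (h : cycSt M L) : cycSt M⁻¹ L := by
  have hu : IsUnit M.det := isUnit_iff_ne_zero.2 hM
  have h1 : M⁻¹ * M = 1 := Matrix.nonsing_inv_mul M hu
  obtain ⟨f, hf⟩ : ∃ f : L →ₗ[ℂ] L, ∀ x : L, ((f x : L) : α → ℂ) = M.mulVec x := by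
    refine ⟨(Matrix.mulVecLin M).restrict (fun v hv => ?_), fun x => ?_⟩
    · exact h v hv
    · rfl
  have hinj : Function.Injective f := by
    intro x y hxy
    have h2 := congrArg (fun z : L => M⁻¹.mulVec (z : α → ℂ)) hxy
    simp only [hf, Matrix.mulVec_mulVec, h1, Matrix.one_mulVec] at h2
    exact Subtype.ext h2
  have hsurj := LinearMap.injective_iff_surjective.1 hinj
  intro v hv
  obtain ⟨x, hx⟩ := hsurj ⟨v, hv⟩
  have h3 : M.mulVec (x : α → ℂ) = v := by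
    rw [← hf x, hx]
  rw [← h3, Matrix.mulVec_mulVec, h1, Matrix.one_mulVec]
  exact x.2

theorem cycSt_add {M N : Matrix α α ℂ} {L : Submodule ℂ (α → ℂ)}
    (h : cycSt M L) (h' : cycSt N L) : cycSt (M + N) L := by
  intro v hv
  rw [Matrix.add_mulVec]
  exact L.add_mem (h v hv) (h' v hv)

theorem cycSt_mul {M N : Matrix α α ℂ} {L : Submodule ℂ (α → ℂ)}
    (h : cycSt M L) (h' : cycSt N L) : cycSt (M * N) L := by
  intro v hv
  rw [← Matrix.mulVec_mulVec]
  exact h _ (h' v hv)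

theorem cycSt_smul (c : ℂ) {M : Matrix α α ℂ} {L : Submodule ℂ (α → ℂ)}
    (h : cycSt M L) : cycSt (c • M) L := by
  intro v hv
  rw [Matrix.smul_mulVec]
  exact L.smul_mem _ (h v hv)

theorem cycSt_one (L : Submodule ℂ (α → ℂ)) : cycSt (1 : Matrix α α ℂ) L := by
  intro v hv
  rw [Matrix.one_mulVec]
  exact hv

theorem cycSt_poly {M : Matrix α α ℂ} {L : Submodule ℂ (α → ℂ)} (h : cycSt M L)
    (P : Polynomial ℂ) : cycSt (Polynomial.aeval M P) L := by
  induction P using Polynomial.induction_on' with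
  | add p q hp hq =>
    rw [map_add]
    exact cycSt_add hp hq
  | monomial n c =>
    rw [Polynomial.aeval_monomial, ← Algebra.smul_def]
    exact cycSt_smul c (cycSt_pow h n)

theorem cyc_eq1 (A : Matrix α α ℂ) (t : ℂ) (h : (A + t • (1 : Matrix α α ℂ)).det ≠ 0)
    (s : ℕ → α → ℂ) (i : ℕ) : Cyc (A + t • (1 : Matrix α α ℂ))⁻¹ s i = Cyc A s i := by
  apply le_antisymm
  · refine cyc_le_of _ _ s i fun L hL => ?_
    exact cycSt_inv h (cycSt_add hL (cycSt_smul t (cycSt_one L)))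
  · refine cyc_le_of _ _ s i fun L hL => ?_
    have hu : IsUnit (A + t • (1 : Matrix α α ℂ)).det := isUnit_iff_ne_zero.2 h
    have h1 : ((A + t • (1 : Matrix α α ℂ))⁻¹).det ≠ 0 := by
      have h2 := Matrix.isUnit_nonsing_inv_det _ hu
      exact h2.ne_zero
    have h2 := cycSt_inv h1 hL
    rw [Matrix.nonsing_inv_nonsing_inv _ hu] at h2
    have h3 := cycSt_add h2 (cycSt_smul (-t) (cycSt_one L))
    have h4 : A + t • (1 : Matrix α α ℂ) + (-t) • (1 : Matrix α α ℂ) = A := by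
      rw [neg_smul, add_neg_cancel_right]
    rwa [h4] at h3

theorem cyc_eq2 (B : Matrix α α ℂ) (t : ℂ) (h : ((1 : Matrix α α ℂ) + t • B).det ≠ 0)
    (s : ℕ → α → ℂ) (i : ℕ) : Cyc (((1 : Matrix α α ℂ) + t • B)⁻¹ * B) s i = Cyc B s i := by
  have hu : IsUnit ((1 : Matrix α α ℂ) + t • B).det := isUnit_iff_ne_zero.2 h
  apply le_antisymm
  · refine cyc_le_of _ _ s i fun L hL => ?_
    exact cycSt_mul (cycSt_inv h (cycSt_add (cycSt_one L) (cycSt_smul t hL))) hL
  · refine cyc_le_of _ _ s i fun L hL => ?_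
    obtain ⟨C, hC⟩ : ∃ C, C = (1 : Matrix α α ℂ) + t • B := ⟨_, rfl⟩
    rw [← hC] at hL hu h
    have e1 : C⁻¹ * C = 1 := Matrix.nonsing_inv_mul C hu
    have e0 : C * C⁻¹ = 1 := Matrix.mul_nonsing_inv C hu
    have e2 : (1 : Matrix α α ℂ) + (-t) • (C⁻¹ * B) = C⁻¹ := by
      have e3 : C⁻¹ * C = C⁻¹ + t • (C⁻¹ * B) := by
        calc C⁻¹ * C = C⁻¹ * (1 + t • B) := congrArg (fun z => C⁻¹ * z) hC
          _ = C⁻¹ + t • (C⁻¹ * B) := by
            rw [Matrix.mul_add, Matrix.mul_one, Matrix.mul_smul]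
      rw [← e1, e3, neg_smul, add_neg_cancel_right]
    have h1 : cycSt C⁻¹ L := by
      have h2 := cycSt_add (cycSt_one L) (cycSt_smul (-t) hL)
      rwa [e2] at h2
    have h3 : (C⁻¹).det ≠ 0 := (Matrix.isUnit_nonsing_inv_det _ hu).ne_zero
    have h4 := cycSt_inv h3 h1
    rw [Matrix.nonsing_inv_nonsing_inv _ hu] at h4
    have h5 := cycSt_mul h4 hL
    rwa [← Matrix.mul_assoc, e0, Matrix.one_mul] at h5

theorem cyc_blk (u1 : Matrix α α ℂ) (u2 : Matrix β β ℂ) (s1 : ℕ → α → ℂ) (s2 : ℕ → β → ℂ)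
    (P : Polynomial ℂ) (hP : Polynomial.aeval (Matrix.fromBlocks u1 0 0 u2) P =
      Matrix.fromBlocks 1 0 0 0) (i : ℕ) (v : α ⊕ β → ℂ) :
    v ∈ Cyc (Matrix.fromBlocks u1 0 0 u2) (fun j => Sum.elim (s1 j) (s2 j)) i ↔
      (v ∘ Sum.inl ∈ Cyc u1 s1 i ∧ v ∘ Sum.inr ∈ Cyc u2 s2 i) := by
  have hst := cyc_st (Matrix.fromBlocks u1 0 0 u2) (fun j => Sum.elim (s1 j) (s2 j)) i
  have hPst := cycSt_poly hst P
  rw [hP] at hPst
  constructor
  · intro hv
    obtain ⟨K, hK⟩ : ∃ K : Submodule ℂ (α ⊕ β → ℂ), ∀ v, v ∈ K ↔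
        (v ∘ Sum.inl ∈ Cyc u1 s1 i ∧ v ∘ Sum.inr ∈ Cyc u2 s2 i) :=
      ⟨(Cyc u1 s1 i).comap (LinearMap.funLeft ℂ ℂ Sum.inl) ⊓
        (Cyc u2 s2 i).comap (LinearMap.funLeft ℂ ℂ Sum.inr), fun v => Iff.rfl⟩
    rw [← hK]
    refine cyc_le _ _ i K ?_ ?_ hv
    · intro j hj
      rw [hK]
      exact ⟨cyc_mem u1 s1 i j hj, cyc_mem u2 s2 i j hj⟩
    · intro w hw
      rw [hK] at hw ⊢
      have h1 : (Matrix.fromBlocks u1 0 0 u2).mulVec w ∘ Sum.inl = u1.mulVec (w ∘ Sum.inl) := by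
        rw [Matrix.fromBlocks_mulVec]
        ext x
        simp
      have h2 : (Matrix.fromBlocks u1 0 0 u2).mulVec w ∘ Sum.inr = u2.mulVec (w ∘ Sum.inr) := by
        rw [Matrix.fromBlocks_mulVec]
        ext x
        simp
      rw [h1, h2]
      exact ⟨cyc_st u1 s1 i _ hw.1, cyc_st u2 s2 i _ hw.2⟩
  · rintro ⟨h1, h2⟩
    obtain ⟨L, hL⟩ : ∃ L, L = Cyc (Matrix.fromBlocks u1 0 0 u2)
      (fun j => Sum.elim (s1 j) (s2 j)) i := ⟨_, rfl⟩
    rw [← hL] at hst hPst ⊢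
    have hS : ∀ j ≤ i, Sum.elim (s1 j) (s2 j) ∈ L := by
      intro j hj
      rw [hL]
      exact cyc_mem _ (fun j => Sum.elim (s1 j) (s2 j)) i j hj
    have hA : ∀ j ≤ i, Sum.elim (s1 j) (0 : β → ℂ) ∈ L := by
      intro j hj
      have h3 := hPst _ (hS j hj)
      rw [Matrix.fromBlocks_mulVec] at h3
      simpa using h3
    have hB : ∀ j ≤ i, Sum.elim (0 : α → ℂ) (s2 j) ∈ L := by
      intro j hj
      have h3 := L.sub_mem (hS j hj) (hA j hj)
      have h4 : Sum.elim (s1 j) (s2 j) - Sum.elim (s1 j) (0 : β → ℂ) =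
          Sum.elim (0 : α → ℂ) (s2 j) := by
        ext x
        cases x <;> simp
      rwa [h4] at h3
    obtain ⟨L1, hL1⟩ : ∃ L1 : Submodule ℂ (α → ℂ), ∀ v, v ∈ L1 ↔
        Sum.elim v (0 : β → ℂ) ∈ L := by
      refine ⟨{ carrier := {v | Sum.elim v (0 : β → ℂ) ∈ L}
                zero_mem' := ?_
                add_mem' := ?_
                smul_mem' := ?_ }, fun v => Iff.rfl⟩
      · intro v w hv hw
        have h3 := L.add_mem hv hw
        have h4 : Sum.elim v (0 : β → ℂ) + Sum.elim w (0 : β → ℂ) =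
            Sum.elim (v + w) (0 : β → ℂ) := by
          ext x
          cases x <;> simp
        rwa [h4] at h3
      · have h4 : Sum.elim (0 : α → ℂ) (0 : β → ℂ) = 0 := by
          ext x
          cases x <;> simp
        show Sum.elim (0 : α → ℂ) (0 : β → ℂ) ∈ L
        rw [h4]
        exact L.zero_mem
      · intro c v hv
        have h3 := L.smul_mem c hv
        have h4 : c • Sum.elim v (0 : β → ℂ) = Sum.elim (c • v) (0 : β → ℂ) := by
          ext x
          cases x <;> simp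
        rwa [h4] at h3
    obtain ⟨L2, hL2⟩ : ∃ L2 : Submodule ℂ (β → ℂ), ∀ v, v ∈ L2 ↔
        Sum.elim (0 : α → ℂ) v ∈ L := by
      refine ⟨{ carrier := {v | Sum.elim (0 : α → ℂ) v ∈ L}
                zero_mem' := ?_
                add_mem' := ?_
                smul_mem' := ?_ }, fun v => Iff.rfl⟩
      · intro v w hv hw
        have h3 := L.add_mem hv hw
        have h4 : Sum.elim (0 : α → ℂ) v + Sum.elim (0 : α → ℂ) w =
            Sum.elim (0 : α → ℂ) (v + w) := by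
          ext x
          cases x <;> simp
        rwa [h4] at h3
      · have h4 : Sum.elim (0 : α → ℂ) (0 : β → ℂ) = 0 := by
          ext x
          cases x <;> simp
        show Sum.elim (0 : α → ℂ) (0 : β → ℂ) ∈ L
        rw [h4]
        exact L.zero_mem
      · intro c v hv
        have h3 := L.smul_mem c hv
        have h4 : c • Sum.elim (0 : α → ℂ) v = Sum.elim (0 : α → ℂ) (c • v) := by
          ext x
          cases x <;> simp
        rwa [h4] at h3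
    have k1 : Cyc u1 s1 i ≤ L1 := by
      refine cyc_le _ _ i L1 (fun j hj => (hL1 _).2 (hA j hj)) ?_
      intro w hw
      rw [hL1] at hw ⊢
      have h3 := hst _ hw
      rw [Matrix.fromBlocks_mulVec] at h3
      simpa using h3
    have k2 : Cyc u2 s2 i ≤ L2 := by
      refine cyc_le _ _ i L2 (fun j hj => (hL2 _).2 (hB j hj)) ?_
      intro w hw
      rw [hL2] at hw ⊢
      have h3 := hst _ hw
      rw [Matrix.fromBlocks_mulVec] at h3
      simpa using h3
    have m1 := (hL1 _).1 (k1 h1)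
    have m2 := (hL2 _).1 (k2 h2)
    have m3 := L.add_mem m1 m2
    have m4 : Sum.elim (v ∘ Sum.inl) (0 : β → ℂ) + Sum.elim (0 : α → ℂ) (v ∘ Sum.inr) = v := by
      ext x
      cases x <;> simp
    rwa [m4] at m3

theorem cyc_fr (K : Submodule ℂ (α ⊕ β → ℂ)) (C1 : Submodule ℂ (α → ℂ))
    (C2 : Submodule ℂ (β → ℂ))
    (hK : ∀ v, v ∈ K ↔ (v ∘ Sum.inl ∈ C1 ∧ v ∘ Sum.inr ∈ C2)) :
    Module.finrank ℂ K = Module.finrank ℂ C1 + Module.finrank ℂ C2 := by
  rw [← Module.finrank_prod]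
  refine LinearEquiv.finrank_eq
    { toFun := fun v => (⟨(v : α ⊕ β → ℂ) ∘ Sum.inl, ((hK _).1 v.2).1⟩,
        ⟨(v : α ⊕ β → ℂ) ∘ Sum.inr, ((hK _).1 v.2).2⟩)
      map_add' := fun v w => rfl
      map_smul' := fun c v => rfl
      invFun := fun p => ⟨Sum.elim (p.1 : α → ℂ) (p.2 : β → ℂ), (hK _).2 ⟨p.1.2, p.2.2⟩⟩
      left_inv := fun v => Subtype.ext ?_
      right_inv := fun p => rfl }
  ext x
  cases x <;> rfl

end CycAux

theorem ch_cyc (a b : ℕ →₀ ℕ) (c : Cd a × Cd b) (hc : c ∈ Wc a b) (t : ℂ)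
    (ht : (chA c + t • chB c).det ≠ 0) (i : ℕ) :
    Module.finrank ℂ (Cyc (Ut (chA c) (chB c) t) (chS c) i) =
      Module.finrank ℂ (Cyc (NA a c.1) (NS a c.1) i) +
      Module.finrank ℂ (Cyc (NA b c.2) (NS b c.2) i) := by
  obtain ⟨h1, h2⟩ := ch_det a b c t ht
  have hU := (ch_Ut a b c t h1 h2).2
  obtain ⟨P, hP⟩ := proj_poly (NA a c.1) (NA b c.2) hc t h1 h2
  have h3 := cyc_blk _ _ (NS a c.1) (NS b c.2) P hP i
  rw [hU]
  have h4 := cyc_fr _ _ _ h3
  rw [cyc_eq1 _ t h1, cyc_eq2 _ t h2] at h4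
  exact h4

end Pool.Agent.Helper438.Sc
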