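import Pool.Agent.Helper438.Sc.Defs
import Pool.Agent.Helper438.Sc.P_proj_poly
import Pool.Agent.Helper438.Sc.P_ch_Ut
import Pool.Agent.Helper438.Sc.P_ch_det

/-! Singular cohomology, the Borel construction of the stack of torsion sheaves on the projective
line, and all the auxiliary spaces used in the computation. -/

namespace Pool.Agent.Helper438.Sc

universe u v w



theorem cp_fin {α β : Type} [Fintype α] [Fintype β] (L : Submodule ℂ (α ⊕ β → ℂ))
    (L1 : Submodule ℂ (α → ℂ)) (L2 : Submodule ℂ (β → ℂ))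
    (h : ∀ v, v ∈ L ↔ (fun x => v (Sum.inl x)) ∈ L1 ∧ (fun x => v (Sum.inr x)) ∈ L2) :
    Module.finrank ℂ L = Module.finrank ℂ L1 + Module.finrank ℂ L2 := by
  rw [← Module.finrank_prod]
  apply LinearEquiv.finrank_eq
  exact
    { toFun := fun v => (⟨fun x => v.1 (Sum.inl x), ((h v.1).1 v.2).1⟩,
        ⟨fun x => v.1 (Sum.inr x), ((h v.1).1 v.2).2⟩)
      map_add' := fun v w => rfl
      map_smul' := fun c v => rfl
      invFun := fun p => ⟨Sum.elim p.1.1 p.2.1, (h _).2 ⟨p.1.2, p.2.2⟩⟩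
      left_inv := by
        intro v
        apply Subtype.ext
        funext x
        cases x <;> rfl
      right_inv := by
        intro p
        rfl }

theorem cp_mem {ι : Type} [Fintype ι] [DecidableEq ι] (u : Matrix ι ι ℂ) (s : ℕ → ι → ℂ)
    (i j : ℕ) (hj : j ≤ i) : s j ∈ Cyc u s i := by
  apply Submodule.subset_span
  exact ⟨j, hj, 0, by simp⟩

theorem cp_stable {ι : Type} [Fintype ι] [DecidableEq ι] (u : Matrix ι ι ℂ) (s : ℕ → ι → ℂ)
    (i : ℕ) : ∀ v ∈ Cyc u s i, u.mulVec v ∈ Cyc u s i := by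
  intro v hv
  have h1 : Cyc u s i ≤ (Cyc u s i).comap (Matrix.toLin' u) := by
    unfold Cyc
    rw [Submodule.span_le]
    rintro w ⟨j, hj, k, rfl⟩
    rw [SetLike.mem_coe, Submodule.mem_comap, Matrix.toLin'_apply, Matrix.mulVec_mulVec]
    apply Submodule.subset_span
    exact ⟨j, hj, k + 1, by rw [pow_succ']⟩
  exact h1 hv

theorem cp_pow {ι : Type} [Fintype ι] [DecidableEq ι] (u : Matrix ι ι ℂ)
    (L : Submodule ℂ (ι → ℂ)) (h : ∀ v ∈ L, u.mulVec v ∈ L) (k : ℕ) :
    ∀ v ∈ L, (u ^ k).mulVec v ∈ L := by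
  induction k with
  | zero => intro v hv; simpa using hv
  | succ k ih =>
    intro v hv
    rw [pow_succ', ← Matrix.mulVec_mulVec]
    exact h _ (ih v hv)

theorem cp_poly {ι : Type} [Fintype ι] [DecidableEq ι] (u : Matrix ι ι ℂ)
    (L : Submodule ℂ (ι → ℂ)) (h : ∀ v ∈ L, u.mulVec v ∈ L) (P : Polynomial ℂ) :
    ∀ v ∈ L, (Polynomial.aeval u P).mulVec v ∈ L := by
  intro v hv
  rw [Polynomial.aeval_eq_sum_range, Matrix.sum_mulVec]
  apply Submodule.sum_mem
  intro k _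
  rw [Matrix.smul_mulVec]
  exact L.smul_mem _ (cp_pow u L h k v hv)

theorem cp_least {ι : Type} [Fintype ι] [DecidableEq ι] (u : Matrix ι ι ℂ) (s : ℕ → ι → ℂ)
    (i : ℕ) (L : Submodule ℂ (ι → ℂ)) (hs : ∀ j ≤ i, s j ∈ L)
    (h : ∀ v ∈ L, u.mulVec v ∈ L) : Cyc u s i ≤ L := by
  unfold Cyc
  rw [Submodule.span_le]
  rintro w ⟨j, hj, k, rfl⟩
  exact cp_pow u L h k _ (hs j hj)

theorem cp_inv {ι : Type} [Fintype ι] [DecidableEq ι] (M : Matrix ι ι ℂ) (hM : IsUnit M.det)
    (L : Submodule ℂ (ι → ℂ)) (h : ∀ v ∈ L, M.mulVec v ∈ L) :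
    ∀ v ∈ L, M⁻¹.mulVec v ∈ L := by
  have hinj : Function.Injective (Matrix.toLin' M) := by
    intro x y hxy
    have h1 := congrArg (fun z => M⁻¹.mulVec z) hxy
    simp only [Matrix.toLin'_apply, Matrix.mulVec_mulVec, Matrix.nonsing_inv_mul M hM,
      Matrix.one_mulVec] at h1
    exact h1
  have hle : L.map (Matrix.toLin' M) ≤ L := by
    rw [Submodule.map_le_iff_le_comap]
    intro v hv
    rw [Submodule.mem_comap, Matrix.toLin'_apply]
    exact h v hv
  have heq : L.map (Matrix.toLin' M) = L := by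
    apply Submodule.eq_of_le_of_finrank_eq hle
    exact (LinearEquiv.finrank_eq (Submodule.equivMapOfInjective _ hinj L)).symm
  intro v hv
  rw [← heq] at hv
  obtain ⟨w, hw, rfl⟩ := hv
  rw [Matrix.toLin'_apply, Matrix.mulVec_mulVec, Matrix.nonsing_inv_mul M hM, Matrix.one_mulVec]
  exact hw

theorem cp_finmap {ι : Type} [Fintype ι] [DecidableEq ι] (M : Matrix ι ι ℂ) (hM : IsUnit M.det)
    (L : Submodule ℂ (ι → ℂ)) :
    Module.finrank ℂ (L.map (Matrix.toLin' M)) = Module.finrank ℂ L := by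
  have hinj : Function.Injective (Matrix.toLin' M) := by
    intro x y hxy
    have h1 := congrArg (fun z => M⁻¹.mulVec z) hxy
    simp only [Matrix.toLin'_apply, Matrix.mulVec_mulVec, Matrix.nonsing_inv_mul M hM,
      Matrix.one_mulVec] at h1
    exact h1
  exact (LinearEquiv.finrank_eq (Submodule.equivMapOfInjective _ hinj L)).symm

theorem cp_u1 {ι : Type} [Fintype ι] [DecidableEq ι] (A : Matrix ι ι ℂ) (t : ℂ)
    (h1 : (A + t • (1 : Matrix ι ι ℂ)).det ≠ 0) (s : ℕ → ι → ℂ) (i : ℕ) :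
    Cyc (A + t • (1 : Matrix ι ι ℂ))⁻¹ s i = Cyc A s i := by
  have hu : IsUnit (A + t • (1 : Matrix ι ι ℂ)).det := isUnit_iff_ne_zero.2 h1
  apply le_antisymm
  · apply cp_least _ _ _ _ (fun j hj => cp_mem _ _ _ _ hj)
    apply cp_inv _ hu
    intro v hv
    rw [Matrix.add_mulVec, Matrix.smul_mulVec, Matrix.one_mulVec]
    exact Submodule.add_mem _ (cp_stable A s i v hv) (Submodule.smul_mem _ _ hv)
  · apply cp_least _ _ _ _ (fun j hj => cp_mem _ _ _ _ hj)
    intro v hv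
    have hu' : IsUnit ((A + t • (1 : Matrix ι ι ℂ))⁻¹).det := by
      rw [Matrix.isUnit_nonsing_inv_det_iff]
      exact hu
    have h2 := cp_inv _ hu' _ (cp_stable (A + t • (1 : Matrix ι ι ℂ))⁻¹ s i) v hv
    rw [Matrix.nonsing_inv_nonsing_inv _ hu, Matrix.add_mulVec, Matrix.smul_mulVec,
      Matrix.one_mulVec] at h2
    have h3 : A.mulVec v = (A.mulVec v + t • v) - t • v := by abel
    rw [h3]
    exact Submodule.sub_mem _ h2 (Submodule.smul_mem _ _ hv)

theorem cp_u2 {ι : Type} [Fintype ι] [DecidableEq ι] (B : Matrix ι ι ℂ) (t : ℂ)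
    (h2 : ((1 : Matrix ι ι ℂ) + t • B).det ≠ 0) (s : ℕ → ι → ℂ) (i : ℕ) :
    Cyc (((1 : Matrix ι ι ℂ) + t • B)⁻¹ * B) s i = Cyc B s i := by
  have hu : IsUnit ((1 : Matrix ι ι ℂ) + t • B).det := isUnit_iff_ne_zero.2 h2
  apply le_antisymm
  · apply cp_least _ _ _ _ (fun j hj => cp_mem _ _ _ _ hj)
    intro v hv
    rw [← Matrix.mulVec_mulVec]
    apply cp_inv _ hu (Cyc B s i)
    · intro w hw
      rw [Matrix.add_mulVec, Matrix.smul_mulVec, Matrix.one_mulVec]
      exact Submodule.add_mem _ hw (Submodule.smul_mem _ _ (cp_stable B s i w hw))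
    · exact cp_stable B s i v hv
  · apply cp_least _ _ _ _ (fun j hj => cp_mem _ _ _ _ hj)
    intro v hv
    have hu' : IsUnit (((1 : Matrix ι ι ℂ) + t • B)⁻¹).det := by
      rw [Matrix.isUnit_nonsing_inv_det_iff]
      exact hu
    have hst := cp_stable (((1 : Matrix ι ι ℂ) + t • B)⁻¹ * B) s i
    have h3 : ((1 : Matrix ι ι ℂ) + t • B)⁻¹ = 1 - t • (((1 : Matrix ι ι ℂ) + t • B)⁻¹ * B) := by
      have h4 : ((1 : Matrix ι ι ℂ) + t • B)⁻¹ * ((1 : Matrix ι ι ℂ) + t • B) = 1 :=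
        Matrix.nonsing_inv_mul _ hu
      rw [Matrix.mul_add, Matrix.mul_one, Matrix.mul_smul] at h4
      exact eq_sub_of_add_eq h4
    have h5 : ∀ v ∈ Cyc (((1 : Matrix ι ι ℂ) + t • B)⁻¹ * B) s i,
        (((1 : Matrix ι ι ℂ) + t • B)⁻¹).mulVec v ∈
          Cyc (((1 : Matrix ι ι ℂ) + t • B)⁻¹ * B) s i := by
      intro w hw
      have h6 : (((1 : Matrix ι ι ℂ) + t • B)⁻¹).mulVec w =
          w - t • (((1 : Matrix ι ι ℂ) + t • B)⁻¹ * B).mulVec w := by
        conv_lhs => rw [h3]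
        rw [Matrix.sub_mulVec, Matrix.one_mulVec, Matrix.smul_mulVec]
      rw [h6]
      exact Submodule.sub_mem _ hw (Submodule.smul_mem _ _ (hst w hw))
    have h7 := cp_inv _ hu' _ h5
    have h8 := h7 _ (hst v hv)
    rw [Matrix.nonsing_inv_nonsing_inv _ hu, Matrix.mulVec_mulVec, ← Matrix.mul_assoc,
      Matrix.mul_nonsing_inv _ hu, Matrix.one_mul] at h8
    exact h8

theorem ch_cyc_pow (a b : ℕ →₀ ℕ) (c : Cd a × Cd b) (hc : c ∈ Wc a b) (t : ℂ)
    (ht : (chA c + t • chB c).det ≠ 0) (i N : ℕ) :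
    Module.finrank ℂ ((Cyc (Ut (chA c) (chB c) t) (chS c) i).map
        (Matrix.toLin' ((Ut (chA c) (chB c) t) ^ N))) =
      Module.finrank ℂ (Cyc (NA a c.1) (NS a c.1) i) +
      Module.finrank ℂ ((Cyc (NA b c.2) (NS b c.2) i).map (Matrix.toLin' ((NA b c.2) ^ N))) := by
  obtain ⟨h1, h2⟩ := ch_det a b c t ht
  obtain ⟨-, hUt⟩ := ch_Ut a b c t h1 h2
  obtain ⟨P, hP⟩ := proj_poly (NA a c.1) (NA b c.2) hc t h1 h2
  rw [hUt]
  set A := NA a c.1 with hA
  set B := NA b c.2 with hB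
  set u1 := (A + t • (1 : Matrix (Ix a) (Ix a) ℂ))⁻¹ with hu1
  set V := ((1 : Matrix (Ix b) (Ix b) ℂ) + t • B)⁻¹ with hV
  set s1 := NS a c.1 with hs1
  set s2 := NS b c.2 with hs2
  have hUB : IsUnit ((1 : Matrix (Ix b) (Ix b) ℂ) + t • B).det := isUnit_iff_ne_zero.2 h2
  have hUA : IsUnit (A + t • (1 : Matrix (Ix a) (Ix a) ℂ)).det := isUnit_iff_ne_zero.2 h1
  have hchs : ∀ j, chS c j = Sum.elim (s1 j) (s2 j) := fun j => rfl
  -- action of block diagonal matrices
  have hblk : ∀ (M1 : Matrix (Ix a) (Ix a) ℂ) (M2 : Matrix (Ix b) (Ix b) ℂ) (v : Ix a ⊕ Ix b → ℂ),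
      (Matrix.fromBlocks M1 0 0 M2).mulVec v =
        Sum.elim (M1.mulVec (fun x => v (Sum.inl x))) (M2.mulVec (fun x => v (Sum.inr x))) := by
    intro M1 M2 v
    rw [Matrix.fromBlocks_mulVec]
    simp only [Matrix.zero_mulVec, add_zero, zero_add]
    rfl
  -- decomposition
  have hdec : ∀ v, v ∈ Cyc (Matrix.fromBlocks u1 0 0 (V * B)) (chS c) i ↔
      (fun x => v (Sum.inl x)) ∈ Cyc A s1 i ∧ (fun x => v (Sum.inr x)) ∈ Cyc B s2 i := by
    have hc1 : Cyc u1 s1 i = Cyc A s1 i := cp_u1 A t h1 s1 i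
    have hc2 : Cyc (V * B) s2 i = Cyc B s2 i := cp_u2 B t h2 s2 i
    intro v
    rw [← hc1, ← hc2]
    constructor
    · intro hv
      have hle : Cyc (Matrix.fromBlocks u1 0 0 (V * B)) (chS c) i ≤
          (Cyc u1 s1 i).comap (LinearMap.funLeft ℂ ℂ (Sum.inl : Ix a → Ix a ⊕ Ix b)) ⊓
          (Cyc (V * B) s2 i).comap (LinearMap.funLeft ℂ ℂ (Sum.inr : Ix b → Ix a ⊕ Ix b)) := by
        apply cp_least
        · intro j hj
          exact ⟨cp_mem u1 s1 i j hj, cp_mem (V * B) s2 i j hj⟩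
        · intro w hw
          rw [hblk]
          exact ⟨cp_stable u1 s1 i _ hw.1, cp_stable (V * B) s2 i _ hw.2⟩
      exact hle hv
    · rintro ⟨hv1, hv2⟩
      have hst := cp_stable (Matrix.fromBlocks u1 0 0 (V * B)) (chS c) i
      have hpr : ∀ w ∈ Cyc (Matrix.fromBlocks u1 0 0 (V * B)) (chS c) i,
          Sum.elim (fun x => w (Sum.inl x)) (0 : Ix b → ℂ) ∈
            Cyc (Matrix.fromBlocks u1 0 0 (V * B)) (chS c) i := by
        intro w hw
        have h3 := cp_poly _ _ hst P w hw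
        rw [hP, hblk, Matrix.one_mulVec, Matrix.zero_mulVec] at h3
        exact h3
      have hpr2 : ∀ w ∈ Cyc (Matrix.fromBlocks u1 0 0 (V * B)) (chS c) i,
          Sum.elim (0 : Ix a → ℂ) (fun x => w (Sum.inr x)) ∈
            Cyc (Matrix.fromBlocks u1 0 0 (V * B)) (chS c) i := by
        intro w hw
        have h3 := Submodule.sub_mem _ hw (hpr w hw)
        convert h3 using 1
        funext x
        cases x <;> simp
      have hL1 : Cyc u1 s1 i ≤ (Cyc (Matrix.fromBlocks u1 0 0 (V * B)) (chS c) i).comap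
          ((LinearEquiv.sumArrowLequivProdArrow (Ix a) (Ix b) ℂ ℂ).symm.toLinearMap ∘ₗ
            LinearMap.inl ℂ (Ix a → ℂ) (Ix b → ℂ)) := by
        apply cp_least
        · intro j hj
          exact hpr _ (cp_mem _ _ _ _ hj)
        · intro w hw
          have h4 := hst _ hw
          rw [hblk] at h4
          have h5 := hpr _ h4
          exact h5
      have hL2 : Cyc (V * B) s2 i ≤ (Cyc (Matrix.fromBlocks u1 0 0 (V * B)) (chS c) i).comap
          ((LinearEquiv.sumArrowLequivProdArrow (Ix a) (Ix b) ℂ ℂ).symm.toLinearMap ∘ₗ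
            LinearMap.inr ℂ (Ix a → ℂ) (Ix b → ℂ)) := by
        apply cp_least
        · intro j hj
          exact hpr2 _ (cp_mem _ _ _ _ hj)
        · intro w hw
          have h4 := hst _ hw
          rw [hblk] at h4
          have h5 := hpr2 _ h4
          exact h5
      have h6 := hL1 hv1
      have h7 := hL2 hv2
      have h8 := Submodule.add_mem _ (Submodule.mem_comap.1 h6) (Submodule.mem_comap.1 h7)
      convert h8 using 1
      funext x
      cases x with
      | inl x =>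
        simp only [LinearMap.comp_apply, LinearEquiv.coe_coe, LinearMap.inl_apply,
          LinearMap.inr_apply, Pi.add_apply, LinearEquiv.sumArrowLequivProdArrow_symm_apply_inl,
          Pi.zero_apply, add_zero]
      | inr x =>
        simp only [LinearMap.comp_apply, LinearEquiv.coe_coe, LinearMap.inl_apply,
          LinearMap.inr_apply, Pi.add_apply, LinearEquiv.sumArrowLequivProdArrow_symm_apply_inr,
          Pi.zero_apply, zero_add]
  -- power
  have hpow : (Matrix.fromBlocks u1 0 0 (V * B)) ^ N =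
      Matrix.fromBlocks (u1 ^ N) 0 0 ((V * B) ^ N) := by
    rw [Matrix.fromBlocks_diagonal_pow]
  rw [hpow]
  have hmap : ∀ v, v ∈ (Cyc (Matrix.fromBlocks u1 0 0 (V * B)) (chS c) i).map
        (Matrix.toLin' (Matrix.fromBlocks (u1 ^ N) 0 0 ((V * B) ^ N))) ↔
      (fun x => v (Sum.inl x)) ∈ (Cyc A s1 i).map (Matrix.toLin' (u1 ^ N)) ∧
      (fun x => v (Sum.inr x)) ∈ (Cyc B s2 i).map (Matrix.toLin' ((V * B) ^ N)) := by
    intro v
    constructor
    · rintro ⟨w, hw, rfl⟩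
      have hw' := (hdec w).1 hw
      rw [Matrix.toLin'_apply, hblk]
      exact ⟨⟨_, hw'.1, rfl⟩, ⟨_, hw'.2, rfl⟩⟩
    · rintro ⟨⟨w1, hw1, e1⟩, ⟨w2, hw2, e2⟩⟩
      refine ⟨Sum.elim w1 w2, (hdec _).2 ⟨hw1, hw2⟩, ?_⟩
      rw [Matrix.toLin'_apply, hblk]
      rw [Matrix.toLin'_apply] at e1 e2
      funext x
      cases x with
      | inl x => exact congrFun e1 x
      | inr x => exact congrFun e2 x
  rw [cp_fin _ _ _ hmap]
  congr 1
  · apply cp_finmap
    rw [Matrix.det_pow]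
    apply IsUnit.pow
    rw [hu1, Matrix.isUnit_nonsing_inv_det_iff]
    exact hUA
  · have hcomm : Commute V B := by
      have h3 : Commute ((1 : Matrix (Ix b) (Ix b) ℂ) + t • B) B := by
        apply Commute.add_left (Commute.one_left _)
        exact (Commute.refl B).smul_left t
      show V * B = B * V
      have h4 : ((1 : Matrix (Ix b) (Ix b) ℂ) + t • B) * B = B * ((1 : Matrix (Ix b) (Ix b) ℂ) + t • B) := h3
      calc V * B = V * B * (((1 : Matrix (Ix b) (Ix b) ℂ) + t • B) * V) := by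
            rw [hV, Matrix.mul_nonsing_inv _ hUB, Matrix.mul_one]
        _ = V * (B * ((1 : Matrix (Ix b) (Ix b) ℂ) + t • B)) * V := by
            simp only [Matrix.mul_assoc]
        _ = V * (((1 : Matrix (Ix b) (Ix b) ℂ) + t • B) * B) * V := by rw [h4]
        _ = (V * ((1 : Matrix (Ix b) (Ix b) ℂ) + t • B)) * B * V := by
            simp only [Matrix.mul_assoc]
        _ = B * V := by rw [hV, Matrix.nonsing_inv_mul _ hUB, Matrix.one_mul]
    rw [hcomm.mul_pow, Matrix.toLin'_mul, Submodule.map_comp]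
    apply cp_finmap
    rw [Matrix.det_pow]
    apply IsUnit.pow
    rw [hV, Matrix.isUnit_nonsing_inv_det_iff]
    exact hUB

end Pool.Agent.Helper438.Sc
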