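import Pool.Agent.Helper438.Sc.Defs

/-! Singular cohomology, the Borel construction of the stack of torsion sheaves on the projective
line, and all the auxiliary spaces used in the computation. -/

namespace Pool.Agent.Helper438.Sc

universe u v w



theorem comb_le_aux (c : ℕ → ℕ) (M : ℕ) :
    ∑ i ∈ Finset.range M, i * c i + ∑ i ∈ Finset.range M, ∑ j ∈ Finset.range (i + 1), c j =
      M * ∑ j ∈ Finset.range M, c j := by
  induction M with
  | zero => simp
  | succ M ih =>
    rw [Finset.sum_range_succ (fun i => i * c i),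
      Finset.sum_range_succ (fun i => ∑ j ∈ Finset.range (i + 1), c j),
      Finset.sum_range_succ c M]
    have h1 : (M + 1) * (∑ j ∈ Finset.range M, c j + c M) =
      M * ∑ j ∈ Finset.range M, c j + (M * c M + (∑ j ∈ Finset.range M, c j + c M)) := by ring
    rw [h1, ← ih]
    ring

theorem comb_le_tail (c : ℕ → ℕ) (M : ℕ) (h : ∀ j, M ≤ j → c j = 0) (i : ℕ) (hi : M ≤ i) :
    ∑ j ∈ Finset.range (i + 1), c j = ∑ j ∈ Finset.range M, c j := by
  symm
  refine Finset.sum_subset ?_ ?_
  · intro x hx
    rw [Finset.mem_range] at hx ⊢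
    omega
  · intro x _ hx
    rw [Finset.mem_range] at hx
    exact h x (by omega)

theorem comb_le (a b a' b' : ℕ →₀ ℕ)
    (hn : ((a.sum fun _ x => x) + b.sum fun _ x => x) =
      (a'.sum fun _ x => x) + b'.sum fun _ x => x)
    (hb : (b'.sum fun _ x => x) ≤ b.sum fun _ x => x)
    (hl : ∀ i, ∑ j ∈ Finset.range (i + 1), (a j + b j) ≤
      ∑ j ∈ Finset.range (i + 1), (a' j + b' j)) :
    cdim a' b' < cdim a b ∨ ((b'.sum fun _ x => x) = (b.sum fun _ x => x) ∧
      ∀ i, ∑ j ∈ Finset.range (i + 1), (a j + b j) = ∑ j ∈ Finset.range (i + 1), (a' j + b' j)) := by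
  obtain ⟨M, hM⟩ : ∃ M : ℕ, ∀ x ∈ (a.support ∪ b.support) ∪ (a'.support ∪ b'.support), x < M :=
    ⟨((a.support ∪ b.support) ∪ (a'.support ∪ b'.support)).sup id + 1, fun x hx =>
      Nat.lt_succ_of_le (Finset.le_sup (f := id) hx)⟩
  have hsa : a.support ⊆ Finset.range M := fun x hx =>
    Finset.mem_range.mpr (hM x (by simp only [Finset.mem_union]; tauto))
  have hsb : b.support ⊆ Finset.range M := fun x hx =>
    Finset.mem_range.mpr (hM x (by simp only [Finset.mem_union]; tauto))
  have hsa' : a'.support ⊆ Finset.range M := fun x hx =>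
    Finset.mem_range.mpr (hM x (by simp only [Finset.mem_union]; tauto))
  have hsb' : b'.support ⊆ Finset.range M := fun x hx =>
    Finset.mem_range.mpr (hM x (by simp only [Finset.mem_union]; tauto))
  have hz : ∀ f : ℕ →₀ ℕ, f.support ⊆ Finset.range M → ∀ j, M ≤ j → f j = 0 := by
    intro f hf j hj
    by_contra hne
    have h1 := hf (Finsupp.mem_support_iff.mpr hne)
    rw [Finset.mem_range] at h1
    omega
  have ea := Finsupp.sum_of_support_subset a hsa (fun _ x => x) (fun _ _ => rfl)
  have eb := Finsupp.sum_of_support_subset b hsb (fun _ x => x) (fun _ _ => rfl)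
  have ea' := Finsupp.sum_of_support_subset a' hsa' (fun _ x => x) (fun _ _ => rfl)
  have eb' := Finsupp.sum_of_support_subset b' hsb' (fun _ x => x) (fun _ _ => rfl)
  have e1 := Finsupp.sum_of_support_subset a hsa (fun i x => i * x) (fun _ _ => mul_zero _)
  have e2 := Finsupp.sum_of_support_subset b hsb (fun i x => (i + 1) * x) (fun _ _ => mul_zero _)
  have e1' := Finsupp.sum_of_support_subset a' hsa' (fun i x => i * x) (fun _ _ => mul_zero _)
  have e2' := Finsupp.sum_of_support_subset b' hsb' (fun i x => (i + 1) * x)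
    (fun _ _ => mul_zero _)
  have k1 := comb_le_aux (fun j => a j + b j) M
  have k2 := comb_le_aux (fun j => a' j + b' j) M
  have c1 : cdim a b = ∑ i ∈ Finset.range M, i * (a i + b i) + ∑ i ∈ Finset.range M, b i := by
    unfold cdim
    rw [e1, e2, ← Finset.sum_add_distrib, ← Finset.sum_add_distrib]
    exact Finset.sum_congr rfl (fun i _ => by ring)
  have c2 : cdim a' b' =
      ∑ i ∈ Finset.range M, i * (a' i + b' i) + ∑ i ∈ Finset.range M, b' i := by
    unfold cdim
    rw [e1', e2', ← Finset.sum_add_distrib, ← Finset.sum_add_distrib]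
    exact Finset.sum_congr rfl (fun i _ => by ring)
  have t1 : ∑ j ∈ Finset.range M, (a j + b j) = ∑ j ∈ Finset.range M, (a' j + b' j) := by
    rw [Finset.sum_add_distrib, Finset.sum_add_distrib]
    rw [← ea, ← eb, ← ea', ← eb']
    exact hn
  have hle : ∑ i ∈ Finset.range M, ∑ j ∈ Finset.range (i + 1), (a j + b j) ≤
      ∑ i ∈ Finset.range M, ∑ j ∈ Finset.range (i + 1), (a' j + b' j) :=
    Finset.sum_le_sum (fun i _ => hl i)
  rw [t1] at k1
  rw [eb, eb'] at hb
  by_cases hlt : cdim a' b' < cdim a b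
  · exact Or.inl hlt
  · right
    rw [c1, c2] at hlt
    have hB : ∑ i ∈ Finset.range M, b' i = ∑ i ∈ Finset.range M, b i := by omega
    have hN : ∑ i ∈ Finset.range M, ∑ j ∈ Finset.range (i + 1), (a j + b j) =
      ∑ i ∈ Finset.range M, ∑ j ∈ Finset.range (i + 1), (a' j + b' j) := by omega
    refine ⟨by rw [eb, eb']; exact hB, ?_⟩
    intro i
    by_cases hi : i < M
    · exact (Finset.sum_eq_sum_iff_of_le (fun i _ => hl i)).mp hN i (Finset.mem_range.mpr hi)
    · push Not at hi
      rw [comb_le_tail (fun j => a j + b j) M (fun j hj => by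
          simp only [hz a hsa j hj, hz b hsb j hj]) i hi,
        comb_le_tail (fun j => a' j + b' j) M (fun j hj => by
          simp only [hz a' hsa' j hj, hz b' hsb' j hj]) i hi]
      exact t1

end Pool.Agent.Helper438.Sc
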