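import Pool.Agent.Helper438.Sc.Defs
import Pool.Agent.Helper438.Sc.P_NA_pow_lt
import Pool.Agent.Helper438.Sc.P_NA_pow_top

/-! Singular cohomology, the Borel construction of the stack of torsion sheaves on the projective
line, and all the auxiliary spaces used in the computation. -/

namespace Pool.Agent.Helper438.Sc

universe u v w



theorem cyc_nf_conv (a : ℕ →₀ ℕ) (c : Cd a)
    (h : ∀ i, Module.finrank ℂ (Cyc (NA a c) (NS a c) i) = ∑ j ∈ Finset.range (i + 1), a j) :
    ∀ j (p : Ix a), j < p.1.1 → c j p = 0 := by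
  intro i p hp
  let e : (Σ j : Fin (i + 1), Fin (a j)) → Ix a := fun x => ⟨((x.1 : ℕ), (x.2 : ℕ)), x.2.2⟩
  have he : Function.Injective e := by
    rintro ⟨⟨j, hj⟩, ⟨k, hk⟩⟩ ⟨⟨j', hj'⟩, ⟨k', hk'⟩⟩ hxy
    have h1 := congrArg Subtype.val hxy
    have h2 : j = j' := congrArg Prod.fst h1
    have h3 : k = k' := congrArg Prod.snd h1
    subst h2
    subst h3
    rfl
  let b : (Σ j : Fin (i + 1), Fin (a j)) → (Ix a → ℂ) := fun x => Pi.single (e x) 1
  have hb : LinearIndependent ℂ b := by
    have h1 := (Pi.basisFun ℂ (Ix a)).linearIndependent.comp e he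
    have h2 : (Pi.basisFun ℂ (Ix a)) ∘ e = b := by
      funext x
      exact Pi.basisFun_apply ℂ (Ix a) (e x)
    rwa [h2] at h1
  have hle : Submodule.span ℂ (Set.range b) ≤ Cyc (NA a c) (NS a c) i := by
    rw [Submodule.span_le]
    rintro _ ⟨x, rfl⟩
    apply Submodule.subset_span
    exact ⟨x.1, Nat.lt_succ_iff.mp x.1.2, x.2, (NA_pow_lt a c x.1 x.2 x.2.2).symm⟩
  have hfin : Module.finrank ℂ (Submodule.span ℂ (Set.range b)) =
      Module.finrank ℂ (Cyc (NA a c) (NS a c) i) := by
    rw [h i, finrank_span_eq_card hb, Fintype.card_sigma, Finset.sum_range]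
    simp
  have heq := Submodule.eq_of_le_of_finrank_eq hle hfin
  have hc : c i ∈ Submodule.span ℂ (Set.range b) := by
    rw [heq]
    apply Submodule.subset_span
    exact ⟨i, le_rfl, a i, (NA_pow_top a c i).symm⟩
  have hker : Submodule.span ℂ (Set.range b) ≤
      LinearMap.ker (LinearMap.proj (R := ℂ) (φ := fun _ : Ix a => ℂ) p) := by
    rw [Submodule.span_le]
    rintro _ ⟨x, rfl⟩
    change (Pi.single (e x) 1 : Ix a → ℂ) p = 0
    apply Pi.single_eq_of_ne
    intro hpe
    have h1 : p.1.1 = (x.1 : ℕ) := by rw [hpe]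
    have h2 := x.1.2
    omega
  exact hker hc

end Pool.Agent.Helper438.Sc
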