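import Pool.Agent.Helper438.Sc.Defs
import Pool.Agent.Helper438.Sc.P_NA_pow_lt
import Pool.Agent.Helper438.Sc.P_NA_pow_top

/-! Singular cohomology, the Borel construction of the stack of torsion sheaves on the projective
line, and all the auxiliary spaces used in the computation. -/

namespace Pool.Agent.Helper438.Sc

universe u v w



/-- the functions vanishing above level `i` -/
def Wi79 (a : ℕ →₀ ℕ) (i : ℕ) : Submodule ℂ (Ix a → ℂ) where
  carrier := {v | ∀ p : Ix a, i < p.1.1 → v p = 0}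
  zero_mem' := fun _ _ => rfl
  add_mem' := fun {v w} hv hw p hp => by rw [Pi.add_apply, hv p hp, hw p hp, add_zero]
  smul_mem' := fun c v hv p hp => by rw [Pi.smul_apply, hv p hp, smul_zero]

theorem Wi_stab79 (a : ℕ →₀ ℕ) (c : Cd a) (h : ∀ j (p : Ix a), j < p.1.1 → c j p = 0) (i : ℕ)
    (v : Ix a → ℂ) (hv : v ∈ Wi79 a i) : (NA a c).mulVec v ∈ Wi79 a i := by
  intro p hp
  rw [Matrix.mulVec, dotProduct]
  apply Finset.sum_eq_zero
  intro q _
  by_cases hq : i < q.1.1
  · rw [hv q hq, mul_zero]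
  · have h0 : NA a c p q = 0 := by
      unfold NA
      split_ifs with h1 h2
      · exfalso
        have : p.1.1 = q.1.1 := by rw [h2]
        omega
      · rfl
      · exact h _ p (by omega)
    rw [h0, zero_mul]

theorem Cyc_le79 (a : ℕ →₀ ℕ) (c : Cd a) (h : ∀ j (p : Ix a), j < p.1.1 → c j p = 0) (i : ℕ) :
    Cyc (NA a c) (NS a c) i ≤ Wi79 a i := by
  unfold Cyc
  rw [Submodule.span_le]
  rintro v ⟨j, hj, k, rfl⟩
  induction k with
  | zero =>
    rw [pow_zero, Matrix.one_mulVec]
    intro p hp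
    unfold NS
    split_ifs with h1 h2
    · exfalso
      have : p.1.1 = j := by rw [h2]
      omega
    · rfl
    · exact h _ p (by omega)
  | succ k ih =>
    rw [pow_succ', ← Matrix.mulVec_mulVec]
    exact Wi_stab79 a c h i _ ih

/-- counting -/
def cardEquiv79 (a : ℕ →₀ ℕ) (i : ℕ) : {p : Ix a // p.1.1 ≤ i} ≃ (j : Fin (i + 1)) × Fin (a j) where
  toFun p := ⟨⟨p.1.1.1, Nat.lt_succ_of_le p.2⟩, ⟨p.1.1.2, p.1.2⟩⟩
  invFun q := ⟨⟨(q.1, q.2), q.2.2⟩, Nat.le_of_lt_succ q.1.2⟩
  left_inv _ := rfl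
  right_inv _ := rfl

theorem cyc_nf_eq (a : ℕ →₀ ℕ) (c : Cd a) (h : ∀ j (p : Ix a), j < p.1.1 → c j p = 0) (i : ℕ) :
    Module.finrank ℂ (Cyc (NA a c) (NS a c) i) = ∑ j ∈ Finset.range (i + 1), a j := by
  classical
  let b : {p : Ix a // p.1.1 ≤ i} → (Ix a → ℂ) := fun p => Pi.single p.1 1
  have hb : LinearIndependent ℂ b := by
    have h1 := (Pi.basisFun ℂ (Ix a)).linearIndependent.comp
      (fun p : {p : Ix a // p.1.1 ≤ i} => p.1) Subtype.val_injective
    convert h1 using 1
    funext p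
    simp only [Function.comp, Pi.basisFun_apply]
    rfl
  have hC : Cyc (NA a c) (NS a c) i = Submodule.span ℂ (Set.range b) := by
    apply le_antisymm
    · intro v hv
      have hv' := Cyc_le79 a c h i hv
      have hsum : v = ∑ p : Ix a, v p • (Pi.single p 1 : Ix a → ℂ) := by
        funext q
        rw [Finset.sum_apply]
        simp only [Pi.smul_apply, smul_eq_mul]
        rw [Finset.sum_eq_single q]
        · simp
        · intro p _ hpq
          rw [Pi.single_eq_of_ne (Ne.symm hpq), mul_zero]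
        · intro hq
          exact absurd (Finset.mem_univ q) hq
      rw [hsum]
      refine Submodule.sum_mem _ fun p _ => ?_
      by_cases hp : p.1.1 ≤ i
      · exact Submodule.smul_mem _ _ (Submodule.subset_span ⟨⟨p, hp⟩, rfl⟩)
      · rw [hv' p (not_le.1 hp), zero_smul]
        exact Submodule.zero_mem _
    · rw [Submodule.span_le]
      rintro _ ⟨⟨p, hp⟩, rfl⟩
      obtain ⟨⟨j, k⟩, hjk⟩ := p
      apply Submodule.subset_span
      refine ⟨j, hp, k, ?_⟩
      rw [NA_pow_lt a c j k hjk]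
      rfl
  rw [hC, finrank_span_eq_card hb, Fintype.card_congr (cardEquiv79 a i), Fintype.card_sigma]
  simp only [Fintype.card_fin]
  rw [Finset.sum_range]

end Pool.Agent.Helper438.Sc
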