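import Pool.Agent.Helper438.Sc.Defs
import Pool.Agent.Helper438.Sc.P_NA_pow_lt

/-! Singular cohomology, the Borel construction of the stack of torsion sheaves on the projective
line, and all the auxiliary spaces used in the computation. -/

namespace Pool.Agent.Helper438.Sc

universe u v w



theorem cyc_nf_ge (a : ℕ →₀ ℕ) (c : Cd a) (i : ℕ) :
    ∑ j ∈ Finset.range (i + 1), a j ≤ Module.finrank ℂ (Cyc (NA a c) (NS a c) i) := by
  classical
  let f : (Σ j : Fin (i + 1), Fin (a (j : ℕ))) → Ix a := fun s => ⟨((s.1 : ℕ), (s.2 : ℕ)), s.2.2⟩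
  have hf : Function.Injective f := by
    rintro ⟨j, k⟩ ⟨j', k'⟩ h
    have h1 : ((j : ℕ), (k : ℕ)) = ((j' : ℕ), (k' : ℕ)) := congrArg Subtype.val h
    have h2 : (j : ℕ) = (j' : ℕ) := congrArg Prod.fst h1
    have h3 : (k : ℕ) = (k' : ℕ) := congrArg Prod.snd h1
    have h4 : j = j' := Fin.ext h2
    subst h4
    have h5 : k = k' := Fin.ext h3
    subst h5
    rfl
  have hmem : ∀ s, (Pi.single (f s) 1 : Ix a → ℂ) ∈ Cyc (NA a c) (NS a c) i := by
    intro s
    apply Submodule.subset_span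
    refine ⟨(s.1 : ℕ), Nat.lt_succ_iff.1 s.1.2, (s.2 : ℕ), ?_⟩
    exact (NA_pow_lt a c (s.1 : ℕ) (s.2 : ℕ) s.2.2).symm
  let v : (Σ j : Fin (i + 1), Fin (a (j : ℕ))) → Cyc (NA a c) (NS a c) i :=
    fun s => ⟨Pi.single (f s) 1, hmem s⟩
  have hli : LinearIndependent ℂ v := by
    apply LinearIndependent.of_comp (Cyc (NA a c) (NS a c) i).subtype
    have h1 := (Pi.basisFun ℂ (Ix a)).linearIndependent.comp f hf
    have h2 : (Cyc (NA a c) (NS a c) i).subtype ∘ v = (Pi.basisFun ℂ (Ix a)) ∘ f := by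
      funext s
      simp [v]
    rw [h2]
    exact h1
  have h1 := hli.fintype_card_le_finrank
  rw [Fintype.card_sigma] at h1
  simp only [Fintype.card_fin] at h1
  rwa [Fin.sum_univ_eq_sum_range (fun j => a j) (i + 1)] at h1

end Pool.Agent.Helper438.Sc
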