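import Pool.Agent.Helper438.Sc.Defs

/-! Singular cohomology, the Borel construction of the stack of torsion sheaves on the projective
line, and all the auxiliary spaces used in the computation. -/

namespace Pool.Agent.Helper438.Sc

universe u v w



theorem req_inv {ι κ : Type} [Fintype ι] [DecidableEq ι] [Fintype κ] [DecidableEq κ]
    (A B : Matrix ι ι ℂ) (s : ℕ → ι → ℂ) (A' B' : Matrix κ κ ℂ) (s' : ℕ → κ → ℂ)
    (H : REq A B s A' B' s') (t : ℂ) (ht : (A + t • B).det ≠ 0) (i N : ℕ) :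
    (A' + t • B').det ≠ 0 ∧
    Module.finrank ℂ (Cyc (Ut A B t) s i) = Module.finrank ℂ (Cyc (Ut A' B' t) s' i) ∧
    Module.finrank ℂ ((Cyc (Ut A B t) s i).map (Matrix.toLin' ((Ut A B t) ^ N))) =
      Module.finrank ℂ ((Cyc (Ut A' B' t) s' i).map (Matrix.toLin' ((Ut A' B' t) ^ N))) := by
  obtain ⟨g, h, g', h', h1, h2, h3, h4, h5, h6, h7⟩ := H
  set M := A + t • B with hM
  set M' := A' + t • B' with hM'
  have hMh : M' * h = g * M := by
    rw [hM, hM', Matrix.add_mul, Matrix.smul_mul, h5, h6, Matrix.mul_add, Matrix.mul_smul]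
  have hMu : IsUnit M.det := isUnit_iff_ne_zero.2 ht
  have hR : M' * (h * M⁻¹ * g') = 1 := by
    calc M' * (h * M⁻¹ * g') = (M' * h) * M⁻¹ * g' := by simp only [Matrix.mul_assoc]
      _ = g * (M * M⁻¹) * g' := by rw [hMh]; simp only [Matrix.mul_assoc]
      _ = 1 := by rw [Matrix.mul_nonsing_inv _ hMu, Matrix.mul_one, h1]
  have hdet : M'.det ≠ 0 := by
    intro h0
    have := congrArg Matrix.det hR
    rw [Matrix.det_mul, h0, zero_mul, Matrix.det_one] at this
    exact zero_ne_one this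
  have hinv : M'⁻¹ = h * M⁻¹ * g' := Matrix.inv_eq_right_inv hR
  have hU : Ut A' B' t * h = h * Ut A B t := by
    show M'⁻¹ * B' * h = h * (M⁻¹ * B)
    calc M'⁻¹ * B' * h = M'⁻¹ * (B' * h) := Matrix.mul_assoc _ _ _
      _ = h * M⁻¹ * (g' * g) * B := by rw [hinv, h6]; simp only [Matrix.mul_assoc]
      _ = h * (M⁻¹ * B) := by rw [h2, Matrix.mul_one, Matrix.mul_assoc]
  have hUk : ∀ k : ℕ, (Ut A' B' t) ^ k * h = h * (Ut A B t) ^ k := by
    intro k
    induction k with
    | zero => rw [pow_zero, pow_zero, Matrix.one_mul, Matrix.mul_one]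
    | succ k ih =>
      rw [pow_succ, pow_succ, Matrix.mul_assoc, hU, ← Matrix.mul_assoc, ih, Matrix.mul_assoc]
  have hinj : Function.Injective (Matrix.toLin' h) := by
    intro x y hxy
    have : (Matrix.toLin' h') (Matrix.toLin' h x) = (Matrix.toLin' h') (Matrix.toLin' h y) := by
      rw [hxy]
    rw [← Matrix.toLin'_mul_apply, ← Matrix.toLin'_mul_apply, h4, Matrix.toLin'_one] at this
    exact this
  have hfin : ∀ W : Submodule ℂ (ι → ℂ),
      Module.finrank ℂ (W.map (Matrix.toLin' h)) = Module.finrank ℂ W := fun W =>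
    (Submodule.equivMapOfInjective (Matrix.toLin' h) hinj W).finrank_eq.symm
  have hCyc : Cyc (Ut A' B' t) s' i = (Cyc (Ut A B t) s i).map (Matrix.toLin' h) := by
    unfold Cyc
    rw [Submodule.map_span]
    congr 1
    ext v
    constructor
    · rintro ⟨j, hj, k, rfl⟩
      refine ⟨(Ut A B t ^ k).mulVec (s j), ⟨j, hj, k, rfl⟩, ?_⟩
      rw [Matrix.toLin'_apply, Matrix.mulVec_mulVec, h7, Matrix.mulVec_mulVec, hUk]
    · rintro ⟨_, ⟨j, hj, k, rfl⟩, rfl⟩
      refine ⟨j, hj, k, ?_⟩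
      rw [Matrix.toLin'_apply, Matrix.mulVec_mulVec, h7, Matrix.mulVec_mulVec, hUk]
  refine ⟨hdet, ?_, ?_⟩
  · rw [hCyc, hfin]
  · have : (Cyc (Ut A' B' t) s' i).map (Matrix.toLin' ((Ut A' B' t) ^ N)) =
        ((Cyc (Ut A B t) s i).map (Matrix.toLin' ((Ut A B t) ^ N))).map (Matrix.toLin' h) := by
      rw [hCyc, ← Submodule.map_comp, ← Submodule.map_comp, ← Matrix.toLin'_mul,
        ← Matrix.toLin'_mul, hUk]
    rw [this, hfin]

end Pool.Agent.Helper438.Sc
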