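import Pool.Agent.Helper438.Sc.Defs
import Pool.Agent.Helper438.Sc.P_nilp_diag
import Pool.Agent.Helper438.Sc.P_diag_nilp
import Pool.Agent.Helper438.Sc.P_cyc_nf_ge
import Pool.Agent.Helper438.Sc.P_cyc_nf_eq
import Pool.Agent.Helper438.Sc.P_cyc_nf_conv
import Pool.Agent.Helper438.Sc.P_scell_sub
import Pool.Agent.Helper438.Sc.P_ch_exists_t
import Pool.Agent.Helper438.Sc.P_ch_cyc
import Pool.Agent.Helper438.Sc.P_ch_cyc_pow
import Pool.Agent.Helper438.Sc.P_req_inv
import Pool.Agent.Helper438.Sc.P_card_Ix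
import Pool.Agent.Helper438.Sc.P_comb_le

/-! Singular cohomology, the Borel construction of the stack of torsion sheaves on the projective
line, and all the auxiliary spaces used in the computation. -/

namespace Pool.Agent.Helper438.Sc

universe u v w



private lemma sum_large (a : ℕ →₀ ℕ) (I : ℕ) (h : a.support ⊆ Finset.range (I + 1)) :
    ∑ j ∈ Finset.range (I + 1), a j = a.sum fun _ x => x := by
  rw [Finsupp.sum]
  symm
  apply Finset.sum_subset h
  intro x _ hx
  simpa using hx

private lemma eq_of_sums (a a' : ℕ →₀ ℕ)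
    (h : ∀ i, ∑ j ∈ Finset.range (i + 1), a j = ∑ j ∈ Finset.range (i + 1), a' j) : a = a' := by
  ext i
  cases i with
  | zero => simpa using h 0
  | succ k =>
    have h1 := h k
    have h2 := h (k + 1)
    rw [Finset.sum_range_succ, Finset.sum_range_succ (fun j => a' j), h1] at h2
    omega

theorem types (a b a' b' : ℕ →₀ ℕ) (c : Cd a × Cd b) (hc : c ∈ Wc a b) (c' : Cd a' × Cd b')
    (hc' : c' ∈ Scell a' b') (h : REq (chA c) (chB c) (chS c) (chA c') (chB c') (chS c')) :
    (c ∈ Scell a b ∧ a = a' ∧ b = b') ∨ cdim a' b' < cdim a b := by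
  obtain ⟨t, ht⟩ := ch_exists_t a b c
  have hcW : c' ∈ Wc a' b' := scell_sub a' b' hc'
  have ht' : (chA c' + t • chB c').det ≠ 0 := (req_inv _ _ _ _ _ _ h t ht 0 0).1
  obtain ⟨N, hN⟩ := diag_nilp b' c'.2 hc'.2
  -- primed part
  have hx' : ∀ i, Module.finrank ℂ (Cyc (NA a' c'.1) (NS a' c'.1) i) =
      ∑ j ∈ Finset.range (i + 1), a' j := fun i => cyc_nf_eq a' c'.1 hc'.1 i
  have hy' : ∀ i, Module.finrank ℂ (Cyc (NA b' c'.2) (NS b' c'.2) i) =
      ∑ j ∈ Finset.range (i + 1), b' j := fun i =>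
    cyc_nf_eq b' c'.2 (fun j p hp => hc'.2 j p hp.le) i
  have hxy : ∀ i, Module.finrank ℂ (Cyc (NA a c.1) (NS a c.1) i) +
      Module.finrank ℂ (Cyc (NA b c.2) (NS b c.2) i) =
      ∑ j ∈ Finset.range (i + 1), a' j + ∑ j ∈ Finset.range (i + 1), b' j := by
    intro i
    rw [← ch_cyc a b c hc t ht i, (req_inv _ _ _ _ _ _ h t ht i 0).2.1,
      ch_cyc a' b' c' hcW t ht' i, hx', hy']
  have hpow : ∀ i, Module.finrank ℂ (Cyc (NA a c.1) (NS a c.1) i) +
      Module.finrank ℂ ((Cyc (NA b c.2) (NS b c.2) i).map (Matrix.toLin' ((NA b c.2) ^ N))) =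
      ∑ j ∈ Finset.range (i + 1), a' j := by
    intro i
    rw [← ch_cyc_pow a b c hc t ht i N, (req_inv _ _ _ _ _ _ h t ht i N).2.2,
      ch_cyc_pow a' b' c' hcW t ht' i N, hx', hN]
    simp
  have hxge := cyc_nf_ge a c.1
  have hyge := cyc_nf_ge b c.2
  have hxle : ∀ i, Module.finrank ℂ (Cyc (NA a c.1) (NS a c.1) i) ≤ a.sum fun _ x => x := by
    intro i
    rw [← card_Ix a, ← Module.finrank_fintype_fun_eq_card ℂ]
    exact Submodule.finrank_le _
  have hyle : ∀ i, Module.finrank ℂ (Cyc (NA b c.2) (NS b c.2) i) ≤ b.sum fun _ x => x := by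
    intro i
    rw [← card_Ix b, ← Module.finrank_fintype_fun_eq_card ℂ]
    exact Submodule.finrank_le _
  set I : ℕ := (a.support ∪ b.support ∪ a'.support ∪ b'.support).sup id with hI
  have hsub : ∀ j ∈ a.support ∪ b.support ∪ a'.support ∪ b'.support, j ∈ Finset.range (I + 1) := by
    intro j hj
    have : id j ≤ I := Finset.le_sup (f := id) hj
    simp only [id] at this
    exact Finset.mem_range.2 (by omega)
  have sa := sum_large a I (fun j hj => hsub j (by simp only [Finset.mem_union]; tauto))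
  have sb := sum_large b I (fun j hj => hsub j (by simp only [Finset.mem_union]; tauto))
  have sa' := sum_large a' I (fun j hj => hsub j (by simp only [Finset.mem_union]; tauto))
  have sb' := sum_large b' I (fun j hj => hsub j (by simp only [Finset.mem_union]; tauto))
  have e1 := hxge I
  have e2 := hyge I
  have e3 := hxle I
  have e4 := hyle I
  have e5 := hxy I
  have e6 := hpow I
  rw [sa] at e1
  rw [sb] at e2
  rw [sa', sb'] at e5
  rw [sa'] at e6
  have hn : ((a.sum fun _ x => x) + b.sum fun _ x => x) =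
      (a'.sum fun _ x => x) + b'.sum fun _ x => x := by omega
  have hb : (b'.sum fun _ x => x) ≤ b.sum fun _ x => x := by omega
  have hl : ∀ i, ∑ j ∈ Finset.range (i + 1), (a j + b j) ≤
      ∑ j ∈ Finset.range (i + 1), (a' j + b' j) := by
    intro i
    rw [Finset.sum_add_distrib, Finset.sum_add_distrib]
    have f1 := hxge i
    have f2 := hyge i
    have f3 := hxy i
    omega
  rcases comb_le a b a' b' hn hb hl with hlt | ⟨hbb, heq⟩
  · exact Or.inr hlt
  left
  have hXY : ∀ i, Module.finrank ℂ (Cyc (NA a c.1) (NS a c.1) i) =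
      ∑ j ∈ Finset.range (i + 1), a j ∧ Module.finrank ℂ (Cyc (NA b c.2) (NS b c.2) i) =
      ∑ j ∈ Finset.range (i + 1), b j := by
    intro i
    have f1 := hxge i
    have f2 := hyge i
    have f3 := hxy i
    have f4 := heq i
    rw [Finset.sum_add_distrib, Finset.sum_add_distrib] at f4
    omega
  have c1 := cyc_nf_conv a c.1 (fun i => (hXY i).1)
  have c2 := cyc_nf_conv b c.2 (fun i => (hXY i).2)
  have htop : Cyc (NA b c.2) (NS b c.2) I = ⊤ := by
    apply Submodule.eq_top_of_finrank_eq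
    rw [Module.finrank_fintype_fun_eq_card, card_Ix]
    omega
  have hr : Module.finrank ℂ ((Cyc (NA b c.2) (NS b c.2) I).map
      (Matrix.toLin' ((NA b c.2) ^ N))) = 0 := by omega
  rw [htop, Submodule.finrank_eq_zero, Submodule.map_top, LinearMap.range_eq_bot] at hr
  have hz : (NA b c.2) ^ N = 0 := by
    have := (LinearEquiv.map_eq_zero_iff (Matrix.toLin' (R := ℂ) (m := Ix b) (n := Ix b))).1 hr
    exact this
  have c3 := nilp_diag b c.2 c2 ⟨N, hz⟩
  have hAA : ∀ i, ∑ j ∈ Finset.range (i + 1), a j = ∑ j ∈ Finset.range (i + 1), a' j := by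
    intro i
    have f1 := hpow i
    rw [hz] at f1
    have hz0 : (Matrix.toLin' (0 : Matrix (Ix b) (Ix b) ℂ)) = 0 := map_zero _
    rw [hz0, Submodule.map_zero, finrank_bot, add_zero] at f1
    rw [← f1, (hXY i).1]
  have hBB : ∀ i, ∑ j ∈ Finset.range (i + 1), b j = ∑ j ∈ Finset.range (i + 1), b' j := by
    intro i
    have f4 := heq i
    rw [Finset.sum_add_distrib, Finset.sum_add_distrib, hAA i] at f4
    omega
  exact ⟨⟨c1, c3⟩, eq_of_sums a a' hAA, eq_of_sums b b' hBB⟩

end Pool.Agent.Helper438.Sc
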