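import Pool.Agent.Helper438.Sc.Defs
import Pool.Agent.Helper438.Sc.P_scell_sub
import Pool.Agent.Helper438.Sc.P_card_Ix
import Pool.Agent.Helper438.Sc.P_types
import Pool.Agent.Helper438.Sc.P_cells_cover
import Pool.Agent.Helper438.Sc.P_finite_types
import Pool.Agent.Helper438.Sc.P_RV_homeo
import Pool.Agent.Helper438.Sc.P_RV_Wc
import Pool.Agent.Helper438.Sc.P_RV_Wc_diff
import Pool.Agent.Helper438.Sc.P_chart_map
import Pool.Agent.Helper438.Sc.P_RV_cells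

/-! Singular cohomology, the Borel construction of the stack of torsion sheaves on the projective
line, and all the auxiliary spaces used in the computation. -/

namespace Pool.Agent.Helper438.Sc

universe u v w



theorem aux_REq_card {ι κ : Type} [Fintype ι] [DecidableEq ι] [Fintype κ] [DecidableEq κ]
    {A B : Matrix ι ι ℂ} {s : ℕ → ι → ℂ} {A' B' : Matrix κ κ ℂ} {s' : ℕ → κ → ℂ}
    (H : REq A B s A' B' s') : Fintype.card ι = Fintype.card κ := by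
  obtain ⟨g, h, g', h', h1, h2, -⟩ := H
  have e : (ι → ℂ) ≃ₗ[ℂ] (κ → ℂ) := LinearEquiv.ofLinear (Matrix.toLin' g) (Matrix.toLin' g')
    (by rw [← Matrix.toLin'_mul, h1, Matrix.toLin'_one])
    (by rw [← Matrix.toLin'_mul, h2, Matrix.toLin'_one])
  have := e.finrank_eq
  simpa using this

theorem RV_Qs (k : Type v) [Field k] (n q : ℕ) (hq : Even q) : RV k (Qs (Fin n)) (q + 1) := by
  let T : Type := {τ : (ℕ →₀ ℕ) × (ℕ →₀ ℕ) // (τ.1.sum fun _ x => x) + (τ.2.sum fun _ x => x) = n}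
  have hχ0 : ∀ τ : T, ∃ χ : Wc τ.1.1 τ.1.2 → Qs (Fin n), Topology.IsOpenEmbedding χ ∧
      ∀ (c : Wc τ.1.1 τ.1.2) (p : Pg (Fin n)),
        REq (chA c.1) (chB c.1) (chS c.1) p.1.1.1 p.1.1.2 p.1.2 ↔
          χ c = Quotient.mk (pgSetoid (Fin n)) p := fun τ => chart_map τ.1.1 τ.1.2 n τ.2
  choose χ hχe hχ using hχ0
  have hcov : ∀ x : Qs (Fin n), ∃ (σ : T) (c : Wc σ.1.1 σ.1.2), c.1 ∈ Scell σ.1.1 σ.1.2 ∧
      χ σ c = x := by
    intro x
    obtain ⟨p, rfl⟩ := Quotient.exists_rep x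
    obtain ⟨a, b, c, hc, hR⟩ := cells_cover p.1.1.1 p.1.1.2 p.1.2 p.2
    have hcard := aux_REq_card hR
    rw [Fintype.card_sum, card_Ix, card_Ix, Fintype.card_fin] at hcard
    let σ : T := ⟨(a, b), hcard⟩
    refine ⟨σ, ⟨c, scell_sub a b hc⟩, hc, ?_⟩
    exact (hχ σ ⟨c, scell_sub a b hc⟩ p).1 hR
  have hrel : ∀ (τ σ : T) (c : Wc τ.1.1 τ.1.2) (c' : Wc σ.1.1 σ.1.2), χ τ c = χ σ c' →
      REq (chA c.1) (chB c.1) (chS c.1) (chA c'.1) (chB c'.1) (chS c'.1) := by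
    intro τ σ c c' h
    obtain ⟨p, hp⟩ := Quotient.exists_rep (χ τ c)
    have h1 := (hχ τ c p).2 hp.symm
    have h2 := (hχ σ c' p).2 (h ▸ hp.symm)
    exact h1.trans h2.symm
  refine RV_cells k T (fun τ => cdim τ.1.1 τ.1.2) ?_ (fun τ => Set.range (χ τ))
    (fun τ => χ τ '' {c | c.1 ∈ Scell τ.1.1 τ.1.2}) ?_ ?_ ?_ ?_ ?_ q ?_ ?_
  · intro m
    refine ((finite_types n m).preimage (Subtype.val_injective.injOn (s := Set.univ)
      |>.mono (Set.subset_univ _))).subset ?_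
    intro τ hτ
    exact ⟨τ.2, hτ⟩
  · intro τ
    exact (hχe τ).isOpen_range
  · intro τ
    exact Set.image_subset_range _ _
  · intro x
    obtain ⟨σ, c, hc, hx⟩ := hcov x
    exact ⟨σ, c, hc, hx⟩
  · intro τ σ hne
    rw [Set.disjoint_left]
    rintro x ⟨c, hc, rfl⟩ ⟨c', hc', h⟩
    have h1 := hrel τ σ c c' h.symm
    have h2 := hrel σ τ c' c h
    rcases types _ _ _ _ c.1 c.2 c'.1 hc' h1 with ⟨-, ha, hb⟩ | hlt
    · exact hne (Subtype.ext (Prod.ext ha hb))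
    · rcases types _ _ _ _ c'.1 c'.2 c.1 hc h2 with ⟨-, ha, hb⟩ | hlt'
      · exact hne (Subtype.ext (Prod.ext ha.symm hb.symm))
      · omega
  · rintro τ x ⟨c, rfl⟩ hx
    obtain ⟨σ, c', hc', h⟩ := hcov (χ τ c)
    refine ⟨σ, ?_, c', hc', h⟩
    rcases types _ _ _ _ c.1 c.2 c'.1 hc' (hrel τ σ c c' h.symm) with ⟨h1, -, -⟩ | hlt
    · exact absurd ⟨c, h1, rfl⟩ hx
    · exact hlt
  · intro τ
    exact RV_homeo k (hχe τ).isEmbedding.toHomeomorph.symm (q + 1) (RV_Wc k _ _ _)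
  · intro τ hd
    let inc : (Wc τ.1.1 τ.1.2 \ Scell τ.1.1 τ.1.2 : Set (Cd τ.1.1 × Cd τ.1.2)) → Wc τ.1.1 τ.1.2 :=
      Set.inclusion Set.diff_subset
    have hinc : Topology.IsEmbedding inc := Topology.IsEmbedding.inclusion _
    have hψ : Topology.IsEmbedding (χ τ ∘ inc) := (hχe τ).isEmbedding.comp hinc
    have hrange : Set.range (χ τ ∘ inc) =
        Set.range (χ τ) \ (χ τ '' {c | c.1 ∈ Scell τ.1.1 τ.1.2}) := by
      ext x
      constructor
      · rintro ⟨c, rfl⟩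
        refine ⟨⟨_, rfl⟩, ?_⟩
        rintro ⟨c', hc', h⟩
        have := (hχe τ).injective h
        subst this
        exact c.2.2 hc'
      · rintro ⟨⟨c, rfl⟩, h⟩
        exact ⟨⟨c.1, c.2, fun hc => h ⟨c, hc, rfl⟩⟩, rfl⟩
    exact RV_homeo k ((Homeomorph.setCongr hrange).symm.trans hψ.toHomeomorph.symm) q
      (RV_Wc_diff k _ _ hd q hq)

end Pool.Agent.Helper438.Sc
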