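import Pool.Agent.Helper438.Sc.Defs
import Pool.Agent.Helper438.Sc.P_RV_homeo
import Pool.Agent.Helper438.Sc.P_RV_glue
import Pool.Agent.Helper438.Sc.P_RV_iUnion

/-! Singular cohomology, the Borel construction of the stack of torsion sheaves on the projective
line, and all the auxiliary spaces used in the computation. -/

namespace Pool.Agent.Helper438.Sc

universe u v w



theorem zRV_empty (k : Type v) [CommRing k] {X : Type u} [TopologicalSpace X] [IsEmpty X]
    (q : ℕ) : RV k X q := by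
  have hs : ∀ n : ℕ, IsEmpty (Sing X n) := fun n =>
    ⟨fun σ => IsEmpty.false (σ (stdSimplex.vertex 0))⟩
  cases q with
  | zero =>
    intro c _
    exact ⟨0, fun σ => (hs 0).elim σ⟩
  | succ n =>
    intro c _
    exact ⟨0, funext fun σ => (hs (n + 1)).elim σ⟩

theorem zRV_congr (k : Type v) [CommRing k] {X : Type u} [TopologicalSpace X] {A B : Set X}
    (h : A = B) {q : ℕ} (hA : RV k A q) : RV k B q := by
  subst h; exact hA

theorem RV_cells {X : Type} [TopologicalSpace X] (k : Type v) [Field k] (T : Type)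
    (d : T → ℕ) (hfin : ∀ m, {τ | d τ ≤ m}.Finite) (W S : T → Set X)
    (hW : ∀ τ, IsOpen (W τ)) (hSW : ∀ τ, S τ ⊆ W τ)
    (hcov : ∀ x, ∃ τ, x ∈ S τ) (hdisj : ∀ τ σ, τ ≠ σ → Disjoint (S τ) (S σ))
    (hlow : ∀ τ, ∀ x ∈ W τ, x ∉ S τ → ∃ σ, d σ < d τ ∧ x ∈ S σ) (q : ℕ)
    (h1 : ∀ τ, RV k (W τ) (q + 1)) (h2 : ∀ τ, 0 < d τ → RV k (W τ \ S τ : Set X) q) :
    RV k X (q + 1) := by
  classical
  set U : ℕ → Set X := fun m => {x | ∃ τ, d τ < m ∧ x ∈ W τ} with hU
  have hUS : ∀ m x, x ∈ U m ↔ ∃ τ, d τ < m ∧ x ∈ S τ := by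
    intro m x
    constructor
    · rintro ⟨τ, hτ, hx⟩
      by_cases h : x ∈ S τ
      · exact ⟨τ, hτ, h⟩
      · obtain ⟨σ, hσ, hx'⟩ := hlow τ x hx h
        exact ⟨σ, hσ.trans hτ, hx'⟩
    · rintro ⟨τ, hτ, hx⟩
      exact ⟨τ, hτ, hSW τ hx⟩
  have hUo : ∀ m, IsOpen (U m) := by
    intro m
    have : U m = ⋃ τ ∈ {τ | d τ < m}, W τ := by
      ext x; simp [hU]
    rw [this]
    exact isOpen_biUnion fun τ _ => hW τ
  have hstep : ∀ (m : ℕ), RV k (U m) (q + 1) → ∀ F : Finset T, (∀ τ ∈ F, d τ = m) →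
      RV k (U m ∪ ⋃ τ ∈ F, W τ : Set X) (q + 1) := by
    intro m hm F
    induction F using Finset.induction_on with
    | empty =>
      intro _
      refine zRV_congr k ?_ hm
      simp
    | insert τ0 F hτ0 ih =>
      intro hF
      have hF' : ∀ τ ∈ F, d τ = m := fun τ hτ => hF τ (Finset.mem_insert_of_mem hτ)
      have hd0 : d τ0 = m := hF τ0 (Finset.mem_insert_self _ _)
      have ih' := ih hF'
      have hint : ((U m ∪ ⋃ τ ∈ F, W τ) ∩ W τ0 : Set X) = W τ0 \ S τ0 := by
        ext x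
        constructor
        · rintro ⟨hx, hx0⟩
          refine ⟨hx0, fun hxS => ?_⟩
          have hno : ∀ σ, σ ≠ τ0 → x ∉ S σ := fun σ hσ hxσ =>
            Set.disjoint_left.1 (hdisj σ τ0 hσ) hxσ hxS
          rcases hx with hx | hx
          · obtain ⟨σ, hσ, hxσ⟩ := (hUS m x).1 hx
            exact hno σ (by rintro rfl; omega) hxσ
          · simp only [Set.mem_iUnion] at hx
            obtain ⟨τ, hτ, hxτ⟩ := hx
            by_cases h : x ∈ S τ
            · exact hno τ (by rintro rfl; exact hτ0 hτ) h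
            · obtain ⟨σ, hσ, hxσ⟩ := hlow τ x hxτ h
              have := hF' τ hτ
              exact hno σ (by rintro rfl; omega) hxσ
        · rintro ⟨hx, hxS⟩
          obtain ⟨σ, hσ, hxσ⟩ := hlow τ0 x hx hxS
          exact ⟨Or.inl ((hUS m x).2 ⟨σ, by omega, hxσ⟩), hx⟩
      have hRV : RV k (W τ0 \ S τ0 : Set X) q := by
        rcases Nat.eq_zero_or_pos (d τ0) with h | h
        · haveI : IsEmpty (W τ0 \ S τ0 : Set X) := by
            refine ⟨fun x => ?_⟩
            obtain ⟨σ, hσ, -⟩ := hlow τ0 x.1 x.2.1 x.2.2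
            omega
          exact zRV_empty k q
        · exact h2 τ0 h
      have hg := RV_glue k (U m ∪ ⋃ τ ∈ F, W τ) (W τ0)
        ((hUo m).union (isOpen_biUnion fun τ _ => hW τ)) (hW τ0) q ih' (h1 τ0)
        (zRV_congr k hint.symm hRV)
      refine zRV_congr k ?_ hg
      ext x
      simp only [Set.mem_union, Set.mem_iUnion, Finset.mem_insert, exists_prop, exists_eq_or_imp]
      rw [or_assoc]
      exact or_congr_right or_comm
  have hUm : ∀ m, RV k (U m) (q + 1) := by
    intro m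
    induction m with
    | zero =>
      haveI : IsEmpty (U 0) := by
        refine ⟨fun x => ?_⟩
        obtain ⟨τ, hτ, -⟩ := x.2
        exact absurd hτ (Nat.not_lt_zero _)
      exact zRV_empty k (q + 1)
    | succ m ih =>
      have hfm : {τ | d τ = m}.Finite := (hfin m).subset fun τ hτ => le_of_eq hτ
      refine zRV_congr k ?_ (hstep m ih hfm.toFinset fun τ hτ => by
        rw [Set.Finite.mem_toFinset] at hτ; exact hτ)
      ext x
      constructor
      · rintro (⟨τ, hτ, hx⟩ | hx)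
        · exact ⟨τ, by omega, hx⟩
        · simp only [Set.mem_iUnion] at hx
          obtain ⟨τ, hτ, hx⟩ := hx
          rw [Set.Finite.mem_toFinset] at hτ
          have hτ' : d τ = m := hτ
          exact ⟨τ, by omega, hx⟩
      · rintro ⟨τ, hτ, hx⟩
        rcases Nat.lt_or_eq_of_le (Nat.lt_succ_iff.1 hτ) with h | h
        · exact Or.inl ⟨τ, h, hx⟩
        · refine Or.inr ?_
          simp only [Set.mem_iUnion]
          exact ⟨τ, by rw [Set.Finite.mem_toFinset]; exact h, hx⟩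
  refine RV_iUnion k U hUo ?_ ?_ q hUm
  · intro m n hmn x hx
    obtain ⟨τ, hτ, hx⟩ := hx
    exact ⟨τ, lt_of_lt_of_le hτ hmn, hx⟩
  · intro x
    obtain ⟨τ, hτ⟩ := hcov x
    exact ⟨d τ + 1, τ, Nat.lt_succ_self _, hSW τ hτ⟩

end Pool.Agent.Helper438.Sc
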