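import Pool.Agent.Helper438.Sc.Defs

/-! Singular cohomology, the Borel construction of the stack of torsion sheaves on the projective
line, and all the auxiliary spaces used in the computation. -/

namespace Pool.Agent.Helper438.Sc

universe u v w



theorem act_free_aux (ι : Type) [Fintype ι] [DecidableEq ι] (g : GLi ι) (s : Frame ι)
    (H : ∀ i, s.1 i = (g : Matrix ι ι ℂ).mulVec (s.1 i)) : g = 1 := by
  have h1 : (Matrix.toLin' (g : Matrix ι ι ℂ)) = LinearMap.id := by
    apply LinearMap.ext_on_range (v := s.1) s.2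
    intro i
    rw [Matrix.toLin'_apply, ← H i, LinearMap.id_apply]
  have h2 : (g : Matrix ι ι ℂ) = 1 := by
    apply Matrix.toLin'.injective
    rw [h1, Matrix.toLin'_one]
  exact Units.ext h2

theorem act_free (ι : Type) [Fintype ι] [DecidableEq ι] (g h : GLi ι) (p : Tot ι)
    (H : ActRel g h p p) : g = 1 ∧ h = 1 := by
  
  obtain ⟨-, -, h3, h4⟩ := H
  exact ⟨act_free_aux ι g p.2.2 h4, act_free_aux ι h p.2.1 h3⟩

end Pool.Agent.Helper438.Sc
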