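import Pool.Agent.Helper438.Sc.Defs

/-! Singular cohomology, the Borel construction of the stack of torsion sheaves on the projective
line, and all the auxiliary spaces used in the computation. -/

namespace Pool.Agent.Helper438.Sc

universe u v w


section aux22438

variable {ι : Type} [Fintype ι] [DecidableEq ι]

/-- the homotopy upstairs -/
noncomputable def KK22438 (F F' G G' : Tot ι → ℕ → ι → ℂ)
    (h1 : ∀ (t : ℝ), 0 ≤ t → t ≤ 1 → ∀ p, Submodule.span ℂ (Set.range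
      (fun i => ((1 - t : ℝ) : ℂ) • F p i + (t : ℂ) • G p i)) = ⊤)
    (h2 : ∀ (t : ℝ), 0 ≤ t → t ≤ 1 → ∀ p, Submodule.span ℂ (Set.range
      (fun i => ((1 - t : ℝ) : ℂ) • F' p i + (t : ℂ) • G' p i)) = ⊤)
    (x : unitInterval × Tot ι) : Tot ι :=
  (x.2.1, (⟨fun i => ((1 - (x.1 : ℝ) : ℝ) : ℂ) • F x.2 i + ((x.1 : ℝ) : ℂ) • G x.2 i,
      h1 x.1 x.1.2.1 x.1.2.2 x.2⟩,
    ⟨fun i => ((1 - (x.1 : ℝ) : ℝ) : ℂ) • F' x.2 i + ((x.1 : ℝ) : ℂ) • G' x.2 i,
      h2 x.1 x.1.2.1 x.1.2.2 x.2⟩))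

theorem aux22438_cont (F G : Tot ι → ℕ → ι → ℂ) (hF : Continuous F) (hG : Continuous G) :
    Continuous (fun x : unitInterval × Tot ι =>
      (fun i => ((1 - (x.1 : ℝ) : ℝ) : ℂ) • F x.2 i + ((x.1 : ℝ) : ℂ) • G x.2 i :
        ℕ → ι → ℂ)) := by
  have h1 : Continuous (fun x : unitInterval × Tot ι => ((1 - (x.1 : ℝ) : ℝ) : ℂ)) :=
    Complex.continuous_ofReal.comp
      (continuous_const.sub (continuous_subtype_val.comp continuous_fst))
  have h2 : Continuous (fun x : unitInterval × Tot ι => ((x.1 : ℝ) : ℂ)) :=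
    Complex.continuous_ofReal.comp (continuous_subtype_val.comp continuous_fst)
  apply continuous_pi
  intro i
  exact (h1.smul ((continuous_apply i).comp (hF.comp continuous_snd))).add
    (h2.smul ((continuous_apply i).comp (hG.comp continuous_snd)))

theorem KK22438_cont (F F' G G' : Tot ι → ℕ → ι → ℂ)
    (hF : Continuous F) (hF' : Continuous F') (hG : Continuous G) (hG' : Continuous G')
    (h1 : ∀ (t : ℝ), 0 ≤ t → t ≤ 1 → ∀ p, Submodule.span ℂ (Set.range
      (fun i => ((1 - t : ℝ) : ℂ) • F p i + (t : ℂ) • G p i)) = ⊤)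
    (h2 : ∀ (t : ℝ), 0 ≤ t → t ≤ 1 → ∀ p, Submodule.span ℂ (Set.range
      (fun i => ((1 - t : ℝ) : ℂ) • F' p i + (t : ℂ) • G' p i)) = ⊤) :
    Continuous (KK22438 F F' G G' h1 h2) := by
  unfold KK22438
  refine (continuous_fst.comp continuous_snd).prodMk (Continuous.prodMk ?_ ?_)
  · exact Continuous.subtype_mk (aux22438_cont F G hF hG) _
  · exact Continuous.subtype_mk (aux22438_cont F' G' hF' hG') _

theorem aux22438_eq (h : Matrix ι ι ℂ) (a b : ℂ) (u v u' v' : ι → ℂ)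
    (hu : u' = h.mulVec u) (hv : v' = h.mulVec v) :
    a • u' + b • v' = h.mulVec (a • u + b • v) := by
  rw [hu, hv, Matrix.mulVec_add, Matrix.mulVec_smul, Matrix.mulVec_smul]

end aux22438

theorem borel_homotopic {ι : Type} [Fintype ι] [DecidableEq ι] (F F' G G' : Tot ι → ℕ → ι → ℂ)
    (hF : Continuous F) (hF' : Continuous F') (hG : Continuous G) (hG' : Continuous G')
    (h1 : ∀ (t : ℝ), 0 ≤ t → t ≤ 1 → ∀ p, Submodule.span ℂ (Set.range
      (fun i => ((1 - t : ℝ) : ℂ) • F p i + (t : ℂ) • G p i)) = ⊤)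
    (h2 : ∀ (t : ℝ), 0 ≤ t → t ≤ 1 → ∀ p, Submodule.span ℂ (Set.range
      (fun i => ((1 - t : ℝ) : ℂ) • F' p i + (t : ℂ) • G' p i)) = ⊤)
    (he : ∀ (p q : Tot ι) (g h : GLi ι), ActRel g h p q →
      (∀ i, F q i = (h : Matrix ι ι ℂ).mulVec (F p i)) ∧
      (∀ i, F' q i = (g : Matrix ι ι ℂ).mulVec (F' p i)))
    (he' : ∀ (p q : Tot ι) (g h : GLi ι), ActRel g h p q →
      (∀ i, G q i = (h : Matrix ι ι ℂ).mulVec (G p i)) ∧
      (∀ i, G' q i = (g : Matrix ι ι ℂ).mulVec (G' p i)))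
    (φ ψ : C(Borel ι, Borel ι))
    (hφ : ∀ p r : Tot ι, r.1 = p.1 → r.2.1.1 = F p → r.2.2.1 = F' p →
      φ (Quotient.mk (orbitSetoid ι) p) = Quotient.mk (orbitSetoid ι) r)
    (hψ : ∀ p r : Tot ι, r.1 = p.1 → r.2.1.1 = G p → r.2.2.1 = G' p →
      ψ (Quotient.mk (orbitSetoid ι) p) = Quotient.mk (orbitSetoid ι) r) :
    φ.Homotopic ψ := by
  have hcompat : ∀ (t : unitInterval) (p q : Tot ι), (orbitSetoid ι).r p q →
      Quotient.mk (orbitSetoid ι) (KK22438 F F' G G' h1 h2 (t, p)) =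
        Quotient.mk (orbitSetoid ι) (KK22438 F F' G G' h1 h2 (t, q)) := by
    rintro t p q ⟨g, h, hgh⟩
    apply Quotient.sound
    refine ⟨g, h, hgh.1, hgh.2.1, ?_, ?_⟩
    · intro i
      exact aux22438_eq _ _ _ _ _ _ _ ((he p q g h hgh).1 i) ((he' p q g h hgh).1 i)
    · intro i
      exact aux22438_eq _ _ _ _ _ _ _ ((he p q g h hgh).2 i) ((he' p q g h hgh).2 i)
  let H : unitInterval × Borel ι → Borel ι := fun x =>
    Quotient.lift (fun p => (Quotient.mk (orbitSetoid ι) (KK22438 F F' G G' h1 h2 (x.1, p)) :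
      Borel ι)) (hcompat x.1) x.2
  have hq : Topology.IsQuotientMap (Quotient.mk (orbitSetoid ι) : Tot ι → Borel ι) :=
    isQuotientMap_quot_mk
  have hH : Continuous H := by
    refine hq.continuous_lift_prod_right (g := H) ?_
    show Continuous (fun x : unitInterval × Tot ι =>
      (Quotient.mk (orbitSetoid ι) (KK22438 F F' G G' h1 h2 x) : Borel ι))
    exact hq.continuous.comp (KK22438_cont F F' G G' hF hF' hG hG' h1 h2)
  refine ⟨⟨⟨H, hH⟩, ?_, ?_⟩⟩
  · intro x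
    induction x using Quotient.inductionOn with
    | h p =>
      refine (hφ p (KK22438 F F' G G' h1 h2 (0, p)) rfl ?_ ?_).symm
      · funext i
        show ((1 - (0 : ℝ) : ℝ) : ℂ) • F p i + ((0 : ℝ) : ℂ) • G p i = F p i
        rw [sub_zero, Complex.ofReal_one, Complex.ofReal_zero, one_smul, zero_smul, add_zero]
      · funext i
        show ((1 - (0 : ℝ) : ℝ) : ℂ) • F' p i + ((0 : ℝ) : ℂ) • G' p i = F' p i
        rw [sub_zero, Complex.ofReal_one, Complex.ofReal_zero, one_smul, zero_smul, add_zero]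
  · intro x
    induction x using Quotient.inductionOn with
    | h p =>
      refine (hψ p (KK22438 F F' G G' h1 h2 (1, p)) rfl ?_ ?_).symm
      · funext i
        show ((1 - (1 : ℝ) : ℝ) : ℂ) • F p i + ((1 : ℝ) : ℂ) • G p i = G p i
        rw [sub_self, Complex.ofReal_one, Complex.ofReal_zero, one_smul, zero_smul, zero_add]
      · funext i
        show ((1 - (1 : ℝ) : ℝ) : ℂ) • F' p i + ((1 : ℝ) : ℂ) • G' p i = G' p i
        rw [sub_self, Complex.ofReal_one, Complex.ofReal_zero, one_smul, zero_smul, zero_add]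

end Pool.Agent.Helper438.Sc
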