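import Pool.Agent.Helper438.Sc.Defs

/-! Singular cohomology, the Borel construction of the stack of torsion sheaves on the projective
line, and all the auxiliary spaces used in the computation. -/

namespace Pool.Agent.Helper438.Sc

universe u v w



theorem borel_map {ι : Type} [Fintype ι] [DecidableEq ι] (F F' : Tot ι → ℕ → ι → ℂ)
    (hF : Continuous F) (hF' : Continuous F')
    (h1 : ∀ p, Submodule.span ℂ (Set.range (F p)) = ⊤)
    (h2 : ∀ p, Submodule.span ℂ (Set.range (F' p)) = ⊤)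
    (he : ∀ (p q : Tot ι) (g h : GLi ι), ActRel g h p q →
      (∀ i, F q i = (h : Matrix ι ι ℂ).mulVec (F p i)) ∧
      (∀ i, F' q i = (g : Matrix ι ι ℂ).mulVec (F' p i))) :
    ∃ φ : C(Borel ι, Borel ι), ∀ p : Tot ι, φ (Quotient.mk (orbitSetoid ι) p) =
      Quotient.mk (orbitSetoid ι) (p.1, (⟨F p, h1 p⟩, ⟨F' p, h2 p⟩)) := by
  let G : Tot ι → Tot ι := fun p => (p.1, (⟨F p, h1 p⟩, ⟨F' p, h2 p⟩))
  have hG : Continuous G := by
    refine continuous_fst.prodMk (Continuous.prodMk ?_ ?_)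
    · exact Continuous.subtype_mk hF _
    · exact Continuous.subtype_mk hF' _
  have hr : ∀ p q : Tot ι, (orbitSetoid ι).r p q → (orbitSetoid ι).r (G p) (G q) := by
    rintro p q ⟨g, h, hgh⟩
    obtain ⟨k1, k2⟩ := he p q g h hgh
    exact ⟨g, h, hgh.1, hgh.2.1, k1, k2⟩
  refine ⟨⟨Quotient.map G hr, ?_⟩, fun p => rfl⟩
  exact Continuous.quotient_map' hG hr

end Pool.Agent.Helper438.Sc
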