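import Pool.Agent.Helper438.Sc.Defs

/-! Singular cohomology, the Borel construction of the stack of torsion sheaves on the projective
line, and all the auxiliary spaces used in the computation. -/

namespace Pool.Agent.Helper438.Sc

universe u v w



theorem span_add {V : Type} [AddCommGroup V] [Module ℂ V] (f g : ℕ → V)
    (hf : Submodule.span ℂ (Set.range f) = ⊤) (z : ℂ) (hz : z ≠ 0) (w : ℂ) (o : ℕ) (ho : o < 2) :
    Submodule.span ℂ (Set.range (fun i => if i % 2 = o then z • f (i / 2)
      else w • g (i / 2))) = ⊤ := by
  rw [eq_top_iff, ← hf, Submodule.span_le]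
  rintro _ ⟨j, rfl⟩
  have h1 : z • f j ∈ Submodule.span ℂ (Set.range (fun i => if i % 2 = o then z • f (i / 2)
      else w • g (i / 2))) := by
    apply Submodule.subset_span
    refine ⟨2 * j + o, ?_⟩
    have e1 : (2 * j + o) % 2 = o := by omega
    have e2 : (2 * j + o) / 2 = j := by omega
    simp only [e1, e2, if_true]
  have h2 := Submodule.smul_mem _ z⁻¹ h1
  rwa [smul_smul, inv_mul_cancel₀ hz, one_smul] at h2

end Pool.Agent.Helper438.Sc
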