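import Pool.Agent.Helper438.Sc.Defs

/-! Singular cohomology, the Borel construction of the stack of torsion sheaves on the projective
line, and all the auxiliary spaces used in the computation. -/

namespace Pool.Agent.Helper438.Sc

universe u v w



theorem span_spread {V : Type} [AddCommGroup V] [Module ℂ V] (f : ℕ → V) (o : ℕ) (ho : o < 2)
    (hf : Submodule.span ℂ (Set.range f) = ⊤) (t : ℝ) (h0 : 0 ≤ t) (h1 : t ≤ 1) :
    Submodule.span ℂ (Set.range (fun i => ((1 - t : ℝ) : ℂ) • f i +
      (t : ℂ) • (if i % 2 = o then f (i / 2) else 0))) = ⊤ := by
  obtain ⟨g, hg⟩ : ∃ g : ℕ → V, g = fun i => ((1 - t : ℝ) : ℂ) • f i +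
      (t : ℂ) • (if i % 2 = o then f (i / 2) else 0) := ⟨_, rfl⟩
  rw [← hg]
  have hmem : ∀ i, g i ∈ Submodule.span ℂ (Set.range g) := fun i =>
    Submodule.subset_span ⟨i, rfl⟩
  have key : ∀ i, f i ∈ Submodule.span ℂ (Set.range g) := by
    by_cases ht : t = 1
    · intro j
      have e : g (2 * j + o) = f j := by
        rw [hg, ht]
        have e1 : (2 * j + o) % 2 = o := by omega
        have e2 : (2 * j + o) / 2 = j := by omega
        simp [e1, e2]
      rw [← e]
      exact hmem _
    · have hne : ((1 - t : ℝ) : ℂ) ≠ 0 := by
        intro h
        apply ht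
        have : (1 - t : ℝ) = 0 := by exact_mod_cast h
        linarith
      intro i
      induction i using Nat.strong_induction_on with
      | _ i ih =>
        have hi := hmem i
        by_cases hio : i % 2 = o
        · by_cases hi0 : i = 0
          · subst hi0
            have e : g 0 = f 0 := by
              rw [hg]
              simp only [hio, if_true]
              rw [show (0 : ℕ) / 2 = 0 from rfl, ← add_smul]
              push_cast
              rw [sub_add_cancel, one_smul]
            rw [← e]
            exact hi
          · have h2 : f (i / 2) ∈ Submodule.span ℂ (Set.range g) := ih (i / 2) (by omega)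
            have e : ((1 - t : ℝ) : ℂ) • f i = g i - (t : ℂ) • f (i / 2) := by
              rw [hg]
              simp only [hio, if_true]
              rw [add_sub_cancel_right]
            have h3 : ((1 - t : ℝ) : ℂ) • f i ∈ Submodule.span ℂ (Set.range g) := by
              rw [e]
              exact sub_mem hi (Submodule.smul_mem _ _ h2)
            exact (Submodule.smul_mem_iff _ hne).1 h3
        · have e : ((1 - t : ℝ) : ℂ) • f i = g i := by
            rw [hg]
            simp only [hio, if_false, smul_zero, add_zero]
          have h3 : ((1 - t : ℝ) : ℂ) • f i ∈ Submodule.span ℂ (Set.range g) := by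
            rw [e]
            exact hi
          exact (Submodule.smul_mem_iff _ hne).1 h3
  rw [eq_top_iff, ← hf, Submodule.span_le]
  rintro _ ⟨i, rfl⟩
  exact key i

end Pool.Agent.Helper438.Sc
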