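import Pool.Agent.Helper438.Sc.Defs
import Pool.Agent.Helper438.Sc.P_borel_map
import Pool.Agent.Helper438.Sc.P_borel_homotopic
import Pool.Agent.Helper438.Sc.P_span_spread
import Pool.Agent.Helper438.Sc.P_span_add

/-! Singular cohomology, the Borel construction of the stack of torsion sheaves on the projective
line, and all the auxiliary spaces used in the computation. -/

namespace Pool.Agent.Helper438.Sc

universe u v w



section H833

variable {ι : Type} [Fintype ι] [DecidableEq ι]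

def Rep833 (φ : C(Borel ι, Borel ι)) (F F' : Tot ι → ℕ → ι → ℂ) : Prop :=
  ∀ p r : Tot ι, r.1 = p.1 → r.2.1.1 = F p → r.2.2.1 = F' p →
      φ (Quotient.mk (orbitSetoid ι) p) = Quotient.mk (orbitSetoid ι) r

structure Good833 (F F' : Tot ι → ℕ → ι → ℂ) : Prop where
  c : Continuous F
  c' : Continuous F'
  s : ∀ p, Submodule.span ℂ (Set.range (F p)) = ⊤
  s' : ∀ p, Submodule.span ℂ (Set.range (F' p)) = ⊤
  e : ∀ (p q : Tot ι) (g h : GLi ι), ActRel g h p q →
      (∀ i, F q i = (h : Matrix ι ι ℂ).mulVec (F p i)) ∧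
      (∀ i, F' q i = (g : Matrix ι ι ℂ).mulVec (F' p i))

theorem Good833.ex {F F' : Tot ι → ℕ → ι → ℂ} (h : Good833 F F') :
    ∃ φ : C(Borel ι, Borel ι), Rep833 φ F F' := by
  obtain ⟨φ, hφ⟩ := borel_map F F' h.c h.c' h.s h.s' h.e
  refine ⟨φ, ?_⟩
  intro p r h1 h2 h3
  rw [hφ]
  congr 1
  refine Prod.ext h1.symm (Prod.ext (Subtype.ext h2.symm) (Subtype.ext h3.symm))

def sp833 (o : ℕ) (X : Tot ι → ℕ → ι → ℂ) : Tot ι → ℕ → ι → ℂ :=
  fun p i => if i % 2 = o then X p (i / 2) else 0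

def mix833 (o : ℕ) (X Y : Tot ι → ℕ → ι → ℂ) : Tot ι → ℕ → ι → ℂ :=
  fun p i => if i % 2 = o then X p (i / 2) else Y p (i / 2)

theorem cont_sp833 (o : ℕ) {X : Tot ι → ℕ → ι → ℂ} (hX : Continuous X) :
    Continuous (sp833 o X) := by
  refine continuous_pi fun i => ?_
  unfold sp833
  by_cases hi : i % 2 = o
  · simp only [hi, if_true]
    exact (continuous_apply (i / 2)).comp hX
  · simp only [hi, if_false]
    exact continuous_const

theorem cont_mix833 (o : ℕ) {X Y : Tot ι → ℕ → ι → ℂ} (hX : Continuous X) (hY : Continuous Y) :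
    Continuous (mix833 o X Y) := by
  refine continuous_pi fun i => ?_
  unfold mix833
  by_cases hi : i % 2 = o
  · simp only [hi, if_true]
    exact (continuous_apply (i / 2)).comp hX
  · simp only [hi, if_false]
    exact (continuous_apply (i / 2)).comp hY

theorem span_sp833 (o : ℕ) (ho : o < 2) {X : Tot ι → ℕ → ι → ℂ} (p : Tot ι)
    (h : Submodule.span ℂ (Set.range (X p)) = ⊤) :
    Submodule.span ℂ (Set.range (sp833 o X p)) = ⊤ := by
  have := span_add (X p) (X p) h 1 one_ne_zero 0 o ho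
  simp only [one_smul, zero_smul] at this
  exact this

theorem span_mix833 (o : ℕ) (ho : o < 2) {X Y : Tot ι → ℕ → ι → ℂ} (p : Tot ι)
    (h : Submodule.span ℂ (Set.range (X p)) = ⊤) :
    Submodule.span ℂ (Set.range (mix833 o X Y p)) = ⊤ := by
  have := span_add (X p) (Y p) h 1 one_ne_zero 1 o ho
  simp only [one_smul] at this
  exact this

theorem Good833.sp {F F' : Tot ι → ℕ → ι → ℂ} (h : Good833 F F') (o : ℕ) (ho : o < 2) :
    Good833 (sp833 o F) (sp833 o F') where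
  c := cont_sp833 o h.c
  c' := cont_sp833 o h.c'
  s := fun p => span_sp833 o ho p (h.s p)
  s' := fun p => span_sp833 o ho p (h.s' p)
  e := by
    intro p q g k hr
    obtain ⟨e1, e2⟩ := h.e p q g k hr
    refine ⟨fun i => ?_, fun i => ?_⟩
    · unfold sp833
      split_ifs
      · exact e1 _
      · simp
    · unfold sp833
      split_ifs
      · exact e2 _
      · simp

theorem Good833.mix {F F' G G' : Tot ι → ℕ → ι → ℂ} (h : Good833 F F') (h' : Good833 G G')
    (o : ℕ) (ho : o < 2) :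
    Good833 (mix833 o F G) (mix833 o F' G') where
  c := cont_mix833 o h.c h'.c
  c' := cont_mix833 o h.c' h'.c'
  s := fun p => span_mix833 o ho p (h.s p)
  s' := fun p => span_mix833 o ho p (h.s' p)
  e := by
    intro p q g k hr
    obtain ⟨e1, e2⟩ := h.e p q g k hr
    obtain ⟨e3, e4⟩ := h'.e p q g k hr
    refine ⟨fun i => ?_, fun i => ?_⟩
    · unfold mix833
      split_ifs
      · exact e1 _
      · exact e3 _
    · unfold mix833
      split_ifs
      · exact e2 _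
      · exact e4 _

theorem step833 {F F' G G' : Tot ι → ℕ → ι → ℂ} (h : Good833 F F') (h' : Good833 G G')
    (h1 : ∀ (t : ℝ), 0 ≤ t → t ≤ 1 → ∀ p, Submodule.span ℂ (Set.range
      (fun i => ((1 - t : ℝ) : ℂ) • F p i + (t : ℂ) • G p i)) = ⊤)
    (h2 : ∀ (t : ℝ), 0 ≤ t → t ≤ 1 → ∀ p, Submodule.span ℂ (Set.range
      (fun i => ((1 - t : ℝ) : ℂ) • F' p i + (t : ℂ) • G' p i)) = ⊤)
    {φ ψ : C(Borel ι, Borel ι)} (hφ : Rep833 φ F F') (hψ : Rep833 ψ G G') : φ.Homotopic ψ :=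
  borel_homotopic F F' G G' h.c h.c' h'.c h'.c' h1 h2 h.e h'.e φ ψ hφ hψ

theorem hsp833 (o : ℕ) (ho : o < 2) {X : Tot ι → ℕ → ι → ℂ}
    (h : ∀ p, Submodule.span ℂ (Set.range (X p)) = ⊤) (t : ℝ) (h0 : 0 ≤ t) (h1 : t ≤ 1)
    (p : Tot ι) : Submodule.span ℂ (Set.range
      (fun i => ((1 - t : ℝ) : ℂ) • X p i + (t : ℂ) • sp833 o X p i)) = ⊤ :=
  span_spread (X p) o ho (h p) t h0 h1

theorem hmix833 (o : ℕ) (ho : o < 2) {X Y : Tot ι → ℕ → ι → ℂ}
    (h : ∀ p, Submodule.span ℂ (Set.range (X p)) = ⊤) (t : ℝ) (h0 : 0 ≤ t) (h1 : t ≤ 1)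
    (p : Tot ι) : Submodule.span ℂ (Set.range
      (fun i => ((1 - t : ℝ) : ℂ) • sp833 o X p i + (t : ℂ) • mix833 o X Y p i)) = ⊤ := by
  have h2 := span_add (X p) (Y p) (h p) 1 one_ne_zero (t : ℂ) o ho
  have e : (fun i => ((1 - t : ℝ) : ℂ) • sp833 o X p i + (t : ℂ) • mix833 o X Y p i)
      = (fun i => if i % 2 = o then (1 : ℂ) • X p (i / 2) else (t : ℂ) • Y p (i / 2)) := by
    funext i
    unfold sp833 mix833
    split_ifs
    · rw [← add_smul]; congr 1; push_cast; ring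
    · rw [smul_zero, zero_add]
  rw [e]
  exact h2

end H833

theorem borel_all {ι : Type} [Fintype ι] [DecidableEq ι] (F F' : Tot ι → ℕ → ι → ℂ)
    (hF : Continuous F) (hF' : Continuous F')
    (h1 : ∀ p, Submodule.span ℂ (Set.range (F p)) = ⊤)
    (h2 : ∀ p, Submodule.span ℂ (Set.range (F' p)) = ⊤)
    (he : ∀ (p q : Tot ι) (g h : GLi ι), ActRel g h p q →
      (∀ i, F q i = (h : Matrix ι ι ℂ).mulVec (F p i)) ∧
      (∀ i, F' q i = (g : Matrix ι ι ℂ).mulVec (F' p i)))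
    (φ : C(Borel ι, Borel ι)) (hφ : ∀ p : Tot ι, φ (Quotient.mk (orbitSetoid ι) p) =
      Quotient.mk (orbitSetoid ι) (p.1, (⟨F p, h1 p⟩, ⟨F' p, h2 p⟩))) :
    φ.Homotopic (ContinuousMap.id _) := by
  have gF : Good833 F F' := ⟨hF, hF', h1, h2, he⟩
  have gI : Good833 (fun p : Tot ι => p.2.1.1) (fun p : Tot ι => p.2.2.1) := by
    refine ⟨?_, ?_, fun p => p.2.1.2, fun p => p.2.2.2, ?_⟩
    · exact continuous_subtype_val.comp (continuous_fst.comp continuous_snd)
    · exact continuous_subtype_val.comp (continuous_snd.comp continuous_snd)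
    · intro p q g h hr
      exact ⟨hr.2.2.1, hr.2.2.2⟩
  have rφ : Rep833 φ F F' := by
    intro p r e1 e2 e3
    rw [hφ]
    congr 1
    exact Prod.ext e1.symm (Prod.ext (Subtype.ext e2.symm) (Subtype.ext e3.symm))
  have rI : Rep833 (ContinuousMap.id (Borel ι)) (fun p : Tot ι => p.2.1.1)
      (fun p : Tot ι => p.2.2.1) := by
    intro p r e1 e2 e3
    rw [ContinuousMap.id_apply]
    congr 1
    exact Prod.ext e1.symm (Prod.ext (Subtype.ext e2.symm) (Subtype.ext e3.symm))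
  have h02 : 0 < 2 := by norm_num
  have h12 : 1 < 2 := by norm_num
  obtain ⟨φ1, r1⟩ := (gI.sp 0 h02).ex
  obtain ⟨φ2, r2⟩ := (gI.mix gF 0 h02).ex
  obtain ⟨φ3, r3⟩ := (gF.sp 1 h12).ex
  have hm : ∀ X Y : Tot ι → ℕ → ι → ℂ, mix833 0 X Y = mix833 1 Y X := by
    intro X Y
    funext p i
    unfold mix833
    rcases Nat.mod_two_eq_zero_or_one i with h | h <;> simp [h]
  have s1 := step833 gI (gI.sp 0 h02) (hsp833 0 h02 gI.s) (hsp833 0 h02 gI.s') rI r1
  have s2 := step833 (gI.sp 0 h02) (gI.mix gF 0 h02) (hmix833 0 h02 gI.s)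
    (hmix833 0 h02 gI.s') r1 r2
  have g2 := gF.mix gI 1 h12
  have r2' : Rep833 φ2 (mix833 1 F (fun p : Tot ι => p.2.1.1))
      (mix833 1 F' (fun p : Tot ι => p.2.2.1)) := by
    rw [← hm, ← hm]
    exact r2
  have s3 := step833 (gF.sp 1 h12) g2 (hmix833 1 h12 gF.s) (hmix833 1 h12 gF.s') r3 r2'
  have s4 := step833 gF (gF.sp 1 h12) (hsp833 1 h12 gF.s) (hsp833 1 h12 gF.s') rφ r3
  exact s4.trans (s3.trans (s2.symm.trans s1.symm))

end Pool.Agent.Helper438.Sc
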