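import Pool.Agent.Helper438.Sc.Defs

/-! Singular cohomology, the Borel construction of the stack of torsion sheaves on the projective
line, and all the auxiliary spaces used in the computation. -/

namespace Pool.Agent.Helper438.Sc

universe u v w



theorem regular_nat {ι : Type} [Fintype ι] [DecidableEq ι] (A B : Matrix ι ι ℂ)
    (h : Regular A B) : ∃ t : ℕ, t ≤ Fintype.card ι ∧ (A + (t : ℂ) • B).det ≠ 0 := by
  classical
  by_contra hcon
  push Not at hcon
  let p : Polynomial ℂ := Matrix.det ((Polynomial.X : Polynomial ℂ) • B.map Polynomial.C + A.map Polynomial.C)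
  have heval : ∀ t : ℂ, p.eval t = (A + t • B).det := by
    intro t
    have h1 : p.eval t = Polynomial.evalRingHom t p := rfl
    rw [h1]
    change Polynomial.evalRingHom t (Matrix.det _) = _
    rw [RingHom.map_det]
    congr 1
    ext i j
    simp [RingHom.mapMatrix_apply, Matrix.map_apply]
    ring
  have hdeg : p.natDegree ≤ Fintype.card ι := Polynomial.natDegree_det_X_add_C_le B A
  have hp0 : p = 0 := by
    apply Polynomial.eq_zero_of_natDegree_lt_card_of_eval_eq_zero' p
      ((Finset.range (Fintype.card ι + 1)).image (fun t : ℕ => (t : ℂ)))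
    · intro x hx
      obtain ⟨t, ht, rfl⟩ := Finset.mem_image.mp hx
      rw [heval]
      exact hcon t (Nat.lt_succ_iff.mp (Finset.mem_range.mp ht))
    · rw [Finset.card_image_of_injective _ Nat.cast_injective, Finset.card_range]
      omega
  have hB : B.det = 0 := by
    have := Polynomial.coeff_det_X_add_C_card B A
    rw [← this]
    change p.coeff _ = 0
    rw [hp0, Polynomial.coeff_zero]
  have hall : ∀ t : ℂ, (A + t • B).det = 0 := by
    intro t
    rw [← heval, hp0, Polynomial.eval_zero]
  obtain ⟨x, y, hxy⟩ := h
  apply hxy
  by_cases hx : x = 0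
  · subst hx
    rw [zero_smul, zero_add, Matrix.det_smul, hB, mul_zero]
  · have : x • A + y • B = x • (A + (y / x) • B) := by
      rw [smul_add, smul_smul, mul_div_cancel₀ _ hx]
    rw [this, Matrix.det_smul, hall, mul_zero]

end Pool.Agent.Helper438.Sc
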