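import Pool.Agent.Helper438.Sc.Defs

/-! Singular cohomology, the Borel construction of the stack of torsion sheaves on the projective
line, and all the auxiliary spaces used in the computation. -/

namespace Pool.Agent.Helper438.Sc

universe u v w



theorem stab_indep {ι : Type} [Fintype ι] [DecidableEq ι] (A B : Matrix ι ι ℂ) (t t' : ℂ)
    (ht : (A + t • B).det ≠ 0) (ht' : (A + t' • B).det ≠ 0) (L : Submodule ℂ (ι → ℂ))
    (h : ∀ v ∈ L, (Ut A B t).mulVec v ∈ L) : ∀ v ∈ L, (Ut A B t').mulVec v ∈ L := by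
  have hX : IsUnit (A + t • B).det := isUnit_iff_ne_zero.2 ht
  set X := A + t • B with hXd
  set u := Ut A B t with hu
  have hu' : u = X⁻¹ * B := rfl
  set m : Matrix ι ι ℂ := 1 + (t' - t) • u with hm
  have hXm : A + t' • B = X * m := by
    rw [hm, mul_add, mul_one, mul_smul_comm, hu', ← mul_assoc, Matrix.mul_nonsing_inv _ hX, one_mul,
      hXd, sub_smul]
    abel
  have hmdet : m.det ≠ 0 := by
    intro h0
    apply ht'
    rw [hXm, Matrix.det_mul, h0, mul_zero]
  have hmu : IsUnit m.det := isUnit_iff_ne_zero.2 hmdet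
  have hUt : Ut A B t' = m⁻¹ * u := by
    unfold Ut
    rw [hXm, Matrix.mul_inv_rev, mul_assoc, hu']
  have hmL : ∀ x ∈ L, m.mulVecLin x ∈ L := by
    intro x hx
    rw [Matrix.mulVecLin_apply, hm, Matrix.add_mulVec, Matrix.one_mulVec, Matrix.smul_mulVec]
    exact L.add_mem hx (L.smul_mem _ (h x hx))
  have hinj : Function.Injective (m.mulVecLin.restrict hmL) := by
    rw [injective_iff_map_eq_zero]
    rintro ⟨x, hx⟩ h0
    have h1 : m.mulVec x = 0 := congrArg Subtype.val h0
    apply Subtype.ext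
    change x = 0
    have h2 : m⁻¹.mulVec (m.mulVec x) = x := by
      rw [Matrix.mulVec_mulVec, Matrix.nonsing_inv_mul _ hmu, Matrix.one_mulVec]
    rw [← h2, h1, Matrix.mulVec_zero]
  have hsurj := LinearMap.injective_iff_surjective.1 hinj
  intro v hv
  obtain ⟨⟨w, hw⟩, hwe⟩ := hsurj ⟨u.mulVec v, h v hv⟩
  have h1 : m.mulVec w = u.mulVec v := congrArg Subtype.val hwe
  rw [hUt, ← Matrix.mulVec_mulVec, ← h1, Matrix.mulVec_mulVec, Matrix.nonsing_inv_mul _ hmu,
    Matrix.one_mulVec]
  exact hw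

end Pool.Agent.Helper438.Sc
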