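import Pool.Agent.Helper438.Sc.Defs
import Pool.Agent.Helper438.Sc.P_regular_nat
import Pool.Agent.Helper438.Sc.P_stab_indep

/-! Singular cohomology, the Borel construction of the stack of torsion sheaves on the projective
line, and all the auxiliary spaces used in the computation. -/

namespace Pool.Agent.Helper438.Sc

universe u v w



section H400

variable {ι : Type} [Fintype ι] [DecidableEq ι]

noncomputable def h400_X (A B : Matrix ι ι ℂ) (l : ℕ) : Matrix ι ι ℂ := A + (l : ℂ) • B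

noncomputable def h400_D (A B : Matrix ι ι ℂ) : ℝ :=
  ∑ l ∈ Finset.range (Fintype.card ι + 1), Complex.normSq (h400_X A B l).det

noncomputable def h400_T (A B : Matrix ι ι ℂ) (l : ℕ) : Matrix ι ι ℂ :=
  ((starRingEnd ℂ) (h400_X A B l).det / (h400_D A B : ℂ)) • ((h400_X A B l).adjugate * B)

noncomputable def h400_F (A B : Matrix ι ι ℂ) (s : ℕ → ι → ℂ) (i : ℕ) : ι → ℂ :=
  ((h400_T A B (Nat.unpair (Nat.unpair i).2).1) ^ (Nat.unpair (Nat.unpair i).2).2).mulVec
    (s (Nat.unpair i).1)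

noncomputable def h400_G (A B : Matrix ι ι ℂ) (s : ℕ → ι → ℂ) (i : ℕ) : ι → ℂ :=
  if i % 2 = 0 then A.mulVec (h400_F A B s (i / 2)) else B.mulVec (h400_F A B s (i / 2))

theorem h400_reg {A B : Matrix ι ι ℂ} {s : ℕ → ι → ℂ} (h : Gen A B s) : Regular A B := by
  obtain ⟨t, ht, -⟩ := h
  exact ⟨1, t, by rwa [one_smul]⟩

theorem h400_D_pos {A B : Matrix ι ι ℂ} (h : Regular A B) : 0 < h400_D A B := by
  obtain ⟨t, ht, hd⟩ := regular_nat A B h
  unfold h400_D
  apply Finset.sum_pos' (fun i _ => Complex.normSq_nonneg _)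
  exact ⟨t, Finset.mem_range.mpr (by omega), Complex.normSq_pos.mpr hd⟩

theorem h400_cont_T (l : ℕ) :
    Continuous (fun p : Pg ι => h400_T p.1.1.1 p.1.1.2 l) := by
  have hA : Continuous (fun p : Pg ι => p.1.1.1) :=
    continuous_fst.comp (continuous_fst.comp continuous_subtype_val)
  have hB : Continuous (fun p : Pg ι => p.1.1.2) :=
    continuous_snd.comp (continuous_fst.comp continuous_subtype_val)
  have hX : ∀ l : ℕ, Continuous (fun p : Pg ι => h400_X p.1.1.1 p.1.1.2 l) := by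
    intro l
    have h1 : Continuous (fun p : Pg ι => (l : ℂ) • p.1.1.2) := hB.const_smul (l : ℂ)
    exact hA.add h1
  have hD : Continuous (fun p : Pg ι => h400_D p.1.1.1 p.1.1.2) := by
    unfold h400_D
    exact continuous_finsetSum _ (fun i _ => Complex.continuous_normSq.comp (hX i).matrix_det)
  have hD2 : Continuous (fun p : Pg ι => ((h400_D p.1.1.1 p.1.1.2 : ℝ) : ℂ)) :=
    Complex.continuous_ofReal.comp hD
  unfold h400_T
  apply Continuous.fun_smul
  · apply Continuous.div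
    · exact Complex.continuous_conj.comp (hX l).matrix_det
    · exact hD2
    · intro p
      exact_mod_cast (h400_D_pos (h400_reg p.2)).ne'
  · exact (hX l).matrix_adjugate.mul hB

theorem h400_cont_F : Continuous (fun p : Pg ι => h400_F p.1.1.1 p.1.1.2 p.1.2) := by
  apply continuous_pi
  intro i
  unfold h400_F
  apply Continuous.matrix_mulVec
  · exact (h400_cont_T _).pow _
  · have h : Continuous (fun p : Pg ι => p.1.2) := continuous_snd.comp continuous_subtype_val
    exact (continuous_apply _).comp h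

theorem h400_cont_G : Continuous (fun p : Pg ι => h400_G p.1.1.1 p.1.1.2 p.1.2) := by
  have hA : Continuous (fun p : Pg ι => p.1.1.1) :=
    continuous_fst.comp (continuous_fst.comp continuous_subtype_val)
  have hB : Continuous (fun p : Pg ι => p.1.1.2) :=
    continuous_snd.comp (continuous_fst.comp continuous_subtype_val)
  apply continuous_pi
  intro i
  unfold h400_G
  by_cases hi : i % 2 = 0
  · simp only [if_pos hi]
    exact Continuous.matrix_mulVec hA ((continuous_apply _).comp h400_cont_F)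
  · simp only [if_neg hi]
    exact Continuous.matrix_mulVec hB ((continuous_apply _).comp h400_cont_F)

theorem h400_span_F {A B : Matrix ι ι ℂ} {s : ℕ → ι → ℂ} (h : Gen A B s) :
    Submodule.span ℂ (Set.range (h400_F A B s)) = ⊤ := by
  obtain ⟨l, -, hl⟩ := regular_nat A B (h400_reg h)
  have hD := h400_D_pos (h400_reg h)
  have hD2 : (h400_D A B : ℂ) ≠ 0 := by exact_mod_cast hD.ne'
  obtain ⟨M, hM⟩ : ∃ M : Submodule ℂ (ι → ℂ), M = Submodule.span ℂ
      (Set.range (fun q : ℕ × ℕ => (h400_T A B l ^ q.2).mulVec (s q.1))) := ⟨_, rfl⟩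
  have hMle : M ≤ Submodule.span ℂ (Set.range (h400_F A B s)) := by
    rw [hM, Submodule.span_le]
    rintro - ⟨⟨i, m⟩, rfl⟩
    apply Submodule.subset_span
    refine ⟨Nat.pair i (Nat.pair l m), ?_⟩
    unfold h400_F
    simp only [Nat.unpair_pair]
  have hstab : ∀ v ∈ M, (h400_T A B l).mulVec v ∈ M := by
    intro v hv
    rw [hM] at hv ⊢
    induction hv using Submodule.span_induction with
    | mem x hx =>
      obtain ⟨⟨i, m⟩, rfl⟩ := hx
      apply Submodule.subset_span
      refine ⟨(i, m + 1), ?_⟩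
      show (h400_T A B l ^ (m + 1)).mulVec (s i) =
        (h400_T A B l).mulVec ((h400_T A B l ^ m).mulVec (s i))
      rw [Matrix.mulVec_mulVec, pow_succ']
    | zero =>
      rw [Matrix.mulVec_zero]
      exact Submodule.zero_mem _
    | add x y _ _ hx hy =>
      rw [Matrix.mulVec_add]
      exact Submodule.add_mem _ hx hy
    | smul a x _ hx =>
      rw [Matrix.mulVec_smul]
      exact Submodule.smul_mem _ _ hx
  have hU : ∀ v ∈ M, (Ut A B (l : ℂ)).mulVec v ∈ M := by
    intro v hv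
    have h1 := hstab v hv
    have h2 : h400_T A B l = ((starRingEnd ℂ) (A + (l : ℂ) • B).det / (h400_D A B : ℂ) *
        (A + (l : ℂ) • B).det) • Ut A B (l : ℂ) := by
      unfold h400_T Ut h400_X
      rw [Matrix.inv_def, Ring.inverse_eq_inv', Matrix.smul_mul, smul_smul, mul_assoc,
        mul_inv_cancel₀ hl, mul_one]
    rw [h2, Matrix.smul_mulVec] at h1
    have h3 : ((starRingEnd ℂ) (A + (l : ℂ) • B).det / (h400_D A B : ℂ) *
        (A + (l : ℂ) • B).det) ≠ 0 := by
      refine mul_ne_zero (div_ne_zero ?_ hD2) hl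
      exact (map_ne_zero _).mpr hl
    exact (Submodule.smul_mem_iff _ h3).mp h1
  have hs : ∀ j, s j ∈ M := by
    intro j
    rw [hM]
    apply Submodule.subset_span
    refine ⟨(j, 0), ?_⟩
    show (h400_T A B l ^ 0).mulVec (s j) = s j
    rw [pow_zero, Matrix.one_mulVec]
  obtain ⟨t, ht, hgen⟩ := h
  have hMtop := hgen M hs (stab_indep A B (l : ℂ) t hl ht M hU)
  rw [hMtop] at hMle
  exact top_le_iff.mp hMle

theorem h400_span_G {A B : Matrix ι ι ℂ} {s : ℕ → ι → ℂ} (h : Gen A B s) :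
    Submodule.span ℂ (Set.range (h400_G A B s)) = ⊤ := by
  have hF := h400_span_F h
  have hv : ∀ v : ι → ℂ, A.mulVec v ∈ Submodule.span ℂ (Set.range (h400_G A B s)) ∧
      B.mulVec v ∈ Submodule.span ℂ (Set.range (h400_G A B s)) := by
    intro v
    have hv : v ∈ Submodule.span ℂ (Set.range (h400_F A B s)) := by
      rw [hF]
      exact Submodule.mem_top
    induction hv using Submodule.span_induction with
    | mem x hx =>
      obtain ⟨i, rfl⟩ := hx
      constructor
      · apply Submodule.subset_span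
        refine ⟨2 * i, ?_⟩
        unfold h400_G
        rw [if_pos (by omega), show 2 * i / 2 = i by omega]
      · apply Submodule.subset_span
        refine ⟨2 * i + 1, ?_⟩
        unfold h400_G
        rw [if_neg (by omega), show (2 * i + 1) / 2 = i by omega]
    | zero =>
      rw [Matrix.mulVec_zero, Matrix.mulVec_zero]
      exact ⟨Submodule.zero_mem _, Submodule.zero_mem _⟩
    | add x y _ _ hx hy =>
      rw [Matrix.mulVec_add, Matrix.mulVec_add]
      exact ⟨Submodule.add_mem _ hx.1 hy.1, Submodule.add_mem _ hx.2 hy.2⟩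
    | smul a x _ hx =>
      rw [Matrix.mulVec_smul, Matrix.mulVec_smul]
      exact ⟨Submodule.smul_mem _ _ hx.1, Submodule.smul_mem _ _ hx.2⟩
  obtain ⟨t, ht, -⟩ := h
  rw [eq_top_iff]
  intro w _
  have hw : w = (A + t • B).mulVec ((A + t • B)⁻¹.mulVec w) := by
    rw [Matrix.mulVec_mulVec, Matrix.mul_nonsing_inv _ (Ne.isUnit ht), Matrix.one_mulVec]
  rw [hw, Matrix.add_mulVec, Matrix.smul_mulVec]
  exact Submodule.add_mem _ (hv _).1 (Submodule.smul_mem _ _ (hv _).2)

theorem h400_equi {A B A' B' : Matrix ι ι ℂ} (g h : GLi ι)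
    (hA : A' * (h : Matrix ι ι ℂ) = (g : Matrix ι ι ℂ) * A)
    (hB : B' * (h : Matrix ι ι ℂ) = (g : Matrix ι ι ℂ) * B) (hR : Regular A B) (l : ℕ) :
    h400_T A' B' l * (h : Matrix ι ι ℂ) = (h : Matrix ι ι ℂ) * h400_T A B l := by
  have hdg : (g : Matrix ι ι ℂ).det ≠ 0 := ((Matrix.isUnit_iff_isUnit_det _).mp g.isUnit).ne_zero
  have hdh : (h : Matrix ι ι ℂ).det ≠ 0 := ((Matrix.isUnit_iff_isUnit_det _).mp h.isUnit).ne_zero
  obtain ⟨γ, hγ⟩ : ∃ γ, γ = (g : Matrix ι ι ℂ).det / (h : Matrix ι ι ℂ).det := ⟨_, rfl⟩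
  have hγ0 : γ ≠ 0 := by
    rw [hγ]
    exact div_ne_zero hdg hdh
  have hX : ∀ l : ℕ, h400_X A' B' l * (h : Matrix ι ι ℂ) = (g : Matrix ι ι ℂ) * h400_X A B l := by
    intro l
    unfold h400_X
    rw [Matrix.add_mul, Matrix.smul_mul, hA, hB, Matrix.mul_add, Matrix.mul_smul]
  have hdet : ∀ l : ℕ, (h400_X A' B' l).det = γ * (h400_X A B l).det := by
    intro l
    have h1 := congrArg Matrix.det (hX l)
    rw [Matrix.det_mul, Matrix.det_mul] at h1
    rw [hγ]
    field_simp
    linear_combination h1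
  have hDD : h400_D A' B' = Complex.normSq γ * h400_D A B := by
    unfold h400_D
    rw [Finset.mul_sum]
    refine Finset.sum_congr rfl (fun i _ => ?_)
    rw [hdet, map_mul]
  have hadj : (h400_X A' B' l).adjugate * B' * (h : Matrix ι ι ℂ) =
      γ • ((h : Matrix ι ι ℂ) * ((h400_X A B l).adjugate * B)) := by
    have h1 := congrArg Matrix.adjugate (hX l)
    rw [Matrix.adjugate_mul_distrib, Matrix.adjugate_mul_distrib] at h1
    have h2 : (h : Matrix ι ι ℂ).det • ((h400_X A' B' l).adjugate * B' * (h : Matrix ι ι ℂ)) =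
        (g : Matrix ι ι ℂ).det • ((h : Matrix ι ι ℂ) * ((h400_X A B l).adjugate * B)) := by
      calc (h : Matrix ι ι ℂ).det • ((h400_X A' B' l).adjugate * B' * (h : Matrix ι ι ℂ))
          = ((h : Matrix ι ι ℂ).det • (1 : Matrix ι ι ℂ)) *
              ((h400_X A' B' l).adjugate * B' * (h : Matrix ι ι ℂ)) := by
            rw [Matrix.smul_mul, Matrix.one_mul]
        _ = ((h : Matrix ι ι ℂ) * (h : Matrix ι ι ℂ).adjugate) *
              ((h400_X A' B' l).adjugate * B' * (h : Matrix ι ι ℂ)) := by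
            rw [Matrix.mul_adjugate]
        _ = (h : Matrix ι ι ℂ) * ((h : Matrix ι ι ℂ).adjugate * (h400_X A' B' l).adjugate) *
              (B' * (h : Matrix ι ι ℂ)) := by
            simp only [Matrix.mul_assoc]
        _ = (h : Matrix ι ι ℂ) * ((h400_X A B l).adjugate * (g : Matrix ι ι ℂ).adjugate) *
              ((g : Matrix ι ι ℂ) * B) := by
            rw [h1, hB]
        _ = (h : Matrix ι ι ℂ) * ((h400_X A B l).adjugate *
              (((g : Matrix ι ι ℂ).adjugate * (g : Matrix ι ι ℂ)) * B)) := by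
            simp only [Matrix.mul_assoc]
        _ = (g : Matrix ι ι ℂ).det • ((h : Matrix ι ι ℂ) * ((h400_X A B l).adjugate * B)) := by
            rw [Matrix.adjugate_mul, Matrix.smul_mul, Matrix.one_mul, Matrix.mul_smul,
              Matrix.mul_smul]
    rw [hγ, div_eq_inv_mul, mul_smul, ← h2, smul_smul, inv_mul_cancel₀ hdh, one_smul]
  have hD2 : (h400_D A B : ℂ) ≠ 0 := by exact_mod_cast (h400_D_pos hR).ne'
  unfold h400_T
  rw [Matrix.smul_mul, hadj, hdet, hDD, smul_smul, Matrix.mul_smul]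
  congr 1
  rw [map_mul, Complex.ofReal_mul, Complex.normSq_eq_conj_mul_self]
  have hc : (starRingEnd ℂ) γ ≠ 0 := (map_ne_zero _).mpr hγ0
  field_simp

theorem h400_equi_F {A B A' B' : Matrix ι ι ℂ} {s s' : ℕ → ι → ℂ} (g h : GLi ι)
    (hA : A' * (h : Matrix ι ι ℂ) = (g : Matrix ι ι ℂ) * A)
    (hB : B' * (h : Matrix ι ι ℂ) = (g : Matrix ι ι ℂ) * B) (hR : Regular A B)
    (hs : ∀ i, s' i = (h : Matrix ι ι ℂ).mulVec (s i)) (i : ℕ) :
    h400_F A' B' s' i = (h : Matrix ι ι ℂ).mulVec (h400_F A B s i) := by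
  have hp : ∀ l m : ℕ, h400_T A' B' l ^ m * (h : Matrix ι ι ℂ) =
      (h : Matrix ι ι ℂ) * h400_T A B l ^ m := by
    intro l m
    induction m with
    | zero => rw [pow_zero, pow_zero, Matrix.one_mul, Matrix.mul_one]
    | succ m ih =>
      rw [pow_succ, Matrix.mul_assoc, h400_equi g h hA hB hR l, ← Matrix.mul_assoc, ih,
        Matrix.mul_assoc, ← pow_succ]
  unfold h400_F
  rw [hs, Matrix.mulVec_mulVec, hp, Matrix.mulVec_mulVec]

theorem h400_equi_G {A B A' B' : Matrix ι ι ℂ} {s s' : ℕ → ι → ℂ} (g h : GLi ι)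
    (hA : A' * (h : Matrix ι ι ℂ) = (g : Matrix ι ι ℂ) * A)
    (hB : B' * (h : Matrix ι ι ℂ) = (g : Matrix ι ι ℂ) * B) (hR : Regular A B)
    (hs : ∀ i, s' i = (h : Matrix ι ι ℂ).mulVec (s i)) (i : ℕ) :
    h400_G A' B' s' i = (g : Matrix ι ι ℂ).mulVec (h400_G A B s i) := by
  unfold h400_G
  by_cases hi : i % 2 = 0
  · rw [if_pos hi, if_pos hi, h400_equi_F g h hA hB hR hs, Matrix.mulVec_mulVec, hA,
      Matrix.mulVec_mulVec]
  · rw [if_neg hi, if_neg hi, h400_equi_F g h hA hB hR hs, Matrix.mulVec_mulVec, hB,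
      Matrix.mulVec_mulVec]

end H400

theorem fam_exists (ι : Type) [Fintype ι] [DecidableEq ι] :
    ∃ F F' : Pg ι → ℕ → ι → ℂ, Continuous F ∧ Continuous F' ∧
      (∀ p, Submodule.span ℂ (Set.range (F p)) = ⊤) ∧
      (∀ p, Submodule.span ℂ (Set.range (F' p)) = ⊤) ∧
      ∀ (p q : Pg ι) (g h : GLi ι),
        q.1.1.1 * (h : Matrix ι ι ℂ) = (g : Matrix ι ι ℂ) * p.1.1.1 →
        q.1.1.2 * (h : Matrix ι ι ℂ) = (g : Matrix ι ι ℂ) * p.1.1.2 →
        (∀ i, q.1.2 i = (h : Matrix ι ι ℂ).mulVec (p.1.2 i)) →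
        (∀ i, F q i = (h : Matrix ι ι ℂ).mulVec (F p i)) ∧
        (∀ i, F' q i = (g : Matrix ι ι ℂ).mulVec (F' p i)) := by
  refine ⟨fun p => h400_F p.1.1.1 p.1.1.2 p.1.2, fun p => h400_G p.1.1.1 p.1.1.2 p.1.2,
    h400_cont_F, h400_cont_G, fun p => h400_span_F p.2, fun p => h400_span_G p.2, ?_⟩
  intro p q g h hA hB hs
  exact ⟨h400_equi_F g h hA hB (h400_reg p.2) hs, h400_equi_G g h hA hB (h400_reg p.2) hs⟩

end Pool.Agent.Helper438.Sc
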