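import Pool.Agent.Helper438.Sc.Defs
import Pool.Agent.Helper438.Sc.P_regular_nat
import Pool.Agent.Helper438.Sc.P_fam_exists
import Pool.Agent.Helper438.Sc.P_borel_map
import Pool.Agent.Helper438.Sc.P_borel_all

/-! Singular cohomology, the Borel construction of the stack of torsion sheaves on the projective
line, and all the auxiliary spaces used in the computation. -/

namespace Pool.Agent.Helper438.Sc

universe u v w



theorem borel_retract_gen {ι : Type} [Fintype ι] [DecidableEq ι] (p : Tot ι) :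
    Gen p.1.1.1 p.1.1.2 p.2.1.1 := by
  obtain ⟨t, -, ht⟩ := regular_nat p.1.1.1 p.1.1.2 p.1.2
  refine ⟨(t : ℂ), ht, fun L hL _ => ?_⟩
  rw [eq_top_iff, ← p.2.1.2, Submodule.span_le]
  rintro _ ⟨j, rfl⟩
  exact hL j

/-- forget the second sequence -/
def borel_retract_pg {ι : Type} [Fintype ι] [DecidableEq ι] (p : Tot ι) : Pg ι :=
  ⟨(p.1.1, p.2.1.1), borel_retract_gen p⟩

theorem borel_retract_pg_cont {ι : Type} [Fintype ι] [DecidableEq ι] :
    Continuous (borel_retract_pg (ι := ι)) := by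
  have h1 : Continuous (fun p : Pencil ι => p.1) := continuous_subtype_val
  have h2 : Continuous (fun p : Frame ι => p.1) := continuous_subtype_val
  have h3 : Continuous (fun p : Tot ι => (p.1.1, p.2.1.1)) :=
    (h1.comp continuous_fst).prodMk (h2.comp (continuous_fst.comp continuous_snd))
  exact Continuous.subtype_mk h3 borel_retract_gen

theorem borel_retract_act {ι : Type} [Fintype ι] [DecidableEq ι] (p q : Tot ι) (g h : GLi ι)
    (H : ActRel g h p q) :
    q.1.1.1 * (h : Matrix ι ι ℂ) = (g : Matrix ι ι ℂ) * p.1.1.1 ∧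
      q.1.1.2 * (h : Matrix ι ι ℂ) = (g : Matrix ι ι ℂ) * p.1.1.2 := by
  obtain ⟨h1, h2, -, -⟩ := H
  constructor
  · rw [h1, Matrix.mul_assoc, Units.inv_mul, Matrix.mul_one]
  · rw [h2, Matrix.mul_assoc, Units.inv_mul, Matrix.mul_one]

theorem borel_retract_req {ι : Type} [Fintype ι] [DecidableEq ι] (p q : Tot ι)
    (H : (orbitSetoid ι) p q) : (pgSetoid ι) (borel_retract_pg p) (borel_retract_pg q) := by
  obtain ⟨g, h, hgh⟩ := H
  obtain ⟨e1, e2⟩ := borel_retract_act p q g h hgh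
  exact ⟨(g : Matrix ι ι ℂ), (h : Matrix ι ι ℂ), ((g⁻¹ : GLi ι) : Matrix ι ι ℂ),
    ((h⁻¹ : GLi ι) : Matrix ι ι ℂ), Units.mul_inv g, Units.inv_mul g, Units.mul_inv h,
    Units.inv_mul h, e1, e2, hgh.2.2.1⟩

theorem borel_retract_s (ι : Type) [Fintype ι] [DecidableEq ι] :
    ∃ s : C(Borel ι, Qs ι), ∀ p : Tot ι, s (Quotient.mk (orbitSetoid ι) p) =
      Quotient.mk (pgSetoid ι) (borel_retract_pg p) := by
  have hc : Continuous (Quotient.lift
      (fun p : Tot ι => (Quotient.mk (pgSetoid ι) (borel_retract_pg p) : Quotient (pgSetoid ι)))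
      (fun p q h => Quotient.sound (s := pgSetoid ι) (borel_retract_req p q h)) :
      Quotient (orbitSetoid ι) → Quotient (pgSetoid ι)) := by
    refine Continuous.quotient_lift ?_ _
    exact continuous_quotient_mk'.comp borel_retract_pg_cont
  exact ⟨⟨_, hc⟩, fun p => rfl⟩

theorem borel_retract_reg {ι : Type} [Fintype ι] [DecidableEq ι] (p : Pg ι) :
    Regular p.1.1.1 p.1.1.2 := by
  obtain ⟨t, ht, -⟩ := p.2
  exact ⟨1, t, by rw [one_smul]; exact ht⟩

theorem borel_retract_r (ι : Type) [Fintype ι] [DecidableEq ι] (F F' : Pg ι → ℕ → ι → ℂ)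
    (hF : Continuous F) (hF' : Continuous F')
    (h1 : ∀ p, Submodule.span ℂ (Set.range (F p)) = ⊤)
    (h2 : ∀ p, Submodule.span ℂ (Set.range (F' p)) = ⊤)
    (he : ∀ (p q : Pg ι) (g h : GLi ι),
        q.1.1.1 * (h : Matrix ι ι ℂ) = (g : Matrix ι ι ℂ) * p.1.1.1 →
        q.1.1.2 * (h : Matrix ι ι ℂ) = (g : Matrix ι ι ℂ) * p.1.1.2 →
        (∀ i, q.1.2 i = (h : Matrix ι ι ℂ).mulVec (p.1.2 i)) →
        (∀ i, F q i = (h : Matrix ι ι ℂ).mulVec (F p i)) ∧
        (∀ i, F' q i = (g : Matrix ι ι ℂ).mulVec (F' p i))) :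
    ∃ r : C(Qs ι, Borel ι), ∀ p : Pg ι, r (Quotient.mk (pgSetoid ι) p) =
      Quotient.mk (orbitSetoid ι) ((⟨p.1.1, borel_retract_reg p⟩ : Pencil ι),
        ((⟨F p, h1 p⟩ : Frame ι), (⟨F' p, h2 p⟩ : Frame ι))) := by
  have hresp : ∀ p q : Pg ι, (pgSetoid ι) p q → (orbitSetoid ι)
      ((⟨p.1.1, borel_retract_reg p⟩ : Pencil ι),
        ((⟨F p, h1 p⟩ : Frame ι), (⟨F' p, h2 p⟩ : Frame ι)))
      ((⟨q.1.1, borel_retract_reg q⟩ : Pencil ι),
        ((⟨F q, h1 q⟩ : Frame ι), (⟨F' q, h2 q⟩ : Frame ι))) := by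
    rintro p q ⟨g, h, g', h', a1, a2, a3, a4, a5, a6, a7⟩
    let gu : GLi ι := ⟨g, g', a1, a2⟩
    let hu : GLi ι := ⟨h, h', a3, a4⟩
    obtain ⟨k1, k2⟩ := he p q gu hu a5 a6 a7
    refine ⟨gu, hu, ?_, ?_, k1, k2⟩
    · show q.1.1.1 = g * p.1.1.1 * h'
      rw [← a5, Matrix.mul_assoc, a3, Matrix.mul_one]
    · show q.1.1.2 = g * p.1.1.2 * h'
      rw [← a6, Matrix.mul_assoc, a3, Matrix.mul_one]
  have hcont : Continuous (fun p : Pg ι => (((⟨p.1.1, borel_retract_reg p⟩ : Pencil ι),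
        ((⟨F p, h1 p⟩ : Frame ι), (⟨F' p, h2 p⟩ : Frame ι))) : Tot ι)) := by
    have k0 : Continuous (fun p : Pg ι => p.1) := continuous_subtype_val
    have k1 : Continuous (fun p : Pg ι => (⟨p.1.1, borel_retract_reg p⟩ : Pencil ι)) :=
      Continuous.subtype_mk (continuous_fst.comp k0) _
    have k2 : Continuous (fun p : Pg ι => (⟨F p, h1 p⟩ : Frame ι)) :=
      Continuous.subtype_mk hF _
    have k3 : Continuous (fun p : Pg ι => (⟨F' p, h2 p⟩ : Frame ι)) :=
      Continuous.subtype_mk hF' _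
    exact k1.prodMk (k2.prodMk k3)
  have hc : Continuous (Quotient.lift
      (fun p : Pg ι => (Quotient.mk (orbitSetoid ι) ((⟨p.1.1, borel_retract_reg p⟩ : Pencil ι),
        ((⟨F p, h1 p⟩ : Frame ι), (⟨F' p, h2 p⟩ : Frame ι))) : Quotient (orbitSetoid ι)))
      (fun p q h => Quotient.sound (s := orbitSetoid ι) (hresp p q h)) :
      Quotient (pgSetoid ι) → Quotient (orbitSetoid ι)) := by
    refine Continuous.quotient_lift ?_ _
    exact continuous_quotient_mk'.comp hcont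
  exact ⟨⟨_, hc⟩, fun p => rfl⟩

theorem borel_retract (ι : Type) [Fintype ι] [DecidableEq ι] :
    ∃ (s : C(Borel ι, Qs ι)) (r : C(Qs ι, Borel ι)),
      (r.comp s).Homotopic (ContinuousMap.id (Borel ι)) := by
  obtain ⟨F, F', hF, hF', h1, h2, he⟩ := fam_exists ι
  obtain ⟨s, hs⟩ := borel_retract_s ι
  obtain ⟨r, hr⟩ := borel_retract_r ι F F' hF hF' h1 h2 he
  refine ⟨s, r, ?_⟩
  refine borel_all (fun p => F (borel_retract_pg p)) (fun p => F' (borel_retract_pg p))
    (hF.comp borel_retract_pg_cont) (hF'.comp borel_retract_pg_cont)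
    (fun p => h1 _) (fun p => h2 _) ?_ (r.comp s) ?_
  · intro p q g h H
    obtain ⟨e1, e2⟩ := borel_retract_act p q g h H
    exact he (borel_retract_pg p) (borel_retract_pg q) g h e1 e2 H.2.2.1
  · intro p
    rw [ContinuousMap.comp_apply, hs p, hr]
    rfl

end Pool.Agent.Helper438.Sc
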