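import Pool.Agent.Helper438.Sc.Defs
import Pool.Agent.Helper438.Sc.P_span_spread
import Pool.Agent.Helper438.Sc.P_span_add

/-! Singular cohomology, the Borel construction of the stack of torsion sheaves on the projective
line, and all the auxiliary spaces used in the computation. -/

namespace Pool.Agent.Helper438.Sc

universe u v w



theorem j22450_val {ι : Type} [Fintype ι] [DecidableEq ι] :
    Continuous (fun s : Frame ι => s.1) := continuous_subtype_val

theorem j22450_mk {ι : Type} [Fintype ι] [DecidableEq ι] {X : Type} [TopologicalSpace X]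
    (f : X → ℕ → ι → ℂ) (hf : Continuous f)
    (h : ∀ x, Submodule.span ℂ (Set.range (f x)) = ⊤) :
    Continuous (fun x => (⟨f x, h x⟩ : Frame ι)) := hf.subtype_mk h

theorem j22450_line {ι : Type} [Fintype ι] [DecidableEq ι] (F G : C(Frame ι, Frame ι))
    (h : ∀ s : Frame ι, ∀ t : ℝ, 0 ≤ t → t ≤ 1 → Submodule.span ℂ (Set.range (fun i =>
      ((1 - t : ℝ) : ℂ) • (F s).1 i + (t : ℂ) • (G s).1 i)) = ⊤) : F.Homotopic G := by
  refine ⟨⟨⟨fun x => ⟨fun i => ((1 - (x.1 : ℝ) : ℝ) : ℂ) • (F x.2).1 i +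
    ((x.1 : ℝ) : ℂ) • (G x.2).1 i, h x.2 x.1 x.1.2.1 x.1.2.2⟩, ?_⟩, ?_, ?_⟩⟩
  · refine j22450_mk _ ?_ _
    refine continuous_pi fun i => ?_
    have hF : Continuous (fun x : unitInterval × Frame ι => (F x.2).1 i) :=
      (continuous_apply i).comp (j22450_val.comp (F.continuous.comp continuous_snd))
    have hG : Continuous (fun x : unitInterval × Frame ι => (G x.2).1 i) :=
      (continuous_apply i).comp (j22450_val.comp (G.continuous.comp continuous_snd))
    have ht : Continuous (fun x : unitInterval × Frame ι => (x.1 : ℝ)) :=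
      continuous_subtype_val.comp continuous_fst
    exact ((Complex.continuous_ofReal.comp (continuous_const.sub ht)).smul hF).add
      ((Complex.continuous_ofReal.comp ht).smul hG)
  · intro s
    refine Subtype.ext ?_
    funext i
    show ((1 - ((0 : unitInterval) : ℝ) : ℝ) : ℂ) • (F s).1 i +
      (((0 : unitInterval) : ℝ) : ℂ) • (G s).1 i = (F s).1 i
    simp
  · intro s
    refine Subtype.ext ?_
    funext i
    show ((1 - ((1 : unitInterval) : ℝ) : ℝ) : ℂ) • (F s).1 i +
      (((1 : unitInterval) : ℝ) : ℂ) • (G s).1 i = (G s).1 i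
    simp

theorem j22450_frame (ι : Type) [Fintype ι] [DecidableEq ι] : Nonempty (Frame ι) := by
  rcases isEmpty_or_nonempty ι with hι | hι
  · refine ⟨⟨fun _ => 0, ?_⟩⟩
    exact Subsingleton.elim _ _
  · obtain ⟨f, hf⟩ := exists_surjective_nat ι
    refine ⟨⟨fun n => Pi.basisFun ℂ ι (f n), ?_⟩⟩
    have h1 : Set.range (fun n => Pi.basisFun ℂ ι (f n)) = Set.range (Pi.basisFun ℂ ι) :=
      hf.range_comp _
    rw [h1]
    exact (Pi.basisFun ℂ ι).span_eq

theorem frame_contractible (ι : Type) [Fintype ι] [DecidableEq ι] :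
    ContractibleSpace (Frame ι) := by
  obtain ⟨e⟩ := j22450_frame ι
  rw [contractible_iff_id_nullhomotopic]
  have hc : ∀ (o : ℕ) (g : ℕ → ι → ℂ),
      Continuous (fun (s : Frame ι) (i : ℕ) => if i % 2 = o then s.1 (i / 2) else g (i / 2)) := by
    intro o g
    refine continuous_pi fun i => ?_
    by_cases hi : i % 2 = o
    · simp only [if_pos hi]
      exact (continuous_apply _).comp j22450_val
    · simp only [if_neg hi]
      exact continuous_const
  have h1 : ∀ s : Frame ι, Submodule.span ℂ (Set.range (fun i : ℕ =>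
      if i % 2 = 0 then s.1 (i / 2) else (0 : ℕ → ι → ℂ) (i / 2))) = ⊤ := by
    intro s
    have := span_add s.1 e.1 s.2 1 one_ne_zero 0 0 (by norm_num)
    simpa using this
  have h2 : ∀ s : Frame ι, Submodule.span ℂ (Set.range (fun i : ℕ =>
      if i % 2 = 0 then s.1 (i / 2) else e.1 (i / 2))) = ⊤ := by
    intro s
    have := span_add s.1 e.1 s.2 1 one_ne_zero 1 0 (by norm_num)
    simpa using this
  have h3 : Submodule.span ℂ (Set.range (fun i : ℕ =>
      if i % 2 = 1 then e.1 (i / 2) else (0 : ι → ℂ))) = ⊤ := by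
    have := span_add e.1 e.1 e.2 1 one_ne_zero 0 1 (by norm_num)
    simpa using this
  let f1 : C(Frame ι, Frame ι) := ⟨fun s => ⟨_, h1 s⟩, j22450_mk _ (hc 0 0) h1⟩
  let f2 : C(Frame ι, Frame ι) := ⟨fun s => ⟨_, h2 s⟩, j22450_mk _ (hc 0 e.1) h2⟩
  have H1 : (ContinuousMap.id (Frame ι)).Homotopic f1 := by
    refine j22450_line _ _ fun s t ht0 ht1 => ?_
    exact span_spread s.1 0 (by norm_num) s.2 t ht0 ht1
  have H2 : f1.Homotopic f2 := by
    refine j22450_line _ _ fun s t ht0 ht1 => ?_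
    have := span_add s.1 e.1 s.2 1 one_ne_zero (t : ℂ) 0 (by norm_num)
    refine Eq.trans (congrArg (fun f : ℕ → ι → ℂ => Submodule.span ℂ (Set.range f))
      (funext fun i => ?_)) this
    show ((1 - t : ℝ) : ℂ) • (if i % 2 = 0 then s.1 (i / 2) else (0 : ι → ℂ)) +
      (t : ℂ) • (if i % 2 = 0 then s.1 (i / 2) else e.1 (i / 2)) =
      if i % 2 = 0 then (1 : ℂ) • s.1 (i / 2) else (t : ℂ) • e.1 (i / 2)
    by_cases hi : i % 2 = 0
    · rw [if_pos hi, if_pos hi, if_pos hi, ← add_smul]
      congr 1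
      push_cast
      ring
    · rw [if_neg hi, if_neg hi, if_neg hi, smul_zero, zero_add]
  have H3 : f2.Homotopic (ContinuousMap.const (Frame ι) (⟨_, h3⟩ : Frame ι)) := by
    refine j22450_line _ _ fun s t ht0 ht1 => ?_
    have := span_add e.1 s.1 e.2 1 one_ne_zero ((1 - t : ℝ) : ℂ) 1 (by norm_num)
    refine Eq.trans (congrArg (fun f : ℕ → ι → ℂ => Submodule.span ℂ (Set.range f))
      (funext fun i => ?_)) this
    show ((1 - t : ℝ) : ℂ) • (if i % 2 = 0 then s.1 (i / 2) else e.1 (i / 2)) +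
      (t : ℂ) • (if i % 2 = 1 then e.1 (i / 2) else (0 : ι → ℂ)) =
      if i % 2 = 1 then (1 : ℂ) • e.1 (i / 2) else ((1 - t : ℝ) : ℂ) • s.1 (i / 2)
    rcases Nat.mod_two_eq_zero_or_one i with hi | hi
    · have hi' : ¬ i % 2 = 1 := by omega
      rw [if_pos hi, if_neg hi', if_neg hi', smul_zero, add_zero]
    · have hi' : ¬ i % 2 = 0 := by omega
      rw [if_neg hi', if_pos hi, if_pos hi, ← add_smul]
      congr 1
      push_cast
      ring
  exact ⟨_, (H1.trans H2).trans H3⟩

end Pool.Agent.Helper438.Sc
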