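import Pool.Agent.Helper438.Sc.MV

/-! Homotopy invariance, Mayer-Vietoris gluing and increasing unions for the reduced singular
cohomology with coefficients in a commutative ring. -/

namespace Pool.Agent.Helper438.Sc

universe u v w

open Finsupp

variable {k : Type v} [CommRing k]

/-- pull back of cochains -/
def pbk {X : Type u} [TopologicalSpace X] {Y : Type w} [TopologicalSpace Y] (f : C(X, Y)) {n : ℕ}
    (c : Sing Y n → k) : Sing X n → k := fun σ => c (f.comp σ)

theorem altd_pbk {X : Type u} [TopologicalSpace X] {Y : Type w} [TopologicalSpace Y] (f : C(X, Y))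
    {n : ℕ} (c : Sing Y n → k) :
    altd k (sface (X := X)) n (pbk f c) = pbk f (altd k (sface (X := Y)) n c) := rfl

theorem kaltd_altd {X : Type u} [TopologicalSpace X] (n : ℕ) (f : Sing X n → k) :
    altd k (sface (X := X)) (n + 1) (altd k (sface (X := X)) n f) = 0 :=
  altd_altd _ (fun n i j σ h => sface_sface n i j σ h) n f

theorem exists_altd_pbk {X : Type u} [TopologicalSpace X] {Y : Type w} [TopologicalSpace Y]
    (H : C(X × unitInterval, Y)) {n : ℕ} (c : Sing Y (n + 1) → k)
    (hc : altd k (sface (X := Y)) (n + 1) c = 0) :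
    ∃ b : Sing X n → k, pbk (slice H 1) c - pbk (slice H 0) c = altd k (sface (X := X)) n b := by
  refine ⟨fun σ => evc c (PD H n (single σ 1)), ?_⟩
  funext σ
  rw [altd_eq_ev]
  have h1 : Finsupp.linearCombination ℤ (fun σ => evc c (PD H n (single σ 1))) =
      (evc c).comp (PD H n) := by
    apply Finsupp.lhom_ext'
    intro σ
    apply LinearMap.ext_ring
    simp only [LinearMap.comp_apply, lsingle_apply, linearCombination_single, one_smul]
  rw [h1, LinearMap.comp_apply]
  have h2 := sbd_PD H n (single σ 1)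
  have h3 : evc c (sbd Y (n + 1) (PD H (n + 1) (single σ 1))) = 0 := by
    rw [← ev_altd, hc]
    simp
  have h4 := congrArg (evc c) h2
  rw [map_add, map_sub, cpush_single, cpush_single, evc_single, evc_single] at h4
  change evc c (bd (sface (X := Y)) (n + 1) (PD H (n + 1) (single σ 1))) +
    evc c (PD H n (bd (sface (X := X)) n (single σ 1))) = _ at h4
  rw [h3, zero_add] at h4
  rw [h4]
  rfl

theorem pbk_zero {X : Type u} [TopologicalSpace X] {Y : Type w} [TopologicalSpace Y]
    (H : C(X × unitInterval, Y)) (c : Sing Y 0 → k)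
    (hc : altd k (sface (X := Y)) 0 c = 0) :
    pbk (slice H 1) c = pbk (slice H 0) c := by
  funext σ
  have h2 := sbd_PD_zero H (single σ 1)
  have h3 : evc c (sbd Y 0 (PD H 0 (single σ 1))) = 0 := by
    rw [← ev_altd, hc]
    simp
  have h4 := congrArg (evc c) h2
  rw [map_sub, cpush_single, cpush_single, evc_single, evc_single] at h4
  rw [h3] at h4
  exact (sub_eq_zero.mp h4.symm)

theorem RV_retract' {X : Type u} [TopologicalSpace X] {Y : Type w} [TopologicalSpace Y]
    (s : C(X, Y)) (r : C(Y, X)) (H : C(X × unitInterval, X))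
    (h0 : slice H 0 = ContinuousMap.id X) (h1 : slice H 1 = r.comp s) (q : ℕ) (h : RV k Y q) :
    RV k X q := by
  cases q with
  | zero =>
    intro c hc
    have e := pbk_zero H c hc
    obtain ⟨a, ha⟩ := h (pbk r c) (by rw [altd_pbk, hc]; rfl)
    refine ⟨a, fun σ => ?_⟩
    have e1 := congrFun e σ
    rw [h0, h1] at e1
    have e2 : pbk (ContinuousMap.id X) c σ = c σ := by simp [pbk]
    rw [e2] at e1
    rw [← e1, ← ha (s.comp σ)]
    rfl
  | succ n =>
    intro c hc
    obtain ⟨d, hd⟩ := exists_altd_pbk H c hc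
    have e1 : altd k (sface (X := Y)) (n + 1) (pbk r c) = 0 := by
      rw [altd_pbk, hc]
      rfl
    obtain ⟨b', hb'⟩ := h _ e1
    refine ⟨pbk s b' - d, ?_⟩
    rw [map_sub, altd_pbk, ← hb', ← hd, h0, h1]
    funext σ
    simp [pbk, ContinuousMap.comp_assoc]

theorem RV_retract {X : Type u} [TopologicalSpace X] {Y : Type w} [TopologicalSpace Y]
    (k : Type v) [CommRing k] (s : C(X, Y)) (r : C(Y, X))
    (H : (r.comp s).Homotopic (ContinuousMap.id X)) (q : ℕ) (h : RV k Y q) : RV k X q := by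
  obtain ⟨F⟩ := H.symm
  let H' : C(X × unitInterval, X) := ⟨fun p => F (p.2, p.1), by fun_prop⟩
  refine RV_retract' s r H' ?_ ?_ q h
  · ext x
    simp [H', slice]
  · ext x
    simp [H', slice]

theorem RV_homeo {X : Type u} [TopologicalSpace X] {Y : Type w} [TopologicalSpace Y]
    (k : Type v) [CommRing k] (e : X ≃ₜ Y) (q : ℕ) (h : RV k Y q) : RV k X q := by
  refine RV_retract k (e : C(X, Y)) (e.symm : C(Y, X)) ?_ q h
  have : (e.symm : C(Y, X)).comp (e : C(X, Y)) = ContinuousMap.id X := by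
    ext x
    simp
  rw [this]

theorem RV_zero {X : Type u} [TopologicalSpace X] [PathConnectedSpace X]
    (k : Type v) [CommRing k] : RV k X 0 := by
  intro c hc
  obtain ⟨x0⟩ := (inferInstance : Nonempty X)
  let P : X → Sing X 0 := fun x => ContinuousMap.const _ x
  refine ⟨c (P x0), fun σ => ?_⟩
  have hσ : σ = P (σ (vert 0 0)) := by
    ext t
    have : t = vert 0 0 := Subsingleton.elim (α := stdSimplex ℝ (Fin 1)) _ _
    rw [this]
    rfl
  rw [hσ]
  obtain ⟨γ⟩ := PathConnectedSpace.joined (σ (vert 0 0)) x0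
  -- the 1-simplex of the path
  have hcont : Continuous (fun t : stdSimplex ℝ (Fin (1 + 1)) => γ.extend (t.1 1)) :=
    γ.continuous_extend.comp ((continuous_apply 1).comp continuous_subtype_val)
  let τ : Sing X 1 := ⟨fun t => γ.extend (t.1 1), hcont⟩
  have h := congrFun hc τ
  rw [altd_apply, Fin.sum_univ_two] at h
  have f0 : sface 0 0 τ = P x0 := by
    ext t
    have ht : t = vert 0 0 := Subsingleton.elim (α := stdSimplex ℝ (Fin 1)) _ _
    rw [ht, sface_eq, ContinuousMap.comp_apply, aff_vert]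
    change γ.extend ((vert 1 ((0 : Fin 2).succAbove 0)).1 1) = x0
    have : ((vert 1 ((0 : Fin 2).succAbove 0)).1 1) = 1 := vert_self 1 1
    rw [this]
    simp
  have f1 : sface 0 1 τ = P (σ (vert 0 0)) := by
    ext t
    have ht : t = vert 0 0 := Subsingleton.elim (α := stdSimplex ℝ (Fin 1)) _ _
    rw [ht, sface_eq, ContinuousMap.comp_apply, aff_vert]
    change γ.extend ((vert 1 ((1 : Fin 2).succAbove 0)).1 1) = σ (vert 0 0)
    have : ((vert 1 ((1 : Fin 2).succAbove 0)).1 1) = 0 := vert_ne 1 0 1 (by decide)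
    rw [this]
    simp
  rw [f0, f1] at h
  simp only [Fin.val_zero, pow_zero, one_mul, Fin.val_one, pow_one, neg_mul, Pi.zero_apply] at h
  have h' : c (P x0) - c (P (σ (vert 0 0))) = 0 := by rw [sub_eq_add_neg]; exact h
  exact (sub_eq_zero.mp h').symm

theorem sum_altk (m : ℕ) (x : k) :
    ∑ i : Fin m, (-1 : k) ^ (i : ℕ) * x = if Even m then 0 else x := by
  rw [← Finset.sum_mul, Fin.sum_univ_eq_sum_range (fun i => (-1 : k) ^ i) m]
  have : ∀ m : ℕ, ∑ i ∈ Finset.range m, (-1 : k) ^ i = if Even m then 0 else 1 := by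
    intro m
    induction m with
    | zero => simp
    | succ m ih =>
      rw [Finset.sum_range_succ, ih]
      by_cases h : Even m
      · rw [if_pos h, if_neg (by rw [Nat.even_add_one]; exact not_not.mpr h), h.neg_one_pow]
        ring
      · rw [if_neg h, if_pos (by rw [Nat.even_add_one]; exact h),
          (Nat.not_even_iff_odd.mp h).neg_one_pow]
        ring
  rw [this]
  split_ifs <;> simp

/-- a one point space has no reduced cohomology -/
theorem RV_unit (q : ℕ) : RV k PUnit.{u+1} q := by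
  have huniq : ∀ (n : ℕ) (σ τ : Sing PUnit.{u+1} n), σ = τ := by
    intro n σ τ
    ext
  cases q with
  | zero =>
    intro c _
    exact ⟨c (ContinuousMap.const _ PUnit.unit), fun σ => by rw [huniq 0 σ]⟩
  | succ n =>
    intro c hc
    let K : ∀ m, Sing PUnit.{u+1} m := fun m => ContinuousMap.const _ PUnit.unit
    have h1 := congrFun hc (K (n + 2))
    rw [altd_apply] at h1
    have h2 : ∀ i, sface (n + 1) i (K (n + 2)) = K (n + 1) := fun i => huniq _ _ _
    simp only [h2, Pi.zero_apply] at h1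
    rw [sum_altk] at h1
    by_cases hn : Even (n + 3)
    · refine ⟨fun _ => c (K (n + 1)), ?_⟩
      funext σ
      rw [altd_apply, huniq _ σ (K (n + 1)), sum_altk, if_neg]
      intro hh
      rw [Nat.even_iff] at hn hh
      omega
    · rw [if_neg hn] at h1
      refine ⟨0, ?_⟩
      funext σ
      rw [map_zero, huniq _ σ (K (n + 1)), h1]
      rfl

theorem RV_contractible {X : Type u} [TopologicalSpace X] [ContractibleSpace X]
    (k : Type v) [CommRing k] (q : ℕ) : RV k X q := by
  obtain ⟨e⟩ := ContractibleSpace.hequiv_unit X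
  exact RV_retract k e.toFun e.invFun e.left_inv q (RV_unit q)

section Small

variable {X : Type u} [TopologicalSpace X] (𝒞 : Set (Set X))

theorem cobound_of_smallk (hopen : ∀ C ∈ 𝒞, IsOpen C) (hcov : ∀ x : X, ∃ C ∈ 𝒞, x ∈ C) (n : ℕ)
    (f : Sing X (n + 1) → k) (hf : altd k (sface (X := X)) (n + 1) f = 0)
    (h : Sing X n → k)
    (hfh : ∀ σ ∈ smallSet 𝒞 (n + 1), f σ = altd k (sface (X := X)) n h σ) :
    ∃ h' : Sing X n → k, f = altd k (sface (X := X)) n h' := by
  refine ⟨fun σ => evc h (rho 𝒞 n (single σ 1)) + evc f (DD 𝒞 n (single σ 1)), ?_⟩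
  funext σ
  rw [altd_eq_ev]
  have h1 : Finsupp.linearCombination ℤ
      (fun σ => evc h (rho 𝒞 n (single σ 1)) + evc f (DD 𝒞 n (single σ 1))) =
      (evc h).comp (rho 𝒞 n) + (evc f).comp (DD 𝒞 n) := by
    apply Finsupp.lhom_ext'
    intro σ
    apply LinearMap.ext_ring
    simp only [LinearMap.comp_apply, lsingle_apply, linearCombination_single, one_smul,
      LinearMap.add_apply]
  rw [h1, LinearMap.add_apply, LinearMap.comp_apply, LinearMap.comp_apply]
  have h2 : f σ = evc f (rho 𝒞 (n + 1) (single σ 1)) +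
      evc f (sbd X (n + 1) (DD 𝒞 (n + 1) (single σ 1))) +
      evc f (DD 𝒞 n (sbd X n (single σ 1))) := by
    rw [rho_succ, map_sub, map_sub, evc_single]
    ring
  rw [h2]
  have h3 : evc f (sbd X (n + 1) (DD 𝒞 (n + 1) (single σ 1))) = 0 := by
    rw [← ev_altd, hf]
    simp
  have h4 : evc f (rho 𝒞 (n + 1) (single σ 1)) =
      evc h (rho 𝒞 n (sbd X n (single σ 1))) := by
    rw [← sbd_rho, ← ev_altd]
    apply evc_congr (smallSet 𝒞 (n + 1)) _ _ _ _ (rho_small 𝒞 hopen hcov (n + 1) _)
    intro τ hτ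
    exact hfh τ hτ
  rw [h3, h4, add_zero]

open Classical in
/-- extension by zero of a cochain on a subspace -/
noncomputable def ext0k (A : Set X) {q : ℕ} (c : Sing A q → k) : Sing X q → k :=
  fun σ => if h : Set.range σ ⊆ A then c (toSub A σ h) else 0

theorem ext0k_of (A : Set X) {q : ℕ} (c : Sing A q → k) (σ : Sing X q) (h : Set.range σ ⊆ A) :
    ext0k A c σ = c (toSub A σ h) := dif_pos h

theorem altd_ext0k (A : Set X) {q : ℕ} (c : Sing A q → k) (σ : Sing X (q + 1))
    (h : Set.range σ ⊆ A) :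
    altd k (sface (X := X)) q (ext0k A c) σ = altd k (sface (X := A)) q c (toSub A σ h) := by
  rw [altd_apply, altd_apply]
  refine Finset.sum_congr rfl fun i _ => ?_
  rw [ext0k_of A c _ ((range_sface q i σ).trans h)]
  rfl

theorem RV_rel (A : Set X) (n : ℕ) (hA : RV k A (n + 1)) (c : Sing X (n + 1) → k)
    (hc : ∀ σ : Sing X (n + 2), Set.range σ ⊆ A → altd k (sface (X := X)) (n + 1) c σ = 0) :
    ∃ b : Sing X n → k, ∀ σ : Sing X (n + 1), Set.range σ ⊆ A →
      c σ = altd k (sface (X := X)) n b σ := by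
  obtain ⟨b, hb⟩ := hA (pbk (incl A) c) (by
    funext σ
    rw [altd_pbk]
    apply hc
    rintro _ ⟨t, rfl⟩
    exact (σ t).2)
  refine ⟨ext0k A b, fun σ h => ?_⟩
  rw [altd_ext0k A b σ h, ← hb]
  rfl

theorem RV_rel0 (A : Set X) (hA : RV k A 0) (c : Sing X 0 → k)
    (hc : ∀ σ : Sing X 1, Set.range σ ⊆ A → altd k (sface (X := X)) 0 c σ = 0) :
    ∃ a : k, ∀ σ : Sing X 0, Set.range σ ⊆ A → c σ = a := by
  obtain ⟨a, ha⟩ := hA (pbk (incl A) c) (by
    funext σ
    rw [altd_pbk]
    apply hc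
    rintro _ ⟨t, rfl⟩
    exact (σ t).2)
  refine ⟨a, fun σ h => ?_⟩
  rw [← ha (toSub A σ h)]
  rfl

theorem altd_congrk {q : ℕ} {f g : Sing X q → k} {A : Set X}
    (hfg : ∀ σ : Sing X q, Set.range σ ⊆ A → f σ = g σ) (σ : Sing X (q + 1))
    (h : Set.range σ ⊆ A) :
    altd k (sface (X := X)) q f σ = altd k (sface (X := X)) q g σ := by
  rw [altd_apply, altd_apply]
  refine Finset.sum_congr rfl fun i _ => ?_
  rw [hfg _ (range_of_sface h i)]

theorem glue_aux (U V : Set X) (hU : IsOpen U) (hV : IsOpen V) (hUV : ∀ x, x ∈ U ∨ x ∈ V)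
    (n : ℕ) (c : Sing X (n + 1) → k) (hc : altd k (sface (X := X)) (n + 1) c = 0)
    (w : Sing X n → k) (hwU : ∀ σ : Sing X (n + 1), Set.range σ ⊆ U →
      c σ = altd k (sface (X := X)) n w σ)
    (hwV : ∀ σ : Sing X (n + 1), Set.range σ ⊆ V → c σ = altd k (sface (X := X)) n w σ) :
    ∃ b : Sing X n → k, c = altd k (sface (X := X)) n b := by
  apply cobound_of_smallk {U, V} _ _ n c hc w
  · rintro σ ⟨C, hC, hσ⟩
    rcases hC with rfl | hC
    · exact hwU σ hσ
    · rw [Set.mem_singleton_iff] at hC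
      subst hC
      exact hwV σ hσ
  · rintro C (rfl | hC)
    · exact hU
    · rw [Set.mem_singleton_iff] at hC
      rw [hC]
      exact hV
  · intro x
    rcases hUV x with hx | hx
    · exact ⟨U, by simp, hx⟩
    · exact ⟨V, by simp, hx⟩

open Classical in
theorem RV_glue_univ (U V : Set X) (hU : IsOpen U) (hV : IsOpen V) (hUV : ∀ x, x ∈ U ∨ x ∈ V)
    (q : ℕ) (h1 : RV k U (q + 1)) (h2 : RV k V (q + 1))
    (h3 : RV k (U ∩ V : Set X) q) : RV k X (q + 1) := by
  intro c hc
  obtain ⟨u, hu⟩ := RV_rel U q h1 c (fun σ _ => congrFun hc σ)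
  obtain ⟨v, hv⟩ := RV_rel V q h2 c (fun σ _ => congrFun hc σ)
  have huv : ∀ σ : Sing X (q + 1), Set.range σ ⊆ U ∩ V →
      altd k (sface (X := X)) q (u - v) σ = 0 := by
    intro σ hσ
    rw [map_sub, Pi.sub_apply, ← hu σ (hσ.trans Set.inter_subset_left),
      ← hv σ (hσ.trans Set.inter_subset_right), sub_self]
  cases q with
  | zero =>
    obtain ⟨a, ha⟩ := RV_rel0 (U ∩ V) h3 (u - v) huv
    let w : Sing X 0 → k := fun σ => if Set.range σ ⊆ U then u σ - a else v σ
    have wU : ∀ σ : Sing X 0, Set.range σ ⊆ U → w σ = (u - (fun _ => a : Sing X 0 → k)) σ := fun σ hσ => if_pos hσ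
    have wV : ∀ σ : Sing X 0, Set.range σ ⊆ V → w σ = v σ := by
      intro σ hσ
      by_cases hσ' : Set.range σ ⊆ U
      · rw [wU σ hσ', ← ha σ (Set.subset_inter hσ' hσ)]
        simp
      · exact if_neg hσ'
    apply glue_aux U V hU hV hUV 0 c hc w
    · intro σ hσ
      rw [altd_congrk wU σ hσ, map_sub, Pi.sub_apply, ← hu σ hσ]
      have : altd k (sface (X := X)) 0 (fun _ => a) σ = 0 := by
        rw [altd_apply, sum_altk]
        simp
      rw [this, sub_zero]
    · intro σ hσ
      rw [altd_congrk wV σ hσ]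
      exact hv σ hσ
  | succ n =>
    obtain ⟨e, he⟩ := RV_rel (U ∩ V) n h3 (u - v) huv
    let w : Sing X (n + 1) → k := fun σ =>
      if Set.range σ ⊆ U then (u - altd k (sface (X := X)) n e) σ else v σ
    have wU : ∀ σ : Sing X (n + 1), Set.range σ ⊆ U →
        w σ = (u - altd k (sface (X := X)) n e) σ := fun σ hσ => if_pos hσ
    have wV : ∀ σ : Sing X (n + 1), Set.range σ ⊆ V → w σ = v σ := by
      intro σ hσ
      by_cases hσ' : Set.range σ ⊆ U
      · rw [wU σ hσ', Pi.sub_apply, ← he σ (Set.subset_inter hσ' hσ), Pi.sub_apply]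
        ring
      · exact if_neg hσ'
    apply glue_aux U V hU hV hUV (n + 1) c hc w
    · intro σ hσ
      rw [altd_congrk wU σ hσ, map_sub, kaltd_altd, sub_zero]
      exact hu σ hσ
    · intro σ hσ
      rw [altd_congrk wV σ hσ]
      exact hv σ hσ

end Small

theorem RV_glue {X : Type u} [TopologicalSpace X] (k : Type v) [CommRing k] (U V : Set X)
    (hU : IsOpen U) (hV : IsOpen V) (q : ℕ) (h1 : RV k U (q + 1)) (h2 : RV k V (q + 1))
    (h3 : RV k (U ∩ V : Set X) q) : RV k (U ∪ V : Set X) (q + 1) := by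
  apply RV_glue_univ (X := (U ∪ V : Set X)) (Subtype.val ⁻¹' U) (Subtype.val ⁻¹' V)
    (hU.preimage continuous_subtype_val) (hV.preimage continuous_subtype_val)
    (fun x => x.2)
  · apply RV_homeo k (subHomeo (U ∪ V) _ U _) (q + 1) h1
    intro x
    constructor
    · intro h; exact ⟨Or.inl h, h⟩
    · rintro ⟨h1, h2⟩; exact h2
  · apply RV_homeo k (subHomeo (U ∪ V) _ V _) (q + 1) h2
    intro x
    constructor
    · intro h; exact ⟨Or.inr h, h⟩
    · rintro ⟨h1, h2⟩; exact h2
  · apply RV_homeo k (subHomeo (U ∪ V) _ (U ∩ V) _) q h3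
    intro x
    constructor
    · intro h; exact ⟨Or.inl h.1, h⟩
    · rintro ⟨h1, h2⟩; exact h2

theorem RV_succ_iff {X : Type u} [TopologicalSpace X] (k : Type v) [CommRing k] (q : ℕ) :
    RV k X (q + 1) ↔ Subsingleton (SingularCohomology k X (q + 1)) := by
  unfold SingularCohomology
  rw [Submodule.Quotient.subsingleton_iff]
  constructor
  · intro h
    rw [Submodule.submoduleOf, Submodule.comap_subtype_eq_top]
    intro c hc
    obtain ⟨b, hb⟩ := h c hc
    exact ⟨b, hb.symm⟩
  · intro h c hc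
    rw [Submodule.submoduleOf, Submodule.comap_subtype_eq_top] at h
    obtain ⟨b, hb⟩ := h hc
    exact ⟨b, hb.symm⟩

end Pool.Agent.Helper438.Sc
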